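import Pool.Agent.Helper56.OC.Frame3

/-!
# Arrangements of orthogonal circles: the table of the flow (graph form)

For a facet `v` of a cell with facets `V` let `K = lk V v` (the facets orthogonal to `v`).
`G = |K|`, `a = |K| - (number of edges in K)` (number of chains, `0` for a compact facet),
`t` = number of isolated elements of `K`.  `M ⊆ K` is the set of marks (near facets).
-/

set_option autoImplicit false

open Finset

namespace Pool.Agent.Helper56.OC

/-! ## The numerical table -/

/-- the value of an unmarked facet, without the correction for strips and half strips -/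
def tf (G a t : ℚ) : ℚ :=
  if a = 0 then (if G = 0 then -4 else 1) else min (-4 + G + 2 * a - t / 2) (a + 2)

/-- the correction for half strips (one chain of length 3) and strips (two chains of length 1) -/
def tsp (G a : ℚ) : ℚ := if (G = 3 ∧ a = 1) ∨ (G = 2 ∧ a = 2) then 1 else 0

/-- the value of an unmarked facet -/
def tc0 (G a t : ℚ) : ℚ := tf G a t - tsp G a

/-- the value of a facet with one mark, `d` = degree of the mark in the link -/
def tc1 (G a d : ℚ) : ℚ :=
  if a = 0 then 1 else
  if a = 1 then (if G = 1 then -1 / 2 else if G ≤ 3 then 0 else if d = 1 then 2 else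
    if G = 4 then 1 else 3 / 2)
  else if G = 2 then 1 else if G = 3 ∧ a = 2 ∧ d = 0 then 5 / 2 else
    1 + a / 2 + (2 - d) / 2

/-- the value of a facet with two marks -/
def tc2 (G a : ℚ) : ℚ :=
  if a = 0 then 0 else if a = 1 then (if G ≤ 3 then 0 else 1 / 2) else a / 2

namespace PArr

variable {ι : Type} [DecidableEq ι] (A : PArr ι)

/-- number of ordered pairs of orthogonal elements of `K` -/
noncomputable def ee (K : Finset ι) : ℕ := ∑ v ∈ K, (A.lk K v).card

/-- the number of chains -/
noncomputable def ch (K : Finset ι) : ℚ := (K.card : ℚ) - (A.ee K : ℚ) / 2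

open Classical in
/-- the isolated elements of `K` -/
noncomputable def iso (K : Finset ι) : Finset ι := K.filter (fun v => (A.lk K v).card = 0)

/-- the flow: value of a facet with link `K` and marks `M` -/
noncomputable def chi (K M : Finset ι) : ℚ :=
  if M.card = 0 then tc0 K.card (A.ch K) (A.iso K).card
  else if M.card = 1 then tc1 K.card (A.ch K) (∑ m ∈ M, ((A.lk K m).card : ℚ))
  else tc2 K.card (A.ch K)

/-- the value used for near facets in the strengthened inequality -/
noncomputable def chn (K M : Finset ι) : ℚ :=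
  if M.card = 0 then tf K.card (A.ch K) (A.iso K).card else A.chi K M

/-- the (strengthened) local expression -/
noncomputable def Bh (V T : Finset ι) : ℚ :=
  (A.L V : ℚ) + ∑ v ∈ V, (if v ∈ T then - A.chn (A.lk V v) (T ∩ A.lk V v)
    else A.chi (A.lk V v) (T ∩ A.lk V v))

/-- the local expression without near facets -/
noncomputable def Uu (V : Finset ι) : ℚ := (A.L V : ℚ) + ∑ v ∈ V, A.chi (A.lk V v) ∅

/-- The link `K` is a cycle or a linear forest. -/
def LinkOK (K : Finset ι) : Prop :=
  (∀ v ∈ K, (A.lk K v).card ≤ 2) ∧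
  ∀ K' ⊆ K, K'.Nonempty → K' ≠ K → ∃ v ∈ K', (A.lk K' v).card ≤ 1

/-- `K` is a linear forest. -/
def Fst (K : Finset ι) : Prop :=
  (∀ v ∈ K, (A.lk K v).card ≤ 2) ∧ ∀ K' ⊆ K, K'.Nonempty → ∃ v ∈ K', (A.lk K' v).card ≤ 1

/-- no orthogonal pairs between `X` and `Y` -/
def NoE (X Y : Finset ι) : Prop := ∀ x ∈ X, ∀ y ∈ Y, ¬ A.orth x y

/-- `V` has at least three elements and no separating set of size at most one. -/
def Block (V : Finset ι) : Prop :=
  3 ≤ V.card ∧ ∀ V₁ V₂ : Finset ι, V₁ ∪ V₂ = V → (V₁ ∩ V₂).card ≤ 1 → (V₁ \ V₂).Nonempty →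
    (V₂ \ V₁).Nonempty → ¬ A.NoE (V₁ \ V₂) (V₂ \ V₁)

end PArr

end Pool.Agent.Helper56.OC
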