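import Pool.Agent.Helper79.OC.GlueC

/-!
# Arrangements of orthogonal circles: removing two adjacent strips (reduction R2)
-/

set_option autoImplicit false
set_option linter.unusedSectionVars false

open Finset

namespace Pool.Agent.Helper56.OC

namespace PArr

theorem far0s {G a t : ℚ} (h : NF G a t) : tc0 G a t + 1 / 2 ≤ tc0 (G + 1) (a + 1) (t + 1) := by
  obtain ⟨b1, b2, b3, b4, b5⟩ := h.bas
  have s1 := (tsp_nonneg G a).1
  unfold tc0
  have e2 : tf (G + 1) (a + 1) (t + 1) =
      min (-4 + (G + 1) + 2 * (a + 1) - (t + 1) / 2) (a + 1 + 2) := by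
    unfold tf; rw [if_neg (by linarith)]
  rw [e2, tf_eq h]
  have m1 := min_le_left (-4 + G + 2 * a - t / 2) (a + 2)
  have m2 := min_le_right (-4 + G + 2 * a - t / 2) (a + 2)
  by_cases hG : G = 1
  · obtain ⟨k1, k2⟩ := h.gone hG
    have s2 := (tsp_nonneg (G + 1) (a + 1)).2
    have : (1 : ℚ) ≤ min (-4 + (G + 1) + 2 * (a + 1) - (t + 1) / 2) (a + 1 + 2) := by
      rw [hG, k1, k2]; norm_num
    linarith
  · have s2 : tsp (G + 1) (a + 1) = 0 := by
      unfold tsp
      rw [if_neg]
      rintro (⟨-, h1⟩ | ⟨h1, -⟩)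
      · linarith
      · exact hG (by linarith)
    rw [s2]
    have : min (-4 + G + 2 * a - t / 2) (a + 2) + 1 / 2 ≤
        min (-4 + (G + 1) + 2 * (a + 1) - (t + 1) / 2) (a + 1 + 2) := by
      apply le_min <;> linarith
    linarith

theorem far1s {G a t d : ℚ} (h : NF G a t) (hd : d = 0 ∨ d = 1 ∨ d = 2) :
    tc1 G a d + 1 / 2 ≤ tc1 (G + 1) (a + 1) d := by
  obtain ⟨b1, b2, b3, b4, b5⟩ := h.bas
  have hd2 : d ≤ 2 := by rcases hd with h | h | h <;> linarith
  have hd00 : 0 ≤ d := by rcases hd with h | h | h <;> linarith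
  unfold tc1
  rw [if_neg (by linarith : ¬ a = 0), if_neg (by linarith : ¬ a + 1 = 0),
    if_neg (by linarith : ¬ a + 1 = 1)]
  by_cases hs : G + 1 = 2
  · have g1 : G = 1 := by linarith
    obtain ⟨k1, k2⟩ := h.gone g1
    rw [if_pos k1, if_pos g1, if_pos hs]
    norm_num
  rw [if_neg hs]
  by_cases hc : G + 1 = 3 ∧ a + 1 = 2 ∧ d = 0
  · rw [if_pos hc, if_pos (by linarith [hc.2.1] : a = 1), if_neg (by linarith [hc.1]),
      if_pos (by linarith [hc.1])]
    norm_num
  rw [if_neg hc]
  split_ifs with k1 k2 k3 k4 k5 k6 k7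
  all_goals first
    | linarith
    | (rcases hd with h9 | h9 | h9 <;> first | exact absurd h9 k4 | linarith)
    | (obtain ⟨j1, j2, j3⟩ := k7; linarith)

theorem far2s {G a t : ℚ} (h : NF G a t) : tc2 G a + 1 / 2 ≤ tc2 (G + 1) (a + 1) := by
  obtain ⟨b1, b2, b3, b4, b5⟩ := h.bas
  unfold tc2
  rw [if_neg (by linarith : ¬ a = 0), if_neg (by linarith : ¬ a + 1 = 0),
    if_neg (by linarith : ¬ a + 1 = 1)]
  split_ifs <;> linarith

variable {ι : Type} [DecidableEq ι] (A : PArr ι)

theorem fst_single (z : ι) : A.Fst {z} := by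
  have h0 : ∀ K' ⊆ ({z} : Finset ι), ∀ v ∈ K', A.lk K' v = ∅ := by
    intro K' hK v hv
    refine (A.indep_facts (K := K') ?_).2.2.2 v hv
    intro x hx y hy
    exact A.indep_single z x (hK hx) y (hK hy)
  refine ⟨fun v hv => by rw [h0 _ (Subset.refl _) v hv]; simp, fun K' hK hne => ?_⟩
  obtain ⟨v, hv⟩ := hne
  exact ⟨v, hv, by rw [h0 K' hK v hv]; simp⟩

/-- adding an isolated unmarked element to the link of a near facet -/
theorem add_near {K M : Finset ι} {s : ι} (hs : s ∉ K) (hN : ∀ y ∈ K, ¬ A.orth y s)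
    (hL : A.LinkOK (K ∪ {s})) (hM : M ⊆ K) : A.chn (K ∪ {s}) M ≤ A.chn K M + 5 / 2 := by
  by_cases hn : K.Nonempty
  · have hd : Disjoint K {s} := disjoint_singleton_right.2 hs
    have hN' : A.NoE K {s} := by
      intro y hy z hz
      rw [mem_singleton] at hz
      rw [hz]
      exact hN y hy
    obtain ⟨F1, F2, -⟩ := LinkOK.fst_union A hL hd hN' hn (singleton_nonempty s)
    have := A.gl_near hd hN' F1 hn F2 (singleton_nonempty s) hM
    rw [(A.fl_single s).1] at this
    linarith
  · rw [not_nonempty_iff_eq_empty] at hn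
    subst hn
    rw [subset_empty] at hM
    subst hM
    rw [empty_union, chn_zero, chn_zero, (A.fl_single s).1, A.fl_empty.1]
    norm_num

/-- adding an isolated unmarked element to the link of a far facet -/
theorem add_far {K M : Finset ι} {s : ι} (hs : s ∉ K) (hN : ∀ y ∈ K, ¬ A.orth y s)
    (hL : A.LinkOK (K ∪ {s})) (hM : M ⊆ K) : A.chi K M + 1 / 2 ≤ A.chi (K ∪ {s}) M := by
  by_cases hn : K.Nonempty
  · have hd : Disjoint K {s} := disjoint_singleton_right.2 hs
    have hN' : A.NoE K {s} := by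
      intro y hy z hz
      rw [mem_singleton] at hz
      rw [hz]
      exact hN y hy
    obtain ⟨h1, -, -⟩ := LinkOK.fst_union A hL hd hN' hn (singleton_nonempty s)
    have f1 := Fst.nf A h1 hn
    obtain ⟨-, c2, c3, -⟩ := A.indep_facts (A.indep_single s)
    have hc : ((K ∪ {s}).card : ℚ) = K.card + 1 := by
      rw [card_union_of_disjoint hd, card_singleton]; push_cast; ring
    have hi : ((A.iso (K ∪ {s})).card : ℚ) = (A.iso K).card + 1 := by
      rw [A.iso_union hd hN', c3, card_singleton]; push_cast; ring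
    have hch : A.ch (K ∪ {s}) = A.ch K + 1 := by
      rw [A.ch_union hd hN', c2, card_singleton]; norm_num
    rcases Nat.lt_or_ge M.card 2 with hm | hm
    · rcases Nat.lt_or_ge M.card 1 with hm' | hm'
      · have : M = ∅ := card_eq_zero.1 (by omega)
        subst this
        rw [chi_zero, chi_zero, hc, hi, hch]
        exact far0s f1
      · obtain ⟨m, rfl⟩ := card_eq_one.1 (by omega : M.card = 1)
        have hmK : m ∈ K := hM (mem_singleton_self m)
        rw [chi_one, chi_one, A.lk_dl hd hN' hmK, hc, hch]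
        exact far1s f1 (A.deg_cases h1.1 hmK)
    · rw [A.chi_two hm, A.chi_two hm, hc, hch]
      exact far2s f1
  · rw [not_nonempty_iff_eq_empty] at hn
    subst hn
    rw [subset_empty] at hM
    subst hM
    rw [empty_union, (A.fl_single s).2.1, A.fl_empty.2]
    norm_num

/-- the weight of a set with a vertex whose link is independent -/
theorem L_insert_indep {V : Finset ι} {x : ι} (hx : x ∉ V)
    (h : ∀ y ∈ A.lk V x, ∀ z ∈ A.lk V x, ¬ A.orth y z) :
    A.L (insert x V) = A.L V + 8 - 5 * (A.lk V x).card := by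
  classical
  rw [A.L_insert hx]
  set K := A.lk V x with hK
  have e : A.clqs K = insert ∅ (K.image (fun y => {y})) := by
    ext S
    rw [mem_clqs, mem_insert, mem_image]
    constructor
    · rintro ⟨h1, h2⟩
      rcases S.eq_empty_or_nonempty with h3 | ⟨y, hy⟩
      · exact Or.inl h3
      · right
        refine ⟨y, h1 hy, ?_⟩
        apply subset_antisymm (singleton_subset_iff.2 hy)
        intro z hz
        rw [mem_singleton]
        by_contra hzy
        exact h z (h1 hz) y (h1 hy) (h2 z hz y hy hzy)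
    · rintro (rfl | ⟨y, hy, rfl⟩)
      · exact ⟨empty_subset _, fun i hi => absurd hi (notMem_empty i)⟩
      · refine ⟨singleton_subset_iff.2 hy, ?_⟩
        intro i hi j hj hij
        rw [mem_singleton] at hi hj
        exact absurd (hi.trans hj.symm) hij
  rw [e, sum_insert, sum_image]
  · have : ∑ y ∈ K, gg (({y} : Finset ι).card + 1) = -5 * K.card := by
      simp only [card_singleton]
      rw [sum_const]
      simp [gg]
      ring
    rw [this]
    simp [gg]
    ring
  · intro y _ z _ hyz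
    exact singleton_injective hyz
  · rw [mem_image]
    rintro ⟨y, -, hy⟩
    exact singleton_ne_empty y hy

/-- no induced `4`-cycle -/
def NoC4 (V : Finset ι) : Prop := ∀ a ∈ V, ∀ b ∈ V, ∀ c ∈ V, ∀ d ∈ V, A.orth a b → A.orth b c →
  A.orth c d → A.orth d a → a ≠ c → b ≠ d → A.orth a c ∨ A.orth b d

/-- two adjacent far strips, one of them adjacent to a near facet -/
def R2c (V T : Finset ι) : Prop := ∃ x ∈ T, ∃ s ∈ V, ∃ t ∈ V, s ∉ T ∧ t ∉ T ∧ A.orth x s ∧
  A.orth s t ∧ x ≠ t ∧ (A.lk V s).card = 2 ∧ A.ch (A.lk V s) = 2 ∧ (A.lk V t).card = 2 ∧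
  A.ch (A.lk V t) = 2

/-- a link with two elements and two chains -/
theorem strip_lk {V : Finset ι} {s x t : ι} (hx : x ∈ A.lk V s) (ht : t ∈ A.lk V s) (hxt : x ≠ t)
    (hc : (A.lk V s).card = 2) (hch : A.ch (A.lk V s) = 2) :
    A.lk V s = {x, t} ∧ ¬ A.orth x t := by
  have h1 : ({x, t} : Finset ι) = A.lk V s := by
    apply eq_of_subset_of_card_le
    · intro z hz
      rw [mem_insert, mem_singleton] at hz
      rcases hz with rfl | rfl <;> assumption
    · rw [hc, card_pair hxt]
  refine ⟨h1.symm, fun hor => ?_⟩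
  have h2 : A.ee (A.lk V s) = 0 := by
    unfold ch at hch
    rw [hc] at hch
    have : (A.ee (A.lk V s) : ℚ) = 0 := by push_cast at hch; linarith
    exact_mod_cast this
  unfold ee at h2
  rw [sum_eq_zero_iff] at h2
  have h3 := h2 x hx
  rw [card_eq_zero] at h3
  have h4 : t ∈ A.lk (A.lk V s) x := (A.mlk).2 ⟨ht, hor⟩
  rw [h3] at h4
  exact notMem_empty t h4

/-- **Reduction R2.** -/
theorem R2 {V T : Finset ι} (hL : ∀ v ∈ V, A.LinkOK (A.lk V v)) (hC : A.NoC4 V) (hT : T ⊆ V)
    (hc : A.IsClq T) (h : A.R2c V T) : ∃ V' ⊂ V, T ⊆ V' ∧ A.Bh V' T ≤ A.Bh V T := by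
  obtain ⟨x, hxT, s, hsV, t, htV, hsT, htT, hxs, hst, hxt, cs, chs, ct, cht⟩ := h
  have hxV := hT hxT
  have hst' : s ≠ t := fun e => A.irrefl s (by rw [← e] at hst; exact hst)
  have hsx : s ≠ x := fun e => hsT (e ▸ hxT)
  obtain ⟨l1, nxt⟩ := A.strip_lk (V := V) (s := s) (x := x) (t := t) ((A.mlk).2 ⟨hxV, A.symm hxs⟩)
    ((A.mlk).2 ⟨htV, hst⟩) hxt cs chs
  -- the other neighbour of `t`
  have hsl : s ∈ A.lk V t := (A.mlk).2 ⟨hsV, A.symm hst⟩
  obtain ⟨v, hv, hvs⟩ : ∃ v ∈ A.lk V t, v ≠ s := by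
    by_contra hcon
    push Not at hcon
    have : A.lk V t ⊆ {s} := fun z hz => mem_singleton.2 (hcon z hz)
    have := card_le_card this
    rw [ct, card_singleton] at this
    omega
  obtain ⟨l2, nsv⟩ := A.strip_lk hsl hv (Ne.symm hvs) ct cht
  have hvV := A.lk_sub V t hv
  have htv : A.orth t v := ((A.mlk).1 hv).2
  have hvx : v ≠ x := by
    rintro rfl
    exact nxt (A.symm htv)
  have hvt : v ≠ t := fun e => A.irrefl t (by rw [e] at htv; exact htv)
  have hvT : v ∉ T := by
    intro hvT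
    have hxv := hc v hvT x hxT hvx
    rcases hC x hxV s hsV t htV v hvV hxs hst htv hxv hxt (Ne.symm hvs) with h | h
    · exact nxt h
    · exact nsv h
  set V' := (V.erase s).erase t with hV'
  have mem' : ∀ w, w ∈ V' ↔ w ∈ V ∧ w ≠ s ∧ w ≠ t := by
    intro w
    rw [hV', mem_erase, mem_erase]
    tauto
  have hxV' : x ∈ V' := (mem' x).2 ⟨hxV, Ne.symm hsx, hxt⟩
  have hvV' : v ∈ V' := (mem' v).2 ⟨hvV, hvs, hvt⟩
  have hTV' : T ⊆ V' := fun w hw => (mem' w).2 ⟨hT hw, fun e => hsT (e ▸ hw), fun e => htT (e ▸ hw)⟩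
  have hss : V' ⊂ V := by
    refine ⟨fun w hw => ((mem' w).1 hw).1, fun h => ?_⟩
    exact ((mem' s).1 (h hsV)).2.1 rfl
  refine ⟨V', hss, hTV', ?_⟩
  -- the neighbours of `s` and `t`
  have ns : ∀ w ∈ V, A.orth w s → w = x ∨ w = t := by
    intro w hw hor
    have : w ∈ A.lk V s := (A.mlk).2 ⟨hw, A.symm hor⟩
    rw [l1, mem_insert, mem_singleton] at this
    exact this
  have nt : ∀ w ∈ V, A.orth w t → w = s ∨ w = v := by
    intro w hw hor
    have : w ∈ A.lk V t := (A.mlk).2 ⟨hw, A.symm hor⟩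
    rw [l2, mem_insert, mem_singleton] at this
    exact this
  -- links in `V'`
  have lw : ∀ w ∈ V', w ≠ x → w ≠ v → A.lk V w = A.lk V' w := by
    intro w hw hwx hwv
    have hw' := (mem' w).1 hw
    ext z
    rw [mlk, mlk, mem']
    constructor
    · rintro ⟨hz, hor⟩
      refine ⟨⟨hz, ?_, ?_⟩, hor⟩
      · rintro rfl
        rcases ns w hw'.1 hor with e | e
        · exact hwx e
        · exact hw'.2.2 e
      · rintro rfl
        rcases nt w hw'.1 hor with e | e
        · exact hw'.2.1 e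
        · exact hwv e
    · rintro ⟨⟨hz, -, -⟩, hor⟩
      exact ⟨hz, hor⟩
  have lx : A.lk V x = A.lk V' x ∪ {s} := by
    ext z
    rw [mlk, mem_union, mlk, mem', mem_singleton]
    constructor
    · rintro ⟨hz, hor⟩
      by_cases hzs : z = s
      · exact Or.inr hzs
      · refine Or.inl ⟨⟨hz, hzs, ?_⟩, hor⟩
        rintro rfl
        exact nxt hor
    · rintro (⟨⟨hz, -, -⟩, hor⟩ | rfl)
      · exact ⟨hz, hor⟩
      · exact ⟨hsV, hxs⟩
  have lv : A.lk V v = A.lk V' v ∪ {t} := by
    ext z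
    rw [mlk, mem_union, mlk, mem', mem_singleton]
    constructor
    · rintro ⟨hz, hor⟩
      by_cases hzt : z = t
      · exact Or.inr hzt
      · refine Or.inl ⟨⟨hz, ?_, hzt⟩, hor⟩
        rintro rfl
        exact nsv (A.symm hor)
    · rintro (⟨⟨hz, -, -⟩, hor⟩ | rfl)
      · exact ⟨hz, hor⟩
      · exact ⟨htV, A.symm htv⟩
  -- the weight
  have hLV : A.L V = A.L V' + 1 := by
    have e1 : insert s (V.erase s) = V := insert_erase hsV
    have e2 : insert t V' = V.erase s := insert_erase (mem_erase.2 ⟨Ne.symm hst', htV⟩)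
    have m1 : A.lk (V.erase s) s = {x, t} := by
      rw [← l1]
      conv_rhs => rw [← e1, A.lk_insert_self]
    have m2 : A.lk V' t = {v} := by
      ext z
      rw [mlk, mem', mem_singleton]
      constructor
      · rintro ⟨⟨hz, hzs, -⟩, hor⟩
        exact (nt z hz (A.symm hor)).resolve_left hzs
      · rintro rfl
        exact ⟨⟨hvV, hvs, hvt⟩, htv⟩
    have f1 := A.L_insert_indep (V := V.erase s) (x := s) (notMem_erase s V) (by
      rw [m1]
      intro y hy z hz hor
      rw [mem_insert, mem_singleton] at hy hz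
      rcases hy with rfl | rfl <;> rcases hz with rfl | rfl
      · exact A.irrefl _ hor
      · exact nxt hor
      · exact nxt (A.symm hor)
      · exact A.irrefl _ hor)
    have f2 := A.L_insert_indep (V := V') (x := t) (fun h => ((mem' t).1 h).2.2 rfl) (by
      rw [m2]
      exact A.indep_single v)
    rw [e1, m1, card_pair hxt] at f1
    rw [e2, m2, card_singleton] at f2
    rw [f1, f2]
    push_cast
    ring
  -- the terms of `s`, `t`
  obtain ⟨-, ca, cb, cc⟩ := A.indep_facts (K := {s, v}) (by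
    intro y hy z hz hor
    rw [mem_insert, mem_singleton] at hy hz
    rcases hy with rfl | rfl <;> rcases hz with rfl | rfl
    · exact A.irrefl _ hor
    · exact nsv hor
    · exact nsv (A.symm hor)
    · exact A.irrefl _ hor)
  have ts : A.tm V T s = 1 := by
    unfold tm
    rw [if_neg hsT]
    have : T ∩ A.lk V s = {x} := by
      rw [l1]
      ext z
      rw [mem_inter, mem_insert, mem_singleton, mem_singleton]
      constructor
      · rintro ⟨hz, rfl | rfl⟩
        · rfl
        · exact absurd hz htT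
      · rintro rfl
        exact ⟨hxT, Or.inl rfl⟩
    rw [this, chi_one, cs, chs]
    unfold tc1
    norm_num
  have tt : A.tm V T t = 0 := by
    unfold tm
    rw [if_neg htT]
    have : T ∩ A.lk V t = ∅ := by
      rw [l2, eq_empty_iff_forall_notMem]
      intro z hz
      rw [mem_inter, mem_insert, mem_singleton] at hz
      rcases hz with ⟨hz, rfl | rfl⟩
      · exact hsT hz
      · exact hvT hz
    rw [this, chi_zero, ct, cht, l2, cb, card_pair (Ne.symm hvs)]
    unfold tc0 tf tsp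
    norm_num
  -- the terms of `x`, `v`
  have tx : A.tm V' T x - 5 / 2 ≤ A.tm V T x := by
    unfold tm
    rw [if_pos hxT, if_pos hxT]
    have e : T ∩ A.lk V x = T ∩ A.lk V' x := by
      rw [lx, inter_union_distrib_left, inter_singleton_of_notMem hsT, union_empty]
    have hs' : s ∉ A.lk V' x := fun h => ((mem' s).1 (A.lk_sub V' x h)).2.1 rfl
    have hN : ∀ y ∈ A.lk V' x, ¬ A.orth y s := by
      intro y hy hor
      have hy' := (mem' y).1 (A.lk_sub V' x hy)
      rcases ns y hy'.1 hor with e | e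
      · rw [e] at hy; exact A.notMem_lk V' x hy
      · exact hy'.2.2 e
    have hLx := hL x hxV
    rw [lx] at hLx
    have := A.add_near hs' hN hLx (M := T ∩ A.lk V' x) inter_subset_right
    rw [e, lx]
    linarith
  have tv : A.tm V' T v + 1 / 2 ≤ A.tm V T v := by
    unfold tm
    rw [if_neg hvT, if_neg hvT]
    have e : T ∩ A.lk V v = T ∩ A.lk V' v := by
      rw [lv, inter_union_distrib_left, inter_singleton_of_notMem htT, union_empty]
    have ht' : t ∉ A.lk V' v := fun h => ((mem' t).1 (A.lk_sub V' v h)).2.2 rfl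
    have hN : ∀ y ∈ A.lk V' v, ¬ A.orth y t := by
      intro y hy hor
      have hy' := (mem' y).1 (A.lk_sub V' v hy)
      rcases nt y hy'.1 hor with e | e
      · exact hy'.2.1 e
      · rw [e] at hy; exact A.notMem_lk V' v hy
    have hLv := hL v hvV
    rw [lv] at hLv
    rw [e, lv]
    exact A.add_far ht' hN hLv inter_subset_right
  -- conclusion
  have s1 : ∑ w ∈ V, A.tm V T w = A.tm V T s + (A.tm V T t + ∑ w ∈ V', A.tm V T w) := by
    rw [← add_sum_erase V _ hsV, ← add_sum_erase (V.erase s) _ (mem_erase.2 ⟨Ne.symm hst', htV⟩)]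
  have hv2 : v ∈ V'.erase x := mem_erase.2 ⟨hvx, hvV'⟩
  have s2 : ∑ w ∈ V', A.tm V T w = A.tm V T x + (A.tm V T v +
      ∑ w ∈ (V'.erase x).erase v, A.tm V T w) := by
    rw [← add_sum_erase V' _ hxV', ← add_sum_erase (V'.erase x) _ hv2]
  have s3 : ∑ w ∈ V', A.tm V' T w = A.tm V' T x + (A.tm V' T v +
      ∑ w ∈ (V'.erase x).erase v, A.tm V' T w) := by
    rw [← add_sum_erase V' _ hxV', ← add_sum_erase (V'.erase x) _ hv2]
  have s4 : ∑ w ∈ (V'.erase x).erase v, A.tm V T w =
      ∑ w ∈ (V'.erase x).erase v, A.tm V' T w := by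
    refine sum_congr rfl fun w hw => ?_
    rw [mem_erase, mem_erase] at hw
    unfold tm
    rw [lw w hw.2.2 hw.2.1 hw.1]
  have hLQ : (A.L V : ℚ) = A.L V' + 1 := by rw [hLV]; push_cast; ring
  rw [Bh_eq, Bh_eq, hLQ, s1, s2, s3, s4, ts, tt]
  linarith

/-- **Reduction to blocks without two adjacent far strips next to a near facet.** -/
theorem glueR (P : Finset ι → Prop) (hP : ∀ V V', P V → V' ⊆ V → P V')
    (hL : ∀ V, P V → ∀ v ∈ V, A.LinkOK (A.lk V v)) (hC : ∀ V, P V → A.NoC4 V)
    (hB : ∀ V, P V → A.Block V → ∀ T ⊆ V, T.Nonempty → A.IsClq T → ¬ A.R2c V T → 0 ≤ A.Bh V T) :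
    ∀ V, P V → ∀ T ⊆ V, T.Nonempty → A.IsClq T → 0 ≤ A.Bh V T := by
  refine A.glue P hP hL ?_
  intro V hPV hbl ih T hT hne hc
  by_cases h : A.R2c V T
  · obtain ⟨V', hV', hTV', hle⟩ := A.R2 (hL V hPV) (hC V hPV) hT hc h
    exact le_trans (ih V' hV' T hTV' hne hc) hle
  · exact hB V hPV hbl T hT hne hc h

end PArr

end Pool.Agent.Helper56.OC
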