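import Pool.Agent.Helper79.OC.Lnk
import Pool.Agent.Helper56.OC.Lf

/-!
# Arrangements of orthogonal circles: closed blocks
-/

set_option autoImplicit false
set_option linter.unusedSectionVars false

open Finset

namespace Pool.Agent.Helper79.OC

open Pool.Agent.Helper15.OC

variable {ι : Type} [Fintype ι] [DecidableEq ι] (A : Pool.Agent.Helper56.OC.Fam ι)

/-- neighbours in the subtype -/
theorem card_nbr (V : Finset ι) (a : {i // i ∈ V}) :
    (open Classical in (univ.filter (fun b : {i // i ∈ V} => A.toPArr.orth a.1 b.1)).card) =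
      (A.toPArr.lk V a.1).card := by
  classical
  rw [← card_map (Function.Embedding.subtype (fun i => i ∈ V))]
  congr 1
  ext w
  rw [mem_map, A.toPArr.mlk]
  constructor
  · rintro ⟨b, hb, rfl⟩
    rw [mem_filter] at hb
    exact ⟨b.2, hb.2⟩
  · rintro ⟨hw, hor⟩
    exact ⟨⟨w, hw⟩, mem_filter.2 ⟨mem_univ _, hor⟩, rfl⟩

/-- number of darts in the subtype -/
theorem card_darts (V : Finset ι) :
    (open Classical in (univ.filter
      (fun e : {i // i ∈ V} × {i // i ∈ V} => A.toPArr.orth e.1.1 e.2.1)).card) =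
      A.toPArr.ee V := by
  classical
  rw [card_filter, Fintype.sum_prod_type]
  unfold Pool.Agent.Helper56.OC.PArr.ee
  rw [← sum_coe_sort V (fun v => (A.toPArr.lk V v).card)]
  refine sum_congr rfl fun a _ => ?_
  rw [← card_nbr A V a, card_filter]

/-- **Closed blocks.** -/
theorem closed_case (s V : Finset ι) (hV : V ⊆ A.toPArr.fac s) (hbl : A.toPArr.Block V)
    (hcl : ∀ x y : {i // i ∈ V}, A.toPArr.orth x.1 y.1 → ∃ u u' : {i // i ∈ V}, u ≠ u' ∧
      ∀ t : {i // i ∈ V}, (A.toPArr.orth t.1 x.1 ∧ A.toPArr.orth t.1 y.1) ↔ (t = u ∨ t = u'))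
    {T : Finset ι} (hT : T ⊆ V) (hne : T.Nonempty) (hc : A.toPArr.IsClq T) :
    0 ≤ A.toPArr.Bh V T := by
  classical
  set F := subFam A s V hV with hF
  have hadj : ∀ a b : {i // i ∈ V}, F.adj a b ↔ A.toPArr.orth a.1 b.1 := subFam_adj A s V hV
  have hdeg : ∀ v ∈ V, 2 ≤ (A.toPArr.lk V v).card := fun v hv => A.toPArr.block_deg hbl hv
  have hnb : ∀ v ∈ V, (A.toPArr.lk V v).Nonempty := fun v hv =>
    card_pos.1 (lt_of_lt_of_le Nat.zero_lt_two (hdeg v hv))
  have hVne : V.Nonempty := hne.mono hT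
  obtain ⟨v0, hv0⟩ := hVne
  obtain ⟨w0, hw0⟩ := hnb v0 hv0
  have hcount := closed_count (κ := {i // i ∈ V}) (fun a b => A.toPArr.orth a.1 b.1)
    (fun x y h => A.toPArr.symm h) (fun x => A.toPArr.irrefl x.1)
    (fun x y z u h1 h2 h3 h4 h5 h6 => F.noK4' h1 h2 h3 h4 h5 h6)
    (fun x y z u h1 h2 h3 h4 h5 h6 => by
      by_contra hcon
      push Not at hcon
      exact F.noC4 h1 h2 h3 h4 h5 h6 hcon.1 hcon.2)
    hcl (fun x y z h1 h2 h3 => F.pmap_of_vertex h1 h2 h3)
    ⟨⟨v0, hv0⟩, ⟨w0, ((A.toPArr.mlk).1 hw0).1⟩, ((A.toPArr.mlk).1 hw0).2⟩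
  have e1 : (univ.filter (fun x : {i // i ∈ V} => ∃ y : {i // i ∈ V}, A.toPArr.orth x.1 y.1)).card
      = V.card := by
    have : univ.filter (fun x : {i // i ∈ V} => ∃ y : {i // i ∈ V}, A.toPArr.orth x.1 y.1) =
        univ := by
      ext x
      rw [mem_filter]
      refine ⟨fun h => h.1, fun h => ⟨h, ?_⟩⟩
      obtain ⟨w, hw⟩ := hnb x.1 x.2
      rw [A.toPArr.mlk] at hw
      exact ⟨⟨w, hw.1⟩, hw.2⟩
    rw [this, card_univ, Fintype.card_coe]
  have e2 := card_darts A V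
  rw [e1] at hcount
  have hE : A.toPArr.ee V + 12 ≤ 6 * V.card := by
    rw [← e2]
    exact hcount
  refine A.toPArr.closed_Bh hT hne hc (fun K _ hK => noK4 A K hK) hnb ?_ hE
  intro v hv w hw
  have hw' := (A.toPArr.mlk).1 hw
  obtain ⟨u, u', huu, ht⟩ := hcl ⟨v, hv⟩ ⟨w, hw'.1⟩ hw'.2
  have : A.toPArr.lk (A.toPArr.lk V v) w = {u.1, u'.1} := by
    ext t
    rw [A.toPArr.mlk, A.toPArr.mlk, mem_insert, mem_singleton]
    constructor
    · rintro ⟨⟨h1, h2⟩, h3⟩
      rcases (ht ⟨t, h1⟩).1 ⟨A.toPArr.symm h2, A.toPArr.symm h3⟩ with h | h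
      · exact Or.inl (congrArg Subtype.val h)
      · exact Or.inr (congrArg Subtype.val h)
    · rintro (h | h)
      · have := (ht u).2 (Or.inl rfl)
        rw [h]
        exact ⟨⟨u.2, A.toPArr.symm this.1⟩, A.toPArr.symm this.2⟩
      · have := (ht u').2 (Or.inr rfl)
        rw [h]
        exact ⟨⟨u'.2, A.toPArr.symm this.1⟩, A.toPArr.symm this.2⟩
  rw [this, card_pair (fun e => huu (Subtype.ext e))]

/-- A block has a plane map, or the inequality holds. -/
theorem block_split (s V : Finset ι) (hV : V ⊆ A.toPArr.fac s) (hbl : A.toPArr.Block V) :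
    (∃ M : PMap {i // i ∈ V}, M.adj = fun a b => A.toPArr.orth a.1 b.1) ∨
    ∀ T ⊆ V, T.Nonempty → A.toPArr.IsClq T → 0 ≤ A.toPArr.Bh V T := by
  rcases (subFam A s V hV).free_or_closed with ⟨a, b, w, hab, ha, hb, hfree⟩ | hcl
  · left
    obtain ⟨M, hM⟩ := (subFam A s V hV).pmap_of_free hab ha hb hfree
    exact ⟨M, hM⟩
  · right
    intro T hT hne hc
    exact closed_case A s V hV hbl hcl hT hne hc

end Pool.Agent.Helper79.OC
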