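import Pool.Agent.Helper79.OC.LowC

/-!
# Arrangements of orthogonal circles: half annuli are quadrangular faces
-/

set_option autoImplicit false
set_option linter.unusedSectionVars false

open Set

namespace Pool.Agent.Helper79.OC

open Pool.Agent.Helper56.OC

/-- the parametrization of a half annulus -/
noncomputable def hPsi (s : ℝ) (q : ℝ × ℝ) : ℂ :=
  fZ (s * Real.sqrt ((1 - q.1 ^ 2) * q.2)) (q.1 * Real.sqrt q.2)

/-- an open half annulus -/
def Hal (a b s : ℝ) : Set ℂ :=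
  {z | a * fM z < fN z ∧ fN z < b * fM z ∧ 0 < s * fP z}

/-- a closed half annulus -/
def HalC (a b s : ℝ) : Set ℂ :=
  {z | a * fM z ≤ fN z ∧ fN z ≤ b * fM z ∧ 0 ≤ s * fP z}

theorem isOpen_Hal (a b s : ℝ) : IsOpen (Hal a b s) := by
  have h1 := continuous_fM
  have h2 := continuous_fN
  have h3 := continuous_fP
  have e : Hal a b s = {z | a * fM z < fN z} ∩ ({z | fN z < b * fM z} ∩ {z | 0 < s * fP z}) := rfl
  rw [e]
  refine IsOpen.inter ?_ (IsOpen.inter ?_ ?_)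
  · exact isOpen_lt (by fun_prop) h2
  · exact isOpen_lt h2 (by fun_prop)
  · exact isOpen_lt continuous_const (by fun_prop)

theorem isClosed_HalC (a b s : ℝ) : IsClosed (HalC a b s) := by
  have h1 := continuous_fM
  have h2 := continuous_fN
  have h3 := continuous_fP
  have e : HalC a b s = {z | a * fM z ≤ fN z} ∩ ({z | fN z ≤ b * fM z} ∩ {z | 0 ≤ s * fP z}) := rfl
  rw [e]
  refine IsClosed.inter ?_ (IsClosed.inter ?_ ?_)
  · exact isClosed_le (by fun_prop) h2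
  · exact isClosed_le h2 (by fun_prop)
  · exact isClosed_le continuous_const (by fun_prop)

section

variable {a b s : ℝ} (ha : 1 < a) (hab : a < b) (hs : s = 1 ∨ s = -1)

include ha hab hs

/-- positivity on the closed half annulus -/
theorem HalC_pos {z : ℂ} (hz : z ∈ HalC a b s) : 0 < fM z ∧ 0 < fN z := by
  have h1 := fM_nonneg z
  have h2 := fN_nonneg z
  have hN : fN z ≠ 0 := by
    intro h
    have : fM z ≤ 0 := by
      have := hz.1
      rw [h] at this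
      nlinarith
    exact fMN z (le_antisymm this h1) h
  have hM : fM z ≠ 0 := by
    intro h
    have := hz.2.1
    rw [h, mul_zero] at this
    exact hN (le_antisymm this h2)
  exact ⟨lt_of_le_of_ne h1 (Ne.symm hM), lt_of_le_of_ne h2 (Ne.symm hN)⟩

/-- values of the parametrization on the closed rectangle -/
theorem hPsi_vals {q : ℝ × ℝ} (h1 : -1 ≤ q.1) (h1' : q.1 ≤ 1) (h2 : 2 / b ≤ q.2)
    (h2' : q.2 ≤ 2 / a) :
    ∃ D : ℝ, 0 < D ∧ fD (s * Real.sqrt ((1 - q.1 ^ 2) * q.2)) (q.1 * Real.sqrt q.2) = D ∧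
      fN (hPsi s q) = 4 / D ∧ fM (hPsi s q) = 2 * q.2 / D ∧
      s * fP (hPsi s q) = 4 * Real.sqrt ((1 - q.1 ^ 2) * q.2) / D ∧
      fQ (hPsi s q) = 4 * (q.1 * Real.sqrt q.2) / D := by
  have hb : 0 < b := by linarith
  have hq : 0 < q.2 := lt_of_lt_of_le (by positivity) h2
  have hq2 : q.2 < 2 := by
    refine lt_of_le_of_lt h2' ?_
    rw [div_lt_iff₀ (by linarith)]
    linarith
  have h0 : 0 ≤ 1 - q.1 ^ 2 := by nlinarith
  have e1 : Real.sqrt ((1 - q.1 ^ 2) * q.2) ^ 2 = (1 - q.1 ^ 2) * q.2 :=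
    Real.sq_sqrt (mul_nonneg h0 hq.le)
  have e2 : Real.sqrt q.2 ^ 2 = q.2 := Real.sq_sqrt hq.le
  have hs2 : s ^ 2 = 1 := by rcases hs with h | h <;> rw [h] <;> norm_num
  have hsum : (s * Real.sqrt ((1 - q.1 ^ 2) * q.2)) ^ 2 + (q.1 * Real.sqrt q.2) ^ 2 = q.2 := by
    rw [mul_pow, mul_pow, e1, e2, hs2]; ring
  have hD := fD_pos (u := s * Real.sqrt ((1 - q.1 ^ 2) * q.2)) (v := q.1 * Real.sqrt q.2)
    (by rw [hsum]; exact hq2)
  obtain ⟨v1, v2, v3, v4⟩ := fZ_vals hD.ne'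
  refine ⟨_, hD, rfl, v1, ?_, ?_, v4⟩
  · unfold hPsi; rw [v2, hsum]
  · unfold hPsi
    rw [v3]
    have : s * (4 * (s * Real.sqrt ((1 - q.1 ^ 2) * q.2)) /
        fD (s * Real.sqrt ((1 - q.1 ^ 2) * q.2)) (q.1 * Real.sqrt q.2)) =
        s ^ 2 * (4 * Real.sqrt ((1 - q.1 ^ 2) * q.2)) /
        fD (s * Real.sqrt ((1 - q.1 ^ 2) * q.2)) (q.1 * Real.sqrt q.2) := by ring
    rw [this, hs2, one_mul]

/-- the closed rectangle -/
theorem hPsi_iff {q : ℝ × ℝ} (h1 : -1 ≤ q.1) (h1' : q.1 ≤ 1) (h2 : 2 / b ≤ q.2)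
    (h2' : q.2 ≤ 2 / a) :
    hPsi s q ∈ HalC a b s ∧ (a * fM (hPsi s q) = fN (hPsi s q) ↔ q.2 = 2 / a) ∧
      (fN (hPsi s q) = b * fM (hPsi s q) ↔ q.2 = 2 / b) ∧
      (fP (hPsi s q) = 0 ↔ q.1 = 1 ∨ q.1 = -1) ∧ (0 ≤ fQ (hPsi s q) ↔ 0 ≤ q.1) ∧
      (fQ (hPsi s q) ≤ 0 ↔ q.1 ≤ 0) := by
  obtain ⟨D, hD, -, e1, e2, e3, e4⟩ := hPsi_vals ha hab hs h1 h1' h2 h2'
  have hb : 0 < b := by linarith
  have ha0 : 0 < a := by linarith
  have hq : 0 < q.2 := lt_of_lt_of_le (by positivity) h2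
  have h0 : 0 ≤ 1 - q.1 ^ 2 := by nlinarith
  have hr : 0 < Real.sqrt q.2 := Real.sqrt_pos.2 hq
  have i1 : a * q.2 ≤ 2 := by
    rw [le_div_iff₀ ha0] at h2'
    linarith
  have i2 : 2 ≤ b * q.2 := by
    rw [div_le_iff₀ hb] at h2
    linarith
  have hs0 : s ≠ 0 := by rcases hs with h | h <;> rw [h] <;> norm_num
  refine ⟨⟨?_, ?_, ?_⟩, ?_, ?_, ?_, ?_, ?_⟩
  · rw [e1, e2, ← mul_div_assoc]
    apply div_le_div_of_nonneg_right _ hD.le
    linarith
  · rw [e1, e2, ← mul_div_assoc]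
    apply div_le_div_of_nonneg_right _ hD.le
    linarith
  · rw [e3]; positivity
  · rw [e1, e2, ← mul_div_assoc, div_left_inj' hD.ne', eq_div_iff ha0.ne']
    constructor <;> intro h <;> linarith
  · rw [e1, e2, ← mul_div_assoc, div_left_inj' hD.ne', eq_div_iff hb.ne']
    constructor <;> intro h <;> linarith
  · have : fP (hPsi s q) = 0 ↔ s * fP (hPsi s q) = 0 := by
      rw [mul_eq_zero]
      exact ⟨fun h => Or.inr h, fun h => h.resolve_left hs0⟩
    rw [this, e3, div_eq_zero_iff, mul_eq_zero, Real.sqrt_eq_zero (mul_nonneg h0 hq.le),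
      mul_eq_zero]
    constructor
    · rintro ((h | h | h) | h)
      · norm_num at h
      · have h5 : (q.1 - 1) * (q.1 + 1) = 0 := by linarith
        rcases mul_eq_zero.1 h5 with h6 | h6
        · left; linarith
        · right; linarith
      · exact absurd h hq.ne'
      · exact absurd h hD.ne'
    · intro h
      refine Or.inl (Or.inr (Or.inl ?_))
      rcases h with h | h <;> rw [h] <;> norm_num
  · rw [e4]
    constructor
    · intro h
      by_contra hc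
      rw [not_le] at hc
      have h5 : 4 * (q.1 * Real.sqrt q.2) / D < 0 :=
        div_neg_of_neg_of_pos (by nlinarith [mul_pos (neg_pos.2 hc) hr]) hD
      linarith
    · intro h; positivity
  · rw [e4]
    constructor
    · intro h
      by_contra hc
      rw [not_le] at hc
      have h5 : 0 < 4 * (q.1 * Real.sqrt q.2) / D := by positivity
      linarith
    · intro h
      apply div_nonpos_of_nonpos_of_nonneg _ hD.le
      nlinarith [mul_nonneg (neg_nonneg.2 h) hr.le]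

/-- the parametrization is onto -/
theorem hPsi_surj {z : ℂ} (hz : z ∈ HalC a b s) : ∃ q : ℝ × ℝ, -1 ≤ q.1 ∧ q.1 ≤ 1 ∧ 2 / b ≤ q.2 ∧
    q.2 ≤ 2 / a ∧ hPsi s q = z := by
  obtain ⟨hM, hN⟩ := HalC_pos ha hab hs hz
  have hb : 0 < b := by linarith
  have ha0 : 0 < a := by linarith
  obtain ⟨z1, z2, z3⟩ := hz
  have hPQ := fPQ z
  set u := fP z / fN z with hu
  set v := fQ z / fN z with hv
  set y := 2 * fM z / fN z with hy
  have hy0 : 0 < y := by positivity
  have huv : u ^ 2 + v ^ 2 = y := by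
    rw [hu, hv, hy]
    field_simp
    linarith
  have hr : 0 < Real.sqrt y := Real.sqrt_pos.2 hy0
  have hr2 : Real.sqrt y ^ 2 = y := Real.sq_sqrt hy0.le
  have e0 : (v / Real.sqrt y) ^ 2 = v ^ 2 / y := by rw [div_pow, hr2]
  have e1 : (1 - (v / Real.sqrt y) ^ 2) * y = u ^ 2 := by
    rw [e0]; field_simp; linarith
  have hx2 : (v / Real.sqrt y) ^ 2 ≤ 1 := by
    rw [e0, div_le_one hy0]
    nlinarith [sq_nonneg u]
  have hx := abs_le.1 (sq_le_one_iff_abs_le_one _ |>.1 hx2)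
  refine ⟨(v / Real.sqrt y, y), hx.1, hx.2, ?_, ?_, ?_⟩
  · simp only
    rw [hy, div_le_div_iff₀ hb hN]
    linarith
  · simp only
    rw [hy, div_le_div_iff₀ hN ha0]
    linarith
  · unfold hPsi
    simp only
    rw [e1, Real.sqrt_sq_eq_abs, div_mul_cancel₀ _ hr.ne']
    have f1 : s * |u| = u := by
      rcases hs with h | h
      · rw [h, one_mul] at z3
        rw [h, one_mul, abs_of_nonneg (div_nonneg z3 hN.le)]
      · rw [h] at z3
        rw [h, abs_of_nonpos (div_nonpos_of_nonpos_of_nonneg (by linarith) hN.le)]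
        ring
    rw [f1]
    exact fZ_inv hN.ne'

theorem hPsi_cont : ContinuousOn (hPsi s) (Icc (-1) 1 ×ˢ Icc (2 / b) (2 / a)) := by
  have hD : ∀ q ∈ Icc (-1 : ℝ) 1 ×ˢ Icc (2 / b) (2 / a),
      fD (s * Real.sqrt ((1 - q.1 ^ 2) * q.2)) (q.1 * Real.sqrt q.2) ≠ 0 := by
    intro q hq
    obtain ⟨D, hD, e, -⟩ := hPsi_vals ha hab hs (q := q) hq.1.1 hq.1.2 hq.2.1 hq.2.2
    rw [e]
    exact hD.ne'
  unfold hPsi fZ
  refine ContinuousOn.add ?_ (ContinuousOn.mul ?_ continuousOn_const)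
  · refine Complex.continuous_ofReal.comp_continuousOn (ContinuousOn.div ?_ ?_ hD)
    · fun_prop
    · unfold fD; fun_prop
  · refine Complex.continuous_ofReal.comp_continuousOn (ContinuousOn.div ?_ ?_ hD)
    · fun_prop
    · unfold fD; fun_prop

/-- the open half annulus inside the closed one -/
theorem Hal_iff {z : ℂ} : z ∈ Hal a b s ↔ z ∈ HalC a b s ∧ a * fM z ≠ fN z ∧ fN z ≠ b * fM z ∧
    fP z ≠ 0 := by
  have hs0 : s ≠ 0 := by rcases hs with h | h <;> rw [h] <;> norm_num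
  constructor
  · rintro ⟨h1, h2, h3⟩
    exact ⟨⟨h1.le, h2.le, h3.le⟩, h1.ne, h2.ne,
      fun e => by rw [e, mul_zero] at h3; exact lt_irrefl _ h3⟩
  · rintro ⟨⟨h1, h2, h3⟩, k1, k2, k3⟩
    exact ⟨lt_of_le_of_ne h1 k1, lt_of_le_of_ne h2 k2,
      lt_of_le_of_ne h3 (Ne.symm (mul_ne_zero hs0 k3))⟩

/-- subsets of the closed half annulus as images -/
theorem himg_pre {W : Set ℂ} {R : Set (ℝ × ℝ)} (hW : W ⊆ HalC a b s)
    (hR : R ⊆ Icc (-1) 1 ×ˢ Icc (2 / b) (2 / a))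
    (h : ∀ q ∈ Icc (-1 : ℝ) 1 ×ˢ Icc (2 / b) (2 / a), hPsi s q ∈ W ↔ q ∈ R)
    (hc : IsPreconnected R) : IsPreconnected W := by
  have e : W = hPsi s '' R := by
    ext z
    constructor
    · intro hz
      obtain ⟨q, h1, h2, h3, h4, rfl⟩ := hPsi_surj ha hab hs (hW hz)
      exact ⟨q, (h q ⟨⟨h1, h2⟩, h3, h4⟩).1 hz, rfl⟩
    · rintro ⟨q, hq, rfl⟩
      exact (h q (hR hq)).2 hq
  rw [e]
  exact hc.image _ ((hPsi_cont ha hab hs).mono hR)

theorem Hal_img_iff {q : ℝ × ℝ} (hq : q ∈ Icc (-1 : ℝ) 1 ×ˢ Icc (2 / b) (2 / a)) :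
    hPsi s q ∈ Hal a b s ↔ q ∈ Ioo (-1 : ℝ) 1 ×ˢ Ioo (2 / b) (2 / a) := by
  obtain ⟨h1, h2, h3, h4, -⟩ := hPsi_iff ha hab hs (q := q) hq.1.1 hq.1.2 hq.2.1 hq.2.2
  rw [Hal_iff ha hab hs, ne_eq, ne_eq, ne_eq, h2, h3, h4]
  constructor
  · rintro ⟨-, k1, k2, k3⟩
    exact ⟨⟨lt_of_le_of_ne hq.1.1 fun e => k3 (Or.inr e.symm),
      lt_of_le_of_ne hq.1.2 fun e => k3 (Or.inl e)⟩,
      lt_of_le_of_ne hq.2.1 (Ne.symm k2), lt_of_le_of_ne hq.2.2 k1⟩
  · rintro ⟨⟨k1, k2⟩, k3, k4⟩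
    exact ⟨h1, k4.ne, k3.ne', fun h => h.elim (fun e => k2.ne e) fun e => k1.ne' e⟩

theorem Hal_pre : IsPreconnected (Hal a b s) := by
  refine himg_pre ha hab hs (fun z hz => ((Hal_iff ha hab hs).1 hz).1) ?_
    (fun q hq => Hal_img_iff ha hab hs hq) (isPreconnected_Ioo.prod isPreconnected_Ioo)
  exact prod_mono Ioo_subset_Icc_self Ioo_subset_Icc_self

theorem closure_Hal : closure (Hal a b s) = HalC a b s := by
  apply Subset.antisymm
  · apply closure_minimal _ (isClosed_HalC a b s)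
    exact fun z hz => ((Hal_iff ha hab hs).1 hz).1
  · intro z hz
    obtain ⟨q, h1, h2, h3, h4, rfl⟩ := hPsi_surj ha hab hs hz
    have hlt : 2 / b < 2 / a := rect_lt ha hab hs hs
    have hq : q ∈ closure (Ioo (-1 : ℝ) 1 ×ˢ Ioo (2 / b) (2 / a)) := by
      rw [closure_prod_eq, closure_Ioo (by norm_num), closure_Ioo hlt.ne]
      exact ⟨⟨h1, h2⟩, h3, h4⟩
    have hcont := (hPsi_cont ha hab hs) q ⟨⟨h1, h2⟩, h3, h4⟩
    have hsub : Ioo (-1 : ℝ) 1 ×ˢ Ioo (2 / b) (2 / a) ⊆ Icc (-1) 1 ×ˢ Icc (2 / b) (2 / a) :=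
      prod_mono Ioo_subset_Icc_self Ioo_subset_Icc_self
    have := (hcont.mono hsub).mem_closure_image hq
    refine closure_mono ?_ this
    rintro _ ⟨q', hq', rfl⟩
    exact (Hal_img_iff ha hab hs (hsub hq')).2 hq'

theorem frontier_Hal : frontier (Hal a b s) = HalC a b s \ Hal a b s := by
  rw [(isOpen_Hal a b s).frontier_eq, closure_Hal ha hab hs]

/-- **Half annuli are quadrangular faces.** -/
theorem hal_quad (U X : Set ℂ)
    (hU : ∀ z ∈ HalC a b s, z ∈ U ↔ (a * fM z = fN z ∨ fN z = b * fM z ∨ fP z = 0))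
    (hX : ∀ z ∈ HalC a b s, z ∈ X ↔ ((a * fM z = fN z ∨ fN z = b * fM z) ∧ fP z = 0)) :
    (∃ p, p ∉ U ∧ Hal a b s = connectedComponentIn Uᶜ p) ∧
    {e | ∃ p ∈ frontier (Hal a b s) \ X,
      e = connectedComponentIn (frontier (Hal a b s) \ X) p}.ncard = 4 := by
  have hlt : 2 / b < 2 / a := rect_lt ha hab hs hs
  have h01 : (-1 : ℝ) < 1 := by norm_num
  have hfr := frontier_Hal ha hab hs
  constructor
  · -- a point
    set q0 : ℝ × ℝ := (0, (2 / b + 2 / a) / 2) with hq0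
    have hq : q0 ∈ Ioo (-1 : ℝ) 1 ×ˢ Ioo (2 / b) (2 / a) := by
      rw [hq0]
      constructor
      · constructor <;> norm_num
      · constructor <;> simp only <;> linarith
    have hq' : q0 ∈ Icc (-1 : ℝ) 1 ×ˢ Icc (2 / b) (2 / a) :=
      ⟨⟨hq.1.1.le, hq.1.2.le⟩, hq.2.1.le, hq.2.2.le⟩
    have hp : hPsi s q0 ∈ Hal a b s := (Hal_img_iff ha hab hs hq').2 hq
    have hFU : Hal a b s ⊆ Uᶜ := by
      intro z hz hzU
      obtain ⟨h1, h2, h3, h4⟩ := (Hal_iff ha hab hs).1 hz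
      rcases (hU z h1).1 hzU with h | h | h
      · exact h2 h
      · exact h3 h
      · exact h4 h
    refine ⟨hPsi s q0, hFU hp, ?_⟩
    symm
    refine face_of (isOpen_Hal a b s) (Hal_pre ha hab hs) hFU ?_ hp
    rw [hfr]
    rintro z ⟨hz, hz'⟩
    rw [hU z hz]
    by_contra hcon
    push Not at hcon
    exact hz' ((Hal_iff ha hab hs).2 ⟨hz, hcon⟩)
  · set Y := frontier (Hal a b s) \ X with hY
    have memY : ∀ z, z ∈ Y ↔ z ∈ HalC a b s ∧
        (a * fM z = fN z ∨ fN z = b * fM z ∨ fP z = 0) ∧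
        ¬ ((a * fM z = fN z ∨ fN z = b * fM z) ∧ fP z = 0) := by
      intro z
      rw [hY, hfr, mem_sdiff, mem_sdiff, Hal_iff ha hab hs]
      constructor
      · rintro ⟨⟨h1, h2⟩, h3⟩
        refine ⟨h1, ?_, fun h => h3 ((hX z h1).2 h)⟩
        by_contra hcon
        push Not at hcon
        exact h2 ⟨h1, hcon⟩
      · rintro ⟨h1, h2, h3⟩
        refine ⟨⟨h1, fun h => ?_⟩, fun h => h3 ((hX z h1).1 h)⟩
        rcases h2 with h2 | h2 | h2
        · exact h.2.1 h2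
        · exact h.2.2.1 h2
        · exact h.2.2.2 h2
    let C : Fin 4 → Set ℂ := ![{z | a * fM z = fN z}, {z | fN z = b * fM z},
      {z | fP z = 0} ∩ {z | 0 ≤ fQ z}, {z | fP z = 0} ∩ {z | fQ z ≤ 0}]
    let R : Fin 4 → Set (ℝ × ℝ) := ![Ioo (-1) 1 ×ˢ {2 / a}, Ioo (-1) 1 ×ˢ {2 / b},
      {1} ×ˢ Ioo (2 / b) (2 / a), {-1} ×ˢ Ioo (2 / b) (2 / a)]
    -- exclusive conditions
    have ex1 : ∀ z ∈ HalC a b s, ¬ (a * fM z = fN z ∧ fN z = b * fM z) := by
      rintro z hz ⟨h1, h2⟩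
      have := (HalC_pos ha hab hs hz).1
      nlinarith
    have ex2 : ∀ z ∈ HalC a b s, ¬ (fP z = 0 ∧ fQ z = 0) := by
      rintro z hz ⟨h1, h2⟩
      have h3 := HalC_pos ha hab hs hz
      have h4 := fPQ z
      rw [h1, h2] at h4
      nlinarith [mul_pos h3.1 h3.2]
    have hRsub : ∀ i, R i ⊆ Icc (-1) 1 ×ˢ Icc (2 / b) (2 / a) := by
      intro i
      fin_cases i
      · exact prod_mono Ioo_subset_Icc_self (singleton_subset_iff.2 ⟨hlt.le, le_rfl⟩)
      · exact prod_mono Ioo_subset_Icc_self (singleton_subset_iff.2 ⟨le_rfl, hlt.le⟩)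
      · exact prod_mono (singleton_subset_iff.2 ⟨h01.le, le_rfl⟩) Ioo_subset_Icc_self
      · exact prod_mono (singleton_subset_iff.2 ⟨le_rfl, h01.le⟩) Ioo_subset_Icc_self
    have hRpre : ∀ i, IsPreconnected (R i) := by
      intro i
      fin_cases i
      · exact isPreconnected_Ioo.prod isPreconnected_singleton
      · exact isPreconnected_Ioo.prod isPreconnected_singleton
      · exact isPreconnected_singleton.prod isPreconnected_Ioo
      · exact isPreconnected_singleton.prod isPreconnected_Ioo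
    have hRne : ∀ i, (R i).Nonempty := by
      have n1 : (Ioo (-1 : ℝ) 1).Nonempty := nonempty_Ioo.2 h01
      have n2 : (Ioo (2 / b) (2 / a)).Nonempty := nonempty_Ioo.2 hlt
      intro i
      fin_cases i
      · exact n1.prod (singleton_nonempty _)
      · exact n1.prod (singleton_nonempty _)
      · exact (singleton_nonempty _).prod n2
      · exact (singleton_nonempty _).prod n2
    have hYsub : ∀ i, Y ∩ C i ⊆ HalC a b s := fun i z hz => ((memY z).1 hz.1).1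
    have hiff : ∀ i, ∀ q ∈ Icc (-1 : ℝ) 1 ×ˢ Icc (2 / b) (2 / a),
        hPsi s q ∈ Y ∩ C i ↔ q ∈ R i := by
      intro i q hq
      obtain ⟨h1, h2, h3, h4, h5, h6⟩ := hPsi_iff ha hab hs (q := q) hq.1.1 hq.1.2 hq.2.1 hq.2.2
      have hYq : hPsi s q ∈ Y ↔ (q.2 = 2 / a ∨ q.2 = 2 / b ∨ q.1 = 1 ∨ q.1 = -1) ∧
          ¬ ((q.2 = 2 / a ∨ q.2 = 2 / b) ∧ (q.1 = 1 ∨ q.1 = -1)) := by
        rw [memY, h2, h3, h4]
        exact ⟨fun h => h.2, fun h => ⟨h1, h⟩⟩
      rw [mem_inter_iff, hYq]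
      have l1 := hq.1.1
      have l2 := hq.1.2
      have l3 := hq.2.1
      have l4 := hq.2.2
      fin_cases i
      · change _ ∧ a * fM (hPsi s q) = fN (hPsi s q) ↔
          q.1 ∈ Ioo (-1 : ℝ) 1 ∧ q.2 ∈ ({2 / a} : Set ℝ)
        rw [h2, mem_singleton_iff]
        constructor
        · rintro ⟨⟨-, k2⟩, k3⟩
          refine ⟨⟨lt_of_le_of_ne l1 ?_, lt_of_le_of_ne l2 ?_⟩, k3⟩
          · exact fun e => k2 ⟨Or.inl k3, Or.inr e.symm⟩
          · exact fun e => k2 ⟨Or.inl k3, Or.inl e⟩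
        · rintro ⟨⟨k1, k2⟩, k3⟩
          refine ⟨⟨Or.inl k3, ?_⟩, k3⟩
          rintro ⟨-, h | h⟩
          · exact k2.ne h
          · exact k1.ne' h
      · change _ ∧ fN (hPsi s q) = b * fM (hPsi s q) ↔
          q.1 ∈ Ioo (-1 : ℝ) 1 ∧ q.2 ∈ ({2 / b} : Set ℝ)
        rw [h3, mem_singleton_iff]
        constructor
        · rintro ⟨⟨-, k2⟩, k3⟩
          refine ⟨⟨lt_of_le_of_ne l1 ?_, lt_of_le_of_ne l2 ?_⟩, k3⟩
          · exact fun e => k2 ⟨Or.inr k3, Or.inr e.symm⟩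
          · exact fun e => k2 ⟨Or.inr k3, Or.inl e⟩
        · rintro ⟨⟨k1, k2⟩, k3⟩
          refine ⟨⟨Or.inr (Or.inl k3), ?_⟩, k3⟩
          rintro ⟨-, h | h⟩
          · exact k2.ne h
          · exact k1.ne' h
      · change _ ∧ (fP (hPsi s q) = 0 ∧ 0 ≤ fQ (hPsi s q)) ↔
          q.1 ∈ ({1} : Set ℝ) ∧ q.2 ∈ Ioo (2 / b) (2 / a)
        rw [h4, h5, mem_singleton_iff]
        constructor
        · rintro ⟨⟨-, k2⟩, k3, k4⟩
          have k5 : q.1 = 1 := by
            rcases k3 with h | h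
            · exact h
            · rw [h] at k4; norm_num at k4
          refine ⟨k5, lt_of_le_of_ne l3 ?_, lt_of_le_of_ne l4 ?_⟩
          · exact fun e => k2 ⟨Or.inr e.symm, k3⟩
          · exact fun e => k2 ⟨Or.inl e, k3⟩
        · rintro ⟨k3, k1, k2⟩
          refine ⟨⟨Or.inr (Or.inr (Or.inl k3)), ?_⟩, Or.inl k3, by rw [k3]; norm_num⟩
          rintro ⟨h | h, -⟩
          · exact k2.ne h
          · exact k1.ne' h
      · change _ ∧ (fP (hPsi s q) = 0 ∧ fQ (hPsi s q) ≤ 0) ↔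
          q.1 ∈ ({-1} : Set ℝ) ∧ q.2 ∈ Ioo (2 / b) (2 / a)
        rw [h4, h6, mem_singleton_iff]
        constructor
        · rintro ⟨⟨-, k2⟩, k3, k4⟩
          have k5 : q.1 = -1 := by
            rcases k3 with h | h
            · rw [h] at k4; norm_num at k4
            · exact h
          refine ⟨k5, lt_of_le_of_ne l3 ?_, lt_of_le_of_ne l4 ?_⟩
          · exact fun e => k2 ⟨Or.inr e.symm, k3⟩
          · exact fun e => k2 ⟨Or.inl e, k3⟩
        · rintro ⟨k3, k1, k2⟩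
          refine ⟨⟨Or.inr (Or.inr (Or.inr k3)), ?_⟩, Or.inr k3, by rw [k3]; norm_num⟩
          rintro ⟨h | h, -⟩
          · exact k2.ne h
          · exact k1.ne' h
    refine arcs_four C ?_ ?_ ?_ ?_ ?_
    · intro i
      have c1 := continuous_fM
      have c2 := continuous_fN
      have c3 := continuous_fP
      have c4 := continuous_fQ
      fin_cases i
      · exact isClosed_eq (by fun_prop) c2
      · exact isClosed_eq c2 (by fun_prop)
      · exact (isClosed_eq c3 continuous_const).inter (isClosed_le continuous_const c4)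
      · exact (isClosed_eq c3 continuous_const).inter (isClosed_le c4 continuous_const)
    · intro z hz
      rcases ((memY z).1 hz).2.1 with h | h | h
      · exact ⟨0, h⟩
      · exact ⟨1, h⟩
      · rcases le_total 0 (fQ z) with h' | h'
        · exact ⟨2, h, h'⟩
        · exact ⟨3, h, h'⟩
    · intro z hz i j hi hj
      obtain ⟨m1, -, m3⟩ := (memY z).1 hz
      fin_cases i <;> fin_cases j <;> first | rfl | skip
      · exact absurd ⟨hi, hj⟩ (ex1 z m1)
      · exact absurd ⟨Or.inl hi, hj.1⟩ m3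
      · exact absurd ⟨Or.inl hi, hj.1⟩ m3
      · exact absurd ⟨hj, hi⟩ (ex1 z m1)
      · exact absurd ⟨Or.inr hi, hj.1⟩ m3
      · exact absurd ⟨Or.inr hi, hj.1⟩ m3
      · exact absurd ⟨Or.inl hj, hi.1⟩ m3
      · exact absurd ⟨Or.inr hj, hi.1⟩ m3
      · exact absurd ⟨hi.1, le_antisymm hj.2 hi.2⟩ (ex2 z m1)
      · exact absurd ⟨Or.inl hj, hi.1⟩ m3
      · exact absurd ⟨Or.inr hj, hi.1⟩ m3
      · exact absurd ⟨hi.1, le_antisymm hi.2 hj.2⟩ (ex2 z m1)
    · intro i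
      obtain ⟨q, hq⟩ := hRne i
      exact ⟨hPsi s q, (hiff i q (hRsub i hq)).2 hq⟩
    · intro i
      exact himg_pre ha hab hs (hYsub i) (hRsub i) (hiff i) (hRpre i)

end

/-! ## Three circles -/

open Classical in
/-- three circles -/
noncomputable def S3 : Finset Circ := {cB 1, cA 0, cA 1}

theorem mem_S3 {C : Circ} : C ∈ S3 ↔ C = cB 1 ∨ C = cA 0 ∨ C = cA 1 := by
  classical
  unfold S3
  rw [Finset.mem_insert, Finset.mem_insert, Finset.mem_singleton]

theorem card_S3 : S3.card = 3 := by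
  classical
  unfold S3
  rw [Finset.card_insert_of_notMem, Finset.card_insert_of_notMem, Finset.card_singleton]
  · rw [Finset.mem_singleton]
    intro h
    exact absurd (cA_inj h) (by decide)
  · rw [Finset.mem_insert, Finset.mem_singleton]
    rintro (h | h)
    · exact cA_ne_cB 0 _ h
    · exact cA_ne_cB 1 _ h

theorem arr_S3 : IsArrangement S3 := by
  intro C hC D hD hCD
  rcases mem_S3.1 hC with rfl | rfl | rfl
  · rcases mem_S3.1 hD with rfl | rfl | rfl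
    · exact absurd rfl hCD
    · exact Or.inr (orth_BA (by norm_num) 0)
    · exact Or.inr (orth_BA (by norm_num) 1)
  · rcases mem_S3.1 hD with rfl | rfl | rfl
    · exact Or.inr (orth_AB (by norm_num) 0)
    · exact absurd rfl hCD
    · exact Or.inl (cA_disj (by decide))
  · rcases mem_S3.1 hD with rfl | rfl | rfl
    · exact Or.inr (orth_AB (by norm_num) 1)
    · exact Or.inl (cA_disj (by decide))
    · exact absurd rfl hCD

theorem mem_cA0 (z : ℂ) : z ∈ (cA 0).pts ↔ 4 * fM z = fN z := by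
  rw [mem_cA]
  constructor
  · intro h
    rw [h]; push_cast; ring
  · intro h
    rw [← h]; push_cast; ring

theorem mem_cA1 (z : ℂ) : z ∈ (cA 1).pts ↔ fN z = 9 * fM z := by
  rw [mem_cA]
  constructor
  · intro h
    rw [h]; push_cast; ring
  · intro h
    rw [h]; push_cast; ring

theorem hal_face {s : ℝ} (hs : s = 1 ∨ s = -1) : Hal 4 9 s ∈ quadFaces S3 := by
  refine hal_quad (by norm_num) (by norm_num) hs (circUnion S3) (crossings S3) ?_ ?_
  · intro z hz
    unfold circUnion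
    rw [mem_iUnion₂]
    constructor
    · rintro ⟨C, hC, hz⟩
      rcases mem_S3.1 hC with rfl | rfl | rfl
      · exact Or.inr (Or.inr ((mem_cBp z).1 hz))
      · exact Or.inl ((mem_cA0 z).1 hz)
      · exact Or.inr (Or.inl ((mem_cA1 z).1 hz))
    · rintro (h | h | h)
      · exact ⟨cA 0, mem_S3.2 (Or.inr (Or.inl rfl)), (mem_cA0 z).2 h⟩
      · exact ⟨cA 1, mem_S3.2 (Or.inr (Or.inr rfl)), (mem_cA1 z).2 h⟩
      · exact ⟨cB 1, mem_S3.2 (Or.inl rfl), (mem_cBp z).2 h⟩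
  · intro z hz
    constructor
    · rintro ⟨C, hC, D, hD, hCD, h1, h2⟩
      rcases mem_S3.1 hC with rfl | rfl | rfl
      · rcases mem_S3.1 hD with rfl | rfl | rfl
        · exact absurd rfl hCD
        · exact ⟨Or.inl ((mem_cA0 z).1 h2), (mem_cBp z).1 h1⟩
        · exact ⟨Or.inr ((mem_cA1 z).1 h2), (mem_cBp z).1 h1⟩
      · rcases mem_S3.1 hD with rfl | rfl | rfl
        · exact ⟨Or.inl ((mem_cA0 z).1 h1), (mem_cBp z).1 h2⟩
        · exact absurd rfl hCD
        · exact absurd h2 (disjoint_left.1 (cA_disj (by decide)) h1)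
      · rcases mem_S3.1 hD with rfl | rfl | rfl
        · exact ⟨Or.inr ((mem_cA1 z).1 h1), (mem_cBp z).1 h2⟩
        · exact absurd h2 (disjoint_left.1 (cA_disj (by decide)) h1)
        · exact absurd rfl hCD
    · rintro ⟨h1, h2⟩
      rcases h1 with h1 | h1
      · exact ⟨cA 0, mem_S3.2 (Or.inr (Or.inl rfl)), cB 1, mem_S3.2 (Or.inl rfl),
          fun e => cA_ne_cB 0 1 e.symm, (mem_cA0 z).2 h1, (mem_cBp z).2 h2⟩
      · exact ⟨cA 1, mem_S3.2 (Or.inr (Or.inr rfl)), cB 1, mem_S3.2 (Or.inl rfl),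
          fun e => cA_ne_cB 1 1 e.symm, (mem_cA1 z).2 h1, (mem_cBp z).2 h2⟩

theorem hal_ne : Hal 4 9 1 ≠ Hal 4 9 (-1) := by
  intro h
  obtain ⟨⟨p, hp, hp'⟩, -⟩ := hal_face (Or.inl rfl)
  have h1 : p ∈ Hal 4 9 1 := by
    rw [hp']
    exact mem_connectedComponentIn hp
  have h2 : p ∈ Hal 4 9 (-1) := h ▸ h1
  have h3 := h1.2.2
  have h4 := h2.2.2
  linarith

/-- **Three circles with two quadrangular faces.** -/
theorem lower_three : ∃ S : Finset Circ, S.card = 3 ∧ IsArrangement S ∧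
    ((quadFaces S).Finite → 2 ≤ (quadFaces S).ncard) := by
  refine ⟨S3, card_S3, arr_S3, fun hf => ?_⟩
  have h1 : ({Hal 4 9 1, Hal 4 9 (-1)} : Set (Set ℂ)) ⊆ quadFaces S3 := by
    rintro F (rfl | rfl)
    · exact hal_face (Or.inl rfl)
    · exact hal_face (Or.inr rfl)
  have h2 := ncard_le_ncard h1 hf
  rwa [ncard_pair hal_ne] at h2

/-! ## One and two circles -/

/-- arrangements of any number of circles exist -/
theorem exists_arr (n : ℕ) : ∃ S : Finset Circ, S.card = n ∧ IsArrangement S := by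
  classical
  refine ⟨(Finset.range n).image cA, ?_, ?_⟩
  · rw [Finset.card_image_of_injective _ (fun j k h => cA_inj h), Finset.card_range]
  · intro C hC D hD hCD
    obtain ⟨j, -, rfl⟩ := Finset.mem_image.1 hC
    obtain ⟨k, -, rfl⟩ := Finset.mem_image.1 hD
    exact Or.inl (cA_disj fun e => hCD (by rw [e]))

end Pool.Agent.Helper79.OC
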