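import Pool.Agent.Helper77.OC.St

set_option autoImplicit false

/-!
# MP_7a9ddc_co, project OC: module BASE (deficiency at most one)
-/

namespace Pool.Agent.Helper79.OC.BASE

open Pool.Agent.Helper35.PM Pool.Agent.Helper77.HY Pool.Agent.Helper77.OC

/-- a triangle-free graph with at most three vertices is a forest -/
theorem forest_small {W : Type} [Fintype W] (H : SimpleGraph W) (htf : TF H)
    (h3 : Fintype.card W ≤ 3) : Forest H (Set.univ : Set W) := by
  classical
  intro S _ hS
  by_contra hno
  push Not at hno
  obtain ⟨a, ha⟩ := hS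
  obtain ⟨b, hb, c, hc, hab, hac, hbc⟩ := hno a ha
  have hall : ∀ x : W, x = a ∨ x = b ∨ x = c := by
    intro x
    by_contra hx
    push Not at hx
    have h4 : ({x, a, b, c} : Finset W).card = 4 := by
      rw [Finset.card_insert_of_notMem, Finset.card_insert_of_notMem,
        Finset.card_insert_of_notMem, Finset.card_singleton]
      · simpa using hbc
      · simp only [Finset.mem_insert, Finset.mem_singleton, not_or]
        exact ⟨hab.ne, hac.ne⟩
      · simp only [Finset.mem_insert, Finset.mem_singleton, not_or]
        exact hx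
    have h5 := Finset.card_le_univ ({x, a, b, c} : Finset W)
    omega
  obtain ⟨x, hx, y, hy, hbx, hby, hxy⟩ := hno b hb
  have hbcadj : H.Adj b c := by
    rcases hall x with h | h | h
    · rcases hall y with h' | h' | h'
      · exact absurd (h.trans h'.symm) hxy
      · exact absurd h'.symm hby.ne
      · rw [h'] at hby
        exact hby
    · exact absurd h.symm hbx.ne
    · rw [h] at hbx
      exact hbx
  exact htf a b c hab hbcadj hac

theorem main (hFace : StFace) (hFew : StFew) (hSub : StSub) (hEub : StEub) (hCnt : StCnt)
    (hPf : Pool.Agent.Helper35.PM.StFin) : StBase := by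
  classical
  intro V _ G W hpl htf hdf L A hLA
  have := Fintype.ofFinite V
  set H : SimpleGraph (W : Set V) := G.induce (W : Set V) with hH
  have hplH : Planar H := by
    apply hSub V (W : Set V) G H (fun x => x.1) hpl Subtype.val_injective
    intro w w' h
    exact h
  have htfH : TF H := by
    intro a b c hab hbc hac
    exact htf a.1 b.1 c.1 hab hbc hac
  have he : eN H Finset.univ = eN G W := by
    have h1 := hCnt.2.2.2 V G W
    convert h1
  have hcard : Fintype.card (W : Set V) = W.card := by
    simp
  have hineq : 2 * Fintype.card (W : Set V) ≤ eN H Finset.univ + 5 := by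
    rw [he, hcard]
    unfold df at hdf
    omega
  have hNB : NB H := by
    rcases Nat.lt_or_ge (Fintype.card (W : Set V)) 4 with h4 | h4
    · refine ⟨∅, fun a ha => absurd ha (Set.notMem_empty a), ?_⟩
      rw [Set.compl_empty]
      exact forest_small H htfH (by omega)
    · have hconn : H.Connected := by
        by_contra hnc
        have := (hEub (W : Set V) H hplH htfH).2 h4 hnc
        omega
      obtain ⟨R⟩ := hplH
      exact hFew (W : Set V) H R htfH hconn (hFace (W : Set V) H R htfH hconn h4 hineq)
  obtain ⟨c', hc1, hc2⟩ := hPf (W : Set V) H hNB (fun x => L x.1) A (fun x => hLA x.1)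
  refine ⟨fun v => if h : v ∈ (W : Set V) then c' ⟨v, h⟩ else 0, ?_, ?_⟩
  · intro v hv
    have hv' : v ∈ (W : Set V) := Finset.mem_coe.mpr hv
    simp only [dif_pos hv']
    exact hc1 ⟨v, hv'⟩
  · intro u hu v hv huv
    have hu' : u ∈ (W : Set V) := Finset.mem_coe.mpr hu
    have hv' : v ∈ (W : Set V) := Finset.mem_coe.mpr hv
    simp only [dif_pos hu', dif_pos hv']
    exact hc2 ⟨u, hu'⟩ ⟨v, hv'⟩ huv

end Pool.Agent.Helper79.OC.BASE
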