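import Pool.Agent.Helper79.OC.St

/-!
# MP_8ec342_lc, module Alg: algebraic form of disjoint and orthogonal circles
-/

set_option autoImplicit false

open Metric

namespace Pool.Agent.Helper79.OC

theorem Alg_dist_sq (z c : EuclideanSpace ℝ (Fin 2)) :
    dist z c ^ 2 = (z 0 - c 0) ^ 2 + (z 1 - c 1) ^ 2 := by
  rw [EuclideanSpace.dist_eq, Real.sq_sqrt (by positivity), Fin.sum_univ_two, Real.dist_eq,
    Real.dist_eq, sq_abs, sq_abs]

theorem Alg_mem_sphere (z c : EuclideanSpace ℝ (Fin 2)) (r : ℝ) (hr : 0 < r) :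
    z ∈ sphere c r ↔ (z 0 - c 0) ^ 2 + (z 1 - c 1) ^ 2 = r ^ 2 := by
  rw [mem_sphere, ← Alg_dist_sq]
  constructor
  · intro h
    rw [h]
  · intro h
    have h1 := abs_eq_abs.2 (sq_eq_sq_iff_eq_or_eq_neg.1 h)
    rwa [abs_of_nonneg dist_nonneg, abs_of_pos hr] at h1

/-- if the inequality fails, there is a common point -/
theorem Alg_common (a b c d r1 r2 : ℝ)
    (h : |r1 ^ 2 + r2 ^ 2 - ((a - c) ^ 2 + (b - d) ^ 2)| ≤ 2 * r1 * r2) :
    ∃ p q : ℝ, (p - a) ^ 2 + (q - b) ^ 2 = r1 ^ 2 ∧ (p - c) ^ 2 + (q - d) ^ 2 = r2 ^ 2 := by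
  have hle := abs_le.1 h
  rcases eq_or_ne ((a - c) ^ 2 + (b - d) ^ 2) 0 with h0 | h0
  · have ha : a - c = 0 := by nlinarith [sq_nonneg (a - c), sq_nonneg (b - d)]
    have hb : b - d = 0 := by nlinarith [sq_nonneg (a - c), sq_nonneg (b - d)]
    have hr : r1 = r2 := by
      have : (r1 - r2) ^ 2 ≤ 0 := by nlinarith [hle.2]
      nlinarith [sq_nonneg (r1 - r2), pow_eq_zero_iff (two_ne_zero) |>.1
        (le_antisymm this (sq_nonneg _))]
    refine ⟨a + r1, b, by ring, ?_⟩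
    have : a + r1 - c = r1 := by linarith
    rw [this, hb, hr]
    ring
  · set D := (a - c) ^ 2 + (b - d) ^ 2 with hD
    have hDpos : 0 < D := lt_of_le_of_ne (by positivity) (Ne.symm h0)
    have hrad : 0 ≤ r1 ^ 2 / D - ((D + r1 ^ 2 - r2 ^ 2) / (2 * D)) ^ 2 := by
      have hq : (r1 ^ 2 + r2 ^ 2 - D) ^ 2 ≤ (2 * r1 * r2) ^ 2 :=
        sq_le_sq' hle.1 hle.2
      have e : r1 ^ 2 / D - ((D + r1 ^ 2 - r2 ^ 2) / (2 * D)) ^ 2
          = ((2 * r1 * r2) ^ 2 - (r1 ^ 2 + r2 ^ 2 - D) ^ 2) / (4 * D ^ 2) := by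
        field_simp
        ring
      rw [e]
      exact div_nonneg (by linarith) (by positivity)
    set α := (D + r1 ^ 2 - r2 ^ 2) / (2 * D) with hα
    set β := Real.sqrt (r1 ^ 2 / D - α ^ 2) with hβ
    have hβ2 : β ^ 2 = r1 ^ 2 / D - α ^ 2 := Real.sq_sqrt hrad
    have hα1 : 2 * D * α = D + r1 ^ 2 - r2 ^ 2 := by
      rw [hα]
      field_simp
    have hαβ : (α ^ 2 + β ^ 2) * D = r1 ^ 2 := by
      rw [hβ2]
      field_simp
      ring
    refine ⟨a + α * (c - a) - β * (d - b), b + α * (d - b) + β * (c - a), ?_, ?_⟩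
    · have : (a + α * (c - a) - β * (d - b) - a) ^ 2 + (b + α * (d - b) + β * (c - a) - b) ^ 2
          = (α ^ 2 + β ^ 2) * D := by
        rw [hD]
        ring
      rw [this, hαβ]
    · have : (a + α * (c - a) - β * (d - b) - c) ^ 2 + (b + α * (d - b) + β * (c - a) - d) ^ 2
          = (α ^ 2 + β ^ 2) * D - 2 * D * α + D := by
        rw [hD]
        ring
      rw [this, hαβ, hα1]
      ring

theorem Alg_disj (c1 c2 : EuclideanSpace ℝ (Fin 2)) (r1 r2 : ℝ) (h1 : 0 < r1) (h2 : 0 < r2) :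
    Disjoint (sphere c1 r1) (sphere c2 r2) ↔
      2 * r1 * r2 < |r1 ^ 2 + r2 ^ 2 - ((c1 0 - c2 0) ^ 2 + (c1 1 - c2 1) ^ 2)| := by
  constructor
  · intro h
    by_contra hc
    obtain ⟨p, q, hp, hq⟩ := Alg_common (c1 0) (c1 1) (c2 0) (c2 1) r1 r2 (not_lt.1 hc)
    have m1 : (!₂[p, q] : EuclideanSpace ℝ (Fin 2)) ∈ sphere c1 r1 := by
      rw [Alg_mem_sphere _ _ _ h1]
      simpa using hp
    have m2 : (!₂[p, q] : EuclideanSpace ℝ (Fin 2)) ∈ sphere c2 r2 := by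
      rw [Alg_mem_sphere _ _ _ h2]
      simpa using hq
    exact Set.disjoint_left.1 h m1 m2
  · intro h
    rw [Set.disjoint_left]
    intro z hz1 hz2
    rw [Alg_mem_sphere _ _ _ h1] at hz1
    rw [Alg_mem_sphere _ _ _ h2] at hz2
    refine absurd h (not_lt.2 ?_)
    have e : r1 ^ 2 + r2 ^ 2 - ((c1 0 - c2 0) ^ 2 + (c1 1 - c2 1) ^ 2)
        = 2 * ((z 0 - c1 0) * (z 0 - c2 0) + (z 1 - c1 1) * (z 1 - c2 1)) := by
      rw [← hz1, ← hz2]
      ring
    rw [e]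
    refine abs_le_of_sq_le_sq ?_ (by positivity)
    have : (2 * r1 * r2) ^ 2 = 4 * (r1 ^ 2 * r2 ^ 2) := by ring
    rw [this, ← hz1, ← hz2]
    nlinarith [sq_nonneg ((z 0 - c1 0) * (z 1 - c2 1) - (z 1 - c1 1) * (z 0 - c2 0))]

theorem Alg_main : StAlg := by
  intro V G
  constructor
  · rintro ⟨c, r, hr, h⟩
    refine ⟨fun v => c v 0, fun v => c v 1, r, hr, fun u v huv => ⟨fun hadj => ?_, fun hn => ?_⟩⟩
    · have := (h u v huv).1 hadj
      rw [Alg_dist_sq] at this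
      exact this.symm
    · exact (Alg_disj _ _ _ _ (hr u) (hr v)).1 ((h u v huv).2 hn)
  · rintro ⟨x, y, r, hr, h⟩
    refine ⟨fun v => !₂[x v, y v], r, hr, fun u v huv => ⟨fun hadj => ?_, fun hn => ?_⟩⟩
    · rw [Alg_dist_sq]
      have := (h u v huv).1 hadj
      simpa using this.symm
    · rw [Alg_disj _ _ _ _ (hr u) (hr v)]
      have := (h u v huv).2 hn
      simpa using this

end Pool.Agent.Helper79.OC
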