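import Pool.Agent.Helper79.OC.St

/-!
# MP_8ec342_lc: assembly
-/

set_option autoImplicit false

namespace Pool.Agent.Helper79.OC

/-- isomorphic graphs -/
theorem IsOCI_iso {V W : Type} {G : SimpleGraph V} {G' : SimpleGraph W} (φ : G ≃g G')
    (h : IsOCI G') : IsOCI G := by
  obtain ⟨c, r, hr, hcr⟩ := h
  refine ⟨fun v => c (φ v), fun v => r (φ v), fun v => hr _, fun u v huv => ?_⟩
  have h1 := hcr (φ u) (φ v) (fun h => huv (φ.injective h))
  rw [φ.map_adj_iff] at h1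
  exact h1

/-- from circles to pages -/
theorem no_dir (hAlg : StAlg) (hNorm : StNorm) (hSide : StSide) (hPage : StPage)
    (n m k : ℕ) (a b : Fin m → Fin n) (hk : 2 ≤ k) (hab : ∀ e, a e ≠ b e)
    (hconn : ∀ w, ((HG n m a b).induce {w}ᶜ).Connected) (h : IsOCI (RG n m k a b)) :
    ∃ (pos : Fin n → ℝ) (page : Fin m → Bool), Function.Injective pos ∧ NC a b pos page := by
  rcases isEmpty_or_nonempty (Fin n) with he | ⟨⟨v₀⟩⟩
  · refine ⟨fun _ => 0, fun _ => true, fun v => he.elim v, fun e => he.elim (a e)⟩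
  · obtain ⟨x, y, r, hR⟩ := (hAlg _ _).1 h
    obtain ⟨x1, y1, r1, h1⟩ := hNorm _ _ x y r hR .p (.s v₀) trivial
    obtain ⟨x2, y2, r2, h2⟩ := hSide n m k a b hk hab hconn v₀ x1 y1 r1 h1
    exact hPage n m k a b hk hab v₀ x2 y2 r2 h2

theorem final (hAlg : StAlg) (hNorm : StNorm) (hSide : StSide) (hPage : StPage) (hYes : StYes)
    (hIso : StIso) (hVal : StVal) (hTwoP : StTwoP) (hTM : StTM) :
    ∃ f : GI → GI, Nonempty (Turing.TM2ComputableInPolyTime GI.code GI.code f) ∧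
      ∀ H : GI, (∀ v, (H.graph.induce {v}ᶜ).Connected) →
        (IsOCI (f H).graph ↔ TwoPage H.graph) := by
  set f : GI → GI := fun H => ⟨H.n + 1 + H.E.length * (K1 H.n + 1), redE H.n (K1 H.n) H.E,
    (hVal H.n (K1 H.n) H.E H.lt H.nodup).1, (hVal H.n (K1 H.n) H.E H.lt H.nodup).2⟩ with hf
  refine ⟨f, hTM _ fun H => ⟨rfl, rfl⟩, fun H hconn => ?_⟩
  obtain ⟨a, b, hab, hsim, hHG, ⟨φ⟩⟩ := hIso H (f H) rfl rfl
  have hK : K1 H.n + 1 = (H.n + 2) ^ 8 := by
    unfold K1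
    exact Nat.sub_add_cancel (Nat.one_le_pow _ _ (by omega))
  have hk : (H.n + 2) ^ 8 ≤ K1 H.n + 1 := hK.ge
  have hk2 : 2 ≤ K1 H.n + 1 := by
    rw [hK]
    calc 2 ≤ 2 ^ 8 := by norm_num
      _ ≤ (H.n + 2) ^ 8 := Nat.pow_le_pow_left (by omega) 8
  have h1 : TwoPage H.graph ↔
      ∃ (pos : Fin H.n → ℝ) (page : Fin H.E.length → Bool), Function.Injective pos ∧
        NC a b pos page := by
    rw [← hHG]
    exact hTwoP _ _ a b hab hsim
  rw [h1]
  constructor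
  · intro h
    refine no_dir hAlg hNorm hSide hPage _ _ _ a b hk2 hab ?_ (IsOCI_iso φ.symm h)
    rw [hHG]
    exact hconn
  · rintro ⟨pos, page, hp, hnc⟩
    exact IsOCI_iso φ (hYes _ _ _ a b pos page hk hab hsim hp hnc)

end Pool.Agent.Helper79.OC
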