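import Pool.Agent.Helper79.OC.St

/-!
# MP_8ec342_lc, module Cross: two paths in the upper half-plane with alternating ends meet
-/

set_option autoImplicit false

open Complex Set

namespace Pool.Agent.Helper79.OC

/-- `arg` is continuous on the closed upper half-plane without `0`. -/
theorem Cross_arg {η : ℝ → ℂ} (hη : Continuous η) (him : ∀ t, 0 ≤ (η t).im) (h0 : ∀ t, η t ≠ 0) :
    Continuous (fun t => arg (η t)) := by
  rw [continuous_iff_continuousAt]
  intro t
  by_cases hs : η t ∈ slitPlane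
  · exact (continuousAt_arg hs).comp hη.continuousAt
  · rw [mem_slitPlane_iff, not_or, not_not, not_lt] at hs
    have hre : (η t).re < 0 := by
      rcases lt_or_eq_of_le hs.1 with h | h
      · exact h
      · exact absurd (Complex.ext h hs.2) (h0 t)
    have h1 := continuousWithinAt_arg_of_re_neg_of_im_zero hre hs.2
    have h2 : Filter.Tendsto η (nhds t) (nhdsWithin (η t) {z : ℂ | 0 ≤ z.im}) :=
      tendsto_nhdsWithin_iff.2 ⟨hη.continuousAt, Filter.Eventually.of_forall him⟩
    exact h1.tendsto.comp h2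

/-- A lift through `exp` of a path in the closed upper half-plane. -/
theorem Cross_lift {η l : ℝ → ℂ} (hη : Continuous η) (him : ∀ t, 0 ≤ (η t).im)
    (hl : Continuous l) (he : ∀ t, exp (l t) = η t) :
    (l 1).im - (l 0).im = arg (η 1) - arg (η 0) := by
  have h0 : ∀ t, η t ≠ 0 := fun t => by rw [← he t]; exact exp_ne_zero _
  have h1 : ∀ t, ∃ n : ℤ, (n : ℝ) = ((l t).im - arg (η t)) / (2 * Real.pi) := by
    intro t
    have h2 : exp (l t) = exp (log (η t)) := by rw [exp_log (h0 t), he t]
    obtain ⟨n, hn⟩ := exp_eq_exp_iff_exists_int.1 h2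
    refine ⟨n, ?_⟩
    have h3 : (l t).im = arg (η t) + n * (2 * Real.pi) := by
      rw [hn]
      simp [log_im]
    rw [h3]
    have := Real.pi_ne_zero
    field_simp
    ring
  choose n hn using h1
  have hc : Continuous (fun t => ((n t : ℤ) : ℝ)) := by
    simp only [hn]
    exact ((continuous_im.comp hl).sub (Cross_arg hη him h0)).div_const _
  have hc' : Continuous n := Int.isClosedEmbedding_coe_real.isInducing.continuous_iff.2 hc
  have h4 : n 1 = n 0 := PreconnectedSpace.constant inferInstance hc'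
  have h5 := hn 1
  have h6 := hn 0
  rw [h4, h6] at h5
  have h7 := Real.pi_pos
  field_simp at h5
  linarith

theorem Cross_main : StCross := by
  intro S T hS hT a b c d hab hbc hcd hjS hjT
  by_contra hne
  rw [not_nonempty_iff_eq_empty] at hne
  set γ := hjS.somePath
  set δ := hjT.somePath
  have hγ : ∀ t, γ.extend t ∈ S := fun t => hjS.somePath_mem _
  have hδ : ∀ t, δ.extend t ∈ T := fun t => hjT.somePath_mem _
  have hFne : ∀ q : ℝ × ℝ, γ.extend q.1 - δ.extend q.2 ∈ ({0}ᶜ : Set ℂ) := by
    intro q h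
    have h1 : γ.extend q.1 = δ.extend q.2 := sub_eq_zero.1 h
    have h2 : γ.extend q.1 ∈ S ∩ T := ⟨hγ _, h1 ▸ hδ _⟩
    rw [hne] at h2
    exact h2
  obtain ⟨L, ⟨-, hL⟩, -⟩ := isCoveringMapOn_exp.existsUnique_continuousMap_lifts
    (A := ℝ × ℝ) (⟨fun q : ℝ × ℝ => γ.extend q.1 - δ.extend q.2, by fun_prop⟩ : C(ℝ × ℝ, ℂ))
    (a₀ := ((0 : ℝ), (0 : ℝ))) (e₀ := log (γ.extend 0 - δ.extend 0))
    (exp_log (hFne (0, 0))) hFne
  have hL' : ∀ s t : ℝ, exp (L (s, t)) = γ.extend s - δ.extend t := fun s t => congrFun hL (s, t)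
  have g0 : γ.extend 0 = (a : ℂ) := γ.extend_zero
  have g1 : γ.extend 1 = (c : ℂ) := γ.extend_one
  have d0 : δ.extend 0 = (b : ℂ) := δ.extend_zero
  have d1 : δ.extend 1 = (d : ℂ) := δ.extend_one
  have hpi : exp ((Real.pi : ℂ) * I) = -1 := exp_pi_mul_I
  have e1 := Cross_lift (η := fun s => γ.extend s - (b : ℂ)) (l := fun s => L (s, 0))
    (by fun_prop) (fun s => by
      have := hS _ (hγ s)
      simpa using this) (by fun_prop) (fun s => by rw [hL', d0])
  have e3 := Cross_lift (η := fun s => γ.extend s - (d : ℂ)) (l := fun s => L (s, 1))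
    (by fun_prop) (fun s => by
      have := hS _ (hγ s)
      simpa using this) (by fun_prop) (fun s => by rw [hL', d1])
  have e2 := Cross_lift (η := fun t => δ.extend t - (c : ℂ))
    (l := fun t => L (1, t) + (Real.pi : ℂ) * I)
    (by fun_prop) (fun s => by
      have := hT _ (hδ s)
      simpa using this) (by fun_prop) (fun s => by rw [exp_add, hpi, hL', g1]; ring)
  have e4 := Cross_lift (η := fun t => δ.extend t - (a : ℂ))
    (l := fun t => L (0, t) + (Real.pi : ℂ) * I)
    (by fun_prop) (fun s => by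
      have := hT _ (hδ s)
      simpa using this) (by fun_prop) (fun s => by rw [exp_add, hpi, hL', g0]; ring)
  simp only [g0, g1, d0, d1, add_im] at e1 e2 e3 e4
  have p1 : ∀ x y : ℝ, x < y → arg ((y : ℂ) - (x : ℂ)) = 0 := by
    intro x y hxy
    rw [← ofReal_sub]
    exact arg_ofReal_of_nonneg (by linarith)
  have p2 : ∀ x y : ℝ, x < y → arg ((x : ℂ) - (y : ℂ)) = Real.pi := by
    intro x y hxy
    rw [← ofReal_sub]
    exact arg_ofReal_of_neg (by linarith)
  rw [p1 b c hbc, p2 a b hab] at e1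
  rw [p1 c d hcd, p2 b c hbc] at e2
  rw [p2 c d hcd, p2 a d (by linarith)] at e3
  rw [p1 a d (by linarith), p1 a b hab] at e4
  have := Real.pi_pos
  linarith

end Pool.Agent.Helper79.OC
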