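import Mathlib

/-!
# MP_8ec342_lc: recognition of orthogonal circle intersection graphs is NP-hard, definitions
-/

set_option autoImplicit false

open Metric

namespace Pool.Agent.Helper79.OC

/-- `G` is an orthogonal circle intersection graph: there are circles in the plane (centre `c v`,
radius `r v > 0`), one for each vertex, such that the circles of adjacent vertices are orthogonal
and the circles of distinct non-adjacent vertices are disjoint (as point sets). -/
def IsOCI {V : Type} (G : SimpleGraph V) : Prop :=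
  ∃ (c : V → EuclideanSpace ℝ (Fin 2)) (r : V → ℝ), (∀ v, 0 < r v) ∧
    ∀ u v, u ≠ v →
      (G.Adj u v → r u ^ 2 + r v ^ 2 = dist (c u) (c v) ^ 2) ∧
      (¬ G.Adj u v → Disjoint (sphere (c u) (r u)) (sphere (c v) (r v)))

/-- `H` has a book embedding with two pages: the vertices can be put on a line (the spine, order
given by `pos`) and the edges distributed to two pages so that no two edges on the same page
cross, i.e. have alternating ends. -/
def TwoPage {V : Type} (H : SimpleGraph V) : Prop :=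
  ∃ (pos : V → ℕ) (page : Sym2 V → Bool), Function.Injective pos ∧
    ∀ a b c d, H.Adj a b → H.Adj c d → pos a < pos c → pos c < pos b → pos b < pos d →
      page s(a, b) ≠ page s(c, d)

/-- A finite graph, given explicitly by the number `n` of its vertices `0, ..., n - 1` and the
list of its edges `(i, j)`, `i < j`, without repetitions. -/
structure GI where
  n : ℕ
  E : List (ℕ × ℕ)
  lt : ∀ e ∈ E, e.1 < e.2 ∧ e.2 < n
  nodup : E.Nodup

namespace GI

/-- the graph -/
def graph (H : GI) : SimpleGraph (Fin H.n) where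
  Adj i j := (i.1, j.1) ∈ H.E ∨ (j.1, i.1) ∈ H.E
  symm := ⟨fun _ _ h => h.symm⟩
  loopless := ⟨fun _ h => by
    rcases h with h | h
    · exact absurd (H.lt _ h).1 (lt_irrefl _)
    · exact absurd (H.lt _ h).1 (lt_irrefl _)⟩

/-- Binary code of a list of edges: for every edge a `1` followed by its two ends, each in unary
and closed by a `0`. -/
def codeE (E : List (ℕ × ℕ)) : List Bool :=
  E.flatMap (fun e => true :: (List.replicate e.1 true ++ false ::
    (List.replicate e.2 true ++ [false])))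

/-- Binary code of a graph: the number of vertices in unary, a `0`, then the edges. -/
def code (H : GI) : List Bool :=
  List.replicate H.n true ++ false :: codeE H.E

end GI

/-! ## the graph of the reduction -/

/-- vertices: the special vertex `p`, the vertices `s v`, and `k` vertices `c e i` for every edge -/
inductive Vx (n m k : ℕ)
  | p : Vx n m k
  | s (v : Fin n) : Vx n m k
  | c (e : Fin m) (i : Fin k) : Vx n m k
  deriving DecidableEq

/-- adjacency -/
def radj {n m k : ℕ} (a b : Fin m → Fin n) : Vx n m k → Vx n m k → Prop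
  | .p, .s _ => True
  | .s _, .p => True
  | .s v, .c e i => (v = a e ∧ i.1 = 0) ∨ (v = b e ∧ i.1 + 1 = k)
  | .c e i, .s v => (v = a e ∧ i.1 = 0) ∨ (v = b e ∧ i.1 + 1 = k)
  | .c e i, .c f j => e = f ∧ (i.1 + 1 = j.1 ∨ j.1 + 1 = i.1)
  | _, _ => False

/-- The graph of the reduction: every edge of the graph with the edges `a e, b e` is replaced by a
path with `k` inner vertices, and `p` is joined to all old vertices. -/
def RG (n m k : ℕ) (a b : Fin m → Fin n) : SimpleGraph (Vx n m k) where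
  Adj := radj a b
  symm := ⟨by
    intro x y h
    cases x <;> cases y <;> simp only [radj] at h ⊢ <;> try exact h
    exact ⟨h.1.symm, h.2.symm⟩⟩
  loopless := ⟨by
    intro x h
    cases x <;> simp only [radj] at h
    omega⟩

/-- the graph with the edges `a e, b e` -/
def HG (n m : ℕ) (a b : Fin m → Fin n) : SimpleGraph (Fin n) :=
  SimpleGraph.fromRel (fun u v => ∃ e, a e = u ∧ b e = v)

/-- no two edges on the same page cross -/
def NC {n m : ℕ} (a b : Fin m → Fin n) (pos : Fin n → ℝ) (page : Fin m → Bool) : Prop :=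
  ∀ e f, page e = page f → ∀ u v w z,
    ((u = a e ∧ v = b e) ∨ (u = b e ∧ v = a e)) → ((w = a f ∧ z = b f) ∨ (w = b f ∧ z = a f)) →
      pos u < pos w → pos w < pos v → pos v < pos z → False

/-- a realization by circles with centres `(x v, y v)` and radii `r v`, algebraic form -/
def Rz {V : Type} (G : SimpleGraph V) (x y r : V → ℝ) : Prop :=
  (∀ v, 0 < r v) ∧ ∀ u v, u ≠ v →
    (G.Adj u v → (x u - x v) ^ 2 + (y u - y v) ^ 2 = r u ^ 2 + r v ^ 2) ∧
    (¬ G.Adj u v → 2 * r u * r v < |r u ^ 2 + r v ^ 2 - ((x u - x v) ^ 2 + (y u - y v) ^ 2)|)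

/-- a realization in which `p` is the line `y = 0` and `s` is the line `x = 0` -/
structure NRz {V : Type} (G : SimpleGraph V) (p s : V) (x y r : V → ℝ) : Prop where
  pos : ∀ v, v ≠ p → v ≠ s → 0 < r v
  hp1 : ∀ v, v ≠ p → v ≠ s → G.Adj p v → y v = 0
  hp2 : ∀ v, v ≠ p → v ≠ s → ¬ G.Adj p v → r v < |y v|
  hs1 : ∀ v, v ≠ p → v ≠ s → G.Adj s v → x v = 0
  hs2 : ∀ v, v ≠ p → v ≠ s → ¬ G.Adj s v → r v < |x v|
  adj : ∀ u v, u ≠ p → u ≠ s → v ≠ p → v ≠ s → u ≠ v → G.Adj u v →
    (x u - x v) ^ 2 + (y u - y v) ^ 2 = r u ^ 2 + r v ^ 2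
  nadj : ∀ u v, u ≠ p → u ≠ s → v ≠ p → v ≠ s → u ≠ v → ¬ G.Adj u v →
    2 * r u * r v < |r u ^ 2 + r v ^ 2 - ((x u - x v) ^ 2 + (y u - y v) ^ 2)|

/-- a realization as in `NRz` with everything that does not meet `s` in `x > 0`, and without
nested circles -/
structure GRz {V : Type} (G : SimpleGraph V) (p s : V) (x y r : V → ℝ) : Prop extends
    NRz G p s x y r where
  right : ∀ v, v ≠ p → v ≠ s → ¬ G.Adj s v → r v < x v
  disj : ∀ u v, u ≠ p → u ≠ s → v ≠ p → v ≠ s → u ≠ v → ¬ G.Adj u v →
    (r u + r v) ^ 2 < (x u - x v) ^ 2 + (y u - y v) ^ 2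

/-- the points that carry the circles `s v`: on a circle of radius a bit larger than `1`, in the
order given by `pos` -/
structure Pt (n : ℕ) (ε : ℝ) (pos : Fin n → ℕ) (X Y : Fin n → ℝ) : Prop where
  c1 : ∀ v, X v ^ 2 + Y v ^ 2 = 1 + ε ^ 2
  c2 : ∀ v, 0 ≤ X v ∧ 0 ≤ Y v ∧ 1 ≤ X v + Y v
  c3 : ∀ v w, v ≠ w → (1 / (n : ℝ)) ^ 2 ≤ (X v - X w) ^ 2 + (Y v - Y w) ^ 2 ∧
      (X v - X w) ^ 2 + (Y v - Y w) ^ 2 ≤ (17 / 8) ^ 2
  c4 : ∀ u v w, pos u < pos v → pos v < pos w →
      1 / (n : ℝ) ^ 3 ≤ (X v - X u) * (Y w - Y u) - (Y v - Y u) * (X w - X u)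

/-- length of the chord `e` -/
noncomputable def len {n m : ℕ} (a b : Fin m → Fin n) (X Y : Fin n → ℝ) (e : Fin m) : ℝ :=
  Real.sqrt ((X (a e) - X (b e)) ^ 2 + (Y (a e) - Y (b e)) ^ 2)

/-- distance of the centre of the circle number `i` of a path from the beginning of the chord -/
noncomputable def tt (ε ρ : ℝ) (i : ℕ) : ℝ :=
  Real.sqrt (ε ^ 2 + ρ ^ 2) + Real.sqrt 2 * ρ * i

/-- coordinate (for `Z = X` or `Z = Y`) of the centre of the circle number `i` of the path `e` -/
noncomputable def ctr {n m k : ℕ} (a b : Fin m → Fin n) (X Y : Fin n → ℝ) (ε : ℝ) (R : Fin m → ℝ)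
    (Z : Fin n → ℝ) (e : Fin m) (i : Fin k) : ℝ :=
  Z (a e) + (Z (b e) - Z (a e)) * (tt ε (R e) i / len a b X Y e)

/-- walks avoiding `x` and the neighbours of `x` (except possibly for the starting point) -/
def Rch {V : Type} (G : SimpleGraph V) (x : V) : V → V → Prop :=
  Relation.ReflTransGen (fun u v => G.Adj u v ∧ v ≠ x ∧ ¬ G.Adj x v)

/-! ## the reduction on codes -/

/-- the edges of the path that replaces `e`: first inner vertex `cur`, last inner vertex
`cur + k1` -/
def edgeOut (k1 cur : ℕ) (e : ℕ × ℕ) : List (ℕ × ℕ) :=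
  (e.1 + 1, cur) :: ((List.range k1).map (fun t => (cur + t, cur + t + 1)) ++
    [(e.2 + 1, cur + k1)])

/-- all paths -/
def outs (k1 : ℕ) : ℕ → List (ℕ × ℕ) → List (ℕ × ℕ)
  | _, [] => []
  | cur, e :: l => edgeOut k1 cur e ++ outs k1 (cur + k1 + 1) l

/-- all edges of the reduction -/
def redE (n k1 : ℕ) (E : List (ℕ × ℕ)) : List (ℕ × ℕ) :=
  (List.range n).map (fun v => (0, v + 1)) ++ outs k1 (n + 1) E

/-- the number of inner vertices of every path, minus one -/
def K1 (n : ℕ) : ℕ := (n + 2) ^ 8 - 1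

end Pool.Agent.Helper79.OC
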