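import Pool.Agent.Helper79.OC.Tab

/-!
# Arrangements of orthogonal circles: gluing, part A (links, forests, the weight `L`)
-/

set_option autoImplicit false
set_option linter.unusedSectionVars false

open Finset

namespace Pool.Agent.Helper56.OC

namespace PArr

variable {ι : Type} [DecidableEq ι] (A : PArr ι)

/-! ## Links -/

omit [DecidableEq ι] in
theorem mlk {V : Finset ι} {i j : ι} : j ∈ A.lk V i ↔ j ∈ V ∧ A.orth i j := by
  classical
  unfold lk; rw [mem_filter]

theorem lk_sub (V : Finset ι) (v : ι) : A.lk V v ⊆ V := fun _ hj => ((A.mlk).1 hj).1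

theorem lk_mono {V V' : Finset ι} (h : V' ⊆ V) (v : ι) : A.lk V' v ⊆ A.lk V v := by
  intro j hj
  rw [mlk] at hj ⊢
  exact ⟨h hj.1, hj.2⟩

theorem notMem_lk (V : Finset ι) (v : ι) : v ∉ A.lk V v := fun h => A.irrefl v ((A.mlk).1 h).2

theorem mem_lk_comm {V : Finset ι} {v w : ι} (hv : v ∈ V) (h : w ∈ A.lk V v) : v ∈ A.lk V w := by
  rw [mlk] at h ⊢
  exact ⟨hv, A.symm h.2⟩

theorem NoE.symm {X Y : Finset ι} (h : A.NoE X Y) : A.NoE Y X :=
  fun y hy x hx hor => h x hx y hy (A.symm hor)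

theorem NoE.mono {X Y X' Y' : Finset ι} (h : A.NoE X Y) (hX : X' ⊆ X) (hY : Y' ⊆ Y) :
    A.NoE X' Y' := fun x hx y hy => h x (hX hx) y (hY hy)

theorem lk_union (V₁ V₂ : Finset ι) (v : ι) :
    A.lk (V₁ ∪ V₂) v = A.lk V₁ v ∪ A.lk V₂ v := by
  ext j
  rw [mlk, mem_union, mem_union, mlk, mlk]
  tauto

theorem lk_inter (V₁ V₂ : Finset ι) (v : ι) :
    A.lk (V₁ ∩ V₂) v = A.lk V₁ v ∩ A.lk V₂ v := by
  ext j
  rw [mlk, mem_inter, mem_inter, mlk, mlk]
  tauto

theorem lk_left {V₁ V₂ : Finset ι} (h : A.NoE (V₁ \ V₂) (V₂ \ V₁)) {v : ι} (hv : v ∈ V₁)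
    (hv' : v ∉ V₂) : A.lk (V₁ ∪ V₂) v = A.lk V₁ v := by
  ext j
  rw [mlk, mlk, mem_union]
  constructor
  · rintro ⟨hj | hj, hor⟩
    · exact ⟨hj, hor⟩
    · by_cases hj1 : j ∈ V₁
      · exact ⟨hj1, hor⟩
      · exact absurd hor (h v (mem_sdiff.2 ⟨hv, hv'⟩) j (mem_sdiff.2 ⟨hj, hj1⟩))
  · rintro ⟨hj, hor⟩
    exact ⟨Or.inl hj, hor⟩

theorem lk_right {V₁ V₂ : Finset ι} (h : A.NoE (V₁ \ V₂) (V₂ \ V₁)) {v : ι} (hv : v ∈ V₂)
    (hv' : v ∉ V₁) : A.lk (V₁ ∪ V₂) v = A.lk V₂ v := by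
  rw [union_comm]
  exact A.lk_left (NoE.symm A h) hv hv'

/-- the link inside a union of two sets without pairs between them -/
theorem lk_dl {K₁ K₂ : Finset ι} (hd : Disjoint K₁ K₂) (h : A.NoE K₁ K₂) {v : ι} (hv : v ∈ K₁) :
    A.lk (K₁ ∪ K₂) v = A.lk K₁ v := by
  apply A.lk_left _ hv (disjoint_left.1 hd hv)
  rwa [sdiff_eq_self_of_disjoint hd, sdiff_eq_self_of_disjoint hd.symm]

theorem lk_dr {K₁ K₂ : Finset ι} (hd : Disjoint K₁ K₂) (h : A.NoE K₁ K₂) {v : ι} (hv : v ∈ K₂) :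
    A.lk (K₁ ∪ K₂) v = A.lk K₂ v := by
  rw [union_comm]
  exact A.lk_dl hd.symm (NoE.symm A h) hv

/-! ## Number of edges -/

theorem ee_union {K₁ K₂ : Finset ι} (hd : Disjoint K₁ K₂) (h : A.NoE K₁ K₂) :
    A.ee (K₁ ∪ K₂) = A.ee K₁ + A.ee K₂ := by
  unfold ee
  rw [sum_union hd]
  congr 1
  · exact sum_congr rfl fun v hv => by rw [A.lk_dl hd h hv]
  · exact sum_congr rfl fun v hv => by rw [A.lk_dr hd h hv]

theorem lk_insert (V : Finset ι) (x v : ι) :
    (open Classical in A.lk (insert x V) v = if A.orth v x then insert x (A.lk V v) else A.lk V v) := by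
  classical
  ext j
  rw [mlk, mem_insert]
  split_ifs with h
  · rw [mem_insert, mlk]
    constructor
    · rintro ⟨rfl | hj, hor⟩
      · exact Or.inl rfl
      · exact Or.inr ⟨hj, hor⟩
    · rintro (rfl | ⟨hj, hor⟩)
      · exact ⟨Or.inl rfl, h⟩
      · exact ⟨Or.inr hj, hor⟩
  · rw [mlk]
    constructor
    · rintro ⟨rfl | hj, hor⟩
      · exact absurd hor h
      · exact ⟨hj, hor⟩
    · rintro ⟨hj, hor⟩
      exact ⟨Or.inr hj, hor⟩

theorem lk_insert_self (V : Finset ι) (x : ι) : A.lk (insert x V) x = A.lk V x := by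
  classical
  rw [A.lk_insert, if_neg (A.irrefl x)]

theorem ee_insert {K : Finset ι} {x : ι} (hx : x ∉ K) :
    A.ee (insert x K) = A.ee K + 2 * (A.lk K x).card := by
  classical
  unfold ee
  rw [sum_insert hx, A.lk_insert_self]
  have h1 : ∀ v ∈ K, (A.lk (insert x K) v).card = (A.lk K v).card +
      (if A.orth v x then 1 else 0) := by
    intro v hv
    rw [A.lk_insert]
    split_ifs with h
    · rw [card_insert_of_notMem]
      exact fun h' => hx (A.lk_sub K v h')
    · rfl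
  rw [sum_congr rfl h1, sum_add_distrib, sum_boole]
  have h2 : K.filter (fun v => A.orth v x) = A.lk K x := by
    ext j
    rw [mem_filter, mlk]
    exact ⟨fun h => ⟨h.1, A.symm h.2⟩, fun h => ⟨h.1, A.symm h.2⟩⟩
  rw [h2]
  simp only [Nat.cast_id]
  ring

theorem ee_even (K : Finset ι) : ∃ m : ℕ, A.ee K = 2 * m := by
  classical
  induction K using Finset.induction_on with
  | empty => exact ⟨0, by unfold ee; simp⟩
  | insert x K hx ih =>
    obtain ⟨m, hm⟩ := ih
    exact ⟨m + (A.lk K x).card, by rw [A.ee_insert hx, hm]; ring⟩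

theorem ch_union {K₁ K₂ : Finset ι} (hd : Disjoint K₁ K₂) (h : A.NoE K₁ K₂) :
    A.ch (K₁ ∪ K₂) = A.ch K₁ + A.ch K₂ := by
  unfold ch
  rw [A.ee_union hd h, card_union_of_disjoint hd]
  push_cast
  ring

theorem mem_iso {K : Finset ι} {v : ι} : v ∈ A.iso K ↔ v ∈ K ∧ (A.lk K v).card = 0 := by
  classical
  unfold iso; rw [mem_filter]

theorem iso_union {K₁ K₂ : Finset ι} (hd : Disjoint K₁ K₂) (h : A.NoE K₁ K₂) :
    (A.iso (K₁ ∪ K₂)).card = (A.iso K₁).card + (A.iso K₂).card := by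
  classical
  have hs1 : A.iso K₁ ⊆ K₁ := fun v hv => ((A.mem_iso).1 hv).1
  have hs2 : A.iso K₂ ⊆ K₂ := fun v hv => ((A.mem_iso).1 hv).1
  rw [← card_union_of_disjoint (disjoint_of_subset_left hs1 (disjoint_of_subset_right hs2 hd))]
  congr 1
  ext v
  rw [mem_iso, mem_union, mem_union, mem_iso, mem_iso]
  constructor
  · rintro ⟨hv | hv, h0⟩
    · rw [A.lk_dl hd h hv] at h0; exact Or.inl ⟨hv, h0⟩
    · rw [A.lk_dr hd h hv] at h0; exact Or.inr ⟨hv, h0⟩
  · rintro (⟨hv, h0⟩ | ⟨hv, h0⟩)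
    · exact ⟨Or.inl hv, by rw [A.lk_dl hd h hv]; exact h0⟩
    · exact ⟨Or.inr hv, by rw [A.lk_dr hd h hv]; exact h0⟩

/-! ## Forests -/

theorem Fst.sub {K K' : Finset ι} (h : A.Fst K) (hs : K' ⊆ K) : A.Fst K' :=
  ⟨fun v hv => le_trans (card_le_card (A.lk_mono hs v)) (h.1 v (hs hv)),
    fun K'' hK hne => h.2 K'' (hK.trans hs) hne⟩

theorem Fst.ee_le {K : Finset ι} (h : A.Fst K) (hne : K.Nonempty) : A.ee K + 2 ≤ 2 * K.card := by
  induction K using Finset.strongInduction with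
  | H K ih =>
    obtain ⟨v, hv, hd⟩ := h.2 K (Subset.refl K) hne
    have hv' : v ∉ K.erase v := notMem_erase v K
    have e : A.ee K = A.ee (K.erase v) + 2 * (A.lk (K.erase v) v).card := by
      conv_lhs => rw [← insert_erase hv]
      exact A.ee_insert hv'
    have hc : (K.erase v).card + 1 = K.card := card_erase_add_one hv
    have hd' : (A.lk (K.erase v) v).card ≤ 1 :=
      le_trans (card_le_card (A.lk_mono (erase_subset v K) v)) hd
    by_cases h0 : (K.erase v).Nonempty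
    · have := ih (K.erase v) (erase_ssubset hv) (Fst.sub A h (erase_subset v K)) h0
      omega
    · rw [not_nonempty_iff_eq_empty] at h0
      rw [h0] at e hd' hc
      have e1 : A.ee (∅ : Finset ι) = 0 := by unfold ee; simp
      have e2 : (A.lk (∅ : Finset ι) v).card = 0 := by
        rw [card_eq_zero, eq_empty_iff_forall_notMem]
        intro j hj
        exact absurd ((A.mlk).1 hj).1 (notMem_empty j)
      rw [e1, e2] at e
      rw [card_empty] at hc
      omega

/-- the nonisolated elements carry all edges -/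
theorem ee_nonIso (K : Finset ι) : A.ee (K \ A.iso K) = A.ee K ∧
    (K \ A.iso K).card + (A.iso K).card = K.card ∧ (K \ A.iso K).card ≤ A.ee K := by
  classical
  have hsub : A.iso K ⊆ K := fun v hv => ((A.mem_iso).1 hv).1
  have hN : A.NoE (K \ A.iso K) (A.iso K) := by
    intro x hx y hy hor
    rw [mem_iso] at hy
    have : x ∈ A.lk K y := (A.mlk).2 ⟨(mem_sdiff.1 hx).1, A.symm hor⟩
    rw [card_eq_zero.1 hy.2] at this
    exact notMem_empty x this
  have hd : Disjoint (K \ A.iso K) (A.iso K) := sdiff_disjoint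
  have e := A.ee_union hd hN
  rw [sdiff_union_of_subset hsub] at e
  have e2 : A.ee (A.iso K) = 0 := by
    unfold ee
    apply sum_eq_zero
    intro v hv
    have h1 := ((A.mem_iso).1 hv).2
    rw [card_eq_zero] at h1 ⊢
    rw [eq_empty_iff_forall_notMem] at h1 ⊢
    exact fun j hj => h1 j (A.lk_mono hsub v hj)
  have e3 : (K \ A.iso K).card + (A.iso K).card = K.card := card_sdiff_add_card_eq_card hsub
  refine ⟨by omega, e3, ?_⟩
  have e4 : A.ee K = ∑ v ∈ K \ A.iso K, (A.lk K v).card + ∑ v ∈ A.iso K, (A.lk K v).card := by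
    unfold ee
    rw [sum_sdiff hsub]
  have e5 : (K \ A.iso K).card ≤ ∑ v ∈ K \ A.iso K, (A.lk K v).card := by
    rw [card_eq_sum_ones]
    apply sum_le_sum
    intro v hv
    rw [mem_sdiff, mem_iso] at hv
    have : (A.lk K v).card ≠ 0 := fun h => hv.2 ⟨hv.1, h⟩
    omega
  omega

/-- Numerical facts on a nonempty forest. -/
structure NF (G a t : ℚ) : Prop where
  a1 : a = 1 ∨ a = 2 ∨ 3 ≤ a
  t0 : t = 0 ∨ 1 ≤ t
  ta : (t = a ∧ G = a) ∨ t + 1 ≤ a
  g : 2 * a - t ≤ G
  gi : G = 1 ∨ G = 2 ∨ G = 3 ∨ G = 4 ∨ 5 ≤ G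

theorem Fst.nf {K : Finset ι} (h : A.Fst K) (hne : K.Nonempty) :
    NF K.card (A.ch K) (A.iso K).card := by
  obtain ⟨m, hm⟩ := A.ee_even K
  have h1 := Fst.ee_le A h hne
  obtain ⟨h2, h3, h4⟩ := A.ee_nonIso K
  have hm' : m + 1 ≤ K.card := by omega
  obtain ⟨c, hc⟩ : ∃ c : ℕ, K.card = m + 1 + c := ⟨K.card - (m + 1), by omega⟩
  have hch : A.ch K = (c : ℚ) + 1 := by
    unfold ch
    rw [hm, hc]; push_cast; ring
  have hcard : (K.card : ℚ) = (m : ℚ) + 1 + c := by rw [hc]; push_cast; ring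
  refine ⟨?_, ?_, ?_, ?_, ?_⟩
  · rw [hch]
    rcases Nat.lt_or_ge c 2 with h5 | h5
    · interval_cases c
      · left; norm_num
      · right; left; norm_num
    · right; right
      have : (2 : ℚ) ≤ c := by exact_mod_cast h5
      linarith
  · rcases Nat.eq_zero_or_pos (A.iso K).card with h5 | h5
    · left; rw [h5]; norm_num
    · right; exact_mod_cast h5
  · rw [hch, hcard]
    by_cases h0 : (K \ A.iso K).Nonempty
    · right
      have h5 := Fst.ee_le A (Fst.sub A h sdiff_subset) h0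
      rw [h2] at h5
      have h6 : (A.iso K).card ≤ c := by omega
      have : ((A.iso K).card : ℚ) ≤ c := by exact_mod_cast h6
      linarith
    · left
      rw [not_nonempty_iff_eq_empty] at h0
      rw [h0, card_empty] at h3
      rw [h0] at h2
      have e1 : A.ee (∅ : Finset ι) = 0 := by unfold ee; simp
      have hm0 : m = 0 := by omega
      subst hm0
      have : (A.iso K).card = c + 1 := by omega
      rw [this]
      push_cast
      constructor <;> ring
  · rw [hch, hcard]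
    have h5 : (K \ A.iso K).card + (A.iso K).card = K.card := h3
    have h6 : K.card ≤ 2 * m + (A.iso K).card := by omega
    have : (K.card : ℚ) ≤ 2 * m + (A.iso K).card := by exact_mod_cast h6
    rw [hcard] at this
    linarith
  · have h7 : 1 ≤ K.card := hne.card_pos
    rcases Nat.lt_or_ge K.card 5 with h5 | h5
    · have h8 : K.card = 1 ∨ K.card = 2 ∨ K.card = 3 ∨ K.card = 4 := by omega
      rcases h8 with h8 | h8 | h8 | h8 <;> rw [h8] <;> norm_num
    · right; right; right; right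
      exact_mod_cast h5

/-- A link is a forest or all its degrees are `2` (and then it is minimal). -/
theorem LinkOK.cases {K : Finset ι} (h : A.LinkOK K) :
    A.Fst K ∨ (K.Nonempty ∧ (∀ v ∈ K, (A.lk K v).card = 2) ∧ A.ch K = 0 ∧ (A.iso K).card = 0) := by
  by_cases h0 : K.Nonempty ∧ ∀ v ∈ K, 2 ≤ (A.lk K v).card
  · right
    have h1 : ∀ v ∈ K, (A.lk K v).card = 2 := fun v hv => le_antisymm (h.1 v hv) (h0.2 v hv)
    refine ⟨h0.1, h1, ?_, ?_⟩
    · unfold ch ee
      rw [sum_congr rfl h1, sum_const, smul_eq_mul]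
      push_cast; ring
    · rw [card_eq_zero, eq_empty_iff_forall_notMem]
      intro v hv
      rw [mem_iso] at hv
      rw [h1 v hv.1] at hv
      omega
  · left
    refine ⟨h.1, fun K' hK hne => ?_⟩
    by_cases he : K' = K
    · subst he
      push Not at h0
      obtain ⟨v, hv, h1⟩ := h0 hne
      exact ⟨v, hv, by omega⟩
    · exact h.2 K' hK hne he

theorem LinkOK.sub {K K' : Finset ι} (h : A.LinkOK K) (hs : K' ⊆ K) (hne : K' ≠ K) : A.Fst K' := by
  refine ⟨fun v hv => le_trans (card_le_card (A.lk_mono hs v)) (h.1 v (hs hv)), ?_⟩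
  intro K'' hK hn
  refine h.2 K'' (hK.trans hs) hn ?_
  rintro rfl
  exact hne (subset_antisymm hs hK)

theorem Fst.linkOK {K : Finset ι} (h : A.Fst K) : A.LinkOK K := ⟨h.1, fun K' h1 h2 _ => h.2 K' h1 h2⟩

/-- a disconnected link is a forest -/
theorem LinkOK.fst_union {K₁ K₂ : Finset ι} (h : A.LinkOK (K₁ ∪ K₂)) (hd : Disjoint K₁ K₂)
    (hN : A.NoE K₁ K₂) (h1 : K₁.Nonempty) (h2 : K₂.Nonempty) :
    A.Fst K₁ ∧ A.Fst K₂ ∧ A.Fst (K₁ ∪ K₂) := by
  have e1 : K₁ ≠ K₁ ∪ K₂ := by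
    intro e
    obtain ⟨x, hx⟩ := h2
    exact disjoint_left.1 hd (by rw [e]; exact mem_union_right _ hx) hx
  have e2 : K₂ ≠ K₁ ∪ K₂ := by
    intro e
    obtain ⟨x, hx⟩ := h1
    exact disjoint_left.1 hd hx (by rw [e]; exact mem_union_left _ hx)
  have f1 := LinkOK.sub A h subset_union_left e1
  refine ⟨f1, LinkOK.sub A h subset_union_right e2, ?_⟩
  rcases LinkOK.cases A h with h3 | ⟨-, h3, -, -⟩
  · exact h3
  · exfalso
    obtain ⟨v, hv, hd'⟩ := f1.2 K₁ (Subset.refl _) h1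
    have := h3 v (mem_union_left _ hv)
    rw [A.lk_dl hd hN hv] at this
    omega

/-! ## The weight `L` -/

theorem L_union {V₁ V₂ : Finset ι} (h : A.NoE (V₁ \ V₂) (V₂ \ V₁)) :
    A.L (V₁ ∪ V₂) + A.L (V₁ ∩ V₂) = A.L V₁ + A.L V₂ := by
  classical
  unfold L
  have e1 : A.clqs (V₁ ∪ V₂) = A.clqs V₁ ∪ A.clqs V₂ := by
    ext K
    rw [mem_union, mem_clqs, mem_clqs, mem_clqs]
    constructor
    · rintro ⟨hK, hc⟩
      by_cases h1 : K ⊆ V₁
      · exact Or.inl ⟨h1, hc⟩
      by_cases h2 : K ⊆ V₂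
      · exact Or.inr ⟨h2, hc⟩
      exfalso
      obtain ⟨y, hy, hy'⟩ := not_subset.1 h1
      obtain ⟨x, hx, hx'⟩ := not_subset.1 h2
      have hxV : x ∈ V₁ := (mem_union.1 (hK hx)).resolve_right hx'
      have hyV : y ∈ V₂ := (mem_union.1 (hK hy)).resolve_left hy'
      have hxy : x ≠ y := fun e => hy' (e ▸ hxV)
      exact h x (mem_sdiff.2 ⟨hxV, hx'⟩) y (mem_sdiff.2 ⟨hyV, hy'⟩) (hc x hx y hy hxy)
    · rintro (⟨hK, hc⟩ | ⟨hK, hc⟩)
      · exact ⟨hK.trans subset_union_left, hc⟩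
      · exact ⟨hK.trans subset_union_right, hc⟩
  have e2 : A.clqs (V₁ ∩ V₂) = A.clqs V₁ ∩ A.clqs V₂ := by
    ext K
    rw [mem_inter, mem_clqs, mem_clqs, mem_clqs, subset_inter_iff]
    tauto
  rw [e1, e2, sum_union_inter]

theorem L_clq {V : Finset ι} (h : A.IsClq V) :
    A.L V = ∑ m ∈ range (V.card + 1), (V.card.choose m) • gg m := by
  classical
  unfold L
  have : A.clqs V = V.powerset := by
    ext K
    rw [mem_clqs, mem_powerset]
    exact ⟨fun h' => h'.1, fun h' => ⟨h', fun i hi j hj hij => h i (h' hi) j (h' hj) hij⟩⟩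
  rw [this, sum_powerset_apply_card (fun m => gg m)]

theorem L_empty : A.L ∅ = -12 := by
  rw [A.L_clq (V := ∅) (by intro i hi; exact absurd hi (notMem_empty i))]
  simp [gg]

theorem L_one (x : ι) : A.L {x} = -4 := by
  rw [A.L_clq (V := {x}) (by
    intro i hi j hj hij
    rw [mem_singleton] at hi hj
    exact absurd (hi.trans hj.symm) hij)]
  rw [card_singleton]
  simp [sum_range_succ, gg]

theorem L_insert {V : Finset ι} {x : ι} (hx : x ∉ V) :
    A.L (insert x V) = A.L V + ∑ K ∈ A.clqs (A.lk V x), gg (K.card + 1) := by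
  classical
  unfold L
  have h1 : A.clqs (insert x V) = A.clqs V ∪ (A.clqs (A.lk V x)).image (fun s => insert x s) := by
    ext K
    rw [mem_union, mem_image, mem_clqs, mem_clqs]
    constructor
    · rintro ⟨hK, hc⟩
      by_cases hxK : x ∈ K
      · right
        refine ⟨K.erase x, ?_, insert_erase hxK⟩
        rw [mem_clqs]
        refine ⟨?_, fun i hi j hj hij => hc i (mem_of_mem_erase hi) j (mem_of_mem_erase hj) hij⟩
        intro j hj
        rw [mlk]
        rw [mem_erase] at hj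
        exact ⟨(mem_insert.1 (hK hj.2)).resolve_left hj.1, hc x hxK j hj.2 (Ne.symm hj.1)⟩
      · left
        refine ⟨?_, hc⟩
        intro j hj
        exact (mem_insert.1 (hK hj)).resolve_left (fun h => hxK (h ▸ hj))
    · rintro (⟨hK, hc⟩ | ⟨t, ht, rfl⟩)
      · exact ⟨hK.trans (subset_insert x V), hc⟩
      · rw [mem_clqs] at ht
        refine ⟨?_, ?_⟩
        · apply insert_subset_insert
          exact ht.1.trans (A.lk_sub V x)
        · intro i hi j hj hij
          rw [mem_insert] at hi hj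
          rcases hi with rfl | hi
          · rcases hj with rfl | hj
            · exact absurd rfl hij
            · exact ((A.mlk).1 (ht.1 hj)).2
          · rcases hj with rfl | hj
            · exact A.symm ((A.mlk).1 (ht.1 hi)).2
            · exact ht.2 i hi j hj hij
  have h2 : Disjoint (A.clqs V) ((A.clqs (A.lk V x)).image (fun s => insert x s)) := by
    rw [disjoint_left]
    intro s hs hs'
    rw [mem_image] at hs'
    obtain ⟨t, -, rfl⟩ := hs'
    exact hx (((A.mem_clqs).1 hs).1 (mem_insert_self x t))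
  have hxs : ∀ u ∈ A.clqs (A.lk V x), x ∉ u := fun u hu h =>
    hx (A.lk_sub V x (((A.mem_clqs).1 hu).1 h))
  rw [h1, sum_union h2, sum_image]
  · congr 1
    exact sum_congr rfl fun s hs => by rw [card_insert_of_notMem (hxs s hs)]
  · intro s hs t ht hst
    have := congrArg (fun u => u.erase x) hst
    simp only at this
    rwa [erase_insert (hxs s hs), erase_insert (hxs t ht)] at this

end PArr

end Pool.Agent.Helper56.OC
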