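import Pool.Agent.Helper79.OC.GlueA

/-!
# Arrangements of orthogonal circles: gluing, part B (numerical inequalities)
-/

set_option autoImplicit false
set_option linter.unusedSectionVars false

open Finset

namespace Pool.Agent.Helper56.OC

namespace PArr

theorem NF.bas {G a t : ℚ} (h : NF G a t) : 1 ≤ a ∧ 0 ≤ t ∧ t ≤ a ∧ 2 * a - t ≤ G ∧ a ≤ G := by
  have h1 : 1 ≤ a := by rcases h.a1 with h | h | h <;> linarith
  have h2 : 0 ≤ t := by rcases h.t0 with h | h <;> linarith
  have h3 : t ≤ a := by rcases h.ta with h | h <;> linarith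
  exact ⟨h1, h2, h3, h.g, by linarith [h.g]⟩

/-- one chain -/
theorem NF.one {G a t : ℚ} (h : NF G a t) (ha : a = 1) : (G = 1 ∧ t = 1) ∨ (t = 0 ∧ 2 ≤ G) := by
  rcases h.ta with ⟨h1, h2⟩ | h1
  · left; exact ⟨by linarith, by linarith⟩
  · right
    rcases h.t0 with h2 | h2
    · exact ⟨h2, by linarith [h.g]⟩
    · linarith

theorem NF.gone {G a t : ℚ} (h : NF G a t) (hG : G = 1) : a = 1 ∧ t = 1 := by
  obtain ⟨h1, h2, h3, h4, h5⟩ := h.bas
  have : a = 1 := by linarith
  rcases h.one this with h | h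
  · exact ⟨this, h.2⟩
  · linarith [h.2]

theorem NF.gtwo {G a t : ℚ} (h : NF G a t) (hG : G = 2) : (a = 1 ∧ t = 0) ∨ (a = 2 ∧ t = 2) := by
  obtain ⟨h1, h2, h3, h4, h5⟩ := h.bas
  rcases h.a1 with h6 | h6 | h6
  · left
    rcases h.one h6 with h | h
    · linarith [h.1]
    · exact ⟨h6, h.1⟩
  · right
    exact ⟨h6, by linarith⟩
  · linarith

theorem NF.ne {G a t : ℚ} (h : NF G a t) : a ≠ 0 := by
  have := h.bas.1
  intro h0
  linarith

theorem tf_eq {G a t : ℚ} (h : NF G a t) : tf G a t = min (-4 + G + 2 * a - t / 2) (a + 2) := by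
  unfold tf
  rw [if_neg h.ne]

theorem NF.add {G₁ a₁ t₁ G₂ a₂ t₂ : ℚ} (h₁ : NF G₁ a₁ t₁) (h₂ : NF G₂ a₂ t₂) :
    NF (G₁ + G₂) (a₁ + a₂) (t₁ + t₂) := by
  obtain ⟨b1, b2, b3, b4, b5⟩ := h₁.bas
  obtain ⟨c1, c2, c3, c4, c5⟩ := h₂.bas
  refine ⟨?_, ?_, ?_, by linarith, ?_⟩
  · rcases h₁.a1 with h | h | h
    · rcases h₂.a1 with h' | h' | h'
      · right; left; linarith
      · right; right; linarith
      · right; right; linarith
    · right; right; linarith
    · right; right; linarith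
  · rcases h₁.t0 with h | h
    · rcases h₂.t0 with h' | h'
      · left; linarith
      · right; linarith
    · right; linarith
  · rcases h₁.ta with ⟨h, h'⟩ | h
    · rcases h₂.ta with ⟨k, k'⟩ | k
      · left; exact ⟨by linarith, by linarith⟩
      · right; linarith
    · right; linarith
  · rcases h₁.gi with h | h | h | h | h <;> rcases h₂.gi with h' | h' | h' | h' | h' <;> subst_vars <;>
      first
      | (right; left; norm_num; done)
      | (right; right; left; norm_num; done)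
      | (right; right; right; left; norm_num; done)
      | (right; right; right; right; norm_num; done)
      | (right; right; right; right; linarith)

/-- `f` of a nonempty forest -/
theorem tf_lo {G a t : ℚ} (h : NF G a t) :
    min (G + 2 * a - t / 2) (a + 6) = tf G a t + 4 ∧ min (5 * a / 2) (a + 6) ≤ tf G a t + 4 := by
  obtain ⟨b1, b2, b3, b4, b5⟩ := h.bas
  rw [tf_eq h]
  have e : min (-4 + G + 2 * a - t / 2) (a + 2) + 4 = min (G + 2 * a - t / 2) (a + 6) := by
    rw [← min_add_add_right]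
    congr 1 <;> ring
  rw [e]
  refine ⟨rfl, min_le_min_right _ ?_⟩
  linarith

theorem near0 {G₁ a₁ t₁ G₂ a₂ t₂ : ℚ} (h₁ : NF G₁ a₁ t₁) (h₂ : NF G₂ a₂ t₂) :
    tf (G₁ + G₂) (a₁ + a₂) (t₁ + t₂) ≤ tf G₁ a₁ t₁ + tf G₂ a₂ t₂ + 4 := by
  obtain ⟨b1, b2, b3, b4, b5⟩ := h₁.bas
  obtain ⟨c1, c2, c3, c4, c5⟩ := h₂.bas
  rw [tf_eq (h₁.add h₂), tf_eq h₁, tf_eq h₂]
  have m1 := min_le_left (-4 + (G₁ + G₂) + 2 * (a₁ + a₂) - (t₁ + t₂) / 2) (a₁ + a₂ + 2)
  have m2 := min_le_right (-4 + (G₁ + G₂) + 2 * (a₁ + a₂) - (t₁ + t₂) / 2) (a₁ + a₂ + 2)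
  rcases min_choice (-4 + G₁ + 2 * a₁ - t₁ / 2) (a₁ + 2) with e1 | e1 <;>
    rcases min_choice (-4 + G₂ + 2 * a₂ - t₂ / 2) (a₂ + 2) with e2 | e2 <;>
    rw [e1, e2] <;> linarith

/-- at least two chains: upper bound -/
theorem tc1_le {G a d : ℚ} (ha : 2 ≤ a) (hd : d ≤ 2) : tc1 G a d ≤ 2 + a / 2 - d / 2 := by
  unfold tc1
  rw [if_neg (by linarith), if_neg (by linarith)]
  split_ifs with h1 h2
  · linarith
  · obtain ⟨h3, h4, h5⟩ := h2
    rw [h4, h5]; norm_num
  · linarith

theorem near1 {G₁ a₁ t₁ G₂ a₂ t₂ d : ℚ} (h₁ : NF G₁ a₁ t₁) (h₂ : NF G₂ a₂ t₂)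
    (hd : d = 0 ∨ d = 1 ∨ d = 2) (hd0 : d = 0 → 1 ≤ t₁) :
    tc1 (G₁ + G₂) (a₁ + a₂) d ≤ tc1 G₁ a₁ d + tf G₂ a₂ t₂ + 4 := by
  obtain ⟨b1, b2, b3, b4, b5⟩ := h₁.bas
  obtain ⟨c1, c2, c3, c4, c5⟩ := h₂.bas
  obtain ⟨f1, f2⟩ := tf_lo h₂
  have hd2 : d ≤ 2 := by rcases hd with h | h | h <;> linarith
  have hd00 : 0 ≤ d := by rcases hd with h | h | h <;> linarith
  have hN : tc1 (G₁ + G₂) (a₁ + a₂) d ≤ 2 + (a₁ + a₂) / 2 - d / 2 := tc1_le (by linarith) hd2
  have hf : ∀ x : ℚ, x ≤ 5 * a₂ / 2 → x ≤ a₂ + 6 → x ≤ tf G₂ a₂ t₂ + 4 :=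
    fun x h1 h2 => le_trans (le_min h1 h2) f2
  have hf' : ∀ x : ℚ, x ≤ G₂ + 2 * a₂ - t₂ / 2 → x ≤ a₂ + 6 → x ≤ tf G₂ a₂ t₂ + 4 := by
    intro x h1 h2
    rw [← f1]
    exact le_min h1 h2
  by_cases ha : a₁ = 1
  · rcases h₁.one ha with ⟨hG, ht⟩ | ⟨ht, hG⟩
    · -- link (1)
      have e1 : tc1 G₁ a₁ d = -1 / 2 := by
        unfold tc1
        rw [if_neg (by linarith), if_pos ha, if_pos hG]
      rw [e1]
      by_cases ha2 : a₂ = 1
      · rcases h₂.one ha2 with ⟨hG2, ht2⟩ | ⟨ht2, hG2⟩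
        · have e2 : tc1 (G₁ + G₂) (a₁ + a₂) d = 1 := by
            unfold tc1
            rw [if_neg (by linarith), if_neg (by linarith), if_pos (by linarith)]
          rw [e2]
          have := hf' (5 / 2) (by linarith) (by linarith)
          linarith
        · have := hf' 4 (by linarith) (by linarith)
          linarith
      · have ha3 : 2 ≤ a₂ := by
          rcases h₂.a1 with h | h | h
          · exact absurd h ha2
          · linarith
          · linarith
        have := hf (3 + a₂ / 2) (by linarith) (by linarith)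
        linarith
    · have hd1 : 1 ≤ d := by
        rcases hd with h | h | h
        · linarith [hd0 h]
        · linarith
        · linarith
      have e1 : 0 ≤ tc1 G₁ a₁ d := by
        unfold tc1
        rw [if_neg (by linarith), if_pos ha, if_neg (by linarith)]
        split_ifs <;> norm_num
      have := hf (2 + a₂ / 2) (by linarith) (by linarith)
      linarith
  · have ha2 : 2 ≤ a₁ := by
      rcases h₁.a1 with h | h | h
      · exact absurd h ha
      · linarith
      · linarith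
    unfold tc1 at hN ⊢
    rw [if_neg (by linarith), if_neg (by linarith)] at hN ⊢
    rw [if_neg (by linarith : ¬ a₁ = 0), if_neg (by linarith : ¬ a₁ = 1)]
    by_cases hG : G₁ = 2
    · rw [if_pos hG]
      have := hf (2 + a₂ / 2) (by linarith) (by linarith)
      have : a₁ = 2 := by linarith
      linarith
    · rw [if_neg hG]
      by_cases hc : G₁ = 3 ∧ a₁ = 2 ∧ d = 0
      · rw [if_pos hc]
        have := hf (1 / 2 + a₂ / 2) (by linarith) (by linarith)
        linarith [hc.2.1]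
      · rw [if_neg hc]
        have := hf (a₂ / 2) (by linarith) (by linarith)
        linarith

theorem near2 {G₁ a₁ t₁ G₂ a₂ t₂ : ℚ} (h₁ : NF G₁ a₁ t₁) (h₂ : NF G₂ a₂ t₂) :
    tc2 (G₁ + G₂) (a₁ + a₂) ≤ tc2 G₁ a₁ + tf G₂ a₂ t₂ + 4 := by
  obtain ⟨b1, b2, b3, b4, b5⟩ := h₁.bas
  obtain ⟨c1, c2, c3, c4, c5⟩ := h₂.bas
  obtain ⟨f1, f2⟩ := tf_lo h₂
  have hf : ∀ x : ℚ, x ≤ 5 * a₂ / 2 → x ≤ a₂ + 6 → x ≤ tf G₂ a₂ t₂ + 4 :=
    fun x h1 h2 => le_trans (le_min h1 h2) f2
  unfold tc2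
  rw [if_neg (by linarith), if_neg (by linarith), if_neg (by linarith : ¬ a₁ = 0)]
  have := hf (1 / 2 + a₂ / 2) (by linarith) (by linarith)
  split_ifs <;> linarith

theorem tsp_nonneg (G a : ℚ) : 0 ≤ tsp G a ∧ tsp G a ≤ 1 := by
  unfold tsp; split_ifs <;> norm_num

theorem far0 {G₁ a₁ t₁ G₂ a₂ t₂ : ℚ} (h₁ : NF G₁ a₁ t₁) (h₂ : NF G₂ a₂ t₂) :
    tc0 G₁ a₁ t₁ ≤ tc0 (G₁ + G₂) (a₁ + a₂) (t₁ + t₂) := by
  obtain ⟨b1, b2, b3, b4, b5⟩ := h₁.bas
  obtain ⟨c1, c2, c3, c4, c5⟩ := h₂.bas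
  have s1 := (tsp_nonneg G₁ a₁).1
  unfold tc0
  rw [tf_eq (h₁.add h₂), tf_eq h₁]
  have m1 := min_le_left (-4 + G₁ + 2 * a₁ - t₁ / 2) (a₁ + 2)
  have m2 := min_le_right (-4 + G₁ + 2 * a₁ - t₁ / 2) (a₁ + 2)
  by_cases hs : G₁ + G₂ = 2
  · have g1 : G₁ = 1 := by linarith
    have g2 : G₂ = 1 := by linarith
    obtain ⟨k1, k2⟩ := h₁.gone g1
    obtain ⟨k3, k4⟩ := h₂.gone g2
    have s2 := (tsp_nonneg (G₁ + G₂) (a₁ + a₂)).2
    have : (1 : ℚ) ≤ min (-4 + (G₁ + G₂) + 2 * (a₁ + a₂) - (t₁ + t₂) / 2) (a₁ + a₂ + 2) := by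
      apply le_min <;> rw [k1, k3]
      · rw [g1, g2, k2, k4]; norm_num
      · norm_num
    linarith
  · have s2 : tsp (G₁ + G₂) (a₁ + a₂) = 0 := by
      unfold tsp
      rw [if_neg]
      rintro (⟨-, h⟩ | ⟨h, -⟩)
      · linarith
      · exact hs h
    rw [s2]
    have : min (-4 + G₁ + 2 * a₁ - t₁ / 2) (a₁ + 2) ≤
        min (-4 + (G₁ + G₂) + 2 * (a₁ + a₂) - (t₁ + t₂) / 2) (a₁ + a₂ + 2) := by
      apply min_le_min <;> linarith
    linarith

theorem far1 {G₁ a₁ t₁ G₂ a₂ t₂ d : ℚ} (h₁ : NF G₁ a₁ t₁) (h₂ : NF G₂ a₂ t₂)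
    (hd : d = 0 ∨ d = 1 ∨ d = 2) :
    tc1 G₁ a₁ d ≤ tc1 (G₁ + G₂) (a₁ + a₂) d := by
  obtain ⟨b1, b2, b3, b4, b5⟩ := h₁.bas
  obtain ⟨c1, c2, c3, c4, c5⟩ := h₂.bas
  have hd2 : d ≤ 2 := by rcases hd with h | h | h <;> linarith
  have hd00 : 0 ≤ d := by rcases hd with h | h | h <;> linarith
  unfold tc1
  rw [if_neg (by linarith : ¬ a₁ = 0), if_neg (by linarith : ¬ a₁ + a₂ = 0),
    if_neg (by linarith : ¬ a₁ + a₂ = 1)]
  by_cases hs : G₁ + G₂ = 2
  · have g1 : G₁ = 1 := by linarith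
    obtain ⟨k1, k2⟩ := h₁.gone g1
    rw [if_pos k1, if_pos g1, if_pos hs]
    norm_num
  rw [if_neg hs]
  by_cases hc : G₁ + G₂ = 3 ∧ a₁ + a₂ = 2 ∧ d = 0
  · rw [if_pos hc, if_pos (by linarith [hc.2.1] : a₁ = 1)]
    split_ifs <;> norm_num
  rw [if_neg hc]
  split_ifs with k1 k2 k3 k4 k5 k6 k7
  all_goals first
    | linarith
    | (obtain ⟨j1, j2, j3⟩ := k7; linarith [h₂.a1])
    | (rw [k4]; linarith)

theorem far2 {G₁ a₁ t₁ G₂ a₂ t₂ : ℚ} (h₁ : NF G₁ a₁ t₁) (h₂ : NF G₂ a₂ t₂) :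
    tc2 G₁ a₁ ≤ tc2 (G₁ + G₂) (a₁ + a₂) := by
  obtain ⟨b1, b2, b3, b4, b5⟩ := h₁.bas
  obtain ⟨c1, c2, c3, c4, c5⟩ := h₂.bas
  unfold tc2
  rw [if_neg (by linarith : ¬ a₁ = 0), if_neg (by linarith : ¬ a₁ + a₂ = 0),
    if_neg (by linarith : ¬ a₁ + a₂ = 1)]
  split_ifs <;> linarith

/-- removing a mark -/
theorem mk1 {G a t d : ℚ} (h : NF G a t) (hd : d = 0 ∨ d = 1 ∨ d = 2) (hd0 : 1 ≤ d → t + 1 ≤ a) :
    tc1 G a d ≤ tc0 G a t + (if d = 0 then 1 else 0) := by
  obtain ⟨b1, b2, b3, b4, b5⟩ := h.bas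
  unfold tc0
  rw [tf_eq h]
  by_cases ha : a = 1
  · rcases h.one ha with ⟨hG, ht⟩ | ⟨ht, hG⟩
    · have hd1 : d = 0 := by
        rcases hd with h1 | h1 | h1
        · exact h1
        · have := hd0 (by linarith); linarith
        · have := hd0 (by linarith); linarith
      have s : tsp G a = 0 := by
        unfold tsp
        rw [if_neg]
        rintro (⟨h1, -⟩ | ⟨h1, -⟩) <;> linarith
      rw [s, if_pos hd1, ha, hG, ht]
      unfold tc1
      norm_num
    · subst ha
      subst ht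
      have e : (0 : ℚ) ≤ (if d = 0 then 1 else 0) := by split_ifs <;> norm_num
      rcases h.gi with hg | hg | hg | hg | hg
      · linarith
      · subst hg
        have s : tsp 2 1 = 0 := by unfold tsp; norm_num
        have s1 : tc1 2 1 d = 0 := by unfold tc1; norm_num
        rw [s, s1]
        norm_num
        exact e
      · subst hg
        have s : tsp 3 1 = 1 := by unfold tsp; norm_num
        have s1 : tc1 3 1 d = 0 := by unfold tc1; norm_num
        rw [s, s1]
        norm_num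
        exact e
      · subst hg
        have s : tsp 4 1 = 0 := by unfold tsp; norm_num
        have s1 : tc1 4 1 d ≤ 2 := by unfold tc1; norm_num; split_ifs <;> norm_num
        rw [s]
        have : min (-4 + (4 : ℚ) + 2 * 1 - 0 / 2) (1 + 2) = 2 := by norm_num
        rw [this]
        linarith
      · have s : tsp G 1 = 0 := by
          unfold tsp
          rw [if_neg]
          rintro (⟨h1, -⟩ | ⟨h1, -⟩) <;> linarith
        have s1 : tc1 G 1 d ≤ 2 := by
          unfold tc1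
          rw [if_neg one_ne_zero, if_pos rfl, if_neg (by linarith), if_neg (by linarith)]
          split_ifs <;> norm_num
        rw [s]
        have : (3 : ℚ) ≤ min (-4 + G + 2 * 1 - 0 / 2) (1 + 2) := by
          apply le_min <;> linarith
        linarith
  · have ha2 : 2 ≤ a := by
      rcases h.a1 with h | h | h
      · exact absurd h ha
      · linarith
      · linarith
    have hd2 : d ≤ 2 := by rcases hd with h | h | h <;> linarith
    have hd00 : 0 ≤ d := by rcases hd with h | h | h <;> linarith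
    by_cases hG : G = 2
    · rcases h.gtwo hG with ⟨h1, -⟩ | ⟨h1, h2⟩
      · exact absurd h1 ha
      have hd1 : d = 0 := by
        rcases hd with h3 | h3 | h3
        · exact h3
        · have := hd0 (by linarith); linarith
        · have := hd0 (by linarith); linarith
      rw [if_pos hd1, h1, hG, h2]
      have s1 : tc1 2 2 d = 1 := by unfold tc1; norm_num
      have s2 : tsp 2 2 = 1 := by unfold tsp; norm_num
      rw [s1, s2]
      norm_num
    · have s : tsp G a = 0 := by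
        unfold tsp
        rw [if_neg]
        rintro (⟨-, h1⟩ | ⟨h1, -⟩)
        · exact ha h1
        · exact hG h1
      rw [s]
      have htt : t + 1 ≤ a ∨ 3 ≤ a := by
        rcases h.ta with ⟨h1, h2⟩ | h1
        · right
          rcases h.a1 with h3 | h3 | h3
          · exact absurd h3 ha
          · exact absurd (h2.trans h3) hG
          · exact h3
        · exact Or.inl h1
      have hlow : ∀ x : ℚ, x ≤ -4 + G + 2 * a - t / 2 → x ≤ a + 2 →
          x ≤ min (-4 + G + 2 * a - t / 2) (a + 2) := fun x h1 h2 => le_min h1 h2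
      rcases hd with hd | hd | hd
      · rw [if_pos hd]
        have h1 : tc1 G a d ≤ 2 + a / 2 := by
          have := tc1_le (G := G) ha2 hd2
          linarith
        have := hlow (1 + a / 2) (by rcases htt with h3 | h3 <;> linarith) (by linarith)
        linarith
      · have h0 : t + 1 ≤ a := hd0 (by linarith)
        have h1 := tc1_le (G := G) ha2 hd2
        have := hlow (2 + a / 2 - d / 2) (by linarith) (by linarith)
        rw [if_neg (by linarith)]
        linarith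
      · have h0 : t + 1 ≤ a := hd0 (by linarith)
        have h1 := tc1_le (G := G) ha2 hd2
        have := hlow (2 + a / 2 - d / 2) (by linarith) (by linarith)
        rw [if_neg (by linarith)]
        linarith

/-- `f - t` -/
theorem ft {G a t : ℚ} (h : NF G a t) : -5 / 2 ≤ tf G a t - t := by
  obtain ⟨b1, b2, b3, b4, b5⟩ := h.bas
  rw [tf_eq h]
  by_cases ha : a = 1
  · rcases h.one ha with ⟨hG, ht⟩ | ⟨ht, hG⟩
    · rw [ha, hG, ht]; norm_num
    · have : (0 : ℚ) ≤ min (-4 + G + 2 * a - t / 2) (a + 2) := by apply le_min <;> linarith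
      linarith
  · have ha2 : 2 ≤ a := by
      rcases h.a1 with h | h | h
      · exact absurd h ha
      · linarith
      · linarith
    have : t - 1 ≤ min (-4 + G + 2 * a - t / 2) (a + 2) := by apply le_min <;> linarith
    linarith

/-- `2 f - sp - t` -/
theorem uft {G a t : ℚ} (h : NF G a t) : -4 ≤ tf G a t + tc0 G a t - t ∧
    (2 ≤ G → -1 ≤ tf G a t + tc0 G a t - t) ∧
    (2 ≤ G → ¬ (G = 2 ∧ a = 2) → 0 ≤ tf G a t + tc0 G a t - t) := by
  obtain ⟨b1, b2, b3, b4, b5⟩ := h.bas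
  have s1 := (tsp_nonneg G a)
  unfold tc0
  by_cases ha : a = 1
  · rcases h.one ha with ⟨hG, ht⟩ | ⟨ht, hG⟩
    · have s : tsp G a = 0 := by
        unfold tsp
        rw [if_neg]
        rintro (⟨h1, -⟩ | ⟨h1, -⟩) <;> linarith
      have e : tf G a t = -3 / 2 := by
        rw [tf_eq h, ha, hG, ht]; norm_num
      rw [s, e, ht]
      refine ⟨by norm_num, fun h1 => by linarith, fun h1 => by linarith⟩
    · have key : 0 ≤ tf G a t + (tf G a t - tsp G a) - t := by
        rw [tf_eq h]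
        by_cases h2 : G = 2
        · have s : tsp G a = 0 := by
            unfold tsp
            rw [if_neg]
            rintro (⟨h1, -⟩ | ⟨-, h1⟩) <;> linarith
          have : (0 : ℚ) ≤ min (-4 + G + 2 * a - t / 2) (a + 2) := by apply le_min <;> linarith
          rw [s]
          linarith
        · have hG3 : 3 ≤ G := by
            rcases h.gi with h | h | h | h | h
            · linarith
            · exact absurd h h2
            · linarith
            · linarith
            · linarith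
          have : (1 : ℚ) ≤ min (-4 + G + 2 * a - t / 2) (a + 2) := by apply le_min <;> linarith
          linarith [s1.2]
      exact ⟨by linarith, fun _ => by linarith, fun _ _ => key⟩
  · have ha2 : 2 ≤ a := by
      rcases h.a1 with h | h | h
      · exact absurd h ha
      · linarith
      · linarith
    rw [tf_eq h]
    by_cases h2 : G = 2 ∧ a = 2
    · have ht : t = 2 := by linarith [h2.1, h2.2]
      have : (1 : ℚ) ≤ min (-4 + G + 2 * a - t / 2) (a + 2) := by
        rw [h2.1, h2.2, ht]; norm_num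
      exact ⟨by linarith, fun _ => by linarith, fun _ h3 => absurd h2 h3⟩
    · have s : tsp G a = 0 := by
        unfold tsp
        rw [if_neg]
        rintro (⟨-, h1⟩ | h1)
        · exact ha h1
        · exact h2 h1
      have key : t / 2 ≤ min (-4 + G + 2 * a - t / 2) (a + 2) := by
        rcases h.ta with ⟨h3, h4⟩ | h3
        · apply le_min <;> linarith
        · apply le_min <;> linarith
      rw [s]
      exact ⟨by linarith, fun _ => by linarith, fun _ _ => by linarith⟩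

end PArr

end Pool.Agent.Helper56.OC
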