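import Pool.Agent.Helper79.OC.GlueB

/-!
# Arrangements of orthogonal circles: gluing, part C (reduction to blocks)
-/

set_option autoImplicit false
set_option linter.unusedSectionVars false

open Finset

namespace Pool.Agent.Helper56.OC

namespace PArr

variable {ι : Type} [DecidableEq ι] (A : PArr ι)

/-! ## Values of the table at a link -/

/-- the value `f` of a link -/
noncomputable def fl (K : Finset ι) : ℚ := tf K.card (A.ch K) (A.iso K).card

theorem chi_zero (K : Finset ι) : A.chi K ∅ = tc0 K.card (A.ch K) (A.iso K).card := by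
  unfold chi; rw [if_pos card_empty]

theorem chn_zero (K : Finset ι) : A.chn K ∅ = A.fl K := by
  unfold chn; rw [if_pos card_empty]; rfl

theorem chi_one (K : Finset ι) (m : ι) : A.chi K {m} = tc1 K.card (A.ch K) (A.lk K m).card := by
  unfold chi
  rw [card_singleton, if_neg (by norm_num), if_pos rfl, sum_singleton]

theorem chi_two {K M : Finset ι} (h : 2 ≤ M.card) : A.chi K M = tc2 K.card (A.ch K) := by
  unfold chi
  rw [if_neg (by omega), if_neg (by omega)]

theorem chn_pos {K M : Finset ι} (h : M.Nonempty) : A.chn K M = A.chi K M := by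
  unfold chn
  rw [if_neg (card_pos.2 h).ne']

/-- the degree of an element of a link -/
theorem deg_cases {K : Finset ι} (h : ∀ v ∈ K, (A.lk K v).card ≤ 2) {m : ι} (hm : m ∈ K) :
    ((A.lk K m).card : ℚ) = 0 ∨ ((A.lk K m).card : ℚ) = 1 ∨ ((A.lk K m).card : ℚ) = 2 := by
  have h1 := h m hm
  have h2 : (A.lk K m).card = 0 ∨ (A.lk K m).card = 1 ∨ (A.lk K m).card = 2 := by omega
  rcases h2 with h2 | h2 | h2 <;> rw [h2] <;> norm_num

theorem gl_near {K₁ K₂ M : Finset ι} (hd : Disjoint K₁ K₂) (hN : A.NoE K₁ K₂) (h1 : A.Fst K₁)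
    (n1 : K₁.Nonempty) (h2 : A.Fst K₂) (n2 : K₂.Nonempty) (hM : M ⊆ K₁) :
    A.chn (K₁ ∪ K₂) M ≤ A.chn K₁ M + A.fl K₂ + 4 := by
  have f1 := Fst.nf A h1 n1
  have f2 := Fst.nf A h2 n2
  have hc : ((K₁ ∪ K₂).card : ℚ) = K₁.card + K₂.card := by
    rw [card_union_of_disjoint hd]; push_cast; ring
  have hi : ((A.iso (K₁ ∪ K₂)).card : ℚ) = (A.iso K₁).card + (A.iso K₂).card := by
    rw [A.iso_union hd hN]; push_cast; ring
  rcases Nat.lt_or_ge M.card 2 with hm | hm
  · rcases Nat.lt_or_ge M.card 1 with hm' | hm'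
    · have : M = ∅ := card_eq_zero.1 (by omega)
      subst this
      rw [chn_zero, chn_zero]
      unfold fl
      rw [hc, hi, A.ch_union hd hN]
      exact near0 f1 f2
    · obtain ⟨m, rfl⟩ := card_eq_one.1 (by omega : M.card = 1)
      have hmK : m ∈ K₁ := hM (mem_singleton_self m)
      rw [A.chn_pos (singleton_nonempty m), A.chn_pos (singleton_nonempty m), chi_one, chi_one,
        A.lk_dl hd hN hmK]
      unfold fl
      rw [hc, A.ch_union hd hN]
      refine near1 f1 f2 (A.deg_cases h1.1 hmK) ?_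
      intro h0
      have : m ∈ A.iso K₁ := (A.mem_iso).2 ⟨hmK, by exact_mod_cast h0⟩
      exact_mod_cast card_pos.2 ⟨m, this⟩
  · have hne : M.Nonempty := card_pos.1 (by omega)
    rw [A.chn_pos hne, A.chn_pos hne, A.chi_two hm, A.chi_two hm]
    unfold fl
    rw [hc, A.ch_union hd hN]
    exact near2 f1 f2

theorem gl_far {K₁ K₂ M : Finset ι} (hd : Disjoint K₁ K₂) (hN : A.NoE K₁ K₂) (h1 : A.Fst K₁)
    (n1 : K₁.Nonempty) (h2 : A.Fst K₂) (n2 : K₂.Nonempty) (hM : M ⊆ K₁) :
    A.chi K₁ M ≤ A.chi (K₁ ∪ K₂) M := by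
  have f1 := Fst.nf A h1 n1
  have f2 := Fst.nf A h2 n2
  have hc : ((K₁ ∪ K₂).card : ℚ) = K₁.card + K₂.card := by
    rw [card_union_of_disjoint hd]; push_cast; ring
  have hi : ((A.iso (K₁ ∪ K₂)).card : ℚ) = (A.iso K₁).card + (A.iso K₂).card := by
    rw [A.iso_union hd hN]; push_cast; ring
  rcases Nat.lt_or_ge M.card 2 with hm | hm
  · rcases Nat.lt_or_ge M.card 1 with hm' | hm'
    · have : M = ∅ := card_eq_zero.1 (by omega)
      subst this
      rw [chi_zero, chi_zero, hc, hi, A.ch_union hd hN]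
      exact far0 f1 f2
    · obtain ⟨m, rfl⟩ := card_eq_one.1 (by omega : M.card = 1)
      have hmK : m ∈ K₁ := hM (mem_singleton_self m)
      rw [chi_one, chi_one, A.lk_dl hd hN hmK, hc, A.ch_union hd hN]
      exact far1 f1 f2 (A.deg_cases h1.1 hmK)
  · rw [A.chi_two hm, A.chi_two hm, hc, A.ch_union hd hN]
    exact far2 f1 f2

/-- effect of a mark -/
theorem mark_le {K : Finset ι} (hL : A.LinkOK K) {m : ι} (hm : m ∈ K) :
    A.chi K {m} ≤ A.chi K ∅ + (if (A.lk K m).card = 0 then 1 else 0) := by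
  rw [chi_one, chi_zero]
  rcases LinkOK.cases A hL with h | ⟨hn, h2, hch, hi⟩
  · have f := Fst.nf A h ⟨m, hm⟩
    have key := mk1 f (A.deg_cases h.1 hm) (by
      intro hd
      rcases f.ta with ⟨e1, e2⟩ | e1
      · exfalso
        have e3 : (A.iso K).card = K.card := by
          have : ((A.iso K).card : ℚ) = K.card := by rw [e1, e2]
          exact_mod_cast this
        have e4 : A.iso K = K := eq_of_subset_of_card_le (fun v hv => ((A.mem_iso).1 hv).1) e3.ge
        have e5 : m ∈ A.iso K := by rw [e4]; exact hm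
        rw [((A.mem_iso).1 e5).2] at hd
        norm_num at hd
      · exact e1)
    have e : (if ((A.lk K m).card : ℚ) = 0 then (1 : ℚ) else 0) =
        if (A.lk K m).card = 0 then 1 else 0 := by
      by_cases h0 : (A.lk K m).card = 0
      · rw [if_pos h0, if_pos (by exact_mod_cast h0)]
      · rw [if_neg h0, if_neg (by exact_mod_cast h0)]
    rw [e] at key
    exact key
  · have hG : (K.card : ℚ) ≠ 0 := by exact_mod_cast (card_pos.2 hn).ne'
    rw [hch, hi, h2 m hm]
    unfold tc0 tc1 tf tsp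
    rw [if_pos rfl, if_pos rfl, if_neg hG, if_neg, if_neg]
    · norm_num
    · norm_num
    · norm_num

theorem lk_lk (V : Finset ι) (v b : ι) : A.lk (A.lk V v) b = A.lk (A.lk V b) v := by
  ext w
  rw [mlk, mlk, mlk, mlk]
  tauto

/-- the term of `Bh` -/
noncomputable def tm (V T : Finset ι) (v : ι) : ℚ :=
  if v ∈ T then - A.chn (A.lk V v) (T ∩ A.lk V v) else A.chi (A.lk V v) (T ∩ A.lk V v)

theorem Bh_eq (V T : Finset ι) : A.Bh V T = (A.L V : ℚ) + ∑ v ∈ V, A.tm V T v := rfl

theorem tm_self (V : Finset ι) (b : ι) : A.tm V {b} b = - A.fl (A.lk V b) := by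
  unfold tm
  rw [if_pos (mem_singleton_self b)]
  have : {b} ∩ A.lk V b = ∅ := by
    rw [singleton_inter_of_notMem (A.notMem_lk V b)]
  rw [this, chn_zero]

/-- removing the mark of a vertex: lower bound -/
theorem unmark {V : Finset ι} (hL : ∀ v ∈ V, A.LinkOK (A.lk V v)) {x : ι} (hx : x ∈ V) :
    A.Bh V {x} + A.fl (A.lk V x) - (A.iso (A.lk V x)).card ≤
      (A.L V : ℚ) + ∑ v ∈ V.erase x, A.chi (A.lk V v) ∅ := by
  rw [Bh_eq, ← add_sum_erase V _ hx, tm_self]
  have key : ∑ v ∈ V.erase x, A.tm V {x} v ≤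
      ∑ v ∈ V.erase x, (A.chi (A.lk V v) ∅ + if v ∈ A.iso (A.lk V x) then 1 else 0) := by
    apply sum_le_sum
    intro v hv
    rw [mem_erase] at hv
    unfold tm
    rw [if_neg (by rw [mem_singleton]; exact hv.1)]
    by_cases h : x ∈ A.lk V v
    · have h1 : {x} ∩ A.lk V v = {x} := singleton_inter_of_mem h
      rw [h1]
      refine le_trans (A.mark_le (hL v hv.2) h) ?_
      rw [A.lk_lk V v x]
      by_cases h2 : (A.lk (A.lk V x) v).card = 0
      · rw [if_pos h2, if_pos ((A.mem_iso).2 ⟨A.mem_lk_comm hv.2 h, h2⟩)]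
      · rw [if_neg h2]
        split_ifs <;> linarith
    · have h1 : {x} ∩ A.lk V v = ∅ := singleton_inter_of_notMem h
      rw [h1]
      split_ifs <;> linarith
  rw [sum_add_distrib, sum_boole] at key
  have e : (V.erase x).filter (fun v => v ∈ A.iso (A.lk V x)) = A.iso (A.lk V x) := by
    ext v
    rw [mem_filter, mem_erase]
    constructor
    · exact fun h => h.2
    · intro h
      have h1 := ((A.mem_iso).1 h).1
      refine ⟨⟨?_, A.lk_sub V x h1⟩, h⟩
      rintro rfl
      exact A.notMem_lk V v h1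
  rw [e] at key
  linarith

/-! ## Gluing identities -/

theorem clq_side {V₁ V₂ T : Finset ι} (hN : A.NoE (V₁ \ V₂) (V₂ \ V₁)) (hT : T ⊆ V₁ ∪ V₂)
    (hc : A.IsClq T) : T ⊆ V₁ ∨ T ⊆ V₂ := by
  by_cases h : T ⊆ V₂
  · exact Or.inr h
  left
  obtain ⟨x, hx, hx'⟩ := not_subset.1 h
  intro y hy
  by_contra hy'
  have hxV : x ∈ V₁ := (mem_union.1 (hT hx)).resolve_right hx'
  have hyV : y ∈ V₂ := (mem_union.1 (hT hy)).resolve_left hy'
  exact hN x (mem_sdiff.2 ⟨hxV, hx'⟩) y (mem_sdiff.2 ⟨hyV, hy'⟩)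
    (hc x hx y hy (fun e => hy' (e ▸ hxV)))

theorem tm_left {V₁ V₂ T : Finset ι} (hN : A.NoE (V₁ \ V₂) (V₂ \ V₁)) {v : ι} (hv : v ∈ V₁)
    (hv' : v ∉ V₂) : A.tm (V₁ ∪ V₂) T v = A.tm V₁ T v := by
  unfold tm
  rw [A.lk_left hN hv hv']

theorem tm_right {V₁ V₂ T S : Finset ι} (hN : A.NoE (V₁ \ V₂) (V₂ \ V₁)) (hT : T ⊆ V₁)
    (hS : T ∩ V₂ = S) {v : ι} (hv : v ∈ V₂) (hv' : v ∉ V₁) :
    A.tm (V₁ ∪ V₂) T v = A.tm V₂ S v := by
  have h1 : v ∉ T := fun h => hv' (hT h)
  have h2 : v ∉ S := fun h => h1 (by rw [← hS] at h; exact (mem_inter.1 h).1)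
  unfold tm
  rw [A.lk_right hN hv hv', if_neg h1, if_neg h2]
  congr 1
  rw [← hS, inter_assoc]
  congr 1
  exact (inter_eq_right.2 (A.lk_sub V₂ v)).symm

theorem tm_empty (V : Finset ι) (v : ι) : A.tm V ∅ v = A.chi (A.lk V v) ∅ := by
  unfold tm
  rw [if_neg (notMem_empty v), empty_inter]

/-- disjoint union -/
theorem Bh_disj {V₁ V₂ T : Finset ι} (hd : Disjoint V₁ V₂) (hN : A.NoE V₁ V₂) (hT : T ⊆ V₁) :
    A.Bh (V₁ ∪ V₂) T = A.Bh V₁ T + 12 + A.Uu V₂ := by
  have hN' : A.NoE (V₁ \ V₂) (V₂ \ V₁) := NoE.mono A hN sdiff_subset sdiff_subset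
  have hL := A.L_union hN'
  rw [disjoint_iff_inter_eq_empty.1 hd, L_empty] at hL
  have hL' : (A.L (V₁ ∪ V₂) : ℚ) = A.L V₁ + A.L V₂ + 12 := by
    have : A.L (V₁ ∪ V₂) = A.L V₁ + A.L V₂ + 12 := by linarith
    rw [this]; push_cast; ring
  rw [Bh_eq, Bh_eq, hL', sum_union hd]
  unfold Uu
  have e1 : ∑ v ∈ V₁, A.tm (V₁ ∪ V₂) T v = ∑ v ∈ V₁, A.tm V₁ T v :=
    sum_congr rfl fun v hv => A.tm_left hN' hv (disjoint_left.1 hd hv)
  have e2 : ∑ v ∈ V₂, A.tm (V₁ ∪ V₂) T v = ∑ v ∈ V₂, A.chi (A.lk V₂ v) ∅ := by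
    refine sum_congr rfl fun v hv => ?_
    rw [← tm_empty]
    refine A.tm_right hN' hT ?_ hv (disjoint_right.1 hd hv)
    exact disjoint_iff_inter_eq_empty.1 (disjoint_of_subset_left hT hd)
  rw [e1, e2]
  ring

/-- the sum over a union with one common vertex -/
theorem sum_glue {V₁ V₂ : Finset ι} {b : ι} (hb : V₁ ∩ V₂ = {b}) (f f₁ f₂ : ι → ℚ)
    (h1 : ∀ v ∈ V₁, v ∉ V₂ → f v = f₁ v) (h2 : ∀ v ∈ V₂, v ∉ V₁ → f v = f₂ v) :
    ∑ v ∈ V₁ ∪ V₂, f v = ∑ v ∈ V₁, f₁ v + ∑ v ∈ V₂.erase b, f₂ v + f b - f₁ b := by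
  have hb' : b ∈ V₁ ∩ V₂ := by rw [hb]; exact mem_singleton_self b
  rw [mem_inter] at hb'
  have hn : ∀ v ∈ V₁, v ≠ b → v ∉ V₂ := by
    intro v hv hvb hv2
    have : v ∈ V₁ ∩ V₂ := mem_inter.2 ⟨hv, hv2⟩
    rw [hb, mem_singleton] at this
    exact hvb this
  have e0 := sum_union_inter (s₁ := V₁) (s₂ := V₂) (f := f)
  rw [hb, sum_singleton] at e0
  have e1 : ∑ v ∈ V₁, f v = f b + ∑ v ∈ V₁.erase b, f₁ v := by
    rw [← add_sum_erase V₁ f hb'.1]
    congr 1
    refine sum_congr rfl fun v hv => ?_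
    rw [mem_erase] at hv
    exact h1 v hv.2 (hn v hv.2 hv.1)
  have e2 : ∑ v ∈ V₂, f v = f b + ∑ v ∈ V₂.erase b, f₂ v := by
    rw [← add_sum_erase V₂ f hb'.2]
    congr 1
    refine sum_congr rfl fun v hv => ?_
    rw [mem_erase] at hv
    exact h2 v hv.2 (fun h => hn v h hv.1 hv.2)
  have e3 := add_sum_erase V₁ f₁ hb'.1
  linarith

theorem Bh_near {V₁ V₂ T : Finset ι} {b : ι} (hN : A.NoE (V₁ \ V₂) (V₂ \ V₁)) (hb : V₁ ∩ V₂ = {b})
    (hT : T ⊆ V₁) (hbT : b ∈ T) :
    A.Bh (V₁ ∪ V₂) T = A.Bh V₁ T + A.Bh V₂ {b} + 4 + A.fl (A.lk V₂ b)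
      + A.chn (A.lk V₁ b) (T ∩ A.lk (V₁ ∪ V₂) b)
      - A.chn (A.lk (V₁ ∪ V₂) b) (T ∩ A.lk (V₁ ∪ V₂) b) := by
  have hb' : b ∈ V₁ ∩ V₂ := by rw [hb]; exact mem_singleton_self b
  rw [mem_inter] at hb'
  have hL := A.L_union hN
  rw [hb, L_one] at hL
  have hL' : (A.L (V₁ ∪ V₂) : ℚ) = A.L V₁ + A.L V₂ + 4 := by
    have : A.L (V₁ ∪ V₂) = A.L V₁ + A.L V₂ + 4 := by linarith
    rw [this]; push_cast; ring
  have hS : T ∩ V₂ = {b} := by
    apply subset_antisymm
    · rw [← hb]; exact inter_subset_inter_right hT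
    · rw [singleton_subset_iff, mem_inter]; exact ⟨hbT, hb'.2⟩
  have e := sum_glue hb (A.tm (V₁ ∪ V₂) T) (A.tm V₁ T) (A.tm V₂ {b})
    (fun v hv hv' => A.tm_left hN hv hv') (fun v hv hv' => A.tm_right hN hT hS hv hv')
  have e2 := add_sum_erase V₂ (A.tm V₂ {b}) hb'.2
  rw [tm_self] at e2
  have e3 : T ∩ A.lk V₁ b = T ∩ A.lk (V₁ ∪ V₂) b := by
    ext v
    rw [mem_inter, mem_inter, mlk, mlk, mem_union]
    constructor
    · rintro ⟨h1, h2, h3⟩; exact ⟨h1, Or.inl h2, h3⟩
    · rintro ⟨h1, -, h3⟩; exact ⟨h1, hT h1, h3⟩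
  have e4 : A.tm (V₁ ∪ V₂) T b = - A.chn (A.lk (V₁ ∪ V₂) b) (T ∩ A.lk (V₁ ∪ V₂) b) := by
    unfold tm; rw [if_pos hbT]
  have e5 : A.tm V₁ T b = - A.chn (A.lk V₁ b) (T ∩ A.lk (V₁ ∪ V₂) b) := by
    unfold tm; rw [if_pos hbT, e3]
  rw [e4, e5] at e
  rw [Bh_eq, Bh_eq, Bh_eq, hL', e]
  linarith

theorem Bh_far {V₁ V₂ T : Finset ι} {b : ι} (hN : A.NoE (V₁ \ V₂) (V₂ \ V₁)) (hb : V₁ ∩ V₂ = {b})
    (hT : T ⊆ V₁) (hbT : b ∉ T) :
    A.Bh (V₁ ∪ V₂) T = A.Bh V₁ T + 4 + ((A.L V₂ : ℚ) + ∑ v ∈ V₂.erase b, A.chi (A.lk V₂ v) ∅)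
      + A.chi (A.lk (V₁ ∪ V₂) b) (T ∩ A.lk (V₁ ∪ V₂) b)
      - A.chi (A.lk V₁ b) (T ∩ A.lk (V₁ ∪ V₂) b) := by
  have hb' : b ∈ V₁ ∩ V₂ := by rw [hb]; exact mem_singleton_self b
  rw [mem_inter] at hb'
  have hL := A.L_union hN
  rw [hb, L_one] at hL
  have hL' : (A.L (V₁ ∪ V₂) : ℚ) = A.L V₁ + A.L V₂ + 4 := by
    have : A.L (V₁ ∪ V₂) = A.L V₁ + A.L V₂ + 4 := by linarith
    rw [this]; push_cast; ring
  have hS : T ∩ V₂ = ∅ := by
    rw [eq_empty_iff_forall_notMem]
    intro v hv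
    rw [mem_inter] at hv
    have : v ∈ V₁ ∩ V₂ := mem_inter.2 ⟨hT hv.1, hv.2⟩
    rw [hb, mem_singleton] at this
    exact hbT (this ▸ hv.1)
  have e := sum_glue hb (A.tm (V₁ ∪ V₂) T) (A.tm V₁ T) (fun v => A.chi (A.lk V₂ v) ∅)
    (fun v hv hv' => A.tm_left hN hv hv')
    (fun v hv hv' => by rw [← tm_empty]; exact A.tm_right hN hT hS hv hv')
  have e3 : T ∩ A.lk V₁ b = T ∩ A.lk (V₁ ∪ V₂) b := by
    ext v
    rw [mem_inter, mem_inter, mlk, mlk, mem_union]
    constructor
    · rintro ⟨h1, h2, h3⟩; exact ⟨h1, Or.inl h2, h3⟩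
    · rintro ⟨h1, -, h3⟩; exact ⟨h1, hT h1, h3⟩
  have e4 : A.tm (V₁ ∪ V₂) T b = A.chi (A.lk (V₁ ∪ V₂) b) (T ∩ A.lk (V₁ ∪ V₂) b) := by
    unfold tm; rw [if_neg hbT]
  have e5 : A.tm V₁ T b = A.chi (A.lk V₁ b) (T ∩ A.lk (V₁ ∪ V₂) b) := by
    unfold tm; rw [if_neg hbT, e3]
  rw [e4, e5] at e
  rw [Bh_eq, Bh_eq, hL', e]
  ring

/-! ## Independent links -/

theorem indep_facts {K : Finset ι} (h : ∀ x ∈ K, ∀ y ∈ K, ¬ A.orth x y) :
    A.ee K = 0 ∧ A.ch K = K.card ∧ A.iso K = K ∧ ∀ v ∈ K, A.lk K v = ∅ := by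
  have h0 : ∀ v ∈ K, A.lk K v = ∅ := by
    intro v hv
    rw [eq_empty_iff_forall_notMem]
    intro w hw
    exact h v hv w (A.lk_sub K v hw) ((A.mlk).1 hw).2
  have h1 : A.ee K = 0 := by
    unfold ee
    exact sum_eq_zero fun v hv => by rw [h0 v hv, card_empty]
  refine ⟨h1, ?_, ?_, h0⟩
  · unfold ch; rw [h1]; push_cast; ring
  · ext v
    rw [mem_iso]
    exact ⟨fun h => h.1, fun hv => ⟨hv, by rw [h0 v hv, card_empty]⟩⟩

theorem indep_empty : ∀ x ∈ (∅ : Finset ι), ∀ y ∈ (∅ : Finset ι), ¬ A.orth x y :=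
  fun x hx => absurd hx (notMem_empty x)

theorem indep_single (z : ι) : ∀ x ∈ ({z} : Finset ι), ∀ y ∈ ({z} : Finset ι), ¬ A.orth x y := by
  intro x hx y hy
  rw [mem_singleton] at hx hy
  rw [hx, hy]
  exact A.irrefl z

theorem fl_empty : A.fl ∅ = -4 ∧ A.chi ∅ ∅ = -4 := by
  obtain ⟨-, h2, h3, -⟩ := A.indep_facts A.indep_empty
  have e : A.fl ∅ = -4 := by
    unfold fl tf
    rw [h2, card_empty]
    norm_num
  refine ⟨e, ?_⟩
  rw [chi_zero, h2, h3, card_empty]
  unfold tc0 tsp tf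
  norm_num

theorem fl_single (z : ι) : A.fl {z} = -3 / 2 ∧ A.chi {z} ∅ = -3 / 2 ∧ A.chi {z} {z} = -1 / 2 := by
  obtain ⟨-, h2, h3, h4⟩ := A.indep_facts (A.indep_single z)
  refine ⟨?_, ?_, ?_⟩
  · unfold fl tf
    rw [h2, h3, card_singleton]
    norm_num
  · rw [chi_zero, h2, h3, card_singleton]
    unfold tc0 tsp tf
    norm_num
  · rw [chi_one, h2, h4 z (mem_singleton_self z), card_singleton, card_empty]
    unfold tc1
    norm_num

theorem lk_pair {x y : ι} (h : A.orth x y) : A.lk {x, y} x = {y} := by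
  ext v
  rw [mlk, mem_insert, mem_singleton]
  constructor
  · rintro ⟨rfl | rfl, h2⟩
    · exact absurd h2 (A.irrefl _)
    · rfl
  · rintro rfl
    exact ⟨Or.inr rfl, h⟩

theorem L_pair {x y : ι} (h : A.orth x y) : A.L {x, y} = -1 := by
  have hxy : x ≠ y := fun e => A.irrefl x (by rw [← e] at h; exact h)
  rw [A.L_clq (V := {x, y}) (by
    intro i hi j hj hij
    rw [mem_insert, mem_singleton] at hi hj
    rcases hi with rfl | rfl <;> rcases hj with rfl | rfl
    · exact absurd rfl hij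
    · exact h
    · exact A.symm h
    · exact absurd rfl hij), card_pair hxy]
  simp [sum_range_succ, gg]

/-- the local expression of a single vertex -/
theorem Bh_one (x : ι) : A.Bh {x} {x} = 0 := by
  have h : A.lk {x} x = ∅ := (A.indep_facts (A.indep_single x)).2.2.2 x (mem_singleton_self x)
  rw [Bh_eq, sum_singleton, tm_self, h, A.fl_empty.1, L_one]
  norm_num

/-- the local expression of an edge -/
theorem Bh_two {x y : ι} (h : A.orth x y) {T : Finset ι} (hT : T ⊆ {x, y}) (hne : T.Nonempty) :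
    A.Bh {x, y} T = 0 := by
  have hxy : x ≠ y := fun e => A.irrefl x (by rw [← e] at h; exact h)
  have l1 : A.lk {x, y} x = {y} := A.lk_pair h
  have l2 : A.lk {x, y} y = {x} := by rw [pair_comm]; exact A.lk_pair (A.symm h)
  have hL : (A.L {x, y} : ℚ) = -1 := by rw [A.L_pair h]; norm_num
  obtain ⟨x1, x2, x3⟩ := A.fl_single x
  obtain ⟨y1, y2, y3⟩ := A.fl_single y
  rw [Bh_eq, sum_pair hxy, hL]
  unfold tm
  rw [l1, l2]
  by_cases hx : x ∈ T
  · by_cases hy : y ∈ T
    · rw [if_pos hx, if_pos hy, inter_singleton_of_mem hx, inter_singleton_of_mem hy,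
        A.chn_pos (singleton_nonempty x), A.chn_pos (singleton_nonempty y), x3, y3]
      norm_num
    · rw [if_pos hx, if_neg hy, inter_singleton_of_mem hx, inter_singleton_of_notMem hy,
        chn_zero, x3, y1]
      norm_num
  · have hy : y ∈ T := by
      obtain ⟨z, hz⟩ := hne
      have := hT hz
      rw [mem_insert, mem_singleton] at this
      rcases this with rfl | rfl
      · exact absurd hz hx
      · exact hz
    rw [if_neg hx, if_pos hy, inter_singleton_of_mem hy, inter_singleton_of_notMem hx,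
      chn_zero, x1, y3]
    norm_num

/-! ## The reduction -/

/-- lower bound for the expression without marks -/
theorem Uu_ge8 {V : Finset ι} (hL : ∀ v ∈ V, A.LinkOK (A.lk V v)) {x : ι} (hx : x ∈ V)
    (h0 : 0 ≤ A.Bh V {x}) : -8 ≤ A.Uu V ∧ (2 ≤ (A.lk V x).card → -1 ≤ A.Uu V) ∧
    (1 ≤ (A.lk V x).card → -4 ≤ A.Uu V) ∧
    (2 ≤ (A.lk V x).card → ¬ ((A.lk V x).card = 2 ∧ A.ee (A.lk V x) = 0) → 0 ≤ A.Uu V) := by
  have h1 := A.unmark hL hx
  have e : A.Uu V = (A.L V : ℚ) + ∑ v ∈ V.erase x, A.chi (A.lk V v) ∅ + A.chi (A.lk V x) ∅ := by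
    unfold Uu
    rw [← add_sum_erase V _ hx]
    ring
  have h2 : A.fl (A.lk V x) + A.chi (A.lk V x) ∅ - (A.iso (A.lk V x)).card ≤ A.Uu V := by
    rw [e]; linarith
  rcases LinkOK.cases A (hL x hx) with h | ⟨hn, -, hch, hi⟩
  · by_cases hn : (A.lk V x).Nonempty
    · have f := Fst.nf A h hn
      obtain ⟨u1, u2, u3⟩ := uft f
      rw [chi_zero] at h2
      unfold fl at h2
      refine ⟨by linarith, fun h5 => ?_, fun _ => by linarith, fun h5 h6 => ?_⟩
      · have := u2 (by exact_mod_cast h5)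
        linarith
      · have := u3 (by exact_mod_cast h5) (by
          rintro ⟨h7, h8⟩
          apply h6
          have h9 : (A.lk V x).card = 2 := by exact_mod_cast h7
          refine ⟨h9, ?_⟩
          unfold ch at h8
          rw [h9] at h8
          have : (A.ee (A.lk V x) : ℚ) = 0 := by push_cast at h8; linarith
          exact_mod_cast this)
        linarith
    · rw [not_nonempty_iff_eq_empty] at hn
      rw [hn, A.fl_empty.1, A.fl_empty.2, (A.indep_facts A.indep_empty).2.2.1, card_empty] at h2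
      rw [hn]
      norm_num at h2
      refine ⟨h2, ?_, ?_, ?_⟩ <;> simp
  · have hG : ((A.lk V x).card : ℚ) ≠ 0 := by exact_mod_cast (card_pos.2 hn).ne'
    have e1 : A.fl (A.lk V x) = 1 := by
      unfold fl tf
      rw [hch, if_pos rfl, if_neg hG]
    have e2 : A.chi (A.lk V x) ∅ = 1 := by
      rw [chi_zero]
      unfold tc0 tf tsp
      rw [hch, if_pos rfl, if_neg hG, if_neg]
      · norm_num
      · norm_num
    rw [e1, e2, hi] at h2
    norm_num at h2
    refine ⟨by linarith, fun _ => by linarith, fun _ => by linarith, fun _ _ => by linarith⟩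

/-- **Reduction to blocks.**  For a block one may assume the inequality for its proper subsets. -/
theorem glue (P : Finset ι → Prop) (hP : ∀ V V', P V → V' ⊆ V → P V')
    (hL : ∀ V, P V → ∀ v ∈ V, A.LinkOK (A.lk V v))
    (hB : ∀ V, P V → A.Block V →
      (∀ V' ⊂ V, ∀ T ⊆ V', T.Nonempty → A.IsClq T → 0 ≤ A.Bh V' T) →
      ∀ T ⊆ V, T.Nonempty → A.IsClq T → 0 ≤ A.Bh V T) :
    ∀ V, P V → ∀ T ⊆ V, T.Nonempty → A.IsClq T → 0 ≤ A.Bh V T := by
  intro V
  induction V using Finset.strongInduction with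
  | H V ih =>
    intro hPV T hT hne hc
    have clq1 : ∀ z : ι, A.IsClq {z} := by
      intro z i hi j hj hij
      rw [mem_singleton] at hi hj
      exact absurd (hi.trans hj.symm) hij
    -- disjoint separation
    have dis : ∀ V₁ V₂ : Finset ι, V₁ ∪ V₂ = V → Disjoint V₁ V₂ → V₁.Nonempty → V₂.Nonempty →
        A.NoE V₁ V₂ → T ⊆ V₁ → 0 ≤ A.Bh V T := by
      intro V₁ V₂ hV hd n1 n2 hN hT1
      have s1 : V₁ ⊂ V := by
        rw [← hV]
        refine ⟨subset_union_left, fun h => ?_⟩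
        obtain ⟨x, hx⟩ := n2
        exact disjoint_left.1 hd (h (mem_union_right _ hx)) hx
      have s2 : V₂ ⊂ V := by
        rw [← hV]
        refine ⟨subset_union_right, fun h => ?_⟩
        obtain ⟨x, hx⟩ := n1
        exact disjoint_left.1 hd hx (h (mem_union_left _ hx))
      have i1 := ih V₁ s1 (hP V V₁ hPV s1.1) T hT1 hne hc
      obtain ⟨x, hx⟩ := n2
      have i2 := ih V₂ s2 (hP V V₂ hPV s2.1) {x} (singleton_subset_iff.2 hx)
        (singleton_nonempty x) (clq1 x)
      have i3 := (A.Uu_ge8 (hL V₂ (hP V V₂ hPV s2.1)) hx i2).1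
      rw [← hV, A.Bh_disj hd hN hT1]
      linarith
    by_cases hd : ∃ V₁ V₂ : Finset ι, V₁ ∪ V₂ = V ∧ Disjoint V₁ V₂ ∧ V₁.Nonempty ∧ V₂.Nonempty ∧
        A.NoE V₁ V₂
    · obtain ⟨V₁, V₂, hV, hd, n1, n2, hN⟩ := hd
      have hN' : A.NoE (V₁ \ V₂) (V₂ \ V₁) := NoE.mono A hN sdiff_subset sdiff_subset
      rcases A.clq_side hN' (hV.symm ▸ hT) hc with h | h
      · exact dis V₁ V₂ hV hd n1 n2 hN h
      · exact dis V₂ V₁ (by rw [union_comm]; exact hV) hd.symm n2 n1 (NoE.symm A hN) h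
    -- connected
    by_cases h3 : 3 ≤ V.card
    · by_cases hbl : A.Block V
      · exact hB V hPV hbl (fun V' hV' T' hT' hne' hc' => ih V' hV' (hP V V' hPV hV'.1) T' hT' hne' hc')
          T hT hne hc
      · unfold Block at hbl
        push Not at hbl
        obtain ⟨V₁, V₂, hV, hcard, n1, n2, hN⟩ := hbl h3
        have hb1 : ∃ b, V₁ ∩ V₂ = {b} := by
          rcases Nat.eq_zero_or_pos (V₁ ∩ V₂).card with h0 | h0
          · exfalso
            apply hd
            have hdis : Disjoint V₁ V₂ := disjoint_iff_inter_eq_empty.2 (card_eq_zero.1 h0)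
            rw [sdiff_eq_self_of_disjoint hdis] at n1
            rw [sdiff_eq_self_of_disjoint hdis.symm] at n2
            rw [sdiff_eq_self_of_disjoint hdis, sdiff_eq_self_of_disjoint hdis.symm] at hN
            exact ⟨V₁, V₂, hV, hdis, n1, n2, hN⟩
          · exact card_eq_one.1 (by omega)
        obtain ⟨b, hb⟩ := hb1
        -- the main step
        have main : ∀ V₁ V₂ : Finset ι, V₁ ∪ V₂ = V → V₁ ∩ V₂ = {b} → (V₁ \ V₂).Nonempty →
            (V₂ \ V₁).Nonempty → A.NoE (V₁ \ V₂) (V₂ \ V₁) → T ⊆ V₁ → 0 ≤ A.Bh V T := by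
          intro V₁ V₂ hV hb n1 n2 hN hT1
          have hb' : b ∈ V₁ ∩ V₂ := by rw [hb]; exact mem_singleton_self b
          rw [mem_inter] at hb'
          have hnot : ∀ v ∈ V₁, v ≠ b → v ∉ V₂ := by
            intro v hv hvb hv2
            have : v ∈ V₁ ∩ V₂ := mem_inter.2 ⟨hv, hv2⟩
            rw [hb, mem_singleton] at this
            exact hvb this
          have s1 : V₁ ⊂ V := by
            rw [← hV]
            refine ⟨subset_union_left, fun h => ?_⟩
            obtain ⟨x, hx⟩ := n2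
            rw [mem_sdiff] at hx
            exact hx.2 (h (mem_union_right _ hx.1))
          have s2 : V₂ ⊂ V := by
            rw [← hV]
            refine ⟨subset_union_right, fun h => ?_⟩
            obtain ⟨x, hx⟩ := n1
            rw [mem_sdiff] at hx
            exact hx.2 (h (mem_union_left _ hx.1))
          have k1 : (A.lk V₁ b).Nonempty := by
            by_contra h0
            rw [not_nonempty_iff_eq_empty] at h0
            apply hd
            refine ⟨V₁.erase b, V₂, ?_, ?_, ?_, ⟨b, hb'.2⟩, ?_⟩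
            · rw [← hV]
              ext v
              rw [mem_union, mem_union, mem_erase]
              constructor
              · rintro (h | h)
                · exact Or.inl h.2
                · exact Or.inr h
              · rintro (h | h)
                · by_cases hv : v = b
                  · right; rw [hv]; exact hb'.2
                  · exact Or.inl ⟨hv, h⟩
                · exact Or.inr h
            · rw [disjoint_left]
              intro v hv hv2
              rw [mem_erase] at hv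
              exact hnot v hv.2 hv.1 hv2
            · obtain ⟨x, hx⟩ := n1
              rw [mem_sdiff] at hx
              exact ⟨x, mem_erase.2 ⟨fun e => hx.2 (e ▸ hb'.2), hx.1⟩⟩
            · intro x hx y hy hor
              rw [mem_erase] at hx
              by_cases hy1 : y ∈ V₁
              · have : y ∈ V₁ ∩ V₂ := mem_inter.2 ⟨hy1, hy⟩
                rw [hb, mem_singleton] at this
                subst this
                have : x ∈ A.lk V₁ y := (A.mlk).2 ⟨hx.2, A.symm hor⟩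
                rw [h0] at this
                exact notMem_empty x this
              · exact hN x (mem_sdiff.2 ⟨hx.2, hnot x hx.2 hx.1⟩) y (mem_sdiff.2 ⟨hy, hy1⟩) hor
          have k2 : (A.lk V₂ b).Nonempty := by
            by_contra h0
            rw [not_nonempty_iff_eq_empty] at h0
            apply hd
            refine ⟨V₁, V₂.erase b, ?_, ?_, ⟨b, hb'.1⟩, ?_, ?_⟩
            · rw [← hV]
              ext v
              rw [mem_union, mem_union, mem_erase]
              constructor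
              · rintro (h | h)
                · exact Or.inl h
                · exact Or.inr h.2
              · rintro (h | h)
                · exact Or.inl h
                · by_cases hv : v = b
                  · left; rw [hv]; exact hb'.1
                  · exact Or.inr ⟨hv, h⟩
            · rw [disjoint_left]
              intro v hv hv2
              rw [mem_erase] at hv2
              exact hnot v hv hv2.1 hv2.2
            · obtain ⟨x, hx⟩ := n2
              rw [mem_sdiff] at hx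
              exact ⟨x, mem_erase.2 ⟨fun e => hx.2 (e ▸ hb'.1), hx.1⟩⟩
            · intro x hx y hy hor
              rw [mem_erase] at hy
              have hy1 : y ∉ V₁ := fun h => hnot y h hy.1 hy.2
              by_cases hx2 : x ∈ V₂
              · have : x ∈ V₁ ∩ V₂ := mem_inter.2 ⟨hx, hx2⟩
                rw [hb, mem_singleton] at this
                subst this
                have : y ∈ A.lk V₂ x := (A.mlk).2 ⟨hy.2, hor⟩
                rw [h0] at this
                exact notMem_empty y this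
              · exact hN x (mem_sdiff.2 ⟨hx, hx2⟩) y (mem_sdiff.2 ⟨hy.2, hy1⟩) hor
          have hlk : A.lk (V₁ ∪ V₂) b = A.lk V₁ b ∪ A.lk V₂ b := A.lk_union V₁ V₂ b
          have m1 : ∀ v ∈ A.lk V₁ b, v ∈ V₁ ∧ v ∉ V₂ := by
            intro v hv
            refine ⟨A.lk_sub V₁ b hv, hnot v (A.lk_sub V₁ b hv) ?_⟩
            rintro rfl
            exact A.notMem_lk V₁ v hv
          have m2 : ∀ v ∈ A.lk V₂ b, v ∈ V₂ ∧ v ∉ V₁ := by
            intro v hv
            refine ⟨A.lk_sub V₂ b hv, fun h => hnot v h ?_ (A.lk_sub V₂ b hv)⟩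
            rintro rfl
            exact A.notMem_lk V₂ v hv
          have hdK : Disjoint (A.lk V₁ b) (A.lk V₂ b) := by
            rw [disjoint_left]
            intro v hv hv2
            exact (m1 v hv).2 (m2 v hv2).1
          have hNK : A.NoE (A.lk V₁ b) (A.lk V₂ b) := by
            intro x hx y hy
            exact hN x (mem_sdiff.2 (m1 x hx)) y (mem_sdiff.2 (m2 y hy))
          have hLb : A.LinkOK (A.lk V₁ b ∪ A.lk V₂ b) := by
            rw [← hlk, hV]
            exact hL V hPV b (by rw [← hV]; exact mem_union_left _ hb'.1)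
          obtain ⟨F1, F2, -⟩ := LinkOK.fst_union A hLb hdK hNK k1 k2
          have i1 := ih V₁ s1 (hP V V₁ hPV s1.1) T hT1 hne hc
          have i2 := ih V₂ s2 (hP V V₂ hPV s2.1) {b} (singleton_subset_iff.2 hb'.2)
            (singleton_nonempty b) (clq1 b)
          have hM : T ∩ A.lk (V₁ ∪ V₂) b ⊆ A.lk V₁ b := by
            intro v hv
            rw [mem_inter, mlk] at hv
            exact (A.mlk).2 ⟨hT1 hv.1, hv.2.2⟩
          by_cases hbT : b ∈ T
          · have g := A.gl_near hdK hNK F1 k1 F2 k2 hM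
            have e := A.Bh_near hN hb hT1 hbT
            rw [← hV, e]
            rw [← hlk] at g
            linarith
          · have g := A.gl_far hdK hNK F1 k1 F2 k2 hM
            have e := A.Bh_far hN hb hT1 hbT
            have u := A.unmark (hL V₂ (hP V V₂ hPV s2.1)) hb'.2
            have w := ft (Fst.nf A F2 k2)
            rw [← hV, e]
            rw [← hlk] at g
            unfold fl at u
            linarith
        rcases A.clq_side hN (hV.symm ▸ hT) hc with h | h
        · exact main V₁ V₂ hV hb n1 n2 hN h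
        · exact main V₂ V₁ (by rw [union_comm]; exact hV) (by rw [inter_comm]; exact hb) n2 n1
            (NoE.symm A hN) h
    · -- at most two vertices
      have hVne : V.Nonempty := hne.mono hT
      have hpos := hVne.card_pos
      have h12 : V.card = 1 ∨ V.card = 2 := by omega
      rcases h12 with h1 | h2
      · obtain ⟨x, rfl⟩ := card_eq_one.1 h1
        have : T = {x} := by
          rcases subset_singleton_iff.1 hT with h | h
          · exact absurd h hne.ne_empty
          · exact h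
        rw [this, A.Bh_one]
      · obtain ⟨x, y, hxy, rfl⟩ := card_eq_two.1 h2
        have hor : A.orth x y := by
          by_contra hno
          apply hd
          refine ⟨{x}, {y}, rfl, ?_, singleton_nonempty x, singleton_nonempty y, ?_⟩
          · rw [disjoint_singleton]; exact hxy
          · intro u hu v hv
            rw [mem_singleton] at hu hv
            rw [hu, hv]
            exact hno
        rw [A.Bh_two hor hT hne]

end PArr

end Pool.Agent.Helper56.OC
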