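import Pool.Agent.Helper79.OC.GlueR

/-!
# Arrangements of orthogonal circles: small graphs and the expression without marks
-/

set_option autoImplicit false
set_option linter.unusedSectionVars false

open Finset

namespace Pool.Agent.Helper56.OC

namespace PArr

variable {ι : Type} [DecidableEq ι] (A : PArr ι)

/-! ## Short facets -/

/-- the values at a short facet -/
theorem chi_short {K : Finset ι} (hc : K.card = 2 ∨ K.card = 3) (ha : A.ch K = 1)
    (hi : (A.iso K).card = 0) (M : Finset ι) : A.chi K M = 0 ∧ A.chn K M ≤ 1 ∧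
      (K.card = 2 → A.chn K M = 0) := by
  have h0 : A.chi K M = 0 := by
    unfold chi
    rw [ha, hi]
    rcases hc with hc | hc
    · rw [hc]
      unfold tc0 tc1 tc2 tf tsp
      norm_num
    · rw [hc]
      unfold tc0 tc1 tc2 tf tsp
      norm_num
  refine ⟨h0, ?_, ?_⟩
  · unfold chn
    split_ifs with h
    · rw [ha, hi]
      unfold tf
      rcases hc with hc | hc <;> rw [hc] <;> norm_num
    · rw [h0]; norm_num
  · intro h2
    unfold chn
    split_ifs with h
    · rw [ha, hi, h2]
      unfold tf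
      norm_num
    · exact h0

/-- an edge as a link -/
theorem edge_facts {x y : ι} (h : A.orth x y) : ({x, y} : Finset ι).card = 2 ∧ A.ch {x, y} = 1 ∧
    (A.iso {x, y}).card = 0 := by
  have hxy : x ≠ y := fun e => A.irrefl x (by rw [← e] at h; exact h)
  have l1 : A.lk {x, y} x = {y} := A.lk_pair h
  have l2 : A.lk {x, y} y = {x} := by rw [pair_comm]; exact A.lk_pair (A.symm h)
  refine ⟨card_pair hxy, ?_, ?_⟩
  · unfold ch ee
    rw [sum_pair hxy, l1, l2, card_pair hxy, card_singleton, card_singleton]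
    norm_num
  · rw [card_eq_zero, eq_empty_iff_forall_notMem]
    intro z hz
    rw [mem_iso, mem_insert, mem_singleton] at hz
    rcases hz with ⟨rfl | rfl, h1⟩
    · rw [l1] at h1; simp at h1
    · rw [l2] at h1; simp at h1

/-- the weight of a triangle -/
theorem L_tri {x y z : ι} (h1 : A.orth x y) (h2 : A.orth x z) (h3 : A.orth y z) :
    A.L {x, y, z} = 0 := by
  have hxy : x ≠ y := fun e => A.irrefl x (by rw [← e] at h1; exact h1)
  have hxz : x ≠ z := fun e => A.irrefl x (by rw [← e] at h2; exact h2)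
  have hyz : y ≠ z := fun e => A.irrefl y (by rw [← e] at h3; exact h3)
  have hc : ({x, y, z} : Finset ι).card = 3 := by
    rw [card_insert_of_notMem, card_pair hyz]
    rw [mem_insert, mem_singleton]
    rintro (h | h)
    · exact hxy h
    · exact hxz h
  rw [A.L_clq (V := {x, y, z}) (by
    intro i hi j hj hij
    simp only [mem_insert, mem_singleton] at hi hj
    rcases hi with rfl | rfl | rfl <;> rcases hj with rfl | rfl | rfl <;>
      first
      | exact absurd rfl hij
      | assumption
      | (apply A.symm; assumption)), hc]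
  simp [sum_range_succ, gg, Nat.choose]

/-- the triangle -/
theorem tri_lk {x y z : ι} (h1 : A.orth x y) (h2 : A.orth x z) :
    A.lk {x, y, z} x = {y, z} := by
  ext w
  simp only [mlk, mem_insert, mem_singleton]
  constructor
  · rintro ⟨rfl | h | h, h4⟩
    · exact absurd h4 (A.irrefl _)
    · exact Or.inl h
    · exact Or.inr h
  · rintro (rfl | rfl)
    · exact ⟨Or.inr (Or.inl rfl), h1⟩
    · exact ⟨Or.inr (Or.inr rfl), h2⟩

theorem Bh_tri {x y z : ι} (h1 : A.orth x y) (h2 : A.orth x z) (h3 : A.orth y z)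
    (T : Finset ι) : A.Bh {x, y, z} T = 0 := by
  have hL : (A.L {x, y, z} : ℚ) = 0 := by rw [A.L_tri h1 h2 h3]; norm_num
  rw [Bh_eq, hL, zero_add]
  refine sum_eq_zero fun w hw => ?_
  have key : ∃ u v, A.orth u v ∧ A.lk {x, y, z} w = {u, v} := by
    simp only [mem_insert, mem_singleton] at hw
    rcases hw with rfl | rfl | rfl
    · exact ⟨y, z, h3, A.tri_lk h1 h2⟩
    · refine ⟨x, z, h2, ?_⟩
      have e : ({x, w, z} : Finset ι) = {w, x, z} := insert_comm _ _ _
      rw [e]
      exact A.tri_lk (A.symm h1) h3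
    · refine ⟨x, y, h1, ?_⟩
      have e : ({x, y, w} : Finset ι) = {w, x, y} := by
        ext a; simp only [mem_insert, mem_singleton]; tauto
      rw [e]
      exact A.tri_lk (A.symm h2) (A.symm h3)
  obtain ⟨u, v, huv, e⟩ := key
  obtain ⟨c1, c2, c3⟩ := A.edge_facts huv
  unfold tm
  rw [e]
  obtain ⟨d1, -, d3⟩ := A.chi_short (Or.inl c1) c2 c3 (T ∩ {u, v})
  split_ifs
  · rw [d3 c1, neg_zero]
  · exact d1

/-! ## The path with three vertices -/

theorem p3_facts {i j l : ι} (hij : A.orth i j) (hil : A.orth i l) (hjl : ¬ A.orth j l)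
    (hne : j ≠ l) : A.lk {i, j, l} i = {j, l} ∧ A.lk {i, j, l} j = {i} ∧ A.lk {i, j, l} l = {i} ∧
      A.L {i, j, l} = 2 ∧ i ≠ j ∧ i ≠ l ∧
      (A.chi {j, l} ∅ = 0 ∧ A.chi {j, l} {j} = 1 ∧ A.chi {j, l} {l} = 1) := by
  have nij : i ≠ j := fun e => A.irrefl i (by rw [← e] at hij; exact hij)
  have nil : i ≠ l := fun e => A.irrefl i (by rw [← e] at hil; exact hil)
  have l1 : A.lk {i, j, l} i = {j, l} := A.tri_lk hij hil
  have l2 : A.lk {i, j, l} j = {i} := by
    ext w
    simp only [mlk, mem_insert, mem_singleton]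
    constructor
    · rintro ⟨h | rfl | rfl, h4⟩
      · exact h
      · exact absurd h4 (A.irrefl _)
      · exact absurd h4 hjl
    · rintro rfl
      exact ⟨Or.inl rfl, A.symm hij⟩
  have l3 : A.lk {i, j, l} l = {i} := by
    ext w
    simp only [mlk, mem_insert, mem_singleton]
    constructor
    · rintro ⟨h | rfl | rfl, h4⟩
      · exact h
      · exact absurd (A.symm h4) hjl
      · exact absurd h4 (A.irrefl _)
    · rintro rfl
      exact ⟨Or.inl rfl, A.symm hil⟩
  obtain ⟨-, i2, i3, i4⟩ := A.indep_facts (K := {j, l}) (by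
    intro y hy z hz hor
    rw [mem_insert, mem_singleton] at hy hz
    rcases hy with rfl | rfl <;> rcases hz with rfl | rfl
    · exact A.irrefl _ hor
    · exact hjl hor
    · exact hjl (A.symm hor)
    · exact A.irrefl _ hor)
  have hL : A.L {i, j, l} = 2 := by
    have e : ({i, j, l} : Finset ι) = insert j {i, l} := insert_comm _ _ _
    have m : A.lk {i, l} j = {i} := by
      ext w
      simp only [mlk, mem_insert, mem_singleton]
      constructor
      · rintro ⟨h | rfl, h4⟩
        · exact h
        · exact absurd h4 hjl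
      · rintro rfl
        exact ⟨Or.inl rfl, A.symm hij⟩
    rw [e, A.L_insert_indep (V := {i, l}) (x := j), m, A.L_pair hil, card_singleton]
    · norm_num
    · rw [mem_insert, mem_singleton]
      rintro (h | h)
      · exact nij h.symm
      · exact hne h
    · rw [m]
      exact A.indep_single i
  refine ⟨l1, l2, l3, hL, nij, nil, ?_, ?_, ?_⟩
  · rw [chi_zero, i2, i3, card_pair hne]
    unfold tc0 tf tsp
    norm_num
  · rw [chi_one, i2, i4 j (mem_insert_self _ _), card_pair hne]
    unfold tc1
    norm_num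
  · rw [chi_one, i2, i4 l (mem_insert_of_mem (mem_singleton_self _)), card_pair hne]
    unfold tc1
    norm_num

/-- `L + ∑ ± χ` -/
noncomputable def Bv (V T : Finset ι) : ℚ :=
  (A.L V : ℚ) + ∑ i ∈ V, (if i ∈ T then (-1 : ℚ) else 1) * A.chi (A.lk V i) (T ∩ A.lk V i)

theorem Bh_le_Bv (V T : Finset ι) : A.Bh V T ≤ A.Bv V T := by
  unfold Bh Bv
  have : ∑ v ∈ V, (if v ∈ T then - A.chn (A.lk V v) (T ∩ A.lk V v)
      else A.chi (A.lk V v) (T ∩ A.lk V v)) ≤
      ∑ i ∈ V, (if i ∈ T then (-1 : ℚ) else 1) * A.chi (A.lk V i) (T ∩ A.lk V i) := by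
    apply sum_le_sum
    intro v _
    split_ifs with h
    · have : A.chi (A.lk V v) (T ∩ A.lk V v) ≤ A.chn (A.lk V v) (T ∩ A.lk V v) := by
        unfold chn
        split_ifs with h'
        · unfold chi
          rw [if_pos h']
          unfold tc0
          linarith [(tsp_nonneg (A.lk V v).card (A.ch (A.lk V v))).1]
        · exact le_rfl
      linarith
    · rw [one_mul]
  linarith

theorem Bv_empty (V : Finset ι) : A.Bv V ∅ = A.Uu V := by
  unfold Bv Uu
  congr 1
  refine sum_congr rfl fun v _ => ?_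
  rw [if_neg (notMem_empty v), one_mul, empty_inter]

theorem Bh_empty (V : Finset ι) : A.Bh V ∅ = A.Uu V := by
  rw [Bh_eq, sum_congr rfl fun v _ => A.tm_empty V v]
  rfl

/-- the path, all cliques -/
theorem Bv_p3 {i j l : ι} (hij : A.orth i j) (hil : A.orth i l) (hjl : ¬ A.orth j l)
    (hne : j ≠ l) {T : Finset ι} (hT : T ⊆ {i, j, l}) (hn : T.Nonempty) (hc : A.IsClq T) :
    1 ≤ A.Bv {i, j, l} T ∧ (i ∉ T → A.Bv {i, j, l} T = 3) := by
  obtain ⟨l1, l2, l3, hL, nij, nil, c1, c2, c3⟩ := A.p3_facts hij hil hjl hne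
  obtain ⟨x1, x2, x3⟩ := A.fl_single i
  have hLQ : (A.L {i, j, l} : ℚ) = 2 := by rw [hL]; norm_num
  have e : A.Bv {i, j, l} T = 2 + ((if i ∈ T then (-1 : ℚ) else 1) * A.chi {j, l} (T ∩ {j, l}) +
      ((if j ∈ T then (-1 : ℚ) else 1) * A.chi {i} (T ∩ {i}) +
      (if l ∈ T then (-1 : ℚ) else 1) * A.chi {i} (T ∩ {i}))) := by
    unfold Bv
    rw [hLQ, sum_insert, sum_pair hne, l1, l2, l3]
    rw [mem_insert, mem_singleton]
    rintro (h | h)
    · exact nij h
    · exact nil h
  rw [e]
  have hnot : ¬ (j ∈ T ∧ l ∈ T) := fun h => hjl (hc j h.1 l h.2 hne)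
  by_cases hi : i ∈ T
  · rw [if_pos hi, inter_singleton_of_mem hi, x3]
    refine ⟨?_, fun h => absurd hi h⟩
    by_cases hj : j ∈ T
    · have hl : l ∉ T := fun h => hnot ⟨hj, h⟩
      have : T ∩ {j, l} = {j} := by
        ext w
        simp only [mem_inter, mem_insert, mem_singleton]
        constructor
        · rintro ⟨h1, rfl | rfl⟩
          · rfl
          · exact absurd h1 hl
        · rintro rfl
          exact ⟨hj, Or.inl rfl⟩
      rw [this, c2, if_pos hj, if_neg hl]
      norm_num
    · by_cases hl : l ∈ T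
      · have : T ∩ {j, l} = {l} := by
          ext w
          simp only [mem_inter, mem_insert, mem_singleton]
          constructor
          · rintro ⟨h1, rfl | rfl⟩
            · exact absurd h1 hj
            · rfl
          · rintro rfl
            exact ⟨hl, Or.inr rfl⟩
        rw [this, c3, if_neg hj, if_pos hl]
        norm_num
      · have : T ∩ {j, l} = ∅ := by
          rw [eq_empty_iff_forall_notMem]
          intro w
          simp only [mem_inter, mem_insert, mem_singleton]
          rintro ⟨h1, rfl | rfl⟩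
          · exact hj h1
          · exact hl h1
        rw [this, c1, if_neg hj, if_neg hl]
        norm_num
  · rw [if_neg hi, inter_singleton_of_notMem hi, x2]
    have key : (j ∈ T ∧ l ∉ T) ∨ (j ∉ T ∧ l ∈ T) := by
      obtain ⟨w, hw⟩ := hn
      have := hT hw
      simp only [mem_insert, mem_singleton] at this
      rcases this with rfl | rfl | rfl
      · exact absurd hw hi
      · exact Or.inl ⟨hw, fun h => hnot ⟨hw, h⟩⟩
      · exact Or.inr ⟨fun h => hnot ⟨h, hw⟩, hw⟩
    rcases key with ⟨hj, hl⟩ | ⟨hj, hl⟩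
    · have : T ∩ {j, l} = {j} := by
        ext w
        simp only [mem_inter, mem_insert, mem_singleton]
        constructor
        · rintro ⟨h1, rfl | rfl⟩
          · rfl
          · exact absurd h1 hl
        · rintro rfl
          exact ⟨hj, Or.inl rfl⟩
      rw [this, c2, if_pos hj, if_neg hl]
      norm_num
    · have : T ∩ {j, l} = {l} := by
        ext w
        simp only [mem_inter, mem_insert, mem_singleton]
        constructor
        · rintro ⟨h1, rfl | rfl⟩
          · exact absurd h1 hj
          · rfl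
        · rintro rfl
          exact ⟨hl, Or.inr rfl⟩
      rw [this, c3, if_neg hj, if_pos hl]
      norm_num

/-! ## `K4` minus an edge -/

theorem L_insert_edge {V : Finset ι} {x y z : ι} (hx : x ∉ V) (h : A.lk V x = {y, z})
    (hyz : A.orth y z) : A.L (insert x V) = A.L V + 1 := by
  have hne : y ≠ z := fun e => A.irrefl y (by rw [← e] at hyz; exact hyz)
  have hc : A.IsClq ({y, z} : Finset ι) := by
    intro i hi j hj hij
    simp only [mem_insert, mem_singleton] at hi hj
    rcases hi with rfl | rfl <;> rcases hj with rfl | rfl <;>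
      first
      | exact absurd rfl hij
      | assumption
      | (apply A.symm; assumption)
  have e : A.clqs ({y, z} : Finset ι) = ({y, z} : Finset ι).powerset := by
    ext K
    rw [mem_clqs, mem_powerset]
    exact ⟨fun h' => h'.1, fun h' => ⟨h', fun i hi j hj hij => hc i (h' hi) j (h' hj) hij⟩⟩
  rw [A.L_insert hx, h, e, sum_powerset_apply_card (fun m => gg (m + 1)), card_pair hne]
  simp [sum_range_succ, gg]

/-- the path as a link -/
theorem path_facts {i j l : ι} (hij : A.orth i j) (hil : A.orth i l) (hjl : ¬ A.orth j l)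
    (hne : j ≠ l) : ({i, j, l} : Finset ι).card = 3 ∧ A.ch {i, j, l} = 1 ∧
      (A.iso {i, j, l}).card = 0 := by
  obtain ⟨l1, l2, l3, hL, nij, nil, -⟩ := A.p3_facts hij hil hjl hne
  have hi : i ∉ ({j, l} : Finset ι) := by
    rw [mem_insert, mem_singleton]
    rintro (h | h)
    · exact nij h
    · exact nil h
  have hc : ({i, j, l} : Finset ι).card = 3 := by rw [card_insert_of_notMem hi, card_pair hne]
  refine ⟨hc, ?_, ?_⟩
  · unfold ch ee
    rw [hc, sum_insert hi, sum_pair hne, l1, l2, l3, card_pair hne, card_singleton]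
    norm_num
  · rw [card_eq_zero, eq_empty_iff_forall_notMem]
    intro z hz
    rw [mem_iso] at hz
    obtain ⟨hz, h1⟩ := hz
    simp only [mem_insert, mem_singleton] at hz
    rcases hz with rfl | rfl | rfl
    · rw [l1, card_pair hne] at h1; omega
    · rw [l2] at h1; simp at h1
    · rw [l3] at h1; simp at h1

theorem k4e_facts {i j l m : ι} (hil : A.orth i l) (hij : A.orth i j) (him : A.orth i m)
    (hlj : A.orth l j) (hlm : A.orth l m) (hjm : ¬ A.orth j m) (hne : j ≠ m) :
    A.L {i, j, l, m} = 1 ∧ ∀ w ∈ ({i, j, l, m} : Finset ι),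
      ((A.lk {i, j, l, m} w).card = 2 ∨ (A.lk {i, j, l, m} w).card = 3) ∧
      A.ch (A.lk {i, j, l, m} w) = 1 ∧ (A.iso (A.lk {i, j, l, m} w)).card = 0 := by
  have nij : i ≠ j := fun e => A.irrefl i (by rw [← e] at hij; exact hij)
  have nil : i ≠ l := fun e => A.irrefl i (by rw [← e] at hil; exact hil)
  have nim : i ≠ m := fun e => A.irrefl i (by rw [← e] at him; exact him)
  have nlj : l ≠ j := fun e => A.irrefl l (by rw [← e] at hlj; exact hlj)
  have nlm : l ≠ m := fun e => A.irrefl l (by rw [← e] at hlm; exact hlm)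
  have li : A.lk {i, j, l, m} i = {l, j, m} := by
    ext w
    simp only [mlk, mem_insert, mem_singleton]
    constructor
    · rintro ⟨rfl | rfl | rfl | rfl, h4⟩
      · exact absurd h4 (A.irrefl _)
      · exact Or.inr (Or.inl rfl)
      · exact Or.inl rfl
      · exact Or.inr (Or.inr rfl)
    · rintro (rfl | rfl | rfl)
      · exact ⟨Or.inr (Or.inr (Or.inl rfl)), hil⟩
      · exact ⟨Or.inr (Or.inl rfl), hij⟩
      · exact ⟨Or.inr (Or.inr (Or.inr rfl)), him⟩
  have ll : A.lk {i, j, l, m} l = {i, j, m} := by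
    ext w
    simp only [mlk, mem_insert, mem_singleton]
    constructor
    · rintro ⟨rfl | rfl | rfl | rfl, h4⟩
      · exact Or.inl rfl
      · exact Or.inr (Or.inl rfl)
      · exact absurd h4 (A.irrefl _)
      · exact Or.inr (Or.inr rfl)
    · rintro (rfl | rfl | rfl)
      · exact ⟨Or.inl rfl, A.symm hil⟩
      · exact ⟨Or.inr (Or.inl rfl), hlj⟩
      · exact ⟨Or.inr (Or.inr (Or.inr rfl)), hlm⟩
  have lj : A.lk {i, j, l, m} j = {i, l} := by
    ext w
    simp only [mlk, mem_insert, mem_singleton]
    constructor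
    · rintro ⟨rfl | rfl | rfl | rfl, h4⟩
      · exact Or.inl rfl
      · exact absurd h4 (A.irrefl _)
      · exact Or.inr rfl
      · exact absurd h4 hjm
    · rintro (rfl | rfl)
      · exact ⟨Or.inl rfl, A.symm hij⟩
      · exact ⟨Or.inr (Or.inr (Or.inl rfl)), A.symm hlj⟩
  have lm : A.lk {i, j, l, m} m = {i, l} := by
    ext w
    simp only [mlk, mem_insert, mem_singleton]
    constructor
    · rintro ⟨rfl | rfl | rfl | rfl, h4⟩
      · exact Or.inl rfl
      · exact absurd (A.symm h4) hjm
      · exact Or.inr rfl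
      · exact absurd h4 (A.irrefl _)
    · rintro (rfl | rfl)
      · exact ⟨Or.inl rfl, A.symm him⟩
      · exact ⟨Or.inr (Or.inr (Or.inl rfl)), A.symm hlm⟩
  obtain ⟨e1, e2, e3⟩ := A.edge_facts hil
  obtain ⟨p1, p2, p3⟩ := A.path_facts hlj hlm hjm hne
  obtain ⟨q1, q2, q3⟩ := A.path_facts hij him hjm hne
  refine ⟨?_, ?_⟩
  · have e : ({i, j, l, m} : Finset ι) = insert m {i, l, j} := by
      ext a; simp only [mem_insert, mem_singleton]; tauto
    have hm : m ∉ ({i, l, j} : Finset ι) := by
      simp only [mem_insert, mem_singleton]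
      rintro (h | h | h)
      · exact nim h.symm
      · exact nlm h.symm
      · exact hne h.symm
    have hl : A.lk {i, l, j} m = {i, l} := by
      rw [← lm, e, A.lk_insert_self]
    rw [e, A.L_insert_edge hm hl hil, A.L_tri hil hij hlj]
    norm_num
  · intro w hw
    simp only [mem_insert, mem_singleton] at hw
    rcases hw with rfl | rfl | rfl | rfl
    · rw [li]; exact ⟨Or.inr p1, p2, p3⟩
    · rw [lj]; exact ⟨Or.inl e1, e2, e3⟩
    · rw [ll]; exact ⟨Or.inr q1, q2, q3⟩
    · rw [lm]; exact ⟨Or.inl e1, e2, e3⟩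

/-- a set all of whose links are short -/
theorem short_vals {V : Finset ι} (h : ∀ w ∈ V, ((A.lk V w).card = 2 ∨ (A.lk V w).card = 3) ∧
    A.ch (A.lk V w) = 1 ∧ (A.iso (A.lk V w)).card = 0) {T : Finset ι} (hT : T ⊆ V)
    (hc : A.IsClq T) : A.Bv V T = A.L V ∧ (A.L V : ℚ) - 1 ≤ A.Bh V T := by
  constructor
  · unfold Bv
    rw [sum_eq_zero, add_zero]
    intro w hw
    obtain ⟨h1, h2, h3⟩ := h w hw
    rw [(A.chi_short h1 h2 h3 _).1, mul_zero]
  · rw [Bh_eq]
    have key : ∀ w ∈ V, (if T = {w} then (-1 : ℚ) else 0) ≤ A.tm V T w := by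
      intro w hw
      obtain ⟨h1, h2, h3⟩ := h w hw
      obtain ⟨d1, d2, d3⟩ := A.chi_short h1 h2 h3 (T ∩ A.lk V w)
      unfold tm
      by_cases hwT : w ∈ T
      · rw [if_pos hwT]
        by_cases hTw : T = {w}
        · rw [if_pos hTw]; linarith
        · rw [if_neg hTw]
          obtain ⟨u, hu, huw⟩ : ∃ u ∈ T, u ≠ w := by
            by_contra hcon
            push Not at hcon
            apply hTw
            apply subset_antisymm
            · intro z hz; rw [mem_singleton]; exact hcon z hz
            · exact singleton_subset_iff.2 hwT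
          have hne : (T ∩ A.lk V w).Nonempty :=
            ⟨u, mem_inter.2 ⟨hu, (A.mlk).2 ⟨hT hu, hc w hwT u hu (Ne.symm huw)⟩⟩⟩
          rw [A.chn_pos hne, d1]; norm_num
      · rw [if_neg hwT, d1]
        split_ifs <;> norm_num
    have key2 : (-1 : ℚ) ≤ ∑ w ∈ V, A.tm V T w := by
      refine le_trans ?_ (sum_le_sum key)
      by_cases hex : ∃ w ∈ V, T = {w}
      · obtain ⟨w, hw, hTw⟩ := hex
        rw [sum_eq_single_of_mem w hw, if_pos hTw]
        intro u _ hu
        rw [if_neg]
        intro h'
        rw [hTw] at h'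
        exact hu (singleton_injective h').symm
      · push Not at hex
        rw [sum_eq_zero]
        · norm_num
        · intro w hw
          rw [if_neg (hex w hw)]
    linarith

/-! ## Blocks with at most four vertices -/

theorem block_deg {V : Finset ι} (h : A.Block V) {x : ι} (hx : x ∈ V) : 2 ≤ (A.lk V x).card := by
  by_contra hlt
  push Not at hlt
  have hxl : x ∉ A.lk V x := A.notMem_lk V x
  have hcard : (insert x (A.lk V x)).card ≤ 2 := by
    rw [card_insert_of_notMem hxl]; omega
  refine h.2 (insert x (A.lk V x)) (V.erase x) ?_ ?_ ?_ ?_ ?_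
  · ext v
    rw [mem_union, mem_insert, mem_erase, mlk]
    constructor
    · rintro ((rfl | h1) | h1)
      · exact hx
      · exact h1.1
      · exact h1.2
    · intro hv
      by_cases hvx : v = x
      · exact Or.inl (Or.inl hvx)
      · exact Or.inr ⟨hvx, hv⟩
  · have : insert x (A.lk V x) ∩ V.erase x ⊆ A.lk V x := by
      intro v hv
      rw [mem_inter, mem_insert, mem_erase] at hv
      exact hv.1.resolve_left hv.2.1
    have := card_le_card this
    omega
  · exact ⟨x, mem_sdiff.2 ⟨mem_insert_self _ _, notMem_erase x V⟩⟩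
  · have : (insert x (A.lk V x)).card < V.card := by have := h.1; omega
    obtain ⟨v, hv, hv'⟩ := exists_mem_notMem_of_card_lt_card this
    exact ⟨v, mem_sdiff.2 ⟨mem_erase.2 ⟨fun e => hv' (by rw [e]; exact mem_insert_self _ _), hv⟩,
      hv'⟩⟩
  · intro u hu v hv hor
    rw [mem_sdiff, mem_insert, mem_erase] at hu
    rw [mem_sdiff, mem_insert, mem_erase] at hv
    have hux : u = x := by
      by_contra hne
      exact hu.2 ⟨hne, A.lk_sub V x (hu.1.resolve_left hne)⟩
    rw [hux] at hor
    exact hv.2 (Or.inr ((A.mlk).2 ⟨hv.1.2, hor⟩))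

theorem block_small {V : Finset ι} (h : A.Block V) (h4 : V.card ≤ 4) (hC : A.NoC4 V)
    (hK : ∀ K ⊆ V, A.IsClq K → K.card ≤ 3) : (∃ x y z, A.orth x y ∧ A.orth x z ∧ A.orth y z ∧
      V = {x, y, z}) ∨ ∃ i j l m, A.orth i l ∧ A.orth i j ∧ A.orth i m ∧ A.orth l j ∧
      A.orth l m ∧ ¬ A.orth j m ∧ j ≠ m ∧ V = {i, j, l, m} := by
  have h3 := h.1
  have hdeg := fun x hx => A.block_deg h (x := x) hx
  by_cases hc : V.card = 3
  · left
    obtain ⟨x, y, z, hxy, hxz, hyz, rfl⟩ := card_eq_three.1 hc
    have full : ∀ a ∈ ({x, y, z} : Finset ι), ∀ b ∈ ({x, y, z} : Finset ι), a ≠ b → A.orth a b := by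
      intro a ha b hb hab
      have e : A.lk {x, y, z} a = ({x, y, z} : Finset ι).erase a := by
        apply eq_of_subset_of_card_le
        · intro v hv
          rw [mem_erase]
          exact ⟨fun e => A.notMem_lk _ a (by rw [e] at hv; exact hv), A.lk_sub _ a hv⟩
        · rw [card_erase_of_mem ha, hc]
          exact hdeg a ha
      have : b ∈ A.lk {x, y, z} a := by
        rw [e, mem_erase]
        exact ⟨Ne.symm hab, hb⟩
      exact ((A.mlk).1 this).2
    exact ⟨x, y, z, full x (by simp) y (by simp) hxy, full x (by simp) z (by simp) hxz,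
      full y (by simp) z (by simp) hyz, rfl⟩
  · right
    have hc4 : V.card = 4 := by omega
    have hex : ∃ j ∈ V, ∃ m ∈ V, j ≠ m ∧ ¬ A.orth j m := by
      by_contra hcon
      push Not at hcon
      have := hK V (Subset.refl V) hcon
      omega
    obtain ⟨j, hj, m, hm, hjm, hno⟩ := hex
    have hm' : m ∈ V.erase j := mem_erase.2 ⟨Ne.symm hjm, hm⟩
    have hc2 : ((V.erase j).erase m).card = 2 := by
      rw [card_erase_of_mem hm', card_erase_of_mem hj, hc4]
    obtain ⟨i, l, hil, e⟩ := card_eq_two.1 hc2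
    have hi : i ∈ (V.erase j).erase m := by rw [e]; simp
    have hl : l ∈ (V.erase j).erase m := by rw [e]; simp
    rw [mem_erase, mem_erase] at hi hl
    have lj : A.lk V j = {i, l} := by
      apply eq_of_subset_of_card_le
      · rw [← e]
        intro v hv
        rw [mem_erase, mem_erase]
        refine ⟨?_, ?_, A.lk_sub _ _ hv⟩
        · rintro rfl; exact hno ((A.mlk).1 hv).2
        · rintro rfl; exact A.notMem_lk V _ hv
      · rw [card_pair hil]; exact hdeg j hj
    have lm : A.lk V m = {i, l} := by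
      apply eq_of_subset_of_card_le
      · rw [← e]
        intro v hv
        rw [mem_erase, mem_erase]
        refine ⟨?_, ?_, A.lk_sub _ _ hv⟩
        · rintro rfl; exact A.notMem_lk V _ hv
        · rintro rfl; exact hno (A.symm ((A.mlk).1 hv).2)
      · rw [card_pair hil]; exact hdeg m hm
    have hji : A.orth j i := by
      have : i ∈ A.lk V j := by rw [lj]; simp
      exact ((A.mlk).1 this).2
    have hjl : A.orth j l := by
      have : l ∈ A.lk V j := by rw [lj]; simp
      exact ((A.mlk).1 this).2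
    have hmi : A.orth m i := by
      have : i ∈ A.lk V m := by rw [lm]; simp
      exact ((A.mlk).1 this).2
    have hml : A.orth m l := by
      have : l ∈ A.lk V m := by rw [lm]; simp
      exact ((A.mlk).1 this).2
    have horil : A.orth i l := by
      rcases hC j hj i hi.2.2 m hm l hl.2.2 hji (A.symm hmi) hml (A.symm hjl) hjm hil with h | h
      · exact absurd h hno
      · exact h
    refine ⟨i, j, l, m, horil, A.symm hji, A.symm hmi, A.symm hjl, A.symm hml, hno, hjm, ?_⟩
    ext v
    simp only [mem_insert, mem_singleton]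
    constructor
    · intro hv
      by_cases hvj : v = j
      · exact Or.inr (Or.inl hvj)
      by_cases hvm : v = m
      · exact Or.inr (Or.inr (Or.inr hvm))
      have : v ∈ (V.erase j).erase m := mem_erase.2 ⟨hvm, mem_erase.2 ⟨hvj, hv⟩⟩
      rw [e, mem_insert, mem_singleton] at this
      rcases this with h | h
      · exact Or.inl h
      · exact Or.inr (Or.inr (Or.inl h))
    · rintro (rfl | rfl | rfl | rfl)
      · exact hi.2.2
      · exact hj
      · exact hl.2.2
      · exact hm

/-- blocks with at most four vertices -/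
theorem Bh_small {V : Finset ι} (h : A.Block V) (h4 : V.card ≤ 4) (hC : A.NoC4 V)
    (hK : ∀ K ⊆ V, A.IsClq K → K.card ≤ 3) {T : Finset ι} (hT : T ⊆ V) (hc : A.IsClq T) :
    0 ≤ A.Bh V T := by
  rcases A.block_small h h4 hC hK with ⟨x, y, z, h1, h2, h3, rfl⟩ |
    ⟨i, j, l, m, h1, h2, h3, h4', h5, h6, h7, rfl⟩
  · rw [A.Bh_tri h1 h2 h3]
  · obtain ⟨k1, k2⟩ := A.k4e_facts h1 h2 h3 h4' h5 h6 h7
    have := (A.short_vals k2 hT hc).2
    rw [k1] at this
    push_cast at this
    linarith

/-! ## The expression without marks -/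

theorem L_trifree {V : Finset ι} (h : ∀ x ∈ V, ∀ y ∈ A.lk V x, ∀ z ∈ A.lk V x, ¬ A.orth y z) :
    2 * A.L V = -24 + 16 * V.card - 5 * A.ee V := by
  classical
  induction V using Finset.induction_on with
  | empty =>
    rw [L_empty]
    unfold ee
    simp
  | insert x V hx ih =>
    have i1 := ih (fun w hw y hy z hz => h w (mem_insert_of_mem hw) y
      (A.lk_mono (subset_insert x V) w hy) z (A.lk_mono (subset_insert x V) w hz))
    have i2 := A.L_insert_indep hx (fun y hy z hz => h x (mem_insert_self x V) y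
      (A.lk_mono (subset_insert x V) x hy) z (A.lk_mono (subset_insert x V) x hz))
    rw [i2, A.ee_insert hx, card_insert_of_notMem hx]
    push_cast
    linarith

/-- the expression without marks: lower bounds -/
theorem Uu_bd {V : Finset ι} (hL : ∀ v ∈ V, A.LinkOK (A.lk V v))
    (h0 : ∀ x ∈ V, 0 ≤ A.Bh V {x}) :
    0 ≤ A.Uu V ∨ ∃ n2 : ℕ, A.Uu V = -12 + 4 * V.card - n2 ∧ n2 ≤ V.card ∧
      ∃ S ⊆ V, S.card = n2 ∧ ∀ v ∈ V, (v ∈ S → (A.lk V v).card = 2 ∧
        ∀ y ∈ A.lk V v, ∀ z ∈ A.lk V v, ¬ A.orth y z) ∧ (v ∉ S → (A.lk V v).card ≤ 1) := by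
  classical
  by_cases hex : ∃ x ∈ V, 2 ≤ (A.lk V x).card ∧ ¬ ((A.lk V x).card = 2 ∧ A.ee (A.lk V x) = 0)
  · left
    obtain ⟨x, hx, h1, h2⟩ := hex
    exact (A.Uu_ge8 hL hx (h0 x hx)).2.2.2 h1 h2
  · right
    push Not at hex
    have ind : ∀ x ∈ V, ∀ y ∈ A.lk V x, ∀ z ∈ A.lk V x, ¬ A.orth y z := by
      intro x hx y hy z hz hor
      have hyz : y ≠ z := fun e => A.irrefl y (by rw [← e] at hor; exact hor)
      have h2 : 2 ≤ (A.lk V x).card := by
        have : ({y, z} : Finset ι) ⊆ A.lk V x := by
          intro w hw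
          rw [mem_insert, mem_singleton] at hw
          rcases hw with rfl | rfl <;> assumption
        have := card_le_card this
        rwa [card_pair hyz] at this
      have h3 := (hex x hx h2).2
      unfold ee at h3
      rw [sum_eq_zero_iff] at h3
      have h4 := h3 y hy
      rw [card_eq_zero] at h4
      have h5 : z ∈ A.lk (A.lk V x) y := (A.mlk).2 ⟨hz, hor⟩
      rw [h4] at h5
      exact notMem_empty z h5
    have hLV := A.L_trifree ind
    set S := V.filter (fun v => 2 ≤ (A.lk V v).card) with hS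
    have hval : ∀ v ∈ V, (8 : ℚ) - 5 / 2 * (A.lk V v).card + A.chi (A.lk V v) ∅ =
        4 - (if 2 ≤ (A.lk V v).card then 1 else 0) := by
      intro v hv
      obtain ⟨-, i2, i3, -⟩ := A.indep_facts (ind v hv)
      rw [chi_zero, i2, i3]
      by_cases h2 : 2 ≤ (A.lk V v).card
      · rw [if_pos h2, (hex v hv h2).1]
        unfold tc0 tf tsp
        norm_num
      · rw [if_neg h2]
        have h3 : (A.lk V v).card = 0 ∨ (A.lk V v).card = 1 := by omega
        rcases h3 with h3 | h3
        · rw [h3]
          unfold tc0 tf tsp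
          norm_num
        · rw [h3]
          unfold tc0 tf tsp
          norm_num
    refine ⟨S.card, ?_, card_le_card (filter_subset _ _), S, filter_subset _ _, rfl, ?_⟩
    · have e1 : (A.L V : ℚ) = -12 + ∑ v ∈ V, ((8 : ℚ) - 5 / 2 * (A.lk V v).card) := by
        have : (2 : ℚ) * A.L V = -24 + 16 * V.card - 5 * A.ee V := by exact_mod_cast hLV
        rw [sum_sub_distrib, ← mul_sum, sum_const]
        unfold ee at this
        push_cast at this
        rw [nsmul_eq_mul]
        linarith
      unfold Uu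
      rw [e1, add_assoc, ← sum_add_distrib, sum_congr rfl hval, sum_sub_distrib, sum_const,
        sum_boole, nsmul_eq_mul]
      ring
    · intro v hv
      rw [hS, mem_filter]
      constructor
      · rintro ⟨-, h2⟩
        exact ⟨(hex v hv h2).1, ind v hv⟩
      · intro h2
        by_contra h3
        exact h2 ⟨hv, by omega⟩

/-- lower bounds in terms of the number of elements -/
theorem Uu_low {V : Finset ι} (hL : ∀ v ∈ V, A.LinkOK (A.lk V v))
    (h0 : ∀ x ∈ V, 0 ≤ A.Bh V {x}) :
    (V.card = 1 → -8 ≤ A.Uu V) ∧ (V.card = 2 → -4 ≤ A.Uu V) ∧ (V.card = 3 → -1 ≤ A.Uu V) ∧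
    (4 ≤ V.card → 0 ≤ A.Uu V) ∧
    (V.card = 3 → (¬ ∃ i j l, A.orth i j ∧ A.orth i l ∧ ¬ A.orth j l ∧ j ≠ l ∧ V = {i, j, l}) →
      0 ≤ A.Uu V) := by
  rcases A.Uu_bd hL h0 with h | ⟨n, hU, hn, S, hS, hSc, hdeg⟩
  · exact ⟨fun _ => by linarith, fun _ => by linarith, fun _ => by linarith, fun _ => h,
      fun _ _ => h⟩
  -- a strip needs three vertices
  have strip : ∀ v ∈ S, ∃ y z, y ≠ z ∧ A.lk V v = {y, z} ∧ ¬ A.orth y z ∧ v ≠ y ∧ v ≠ z := by
    intro v hv
    obtain ⟨h1, h2⟩ := (hdeg v (hS hv)).1 hv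
    obtain ⟨y, z, hyz, e⟩ := card_eq_two.1 h1
    refine ⟨y, z, hyz, e, h2 y (by rw [e]; simp) z (by rw [e]; simp), ?_, ?_⟩
    · rintro rfl; exact A.notMem_lk V v (by rw [e]; simp)
    · rintro rfl; exact A.notMem_lk V v (by rw [e]; simp)
  have three : ∀ v ∈ S, 3 ≤ V.card := by
    intro v hv
    have h1 := ((hdeg v (hS hv)).1 hv).1
    have h2 : (insert v (A.lk V v)).card ≤ V.card := by
      apply card_le_card
      intro w hw
      rw [mem_insert] at hw
      rcases hw with rfl | hw
      · exact hS hv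
      · exact A.lk_sub V v hw
    rw [card_insert_of_notMem (A.notMem_lk V v)] at h2
    omega
  have nsm : V.card ≤ 2 → n = 0 := by
    intro h
    rw [← hSc, card_eq_zero, eq_empty_iff_forall_notMem]
    intro v hv
    have := three v hv
    omega
  have n3 : V.card = 3 → n ≤ 1 := by
    intro h3
    rw [← hSc, card_le_one]
    intro v hv w hw
    by_contra hvw
    obtain ⟨y, z, hyz, e, hno, hvy, hvz⟩ := strip v hv
    have hVe : insert v (A.lk V v) = V := by
      apply eq_of_subset_of_card_le
      · intro u hu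
        rw [mem_insert] at hu
        rcases hu with rfl | hu
        · exact hS hv
        · exact A.lk_sub V v hu
      · rw [card_insert_of_notMem (A.notMem_lk V v), ((hdeg v (hS hv)).1 hv).1, h3]
    have hwl : w ∈ A.lk V v := by
      have : w ∈ insert v (A.lk V v) := by rw [hVe]; exact hS hw
      rw [mem_insert] at this
      exact this.resolve_left (fun e => hvw e.symm)
    -- `w` has degree two
    have hw2 := ((hdeg w (hS hw)).1 hw).1
    have hsub : A.lk V w ⊆ {v} := by
      intro u hu
      rw [mem_singleton]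
      have hu' : u ∈ insert v (A.lk V v) := by rw [hVe]; exact A.lk_sub V w hu
      rw [mem_insert] at hu'
      rcases hu' with h | h
      · exact h
      · exact absurd ((A.mlk).1 hu).2 (((hdeg v (hS hv)).1 hv).2 w hwl u h)
    have := card_le_card hsub
    rw [card_singleton] at this
    omega
  have hnq : (n : ℚ) ≤ V.card := by exact_mod_cast hn
  refine ⟨?_, ?_, ?_, ?_, ?_⟩
  · intro h
    rw [hU, h, nsm (by omega)]; norm_num
  · intro h
    rw [hU, h, nsm (by omega)]; norm_num
  · intro h
    have : (n : ℚ) ≤ 1 := by exact_mod_cast n3 h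
    rw [hU, h]; push_cast; linarith
  · intro h
    have : (4 : ℚ) ≤ V.card := by exact_mod_cast h
    rw [hU]; linarith
  · intro h hnp
    have : n = 0 := by
      by_contra hn0
      have : S.Nonempty := card_pos.1 (by omega)
      obtain ⟨v, hv⟩ := this
      obtain ⟨y, z, hyz, e, hno, hvy, hvz⟩ := strip v hv
      apply hnp
      refine ⟨v, y, z, ?_, ?_, hno, hyz, ?_⟩
      · have : y ∈ A.lk V v := by rw [e]; simp
        exact ((A.mlk).1 this).2
      · have : z ∈ A.lk V v := by rw [e]; simp
        exact ((A.mlk).1 this).2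
      · rw [← e]
        symm
        apply eq_of_subset_of_card_le
        · intro u hu
          rw [mem_insert] at hu
          rcases hu with rfl | hu
          · exact hS hv
          · exact A.lk_sub V v hu
        · rw [card_insert_of_notMem (A.notMem_lk V v), e, card_pair hyz, h]
    rw [hU, h, this]; norm_num

end PArr

end Pool.Agent.Helper56.OC
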