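import Pool.Agent.Helper79.OC.GlueD
import Pool.Agent.Helper56.OC.Fin

/-!
# Arrangements of orthogonal circles: quadrangular faces of disconnected cells, the final interface
-/

set_option autoImplicit false
set_option linter.unusedSectionVars false

open Finset

namespace Pool.Agent.Helper56.OC

namespace PArr

variable {ι : Type} [DecidableEq ι] (A : PArr ι)

/-- closed under orthogonality in `V` -/
def CloP (V C : Finset ι) : Prop := C ⊆ V ∧ ∀ i ∈ C, ∀ n ∈ V, A.orth n i → n ∈ C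

/-- the two connected graphs with a quadrangular face -/
def QuadP (C : Finset ι) : Prop :=
  (∃ i j l, A.orth i j ∧ A.orth i l ∧ ¬ A.orth j l ∧ j ≠ l ∧ C = {i, j, l}) ∨
  (∃ i j l m, A.orth i l ∧ A.orth i j ∧ A.orth i m ∧ A.orth l j ∧ A.orth l m ∧ ¬ A.orth j m ∧
    j ≠ m ∧ C = {i, j, l, m})

/-- the inequality for all subsets -/
structure Ok (V : Finset ι) : Prop where
  bh : ∀ V' ⊆ V, ∀ T ⊆ V', T.Nonempty → A.IsClq T → 0 ≤ A.Bh V' T
  lk : ∀ V' ⊆ V, ∀ v ∈ V', A.LinkOK (A.lk V' v)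

theorem Ok.mono {V V' : Finset ι} (h : A.Ok V) (hs : V' ⊆ V) : A.Ok V' :=
  ⟨fun W hW => h.bh W (hW.trans hs), fun W hW => h.lk W (hW.trans hs)⟩

theorem clq_single (z : ι) : A.IsClq {z} := by
  intro i hi j hj hij
  rw [mem_singleton] at hi hj
  exact absurd (hi.trans hj.symm) hij

theorem Ok.one {V : Finset ι} (h : A.Ok V) : ∀ x ∈ V, 0 ≤ A.Bh V {x} := fun x hx =>
  h.bh V (Subset.refl V) {x} (singleton_subset_iff.2 hx) (singleton_nonempty x) (A.clq_single x)

theorem Ok.low {V : Finset ι} (h : A.Ok V) :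
    (V.card = 1 → -8 ≤ A.Uu V) ∧ (V.card = 2 → -4 ≤ A.Uu V) ∧ (V.card = 3 → -1 ≤ A.Uu V) ∧
    (4 ≤ V.card → 0 ≤ A.Uu V) ∧
    (V.card = 3 → (¬ ∃ i j l, A.orth i j ∧ A.orth i l ∧ ¬ A.orth j l ∧ j ≠ l ∧ V = {i, j, l}) →
      0 ≤ A.Uu V) := A.Uu_low (h.lk V (Subset.refl V)) (Ok.one A h)

theorem Ok.low1 {V : Finset ι} (h : A.Ok V) (hn : V.Nonempty) : -8 ≤ A.Uu V := by
  obtain ⟨h1, h2, h3, h4, -⟩ := Ok.low A h
  have := hn.card_pos
  rcases Nat.lt_or_ge V.card 4 with h5 | h5
  · have : V.card = 1 ∨ V.card = 2 ∨ V.card = 3 := by omega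
    rcases this with h | h | h
    · exact h1 h
    · linarith [h2 h]
    · linarith [h3 h]
  · linarith [h4 h5]

theorem Ok.low2 {V : Finset ι} (h : A.Ok V) (hn : 2 ≤ V.card) : -4 ≤ A.Uu V := by
  obtain ⟨h1, h2, h3, h4, -⟩ := Ok.low A h
  rcases Nat.lt_or_ge V.card 4 with h5 | h5
  · have : V.card = 2 ∨ V.card = 3 := by omega
    rcases this with h | h
    · exact h2 h
    · linarith [h3 h]
  · linarith [h4 h5]

theorem Ok.low3 {V : Finset ι} (h : A.Ok V) (hn : 3 ≤ V.card) : -1 ≤ A.Uu V := by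
  obtain ⟨h1, h2, h3, h4, -⟩ := Ok.low A h
  rcases Nat.lt_or_ge V.card 4 with h5 | h5
  · exact h3 (by omega)
  · linarith [h4 h5]

theorem Uu_empty : A.Uu ∅ = -12 := by
  unfold Uu
  rw [sum_empty, L_empty]
  norm_num

theorem clo_noE {V C : Finset ι} (h : A.CloP V C) : A.NoE (V \ C) C := by
  intro x hx y hy hor
  rw [mem_sdiff] at hx
  exact hx.2 (h.2 y hy x hx.1 hor)

theorem Bh_clo {V C T : Finset ι} (h : A.CloP V C) (hT : T ⊆ V \ C) :
    A.Bh V T = A.Bh (V \ C) T + 12 + A.Uu C := by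
  have := A.Bh_disj (V₁ := V \ C) (V₂ := C) sdiff_disjoint (A.clo_noE h) hT
  rwa [sdiff_union_of_subset h.1] at this

theorem clo_rest {V C D : Finset ι} (hD : A.CloP V D) (hdis : Disjoint D C) : A.CloP (V \ C) D := by
  refine ⟨fun x hx => mem_sdiff.2 ⟨hD.1 hx, disjoint_left.1 hdis hx⟩, ?_⟩
  intro i hi n hn hor
  exact hD.2 i hi n (mem_sdiff.1 hn).1 hor

theorem fam_low {T : Finset ι} (hne : T.Nonempty) (hc : A.IsClq T) (FF : Finset (Finset ι)) :
    ∀ V : Finset ι, A.Ok V → T ⊆ V → (∀ C ∈ FF, C.Nonempty ∧ A.CloP V C ∧ Disjoint T C) →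
      (∀ C ∈ FF, ∀ C' ∈ FF, C ≠ C' → Disjoint C C') → (4 * FF.card : ℚ) ≤ A.Bh V T := by
  classical
  induction FF using Finset.induction_on with
  | empty =>
    intro V hV hT _ _
    rw [card_empty]
    have := hV.bh V (Subset.refl V) T hT hne hc
    push_cast
    linarith
  | insert C FF hC ih =>
    intro V hV hT h1 h2
    obtain ⟨c1, c2, c3⟩ := h1 C (mem_insert_self C FF)
    have hT' : T ⊆ V \ C := fun x hx => mem_sdiff.2 ⟨hT hx, disjoint_left.1 c3 hx⟩
    have i1 := ih (V \ C) (Ok.mono A hV sdiff_subset) hT' (by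
      intro D hD
      obtain ⟨d1, d2, d3⟩ := h1 D (mem_insert_of_mem hD)
      exact ⟨d1, A.clo_rest d2 (h2 D (mem_insert_of_mem hD) C (mem_insert_self C FF)
        (fun e => hC (e ▸ hD))), d3⟩) (fun D hD D' hD' => h2 D (mem_insert_of_mem hD) D'
          (mem_insert_of_mem hD'))
    have i2 := Ok.low1 A (Ok.mono A hV c2.1) c1
    rw [A.Bh_clo c2 hT', card_insert_of_notMem hC]
    push_cast
    linarith

theorem fam_U (FF : Finset (Finset ι)) :
    ∀ V : Finset ι, (∀ C ∈ FF, A.CloP V C) →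
      (∀ C ∈ FF, ∀ C' ∈ FF, C ≠ C' → Disjoint C C') →
      ∃ W ⊆ V, A.Uu V = ∑ C ∈ FF, (A.Uu C + 12) + A.Uu W ∧
        V.card = ∑ C ∈ FF, C.card + W.card := by
  classical
  induction FF using Finset.induction_on with
  | empty =>
    intro V _ _
    exact ⟨V, Subset.refl V, by simp, by simp⟩
  | insert C FF hC ih =>
    intro V h1 h2
    have c2 := h1 C (mem_insert_self C FF)
    obtain ⟨W, hW, e1, e2⟩ := ih (V \ C) (by
      intro D hD
      exact A.clo_rest (h1 D (mem_insert_of_mem hD)) (h2 D (mem_insert_of_mem hD) C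
        (mem_insert_self C FF) (fun e => hC (e ▸ hD)))) (fun D hD D' hD' =>
          h2 D (mem_insert_of_mem hD) D' (mem_insert_of_mem hD'))
    refine ⟨W, hW.trans sdiff_subset, ?_, ?_⟩
    · have := A.Bh_clo (T := ∅) c2 (empty_subset _)
      rw [Bh_empty, Bh_empty] at this
      rw [this, e1, sum_insert hC]
      ring
    · have := card_sdiff_add_card_eq_card c2.1
      rw [← this, e2, sum_insert hC]
      ring

/-- a family of quadrangular faces, near facets `T` -/
theorem fam1 {V T : Finset ι} (hV : A.Ok V) (hT : T ⊆ V) (hne : T.Nonempty) (hc : A.IsClq T)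
    (FF : Finset (Finset ι)) (h1 : ∀ C ∈ FF, C.Nonempty ∧ A.CloP V C ∧ (C = V → A.QuadP C))
    (h2 : ∀ C ∈ FF, ∀ C' ∈ FF, C ≠ C' → Disjoint C C') : (FF.card : ℚ) ≤ A.Bv V T := by
  classical
  by_cases hdis : ∀ C ∈ FF, Disjoint T C
  · have := A.fam_low hne hc FF V hV hT (fun C hC => ⟨(h1 C hC).1, (h1 C hC).2.1, hdis C hC⟩) h2
    have h3 := A.Bh_le_Bv V T
    have : (0 : ℚ) ≤ FF.card := Nat.cast_nonneg _
    linarith
  push Not at hdis
  obtain ⟨C, hC, hTC⟩ := hdis
  obtain ⟨c1, c2, c3⟩ := h1 C hC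
  -- `T ⊆ C`
  have hTsub : T ⊆ C := by
    rw [not_disjoint_iff] at hTC
    obtain ⟨x, hx, hxC⟩ := hTC
    intro y hy
    by_cases hxy : y = x
    · rw [hxy]; exact hxC
    · exact c2.2 x hxC y (hT hy) (hc y hy x hx hxy)
  rcases Nat.lt_or_ge FF.card 2 with hq | hq
  · have hq1 : FF.card = 1 := by
      have : 0 < FF.card := card_pos.2 ⟨C, hC⟩
      omega
    rw [hq1]
    by_cases hCV : C = V
    · rcases c3 hCV with ⟨i, j, l, q1, q2, q3, q4, q5⟩ |
        ⟨i, j, l, m, q1, q2, q3, q4, q5, q6, q7, q8⟩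
      · rw [hCV] at q5
        subst q5
        have := (A.Bv_p3 q1 q2 q3 q4 hT hne hc).1
        push_cast
        exact this
      · rw [hCV] at q8
        subst q8
        obtain ⟨k1, k2⟩ := A.k4e_facts q1 q2 q3 q4 q5 q6 q7
        have := (A.short_vals k2 hT hc).1
        rw [this, k1]
        norm_num
    · have hW : (V \ C).Nonempty := by
        rw [sdiff_nonempty]
        exact fun h => hCV (subset_antisymm c2.1 h)
      have := A.fam_low hne hc {V \ C} V hV hT (by
        intro D hD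
        rw [mem_singleton] at hD
        rw [hD]
        refine ⟨hW, ⟨sdiff_subset, ?_⟩, ?_⟩
        · intro i hi n hn hor
          rw [mem_sdiff] at hi ⊢
          exact ⟨hn, fun h => hi.2 (c2.2 n h i hi.1 (A.symm hor))⟩
        · exact disjoint_of_subset_left hTsub disjoint_sdiff) (by
        intro D hD D' hD' hne'
        rw [mem_singleton] at hD hD'
        exact absurd (hD.trans hD'.symm) hne')
      have h3 := A.Bh_le_Bv V T
      rw [card_singleton] at this
      push_cast at this ⊢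
      linarith
  · have := A.fam_low hne hc (FF.erase C) V hV hT (by
      intro D hD
      rw [mem_erase] at hD
      obtain ⟨d1, d2, -⟩ := h1 D hD.2
      exact ⟨d1, d2, disjoint_of_subset_left hTsub (h2 C hC D hD.2 (Ne.symm hD.1))⟩)
      (fun D hD D' hD' => h2 D (mem_of_mem_erase hD) D' (mem_of_mem_erase hD'))
    have h3 := A.Bh_le_Bv V T
    have h4 : ((FF.erase C).card : ℚ) + 1 = FF.card := by
      exact_mod_cast card_erase_add_one hC
    have h5 : (2 : ℚ) ≤ FF.card := by exact_mod_cast hq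
    linarith

/-- a family of quadrangular faces, no near facets -/
theorem fam0 {V : Finset ι} (hV : A.Ok V) (h4 : 4 ≤ V.card)
    (FF : Finset (Finset ι)) (h1 : ∀ C ∈ FF, C.Nonempty ∧ A.CloP V C ∧ (C = V → A.QuadP C))
    (h2 : ∀ C ∈ FF, ∀ C' ∈ FF, C ≠ C' → Disjoint C C') : (FF.card : ℚ) ≤ A.Uu V := by
  classical
  obtain ⟨W, hW, e1, e2⟩ := A.fam_U FF V (fun C hC => (h1 C hC).2.1) h2
  have okC : ∀ C ∈ FF, A.Ok C := fun C hC => Ok.mono A hV (h1 C hC).2.1.1
  have okW := Ok.mono A hV hW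
  have lo1 : ∀ C ∈ FF, 4 ≤ A.Uu C + 12 := fun C hC => by
    linarith [Ok.low1 A (okC C hC) (h1 C hC).1]
  have lo2 : ∀ C ∈ FF, 2 ≤ C.card → 8 ≤ A.Uu C + 12 := fun C hC h => by
    linarith [Ok.low2 A (okC C hC) h]
  have lo3 : ∀ C ∈ FF, 3 ≤ C.card → 11 ≤ A.Uu C + 12 := fun C hC h => by
    linarith [Ok.low3 A (okC C hC) h]
  have pos : ∀ C ∈ FF, 1 ≤ C.card := fun C hC => (h1 C hC).1.card_pos
  have hsum : (4 * FF.card : ℚ) ≤ ∑ C ∈ FF, (A.Uu C + 12) := by
    have := card_nsmul_le_sum FF (fun C => A.Uu C + 12) 4 lo1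
    rw [nsmul_eq_mul] at this
    linarith
  by_cases hWe : W = ∅
  · rw [hWe, Uu_empty] at e1
    rw [hWe, card_empty, add_zero] at e2
    rcases Nat.lt_or_ge FF.card 4 with hq | hq
    · have hcases : FF.card = 0 ∨ FF.card = 1 ∨ FF.card = 2 ∨ FF.card = 3 := by omega
      rcases hcases with hq | hq | hq | hq
      · rw [card_eq_zero] at hq
        rw [hq, sum_empty] at e2
        omega
      · obtain ⟨C, rfl⟩ := card_eq_one.1 hq
        rw [sum_singleton] at e2
        have hC := mem_singleton_self C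
        have hCV : C = V := eq_of_subset_of_card_le (h1 C hC).2.1.1 (by omega)
        rcases (h1 C hC).2.2 hCV with ⟨i, j, l, q1, q2, q3, q4, q5⟩ |
          ⟨i, j, l, m, q1, q2, q3, q4, q5, q6, q7, q8⟩
        · exfalso
          have : C.card ≤ 3 := by rw [q5]; exact card_le_three
          omega
        · rw [hCV] at q8
          obtain ⟨k1, k2⟩ := A.k4e_facts q1 q2 q3 q4 q5 q6 q7
          rw [← q8] at k1 k2
          have := (A.short_vals k2 (T := ∅) (empty_subset _)
            (fun i hi => absurd hi (notMem_empty i))).1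
          rw [Bv_empty, k1] at this
          rw [this, hq]
          norm_num
      · obtain ⟨C, D, hCD, rfl⟩ := card_eq_two.1 hq
        rw [sum_pair hCD] at e1 e2
        have hC : C ∈ ({C, D} : Finset (Finset ι)) := by simp
        have hD : D ∈ ({C, D} : Finset (Finset ι)) := by simp
        have p1 := pos C hC
        have p2 := pos D hD
        rw [hq, e1]
        push_cast
        by_cases c3 : 3 ≤ C.card
        · linarith [lo3 C hC c3, lo1 D hD]
        by_cases d3 : 3 ≤ D.card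
        · linarith [lo3 D hD d3, lo1 C hC]
        linarith [lo2 C hC (by omega), lo2 D hD (by omega)]
      · obtain ⟨C, D, E, hCD, hCE, hDE, rfl⟩ := card_eq_three.1 hq
        have hC : C ∈ ({C, D, E} : Finset (Finset ι)) := by simp
        have hD : D ∈ ({C, D, E} : Finset (Finset ι)) := by simp
        have hE : E ∈ ({C, D, E} : Finset (Finset ι)) := by simp
        have hn : C ∉ ({D, E} : Finset (Finset ι)) := by
          simp only [mem_insert, mem_singleton]
          rintro (h | h)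
          · exact hCD h
          · exact hCE h
        rw [sum_insert hn, sum_pair hDE] at e1 e2
        rw [hq, e1]
        push_cast
        by_cases c2 : 2 ≤ C.card
        · linarith [lo2 C hC c2, lo1 D hD, lo1 E hE]
        by_cases d2 : 2 ≤ D.card
        · linarith [lo2 D hD d2, lo1 C hC, lo1 E hE]
        linarith [lo2 E hE (by omega), lo1 C hC, lo1 D hD]
    · have : (4 : ℚ) ≤ FF.card := by exact_mod_cast hq
      rw [e1]
      linarith
  · have hWn : W.Nonempty := nonempty_iff_ne_empty.2 hWe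
    have hWp := hWn.card_pos
    have w1 := Ok.low1 A okW hWn
    rcases Nat.lt_or_ge FF.card 3 with hq | hq
    · have hcases : FF.card = 0 ∨ FF.card = 1 ∨ FF.card = 2 := by omega
      rcases hcases with hq | hq | hq
      · rw [hq]
        push_cast
        exact (Ok.low A hV).2.2.2.1 h4
      · obtain ⟨C, rfl⟩ := card_eq_one.1 hq
        rw [sum_singleton] at e1 e2
        have hC := mem_singleton_self C
        have p1 := pos C hC
        rw [hq, e1]
        push_cast
        by_cases w3 : 3 ≤ W.card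
        · linarith [lo1 C hC, Ok.low3 A okW w3]
        by_cases c3 : 3 ≤ C.card
        · linarith [lo3 C hC c3]
        linarith [lo2 C hC (by omega), Ok.low2 A okW (by omega)]
      · obtain ⟨C, D, hCD, rfl⟩ := card_eq_two.1 hq
        rw [sum_pair hCD] at e1 e2
        have hC : C ∈ ({C, D} : Finset (Finset ι)) := by simp
        have hD : D ∈ ({C, D} : Finset (Finset ι)) := by simp
        rw [hq, e1]
        push_cast
        by_cases w2 : 2 ≤ W.card
        · linarith [lo1 C hC, lo1 D hD, Ok.low2 A okW w2]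
        by_cases c2 : 2 ≤ C.card
        · linarith [lo2 C hC c2, lo1 D hD]
        linarith [lo2 D hD (by omega), lo1 C hC]
    · have : (3 : ℚ) ≤ FF.card := by exact_mod_cast hq
      rw [e1]
      linarith

end PArr

open Fam

/-- **The final interface**: the inequality for blocks with at least five vertices, without two
adjacent far strips next to a near facet, implies `Glued`. -/
theorem glued_of_blocks {ι : Type} [Fintype ι] [DecidableEq ι] (A : Fam ι)
    (hL : ∀ s ∈ A.toPArr.cellsF univ, ∀ V ⊆ A.toPArr.fac s, ∀ v ∈ V,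
      A.toPArr.LinkOK (A.toPArr.lk V v))
    (hC : ∀ s ∈ A.toPArr.cellsF univ, A.toPArr.NoC4 (A.toPArr.fac s))
    (hK : A.toPArr.NoK4)
    (hB : ∀ s ∈ A.toPArr.cellsF univ, ∀ V ⊆ A.toPArr.fac s, A.toPArr.Block V → 5 ≤ V.card →
      ∀ T ⊆ V, T.Nonempty → A.toPArr.IsClq T → ¬ A.toPArr.R2c V T → 0 ≤ A.toPArr.Bh V T) :
    Glued A A.toPArr.chi := by
  have hC' : ∀ s ∈ A.toPArr.cellsF univ, ∀ V ⊆ A.toPArr.fac s, A.toPArr.NoC4 V :=
    fun s hs V hV a ha b hb c hc d hd => hC s hs a (hV ha) b (hV hb) c (hV hc) d (hV hd)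
  have hok : ∀ s ∈ A.toPArr.cellsF univ, A.toPArr.Ok (A.toPArr.fac s) := by
    intro s hs
    refine ⟨?_, fun V' hV' => hL s hs V' hV'⟩
    intro V' hV' T hT hne hc
    refine A.toPArr.glueR (fun V => V ⊆ A.toPArr.fac s) (fun V V' h h' => h'.trans h)
      (fun V hV => hL s hs V hV) (fun V hV => hC' s hs V hV) ?_ V' hV' T hT hne hc
    intro V hV hbl T hT hne hc hR
    rcases Nat.lt_or_ge V.card 5 with h5 | h5
    · exact A.toPArr.Bh_small hbl (by omega) (hC' s hs V hV) (fun K _ hK' => hK K hK') hT hc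
    · exact hB s hs V hV hbl h5 T hT hne hc hR
  have hval : ∀ V T, A.toPArr.val (fun _ => A.toPArr.chi) V T = A.toPArr.Bv V T := fun V T => rfl
  refine ⟨?_, ?_, ?_, ?_, ?_⟩
  · intro s hs T hT hne hc FF hFF
    rw [hval]
    exact A.toPArr.fam1 (hok s hs) hT hne hc FF
      (fun C hC => ⟨(hFF.1 C hC).1, (hFF.1 C hC).2.1, (hFF.1 C hC).2.2.2⟩) hFF.2
  · intro s hs h4 FF hFF
    rw [hval, PArr.Bv_empty]
    exact A.toPArr.fam0 (hok s hs) h4 FF
      (fun C hC => ⟨(hFF.1 C hC).1, (hFF.1 C hC).2.1, (hFF.1 C hC).2.2.2⟩) hFF.2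
  · intro s hs h3 hnp
    rw [hval, PArr.Bv_empty]
    refine (PArr.Ok.low A.toPArr (hok s hs)).2.2.2.2 h3 ?_
    rintro ⟨i, j, l, h1, h2, h4, h5, h6⟩
    apply hnp
    refine ⟨j, i, l, h1, h2, h4, h5, ?_⟩
    rw [h6]
    exact insert_comm _ _ _
  · rintro s hs x y z ⟨h1, h2, h3, h4, h5⟩
    rw [hval, PArr.Bv_empty]
    have hc : (A.toPArr.fac s).card = 3 := by
      have e : A.toPArr.fac s = {y, x, z} := by rw [h5]; exact insert_comm _ _ _
      rw [e]
      exact (A.toPArr.path_facts h1 h2 h3 h4).1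
    exact (PArr.Ok.low A.toPArr (hok s hs)).2.2.1 hc
  · rintro s hs x y z ⟨h1, h2, h3, h4, h5⟩
    rw [hval]
    have e : A.toPArr.fac s = {y, x, z} := by rw [h5]; exact insert_comm _ _ _
    rw [e]
    have hyx : y ∉ ({x} : Finset ι) := by
      rw [mem_singleton]
      intro e'
      rw [e'] at h1
      exact A.toPArr.irrefl x h1
    exact ((A.toPArr.Bv_p3 h1 h2 h3 h4 (T := {x}) (by simp) (singleton_nonempty x)
      (A.toPArr.clq_single x)).2 hyx).ge

end Pool.Agent.Helper56.OC
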