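import Pool.Agent.Helper79.OC.St

set_option autoImplicit false

namespace Pool.Agent.Helper79.OC

private theorem Iso_uniq {k e f i j : ℕ} (hi : i < k) (hj : j < k) (h : e * k + i = f * k + j) :
    e = f ∧ i = j := by
  rcases lt_trichotomy e f with h1 | h1 | h1
  · exfalso
    have h2 : (e + 1) * k ≤ f * k := Nat.mul_le_mul_right k h1
    rw [Nat.add_mul, Nat.one_mul] at h2
    omega
  · subst h1
    exact ⟨rfl, by omega⟩
  · exfalso
    have h2 : (f + 1) * k ≤ e * k := Nat.mul_le_mul_right k h1
    rw [Nat.add_mul, Nat.one_mul] at h2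
    omega

private theorem Iso_edgeOut (k1 cur : ℕ) (p : ℕ × ℕ) (x y : ℕ) :
    (x, y) ∈ edgeOut k1 cur p ↔ (x = p.1 + 1 ∧ y = cur) ∨
      (∃ t < k1, x = cur + t ∧ y = cur + t + 1) ∨ (x = p.2 + 1 ∧ y = cur + k1) := by
  unfold edgeOut
  simp only [List.mem_cons, List.mem_append, List.mem_map, List.mem_range, Prod.mk.injEq,
    List.not_mem_nil, or_false]
  constructor
  · rintro (h | ⟨t, ht, h1, h2⟩ | h)
    · exact Or.inl h
    · exact Or.inr (Or.inl ⟨t, ht, h1.symm, h2.symm⟩)
    · exact Or.inr (Or.inr h)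
  · rintro (h | ⟨t, ht, h1, h2⟩ | h)
    · exact Or.inl h
    · exact Or.inr (Or.inl ⟨t, ht, h1.symm, h2.symm⟩)
    · exact Or.inr (Or.inr h)

private theorem Iso_outs (k1 : ℕ) (l : List (ℕ × ℕ)) : ∀ (cur x y : ℕ),
    (x, y) ∈ outs k1 cur l ↔ ∃ (e : ℕ) (he : e < l.length),
      (x, y) ∈ edgeOut k1 (cur + e * (k1 + 1)) l[e] := by
  induction l with
  | nil =>
      intro cur x y
      simp [outs]
  | cons p l ih =>
      intro cur x y
      rw [outs, List.mem_append, ih]
      constructor
      · rintro (h | ⟨e, he, h⟩)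
        · refine ⟨0, by simp, ?_⟩
          simpa using h
        · refine ⟨e + 1, by simpa using he, ?_⟩
          have h1 : cur + (e + 1) * (k1 + 1) = cur + k1 + 1 + e * (k1 + 1) := by ring
          rw [h1]
          simpa using h
      · rintro ⟨e, he, h⟩
        cases e with
        | zero =>
            left
            simpa using h
        | succ e =>
            right
            refine ⟨e, by simpa using he, ?_⟩
            have h1 : cur + (e + 1) * (k1 + 1) = cur + k1 + 1 + e * (k1 + 1) := by ring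
            rw [h1] at h
            simpa using h

private theorem Iso_redE (n k1 : ℕ) (E : List (ℕ × ℕ)) (x y : ℕ) :
    (x, y) ∈ redE n k1 E ↔ (x = 0 ∧ ∃ v < n, y = v + 1) ∨ ∃ (e : ℕ) (he : e < E.length),
      (x = (E[e]).1 + 1 ∧ y = n + 1 + e * (k1 + 1)) ∨
      (∃ t < k1, x = n + 1 + e * (k1 + 1) + t ∧ y = n + 1 + e * (k1 + 1) + t + 1) ∨
      (x = (E[e]).2 + 1 ∧ y = n + 1 + e * (k1 + 1) + k1) := by
  unfold redE
  rw [List.mem_append, Iso_outs]
  refine or_congr ?_ ?_
  · simp only [List.mem_map, List.mem_range, Prod.mk.injEq]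
    constructor
    · rintro ⟨v, hv, h1, h2⟩
      exact ⟨h1.symm, v, hv, h2.symm⟩
    · rintro ⟨h1, v, hv, h2⟩
      exact ⟨v, hv, h1.symm, h2.symm⟩
  · refine exists_congr fun e => exists_congr fun he => ?_
    rw [Iso_edgeOut]

/-- directed adjacency -/
private def Iso_rel {n m k : ℕ} (a b : Fin m → Fin n) : Vx n m k → Vx n m k → Prop
  | .p, .s _ => True
  | .s v, .c e i => (v = a e ∧ i.1 = 0) ∨ (v = b e ∧ i.1 + 1 = k)
  | .c e i, .c f j => e = f ∧ i.1 + 1 = j.1
  | _, _ => False

private theorem Iso_radj {n m k : ℕ} (a b : Fin m → Fin n) (x y : Vx n m k) :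
    radj a b x y ↔ Iso_rel a b x y ∨ Iso_rel a b y x := by
  cases x <;> cases y <;> simp only [radj, Iso_rel, or_false, false_or, or_self]
  constructor
  · rintro ⟨rfl, h | h⟩
    · exact Or.inl ⟨rfl, h⟩
    · exact Or.inr ⟨rfl, h⟩
  · rintro (⟨rfl, h⟩ | ⟨rfl, h⟩)
    · exact ⟨rfl, Or.inl h⟩
    · exact ⟨rfl, Or.inr h⟩

/-- number of a vertex -/
private def Iso_num {n m k : ℕ} : Vx n m k → ℕ
  | .p => 0
  | .s v => v.1 + 1
  | .c e i => n + 1 + e.1 * k + i.1

private theorem Iso_num_lt {n m k : ℕ} (x : Vx n m k) : Iso_num x < n + 1 + m * k := by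
  cases x with
  | p => simp only [Iso_num]; omega
  | s v => simp only [Iso_num]; have := v.2; omega
  | c e i =>
      simp only [Iso_num]
      have h1 : (e.1 + 1) * k ≤ m * k := Nat.mul_le_mul_right k e.2
      rw [Nat.add_mul, Nat.one_mul] at h1
      have := i.2
      omega

private theorem Iso_num_inj {n m k : ℕ} (x y : Vx n m k) (h : Iso_num x = Iso_num y) : x = y := by
  cases x with
  | p =>
      cases y with
      | p => rfl
      | s w => simp only [Iso_num] at h; omega
      | c f j => simp only [Iso_num] at h; omega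
  | s v =>
      cases y with
      | p => simp only [Iso_num] at h; omega
      | s w =>
          simp only [Iso_num] at h
          have : v = w := Fin.ext (by omega)
          rw [this]
      | c f j => simp only [Iso_num] at h; have := v.2; omega
  | c e i =>
      cases y with
      | p => simp only [Iso_num] at h; omega
      | s w => simp only [Iso_num] at h; have := w.2; omega
      | c f j =>
          simp only [Iso_num] at h
          obtain ⟨h1, h2⟩ := Iso_uniq (e := e.1) (f := f.1) i.2 j.2 (by omega)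
          rw [Fin.ext h1, Fin.ext h2]

private theorem Iso_num_surj {n m k : ℕ} (N : ℕ) (hN : N < n + 1 + m * k) :
    ∃ x : Vx n m k, Iso_num x = N := by
  by_cases h0 : N = 0
  · exact ⟨.p, h0.symm⟩
  by_cases h1 : N ≤ n
  · exact ⟨.s ⟨N - 1, by omega⟩, by simp only [Iso_num]; omega⟩
  · have hk : 0 < k := by
      rcases Nat.eq_zero_or_pos k with h | h
      · rw [h, Nat.mul_zero] at hN; omega
      · exact h
    have h2 : (N - n - 1) / k < m := by
      rw [Nat.div_lt_iff_lt_mul hk]; omega
    refine ⟨.c ⟨(N - n - 1) / k, h2⟩ ⟨(N - n - 1) % k, Nat.mod_lt _ hk⟩, ?_⟩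
    simp only [Iso_num]
    have h3 := Nat.div_add_mod (N - n - 1) k
    rw [Nat.mul_comm] at h3
    omega

private theorem Iso_mem {n k1 : ℕ} (E : List (ℕ × ℕ)) (hE : ∀ e ∈ E, e.1 < e.2 ∧ e.2 < n)
    (a b : Fin E.length → Fin n) (ha : ∀ e, (a e).1 = (E[e.1]).1) (hb : ∀ e, (b e).1 = (E[e.1]).2)
    (x y : Vx n E.length (k1 + 1)) :
    (Iso_num x, Iso_num y) ∈ redE n k1 E ↔ Iso_rel a b x y := by
  rw [Iso_redE]
  have hlt : ∀ (e : ℕ) (he : e < E.length), (E[e]).1 < n ∧ (E[e]).2 < n := by
    intro e he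
    have := hE _ (List.getElem_mem he)
    omega
  cases x with
  | p =>
      cases y with
      | p =>
          simp only [Iso_num, Iso_rel, iff_false]
          rintro (⟨_, v, _, h⟩ | ⟨e, he, ⟨h, _⟩ | ⟨t, _, h, _⟩ | ⟨h, _⟩⟩) <;> omega
      | s w =>
          simp only [Iso_num, Iso_rel, iff_true]
          exact Or.inl ⟨trivial, w.1, w.2, rfl⟩
      | c f j =>
          simp only [Iso_num, Iso_rel, iff_false]
          rintro (⟨_, v, _, h⟩ | ⟨e, he, ⟨h, _⟩ | ⟨t, _, h, _⟩ | ⟨h, _⟩⟩) <;> omega
  | s v =>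
      cases y with
      | p =>
          simp only [Iso_num, Iso_rel, iff_false]
          rintro (⟨_, v, _, h⟩ | ⟨e, he, ⟨_, h⟩ | ⟨t, _, _, h⟩ | ⟨_, h⟩⟩) <;> omega
      | s w =>
          simp only [Iso_num, Iso_rel, iff_false]
          have := w.2
          rintro (⟨h, _⟩ | ⟨e, he, ⟨_, h⟩ | ⟨t, _, _, h⟩ | ⟨_, h⟩⟩) <;> omega
      | c f j =>
          simp only [Iso_num, Iso_rel]
          have hv := v.2
          have hj := j.2
          constructor
          · rintro (⟨h, _⟩ | ⟨e, he, ⟨h, h'⟩ | ⟨t, _, h, _⟩ | ⟨h, h'⟩⟩)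
            · omega
            · left
              obtain ⟨h1, h2⟩ := Iso_uniq (e := f.1) (f := e) (i := j.1) (j := 0) hj (by omega)
                (by omega)
              refine ⟨Fin.ext ?_, h2⟩
              rw [ha]
              simp only [h1]
              omega
            · omega
            · right
              obtain ⟨h1, h2⟩ := Iso_uniq (e := f.1) (f := e) (i := j.1) (j := k1) hj (by omega)
                (by omega)
              refine ⟨Fin.ext ?_, by omega⟩
              rw [hb]
              simp only [h1]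
              omega
          · rintro (⟨h, h'⟩ | ⟨h, h'⟩)
            · right
              refine ⟨f.1, f.2, Or.inl ⟨?_, by omega⟩⟩
              rw [← ha, h]
            · right
              refine ⟨f.1, f.2, Or.inr (Or.inr ⟨?_, by omega⟩)⟩
              rw [← hb, h]
  | c e i =>
      cases y with
      | p =>
          simp only [Iso_num, Iso_rel, iff_false]
          rintro (⟨_, v, _, h⟩ | ⟨e, he, ⟨_, h⟩ | ⟨t, _, _, h⟩ | ⟨_, h⟩⟩) <;> omega
      | s w =>
          simp only [Iso_num, Iso_rel, iff_false]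
          have := w.2
          rintro (⟨h, _⟩ | ⟨e, he, ⟨_, h⟩ | ⟨t, _, _, h⟩ | ⟨_, h⟩⟩) <;> omega
      | c f j =>
          simp only [Iso_num, Iso_rel]
          have hi := i.2
          have hj := j.2
          constructor
          · rintro (⟨h, _⟩ | ⟨g, hg, ⟨h, _⟩ | ⟨t, ht, h, h'⟩ | ⟨h, _⟩⟩)
            · omega
            · have := hlt g hg; omega
            · obtain ⟨h1, h2⟩ := Iso_uniq (e := e.1) (f := g) (i := i.1) (j := t) hi (by omega)
                (by omega)
              obtain ⟨h3, h4⟩ := Iso_uniq (e := f.1) (f := g) (i := j.1) (j := t + 1) hj (by omega)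
                (by omega)
              exact ⟨Fin.ext (h1.trans h3.symm), by omega⟩
            · have := hlt g hg; omega
          · rintro ⟨h, h'⟩
            subst h
            right
            exact ⟨e.1, e.2, Or.inr (Or.inl ⟨i.1, by omega, rfl, by omega⟩)⟩

theorem Iso_main : StIso := by
  intro H F hn hE
  have hlt : ∀ e : Fin H.E.length, (H.E[e.1]).1 < (H.E[e.1]).2 ∧ (H.E[e.1]).2 < H.n := fun e =>
    H.lt _ (List.getElem_mem e.2)
  let a : Fin H.E.length → Fin H.n := fun e => ⟨(H.E[e.1]).1, (hlt e).1.trans (hlt e).2⟩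
  let b : Fin H.E.length → Fin H.n := fun e => ⟨(H.E[e.1]).2, (hlt e).2⟩
  refine ⟨a, b, ?_, ?_, ?_, ?_⟩
  · intro e h
    have h1 := congrArg Fin.val h
    have h2 := (hlt e).1
    simp only [a, b] at h1
    omega
  · intro e f hef
    constructor
    · rintro ⟨h1, h2⟩
      apply hef
      have h3 := congrArg Fin.val h1
      have h4 := congrArg Fin.val h2
      simp only [a, b] at h3 h4
      have h5 : H.E[e.1] = H.E[f.1] := Prod.ext h3 h4
      exact Fin.ext ((List.Nodup.getElem_inj_iff H.nodup).1 h5)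
    · rintro ⟨h1, h2⟩
      have h3 := congrArg Fin.val h1
      have h4 := congrArg Fin.val h2
      simp only [a, b] at h3 h4
      have h5 := (hlt e).1
      have h6 := (hlt f).1
      omega
  · ext u v
    simp only [HG, SimpleGraph.fromRel_adj, GI.graph]
    constructor
    · rintro ⟨_, ⟨e, h1, h2⟩ | ⟨e, h1, h2⟩⟩
      · left
        have h3 : H.E[e.1] = (u.1, v.1) := by
          rw [← h1, ← h2]
        rw [← h3]
        exact List.getElem_mem e.2
      · right
        have h3 : H.E[e.1] = (v.1, u.1) := by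
          rw [← h1, ← h2]
        rw [← h3]
        exact List.getElem_mem e.2
    · rintro (h | h)
      · have h0 := H.lt _ h
        obtain ⟨e, he, h1⟩ := List.mem_iff_getElem.1 h
        refine ⟨fun h' => ?_, Or.inl ⟨⟨e, he⟩, Fin.ext ?_, Fin.ext ?_⟩⟩
        · rw [h'] at h0; exact absurd h0.1 (lt_irrefl _)
        · simp only [a]; rw [h1]
        · simp only [b]; rw [h1]
      · have h0 := H.lt _ h
        obtain ⟨e, he, h1⟩ := List.mem_iff_getElem.1 h
        refine ⟨fun h' => ?_, Or.inr ⟨⟨e, he⟩, Fin.ext ?_, Fin.ext ?_⟩⟩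
        · rw [h'] at h0; exact absurd h0.1 (lt_irrefl _)
        · simp only [a]; rw [h1]
        · simp only [b]; rw [h1]
  · let φ : Vx H.n H.E.length (K1 H.n + 1) → Fin F.n := fun x => ⟨Iso_num x, by
      rw [hn]; exact Iso_num_lt x⟩
    have hφ : Function.Bijective φ := by
      constructor
      · intro x y h
        exact Iso_num_inj x y (congrArg Fin.val h)
      · intro N
        obtain ⟨x, hx⟩ := Iso_num_surj (n := H.n) (m := H.E.length) (k := K1 H.n + 1) N.1
          (by rw [← hn]; exact N.2)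
        exact ⟨x, Fin.ext hx⟩
    refine ⟨(RelIso.symm ⟨Equiv.ofBijective φ hφ, ?_⟩ : F.graph ≃g _)⟩
    intro x y
    show F.graph.Adj (φ x) (φ y) ↔ radj a b x y
    rw [Iso_radj]
    show (Iso_num x, Iso_num y) ∈ F.E ∨ (Iso_num y, Iso_num x) ∈ F.E ↔ _
    rw [hE, Iso_mem H.E H.lt a b (fun _ => rfl) (fun _ => rfl),
      Iso_mem H.E H.lt a b (fun _ => rfl) (fun _ => rfl)]

end Pool.Agent.Helper79.OC
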