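import Pool.Agent.Helper79.OC.GlueE
import Pool.Agent.Helper15.OC.Bridge

/-!
# Arrangements of orthogonal circles: links of facets are cycles or linear forests
-/

set_option autoImplicit false
set_option linter.unusedSectionVars false

open Finset

namespace Pool.Agent.Helper79.OC

open Pool.Agent.Helper15.OC

variable {κ : Type}

/-- restriction of a family of mutually facing circles -/
def res (F : Fam κ) {κ' : Type} (f : κ' → κ) (hf : Function.Injective f) : Fam κ' where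
  v := fun a => F.v (f a)
  adj := fun a b => F.adj (f a) (f b)
  hsymm := fun a b h => F.hsymm _ _ h
  h1 := fun a => F.h1 _
  h0 := fun a b h => F.h0 _ _ h
  hneg := fun a b hne h => F.hneg _ _ (fun e => hne (hf e)) h
  hsep := fun a b hne h w hw => F.hsep _ _ (fun e => hne (hf e)) h w hw
  hend := fun a b h => F.hend _ _ h
  hpt := fun a => F.hpt _

/-- an edge has at most two common neighbours -/
theorem three (F : Fam κ) {x y u₁ u₂ u₃ : κ} (hxy : F.adj x y) (h1x : F.adj u₁ x)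
    (h1y : F.adj u₁ y) (h2x : F.adj u₂ x) (h2y : F.adj u₂ y) (h3x : F.adj u₃ x) (h3y : F.adj u₃ y)
    (h12 : u₁ ≠ u₂) (h13 : u₁ ≠ u₃) (h23 : u₂ ≠ u₃) : False := by
  obtain ⟨w1, w2, hne, hx1, hx2, hy1, hy2⟩ := F.hend x y hxy
  have c : ∀ u, F.adj u x → F.adj u y → 0 < B (F.v u) (nul w1) ∨ 0 < B (F.v u) (nul w2) := by
    intro u hux huy
    have h := F.cut_one hxy hne hx1 hx2 hy1 hy2 hux huy
    by_contra hcon
    push Not at hcon
    have := mul_nonneg_of_nonpos_of_nonpos hcon.1 hcon.2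
    linarith
  have d1 : ∀ u u', F.adj u x → F.adj u y → F.adj u' x → F.adj u' y → u ≠ u' →
      0 < B (F.v u) (nul w1) → 0 < B (F.v u') (nul w1) → False :=
    fun u u' a b c d e f g => F.cut_diff hxy hne hx1 hx2 hy1 hy2 a b c d e f g
  have d2 : ∀ u u', F.adj u x → F.adj u y → F.adj u' x → F.adj u' y → u ≠ u' →
      0 < B (F.v u) (nul w2) → 0 < B (F.v u') (nul w2) → False :=
    fun u u' a b c d e f g => F.cut_diff hxy hne.symm hx2 hx1 hy2 hy1 a b c d e f g
  rcases c u₁ h1x h1y with p1 | p1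
  · rcases c u₂ h2x h2y with p2 | p2
    · exact d1 _ _ h1x h1y h2x h2y h12 p1 p2
    · rcases c u₃ h3x h3y with p3 | p3
      · exact d1 _ _ h1x h1y h3x h3y h13 p1 p3
      · exact d2 _ _ h2x h2y h3x h3y h23 p2 p3
  · rcases c u₂ h2x h2y with p2 | p2
    · rcases c u₃ h3x h3y with p3 | p3
      · exact d1 _ _ h2x h2y h3x h3y h23 p2 p3
      · exact d2 _ _ h1x h1y h3x h3y h13 p1 p3
    · exact d2 _ _ h1x h1y h2x h2y h12 p1 p2

/-- in a plane map, a part of a link in which all degrees are at least `2` is everything -/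
theorem pmap_link [Fintype κ] (M : PMap κ) (x : κ) (K : κ → Prop) (h1 : ∀ u, K u → M.adj x u)
    (h2 : ∀ u, K u → ∃ z z', z ≠ z' ∧ K z ∧ K z' ∧ M.adj u z ∧ M.adj u z') (hne : ∃ u, K u) :
    ∀ y, M.adj x y → K y := by
  classical
  have key : ∀ d : Dt M.adj, d.1.1 = x → K d.1.2 → (M.σ d).1.1 = x ∧ K (M.σ d).1.2 := by
    rintro ⟨⟨a, u⟩, hau⟩ hd hK
    simp only at hd hK
    subst hd
    refine ⟨M.hσ _, ?_⟩
    obtain ⟨z, z', hzz, hz, hz', huz, huz'⟩ := h2 u hK
    rcases M.htri a u z hau huz (h1 z hz) with ⟨⟨g, g', e⟩, -, -⟩ | ⟨⟨g, g', e⟩, -, -⟩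
    · rw [e]; exact hz
    · rcases M.htri a u z' hau huz' (h1 z' hz') with ⟨⟨k, k', f⟩, -, -⟩ | ⟨⟨k, k', f⟩, -, -⟩
      · rw [f]; exact hz'
      · exfalso
        have := M.σ.injective (e.trans f.symm)
        have h3 := congrArg (fun d : Dt M.adj => d.1.2) this
        exact hzz h3
  obtain ⟨u, hu⟩ := hne
  have hpow : ∀ n : ℕ, ((M.σ ^ n) ⟨(x, u), h1 u hu⟩).1.1 = x ∧ K ((M.σ ^ n) ⟨(x, u), h1 u hu⟩).1.2 := by
    intro n
    induction n with
    | zero => exact ⟨rfl, hu⟩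
    | succ n ih =>
      rw [pow_succ', Equiv.Perm.mul_apply]
      exact key _ ih.1 ih.2
  intro y hy
  have hs := M.htrans ⟨(x, u), h1 u hu⟩ ⟨(x, y), hy⟩ rfl
  haveI : Finite (Dt M.adj) := Subtype.finite
  obtain ⟨n, hn⟩ := hs.exists_nat_pow_eq
  have := (hpow n).2
  rw [hn] at this
  exact this

/-- a part of a link in which all degrees are at least `2` is everything -/
theorem fam_link [Fintype κ] [DecidableEq κ] (F : Fam κ) (x : κ) (K : κ → Prop)
    (h1 : ∀ u, K u → F.adj x u)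
    (h2 : ∀ u, K u → ∃ z z', z ≠ z' ∧ K z ∧ K z' ∧ F.adj u z ∧ F.adj u z') (hne : ∃ u, K u) :
    ∀ y, F.adj x y → K y := by
  rcases F.free_or_closed with ⟨a, b, w, hab, ha, hb, hfree⟩ | hcl
  · obtain ⟨M, hM⟩ := F.pmap_of_free hab ha hb hfree
    have := pmap_link M x K (by rw [hM]; exact h1) (by rw [hM]; exact h2) hne
    rw [hM] at this
    exact this
  · intro y hy
    by_contra hKy
    obtain ⟨u, u2, -, hu⟩ := hcl x y hy
    obtain ⟨hux, huy⟩ := (hu u).2 (Or.inl rfl)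
    have hKu : ¬ K u := by
      intro hKu
      obtain ⟨z, z', hzz, hz, hz', huz, huz'⟩ := h2 u hKu
      exact three F (F.hsymm _ _ hux) (F.hsymm _ _ (h1 z hz)) (F.hsymm _ _ huz)
        (F.hsymm _ _ (h1 z' hz')) (F.hsymm _ _ huz') (F.hsymm _ _ hy) (F.hsymm _ _ huy) hzz
        (fun e => hKy (e ▸ hz)) (fun e => hKy (e ▸ hz'))
    obtain ⟨M, hM⟩ := F.pmap_of_vertex hy hux huy
    have hxu : x ≠ u := F.adj_ne (F.hsymm _ _ hux)
    have hyu : y ≠ u := F.adj_ne (F.hsymm _ _ huy)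
    have := pmap_link M ⟨x, hxu⟩ (fun v => K v.1) (by
        rw [hM]
        exact fun v hv => h1 v.1 hv)
      (by
        rw [hM]
        intro v hv
        obtain ⟨z, z', hzz, hz, hz', huz, huz'⟩ := h2 v.1 hv
        exact ⟨⟨z, fun e => hKu (e ▸ hz)⟩, ⟨z', fun e => hKu (e ▸ hz')⟩,
          fun e => hzz (congrArg Subtype.val e), hz, hz', huz, huz'⟩)
      (by
        obtain ⟨v, hv⟩ := hne
        exact ⟨⟨v, fun e => hKu (e ▸ hv)⟩, hv⟩) ⟨y, hyu⟩ (by rw [hM]; exact hy)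
    exact hKy this

section

variable {ι : Type} [Fintype ι] [DecidableEq ι] (A : Pool.Agent.Helper56.OC.Fam ι)

/-- the family of a set of facets -/
noncomputable def subFam (s V : Finset ι) (hV : V ⊆ A.toPArr.fac s) : Fam {i // i ∈ V} :=
  res (facFam A s) (fun i => ⟨i.1, hV i.2⟩) (fun a b h => Subtype.ext (congrArg (fun t => t.1) h))

theorem subFam_adj (s V : Finset ι) (hV : V ⊆ A.toPArr.fac s) (a b : {i // i ∈ V}) :
    (subFam A s V hV).adj a b ↔ A.toPArr.orth a.1 b.1 := Iff.rfl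

/-- no induced four-cycle among the facets -/
theorem noC4_fac (s : Finset ι) : A.toPArr.NoC4 (A.toPArr.fac s) := by
  intro a ha b hb c hc d hd hab hbc hcd hda hac hbd
  by_contra hcon
  push Not at hcon
  exact (facFam A s).noC4 (x := ⟨a, ha⟩) (y := ⟨b, hb⟩) (z := ⟨c, hc⟩) (u := ⟨d, hd⟩) hab hbc hcd hda
    (fun e => hac (congrArg Subtype.val e)) (fun e => hbd (congrArg Subtype.val e)) hcon.1 hcon.2

/-- links are cycles or linear forests -/
theorem linkOK_fac (s V : Finset ι) (hV : V ⊆ A.toPArr.fac s) (v : ι) (hv : v ∈ V) :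
    A.toPArr.LinkOK (A.toPArr.lk V v) := by
  set F := subFam A s V hV with hF
  have hadj : ∀ a b : {i // i ∈ V}, F.adj a b ↔ A.toPArr.orth a.1 b.1 := subFam_adj A s V hV
  have sy : ∀ {i j : ι}, A.toPArr.orth i j → A.toPArr.orth j i := fun h => A.toPArr.symm h
  constructor
  · intro u hu
    by_contra hc
    push Not at hc
    obtain ⟨a, b, c, ha, hb, hcc, hab, hac, hbc⟩ := two_lt_card_iff.1 hc
    rw [A.toPArr.mlk, A.toPArr.mlk] at ha hb hcc
    rw [A.toPArr.mlk] at hu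
    exact three F (x := ⟨v, hv⟩) (y := ⟨u, hu.1⟩) (u₁ := ⟨a, ha.1.1⟩) (u₂ := ⟨b, hb.1.1⟩)
      (u₃ := ⟨c, hcc.1.1⟩) ((hadj _ _).2 hu.2) ((hadj _ _).2 (sy ha.1.2)) ((hadj _ _).2 (sy ha.2))
      ((hadj _ _).2 (sy hb.1.2)) ((hadj _ _).2 (sy hb.2)) ((hadj _ _).2 (sy hcc.1.2))
      ((hadj _ _).2 (sy hcc.2)) (fun e => hab (congrArg Subtype.val e))
      (fun e => hac (congrArg Subtype.val e)) (fun e => hbc (congrArg Subtype.val e))
  · intro K' hK' hne hneq
    by_contra hcon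
    push Not at hcon
    apply hneq
    apply subset_antisymm hK'
    intro y hy
    have hy' := (A.toPArr.mlk).1 hy
    have := fam_link F ⟨v, hv⟩ (fun w => w.1 ∈ K') (fun w hw =>
        (hadj _ _).2 ((A.toPArr.mlk).1 (hK' hw)).2)
      (by
        intro w hw
        have h2 : 1 < (A.toPArr.lk K' w.1).card := hcon w.1 hw
        obtain ⟨z, hz, z', hz', hzz⟩ := one_lt_card.1 h2
        rw [A.toPArr.mlk] at hz hz'
        exact ⟨⟨z, ((A.toPArr.mlk).1 (hK' hz.1)).1⟩, ⟨z', ((A.toPArr.mlk).1 (hK' hz'.1)).1⟩,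
          fun e => hzz (congrArg Subtype.val e), hz.1, hz'.1, (hadj _ _).2 hz.2,
          (hadj _ _).2 hz'.2⟩)
      (by
        obtain ⟨w, hw⟩ := hne
        exact ⟨⟨w, ((A.toPArr.mlk).1 (hK' hw)).1⟩, hw⟩) ⟨y, hy'.1⟩ ((hadj _ _).2 hy'.2)
    exact this

/-- **The final interface**: only the inequality for blocks with at least five vertices is left. -/
theorem glued_of_blocks' (hB : ∀ s ∈ A.toPArr.cellsF univ, ∀ V ⊆ A.toPArr.fac s, A.toPArr.Block V →
      5 ≤ V.card → ∀ T ⊆ V, T.Nonempty → A.toPArr.IsClq T → ¬ A.toPArr.R2c V T →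
      0 ≤ A.toPArr.Bh V T) : Pool.Agent.Helper56.OC.Glued A A.toPArr.chi :=
  Pool.Agent.Helper56.OC.glued_of_blocks A (fun s _ V hV v hv => linkOK_fac A s V hV v hv)
    (fun s _ => noC4_fac A s) (noK4 A) hB

end

end Pool.Agent.Helper79.OC
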