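import Mathlib
import Pool.Agent.Helper56.OC.M_PTS

/-!
# Arrangements of orthogonal circles: many quadrangular faces, part A (sectors of annuli)
-/

set_option autoImplicit false
set_option linter.unusedSectionVars false

open Set

namespace Pool.Agent.Helper79.OC

open Pool.Agent.Helper56.OC

/-! ## Components -/

/-- a set which is covered by four closed sets without common points, each part connected -/
theorem arcs_four {X : Set ℂ} (C : Fin 4 → Set ℂ) (hC : ∀ i, IsClosed (C i))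
    (hX : ∀ z ∈ X, ∃ i, z ∈ C i) (hdis : ∀ z ∈ X, ∀ i j, z ∈ C i → z ∈ C j → i = j)
    (hne : ∀ i, (X ∩ C i).Nonempty) (hpre : ∀ i, IsPreconnected (X ∩ C i)) :
    {a | ∃ p ∈ X, a = connectedComponentIn X p}.ncard = 4 := by
  have key : ∀ i, ∀ p ∈ X ∩ C i, connectedComponentIn X p = X ∩ C i := by
    intro i p hp
    apply Subset.antisymm
    · intro z hz
      have hzX : z ∈ X := connectedComponentIn_subset X p hz
      refine ⟨hzX, ?_⟩
      by_contra hzi
      have hD : IsClosed (⋃ j ∈ {j : Fin 4 | j ≠ i}, C j) :=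
        (Set.toFinite _).isClosed_biUnion fun j _ => hC j
      have := isPreconnected_closed_iff.1 (isPreconnected_connectedComponentIn (x := p) (F := X))
        (C i) (⋃ j ∈ {j : Fin 4 | j ≠ i}, C j) (hC i) hD ?_ ⟨p, mem_connectedComponentIn hp.1, hp.2⟩ ?_
      · obtain ⟨w, hw, hw1, hw2⟩ := this
        rw [mem_iUnion₂] at hw2
        obtain ⟨j, hj, hwj⟩ := hw2
        exact hj (hdis w (connectedComponentIn_subset X p hw) j i hwj hw1)
      · intro w hw
        obtain ⟨j, hj⟩ := hX w (connectedComponentIn_subset X p hw)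
        by_cases hji : j = i
        · left; rw [← hji]; exact hj
        · right
          rw [mem_iUnion₂]
          exact ⟨j, hji, hj⟩
      · obtain ⟨j, hj⟩ := hX z hzX
        refine ⟨z, hz, ?_⟩
        rw [mem_iUnion₂]
        exact ⟨j, fun e => hzi (e ▸ hj), hj⟩
    · exact (hpre i).subset_connectedComponentIn hp inter_subset_left
  have e : {a | ∃ p ∈ X, a = connectedComponentIn X p} = range (fun i => X ∩ C i) := by
    ext a
    constructor
    · rintro ⟨p, hp, rfl⟩
      obtain ⟨i, hi⟩ := hX p hp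
      exact ⟨i, (key i p ⟨hp, hi⟩).symm⟩
    · rintro ⟨i, rfl⟩
      obtain ⟨p, hp⟩ := hne i
      exact ⟨p, hp.1, (key i p hp).symm⟩
  rw [e, ncard_range_of_injective]
  · simp
  · intro i j hij
    obtain ⟨p, hp⟩ := hne i
    have hp' : p ∈ X ∩ C j := by
      have : X ∩ C i = X ∩ C j := hij
      rw [← this]; exact hp
    exact hdis p hp.1 i j hp.2 hp'.2

/-- a face from its frontier -/
theorem face_of {U F : Set ℂ} (hFo : IsOpen F) (hFc : IsPreconnected F) (hFU : F ⊆ Uᶜ)
    (hfr : frontier F ⊆ U) {p : ℂ} (hp : p ∈ F) : connectedComponentIn Uᶜ p = F := by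
  apply Subset.antisymm
  · have hsub : connectedComponentIn Uᶜ p ⊆ F ∪ (closure F)ᶜ := by
      intro z hz
      by_cases hzF : z ∈ F
      · exact Or.inl hzF
      · right
        intro hcl
        have : z ∈ frontier F := ⟨hcl, fun h => hzF (interior_subset h)⟩
        exact connectedComponentIn_subset _ _ hz (hfr this)
    exact isPreconnected_connectedComponentIn.subset_left_of_subset_union hFo
      isClosed_closure.isOpen_compl (disjoint_left.2 fun z h1 h2 => h2 (subset_closure h1)) hsub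
      ⟨p, mem_connectedComponentIn (hFU hp), hp⟩
  · exact hFc.subset_connectedComponentIn hp hFU

/-! ## Coordinates -/

/-- square of the distance to `i` -/
def fM (z : ℂ) : ℝ := z.re ^ 2 + (z.im - 1) ^ 2

/-- square of the distance to `-i` -/
def fN (z : ℂ) : ℝ := z.re ^ 2 + (z.im + 1) ^ 2

/-- power with respect to the circle with centre `1` -/
def fP (z : ℂ) : ℝ := (z.re - 1) ^ 2 + z.im ^ 2 - 2

/-- power with respect to the circle with centre `-1` -/
def fQ (z : ℂ) : ℝ := (z.re + 1) ^ 2 + z.im ^ 2 - 2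

theorem fPQ (z : ℂ) : fP z ^ 2 + fQ z ^ 2 = 2 * fM z * fN z := by
  unfold fM fN fP fQ; ring

theorem fM_nonneg (z : ℂ) : 0 ≤ fM z := by unfold fM; positivity

theorem fN_nonneg (z : ℂ) : 0 ≤ fN z := by unfold fN; positivity

theorem fMN (z : ℂ) (h : fM z = 0) : fN z ≠ 0 := by
  unfold fM at h
  unfold fN
  intro h'
  have h1 : z.im - 1 = 0 := by nlinarith [sq_nonneg z.re, sq_nonneg (z.im - 1)]
  have h2 : z.im + 1 = 0 := by nlinarith [sq_nonneg z.re, sq_nonneg (z.im + 1)]
  linarith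

theorem continuous_fM : Continuous fM := by unfold fM; fun_prop
theorem continuous_fN : Continuous fN := by unfold fN; fun_prop
theorem continuous_fP : Continuous fP := by unfold fP; fun_prop
theorem continuous_fQ : Continuous fQ := by unfold fQ; fun_prop

/-- the denominator -/
noncomputable def fD (u v : ℝ) : ℝ := ((1 - u) ^ 2 + (1 - v) ^ 2) / 2

theorem fD_pos {u v : ℝ} (h : u ^ 2 + v ^ 2 < 2) : 0 < fD u v := by
  unfold fD
  by_contra hcon
  rw [not_lt] at hcon
  have h1 : 1 - u = 0 := by nlinarith [sq_nonneg (1 - u), sq_nonneg (1 - v)]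
  have h2 : 1 - v = 0 := by nlinarith [sq_nonneg (1 - u), sq_nonneg (1 - v)]
  have h3 : u = 1 := by linarith
  have h4 : v = 1 := by linarith
  rw [h3, h4] at h
  norm_num at h

/-- the point with the coordinates `u = P / N`, `v = Q / N` -/
noncomputable def fZ (u v : ℝ) : ℂ :=
  (((v - u) / fD u v : ℝ) : ℂ) + (((1 - (u ^ 2 + v ^ 2) / 2) / fD u v : ℝ) : ℂ) * Complex.I

theorem fZ_re (u v : ℝ) : (fZ u v).re = (v - u) / fD u v := by
  unfold fZ
  simp only [Complex.add_re, Complex.ofReal_re, Complex.re_ofReal_mul, Complex.I_re, mul_zero,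
    add_zero]

theorem fZ_im (u v : ℝ) : (fZ u v).im = (1 - (u ^ 2 + v ^ 2) / 2) / fD u v := by
  unfold fZ
  simp only [Complex.add_im, Complex.ofReal_im, Complex.im_ofReal_mul, Complex.I_im, mul_one,
    zero_add]

theorem fZ_vals {u v : ℝ} (h : fD u v ≠ 0) : fN (fZ u v) = 4 / fD u v ∧
    fM (fZ u v) = 2 * (u ^ 2 + v ^ 2) / fD u v ∧ fP (fZ u v) = 4 * u / fD u v ∧
    fQ (fZ u v) = 4 * v / fD u v := by
  have e : (fD u v) = ((1 - u) ^ 2 + (1 - v) ^ 2) / 2 := rfl
  refine ⟨?_, ?_, ?_, ?_⟩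
  · unfold fN
    rw [fZ_re, fZ_im]
    field_simp
    rw [e]; ring
  · unfold fM
    rw [fZ_re, fZ_im]
    field_simp
    rw [e]; ring
  · unfold fP
    rw [fZ_re, fZ_im]
    field_simp
    rw [e]; ring
  · unfold fQ
    rw [fZ_re, fZ_im]
    field_simp
    rw [e]; ring

theorem fZ_inv {z : ℂ} (h : fN z ≠ 0) : fZ (fP z / fN z) (fQ z / fN z) = z := by
  have hD : fD (fP z / fN z) (fQ z / fN z) = 4 / fN z := by
    unfold fD
    have h1 := fPQ z
    have h2 : fM z + fN z = fP z + fQ z + 4 := by unfold fM fN fP fQ; ring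
    field_simp
    linear_combination h1 + 2 * fN z * h2
  apply Complex.ext
  · rw [fZ_re, hD]
    have h3 : fQ z - fP z = 4 * z.re := by unfold fP fQ; ring
    field_simp
    linarith
  · rw [fZ_im, hD]
    have h1 := fPQ z
    have h3 : fN z - fM z = 4 * z.im := by unfold fM fN; ring
    field_simp
    linear_combination -h1 + 2 * fN z * h3

/-! ## The sectors -/

/-- the parametrization of a sector -/
noncomputable def fPsi (s t : ℝ) (q : ℝ × ℝ) : ℂ :=
  fZ (s * Real.sqrt (q.1 * q.2)) (t * Real.sqrt ((1 - q.1) * q.2))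

/-- an open sector of an annulus -/
def Sec (a b s t : ℝ) : Set ℂ :=
  {z | a * fM z < fN z ∧ fN z < b * fM z ∧ 0 < s * fP z ∧ 0 < t * fQ z}

/-- a closed sector of an annulus -/
def SecC (a b s t : ℝ) : Set ℂ :=
  {z | a * fM z ≤ fN z ∧ fN z ≤ b * fM z ∧ 0 ≤ s * fP z ∧ 0 ≤ t * fQ z}

theorem isOpen_Sec (a b s t : ℝ) : IsOpen (Sec a b s t) := by
  have h1 := continuous_fM
  have h2 := continuous_fN
  have h3 := continuous_fP
  have h4 := continuous_fQ
  have e : Sec a b s t = {z | a * fM z < fN z} ∩ ({z | fN z < b * fM z} ∩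
      ({z | 0 < s * fP z} ∩ {z | 0 < t * fQ z})) := rfl
  rw [e]
  refine IsOpen.inter ?_ (IsOpen.inter ?_ (IsOpen.inter ?_ ?_))
  · exact isOpen_lt (by fun_prop) h2
  · exact isOpen_lt h2 (by fun_prop)
  · exact isOpen_lt continuous_const (by fun_prop)
  · exact isOpen_lt continuous_const (by fun_prop)

theorem isClosed_SecC (a b s t : ℝ) : IsClosed (SecC a b s t) := by
  have h1 := continuous_fM
  have h2 := continuous_fN
  have h3 := continuous_fP
  have h4 := continuous_fQ
  have e : SecC a b s t = {z | a * fM z ≤ fN z} ∩ ({z | fN z ≤ b * fM z} ∩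
      ({z | 0 ≤ s * fP z} ∩ {z | 0 ≤ t * fQ z})) := rfl
  rw [e]
  refine IsClosed.inter ?_ (IsClosed.inter ?_ (IsClosed.inter ?_ ?_))
  · exact isClosed_le (by fun_prop) h2
  · exact isClosed_le h2 (by fun_prop)
  · exact isClosed_le continuous_const (by fun_prop)
  · exact isClosed_le continuous_const (by fun_prop)

section

variable {a b s t : ℝ} (ha : 1 < a) (hab : a < b) (hs : s = 1 ∨ s = -1) (ht : t = 1 ∨ t = -1)

include ha hab hs ht

/-- positivity on the closed sector -/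
theorem SecC_pos {z : ℂ} (hz : z ∈ SecC a b s t) : 0 < fM z ∧ 0 < fN z := by
  have h1 := fM_nonneg z
  have h2 := fN_nonneg z
  have hN : fN z ≠ 0 := by
    intro h
    have : fM z ≤ 0 := by
      have := hz.1
      rw [h] at this
      nlinarith
    exact fMN z (le_antisymm this h1) h
  have hM : fM z ≠ 0 := by
    intro h
    have := hz.2.1
    rw [h, mul_zero] at this
    exact hN (le_antisymm this h2)
  exact ⟨lt_of_le_of_ne h1 (Ne.symm hM), lt_of_le_of_ne h2 (Ne.symm hN)⟩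

/-- values of the parametrization on the closed rectangle -/
theorem Psi_vals {q : ℝ × ℝ} (h1 : 0 ≤ q.1) (h1' : q.1 ≤ 1) (h2 : 2 / b ≤ q.2) (h2' : q.2 ≤ 2 / a) :
    ∃ D : ℝ, 0 < D ∧ fD (s * Real.sqrt (q.1 * q.2)) (t * Real.sqrt ((1 - q.1) * q.2)) = D ∧
      fN (fPsi s t q) = 4 / D ∧ fM (fPsi s t q) = 2 * q.2 / D ∧
      s * fP (fPsi s t q) = 4 * Real.sqrt (q.1 * q.2) / D ∧
      t * fQ (fPsi s t q) = 4 * Real.sqrt ((1 - q.1) * q.2) / D := by
  have hb : 0 < b := by linarith
  have hq : 0 < q.2 := lt_of_lt_of_le (by positivity) h2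
  have hq2 : q.2 < 2 := by
    refine lt_of_le_of_lt h2' ?_
    rw [div_lt_iff₀ (by linarith)]
    linarith
  have e1 : Real.sqrt (q.1 * q.2) ^ 2 = q.1 * q.2 := Real.sq_sqrt (mul_nonneg h1 hq.le)
  have e2 : Real.sqrt ((1 - q.1) * q.2) ^ 2 = (1 - q.1) * q.2 :=
    Real.sq_sqrt (mul_nonneg (by linarith) hq.le)
  have hs2 : s ^ 2 = 1 := by rcases hs with h | h <;> rw [h] <;> norm_num
  have ht2 : t ^ 2 = 1 := by rcases ht with h | h <;> rw [h] <;> norm_num
  have hsum : (s * Real.sqrt (q.1 * q.2)) ^ 2 + (t * Real.sqrt ((1 - q.1) * q.2)) ^ 2 = q.2 := by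
    rw [mul_pow, mul_pow, e1, e2, hs2, ht2]; ring
  have hD := fD_pos (u := s * Real.sqrt (q.1 * q.2)) (v := t * Real.sqrt ((1 - q.1) * q.2))
    (by rw [hsum]; exact hq2)
  obtain ⟨v1, v2, v3, v4⟩ := fZ_vals hD.ne'
  refine ⟨_, hD, rfl, v1, ?_, ?_, ?_⟩
  · unfold fPsi; rw [v2, hsum]
  · unfold fPsi
    rw [v3]
    have : s * (4 * (s * Real.sqrt (q.1 * q.2)) / fD (s * Real.sqrt (q.1 * q.2))
        (t * Real.sqrt ((1 - q.1) * q.2))) = s ^ 2 * (4 * Real.sqrt (q.1 * q.2)) /
        fD (s * Real.sqrt (q.1 * q.2)) (t * Real.sqrt ((1 - q.1) * q.2)) := by ring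
    rw [this, hs2, one_mul]
  · unfold fPsi
    rw [v4]
    have : t * (4 * (t * Real.sqrt ((1 - q.1) * q.2)) / fD (s * Real.sqrt (q.1 * q.2))
        (t * Real.sqrt ((1 - q.1) * q.2))) = t ^ 2 * (4 * Real.sqrt ((1 - q.1) * q.2)) /
        fD (s * Real.sqrt (q.1 * q.2)) (t * Real.sqrt ((1 - q.1) * q.2)) := by ring
    rw [this, ht2, one_mul]

/-- the closed rectangle -/
theorem Psi_iff {q : ℝ × ℝ} (h1 : 0 ≤ q.1) (h1' : q.1 ≤ 1) (h2 : 2 / b ≤ q.2) (h2' : q.2 ≤ 2 / a) :
    fPsi s t q ∈ SecC a b s t ∧ (a * fM (fPsi s t q) = fN (fPsi s t q) ↔ q.2 = 2 / a) ∧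
      (fN (fPsi s t q) = b * fM (fPsi s t q) ↔ q.2 = 2 / b) ∧
      (fP (fPsi s t q) = 0 ↔ q.1 = 0) ∧ (fQ (fPsi s t q) = 0 ↔ q.1 = 1) := by
  obtain ⟨D, hD, -, e1, e2, e3, e4⟩ := Psi_vals ha hab hs ht h1 h1' h2 h2'
  have hb : 0 < b := by linarith
  have ha0 : 0 < a := by linarith
  have hq : 0 < q.2 := lt_of_lt_of_le (by positivity) h2
  have i1 : a * q.2 ≤ 2 := by
    rw [le_div_iff₀ ha0] at h2'
    linarith
  have i2 : 2 ≤ b * q.2 := by
    rw [div_le_iff₀ hb] at h2
    linarith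
  have hs0 : s ≠ 0 := by rcases hs with h | h <;> rw [h] <;> norm_num
  have ht0 : t ≠ 0 := by rcases ht with h | h <;> rw [h] <;> norm_num
  refine ⟨⟨?_, ?_, ?_, ?_⟩, ?_, ?_, ?_, ?_⟩
  · rw [e1, e2, ← mul_div_assoc]
    apply div_le_div_of_nonneg_right _ hD.le
    linarith
  · rw [e1, e2, ← mul_div_assoc]
    apply div_le_div_of_nonneg_right _ hD.le
    linarith
  · rw [e3]; positivity
  · rw [e4]; positivity
  · rw [e1, e2, ← mul_div_assoc, div_left_inj' hD.ne', eq_div_iff ha0.ne']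
    constructor <;> intro h <;> linarith
  · rw [e1, e2, ← mul_div_assoc, div_left_inj' hD.ne', eq_div_iff hb.ne']
    constructor <;> intro h <;> linarith
  · have : fP (fPsi s t q) = 0 ↔ s * fP (fPsi s t q) = 0 := by
      rw [mul_eq_zero]
      exact ⟨fun h => Or.inr h, fun h => h.resolve_left hs0⟩
    rw [this, e3, div_eq_zero_iff, mul_eq_zero, Real.sqrt_eq_zero (mul_nonneg h1 hq.le),
      mul_eq_zero]
    constructor
    · rintro ((h | h | h) | h)
      · norm_num at h
      · exact h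
      · exact absurd h hq.ne'
      · exact absurd h hD.ne'
    · intro h
      exact Or.inl (Or.inr (Or.inl h))
  · have : fQ (fPsi s t q) = 0 ↔ t * fQ (fPsi s t q) = 0 := by
      rw [mul_eq_zero]
      exact ⟨fun h => Or.inr h, fun h => h.resolve_left ht0⟩
    rw [this, e4, div_eq_zero_iff, mul_eq_zero,
      Real.sqrt_eq_zero (mul_nonneg (by linarith) hq.le), mul_eq_zero]
    constructor
    · rintro ((h | h | h) | h)
      · norm_num at h
      · linarith
      · exact absurd h hq.ne'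
      · exact absurd h hD.ne'
    · intro h
      exact Or.inl (Or.inr (Or.inl (by linarith)))

/-- the parametrization is onto -/
theorem Psi_surj {z : ℂ} (hz : z ∈ SecC a b s t) : ∃ q : ℝ × ℝ, 0 ≤ q.1 ∧ q.1 ≤ 1 ∧ 2 / b ≤ q.2 ∧
    q.2 ≤ 2 / a ∧ fPsi s t q = z := by
  obtain ⟨hM, hN⟩ := SecC_pos ha hab hs ht hz
  have hb : 0 < b := by linarith
  have ha0 : 0 < a := by linarith
  obtain ⟨z1, z2, z3, z4⟩ := hz
  have hPQ := fPQ z
  have hMN : 0 < 2 * fM z * fN z := by positivity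
  refine ⟨(fP z ^ 2 / (2 * fM z * fN z), 2 * fM z / fN z), ?_, ?_, ?_, ?_, ?_⟩
  · positivity
  · simp only
    rw [div_le_one hMN, ← hPQ]
    nlinarith [sq_nonneg (fQ z)]
  · simp only
    rw [div_le_div_iff₀ hb hN]
    linarith
  · simp only
    rw [div_le_div_iff₀ hN ha0]
    linarith
  · have e1 : fP z ^ 2 / (2 * fM z * fN z) * (2 * fM z / fN z) = (fP z / fN z) ^ 2 := by
      field_simp
    have e2 : (1 - fP z ^ 2 / (2 * fM z * fN z)) * (2 * fM z / fN z) = (fQ z / fN z) ^ 2 := by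
      have : 1 - fP z ^ 2 / (2 * fM z * fN z) = fQ z ^ 2 / (2 * fM z * fN z) := by
        rw [← hPQ]
        rw [← hPQ] at hMN
        field_simp
        ring
      rw [this]
      field_simp
    unfold fPsi
    simp only
    rw [e1, e2, Real.sqrt_sq_eq_abs, Real.sqrt_sq_eq_abs]
    have f1 : s * |fP z / fN z| = fP z / fN z := by
      rcases hs with h | h
      · rw [h, one_mul] at z3
        rw [h, one_mul, abs_of_nonneg (div_nonneg z3 hN.le)]
      · rw [h] at z3
        rw [h, abs_of_nonpos (div_nonpos_of_nonpos_of_nonneg (by linarith) hN.le)]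
        ring
    have f2 : t * |fQ z / fN z| = fQ z / fN z := by
      rcases ht with h | h
      · rw [h, one_mul] at z4
        rw [h, one_mul, abs_of_nonneg (div_nonneg z4 hN.le)]
      · rw [h] at z4
        rw [h, abs_of_nonpos (div_nonpos_of_nonpos_of_nonneg (by linarith) hN.le)]
        ring
    rw [f1, f2]
    exact fZ_inv hN.ne'

theorem Psi_cont : ContinuousOn (fPsi s t) (Icc 0 1 ×ˢ Icc (2 / b) (2 / a)) := by
  have hD : ∀ q ∈ Icc (0 : ℝ) 1 ×ˢ Icc (2 / b) (2 / a),
      fD (s * Real.sqrt (q.1 * q.2)) (t * Real.sqrt ((1 - q.1) * q.2)) ≠ 0 := by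
    intro q hq
    obtain ⟨D, hD, e, -⟩ := Psi_vals ha hab hs ht (q := q) hq.1.1 hq.1.2 hq.2.1 hq.2.2
    rw [e]
    exact hD.ne'
  unfold fPsi fZ
  refine ContinuousOn.add ?_ (ContinuousOn.mul ?_ continuousOn_const)
  · refine Complex.continuous_ofReal.comp_continuousOn (ContinuousOn.div ?_ ?_ hD)
    · fun_prop
    · unfold fD; fun_prop
  · refine Complex.continuous_ofReal.comp_continuousOn (ContinuousOn.div ?_ ?_ hD)
    · fun_prop
    · unfold fD; fun_prop

end

end Pool.Agent.Helper79.OC
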