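import Pool.Agent.Helper79.OC.LowA

/-!
# Arrangements of orthogonal circles: many quadrangular faces, part B (sectors are quadrangular)
-/

set_option autoImplicit false
set_option linter.unusedSectionVars false

open Set

namespace Pool.Agent.Helper79.OC

open Pool.Agent.Helper56.OC

section

variable {a b s t : ℝ} (ha : 1 < a) (hab : a < b) (hs : s = 1 ∨ s = -1) (ht : t = 1 ∨ t = -1)

include ha hab hs ht

/-- the open sector inside the closed one -/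
theorem Sec_iff {z : ℂ} : z ∈ Sec a b s t ↔ z ∈ SecC a b s t ∧ a * fM z ≠ fN z ∧ fN z ≠ b * fM z ∧
    fP z ≠ 0 ∧ fQ z ≠ 0 := by
  have hs0 : s ≠ 0 := by rcases hs with h | h <;> rw [h] <;> norm_num
  have ht0 : t ≠ 0 := by rcases ht with h | h <;> rw [h] <;> norm_num
  constructor
  · rintro ⟨h1, h2, h3, h4⟩
    exact ⟨⟨h1.le, h2.le, h3.le, h4.le⟩, h1.ne, h2.ne,
      fun e => by rw [e, mul_zero] at h3; exact lt_irrefl _ h3,
      fun e => by rw [e, mul_zero] at h4; exact lt_irrefl _ h4⟩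
  · rintro ⟨⟨h1, h2, h3, h4⟩, k1, k2, k3, k4⟩
    exact ⟨lt_of_le_of_ne h1 k1, lt_of_le_of_ne h2 k2,
      lt_of_le_of_ne h3 (Ne.symm (mul_ne_zero hs0 k3)),
      lt_of_le_of_ne h4 (Ne.symm (mul_ne_zero ht0 k4))⟩

/-- subsets of the closed sector as images -/
theorem img_eq {W : Set ℂ} {R : Set (ℝ × ℝ)} (hW : W ⊆ SecC a b s t)
    (hR : R ⊆ Icc 0 1 ×ˢ Icc (2 / b) (2 / a))
    (h : ∀ q ∈ Icc (0 : ℝ) 1 ×ˢ Icc (2 / b) (2 / a), fPsi s t q ∈ W ↔ q ∈ R) :
    W = fPsi s t '' R := by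
  ext z
  constructor
  · intro hz
    obtain ⟨q, h1, h2, h3, h4, rfl⟩ := Psi_surj ha hab hs ht (hW hz)
    exact ⟨q, (h q ⟨⟨h1, h2⟩, h3, h4⟩).1 hz, rfl⟩
  · rintro ⟨q, hq, rfl⟩
    exact (h q (hR hq)).2 hq

theorem img_pre {W : Set ℂ} {R : Set (ℝ × ℝ)} (hW : W ⊆ SecC a b s t)
    (hR : R ⊆ Icc 0 1 ×ˢ Icc (2 / b) (2 / a))
    (h : ∀ q ∈ Icc (0 : ℝ) 1 ×ˢ Icc (2 / b) (2 / a), fPsi s t q ∈ W ↔ q ∈ R)
    (hc : IsPreconnected R) : IsPreconnected W := by
  rw [img_eq ha hab hs ht hW hR h]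
  exact hc.image _ ((Psi_cont ha hab hs ht).mono hR)

theorem rect_lt : 2 / b < 2 / a := by
  apply div_lt_div_of_pos_left two_pos (by linarith) hab

theorem Sec_img_iff {q : ℝ × ℝ} (hq : q ∈ Icc (0 : ℝ) 1 ×ˢ Icc (2 / b) (2 / a)) :
    fPsi s t q ∈ Sec a b s t ↔ q ∈ Ioo (0 : ℝ) 1 ×ˢ Ioo (2 / b) (2 / a) := by
  obtain ⟨h1, h2, h3, h4, h5⟩ := Psi_iff ha hab hs ht (q := q) hq.1.1 hq.1.2 hq.2.1 hq.2.2
  rw [Sec_iff ha hab hs ht, ne_eq, ne_eq, ne_eq, ne_eq, h2, h3, h4, h5]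
  constructor
  · rintro ⟨-, k1, k2, k3, k4⟩
    exact ⟨⟨lt_of_le_of_ne hq.1.1 (Ne.symm k3), lt_of_le_of_ne hq.1.2 k4⟩,
      lt_of_le_of_ne hq.2.1 (Ne.symm k2), lt_of_le_of_ne hq.2.2 k1⟩
  · rintro ⟨⟨k1, k2⟩, k3, k4⟩
    exact ⟨h1, k4.ne, k3.ne', k1.ne', k2.ne⟩

theorem Sec_pre : IsPreconnected (Sec a b s t) := by
  refine img_pre ha hab hs ht (fun z hz => ((Sec_iff ha hab hs ht).1 hz).1) ?_
    (fun q hq => Sec_img_iff ha hab hs ht hq) (isPreconnected_Ioo.prod isPreconnected_Ioo)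
  exact prod_mono Ioo_subset_Icc_self Ioo_subset_Icc_self

theorem closure_Sec : closure (Sec a b s t) = SecC a b s t := by
  apply Subset.antisymm
  · apply closure_minimal _ (isClosed_SecC a b s t)
    exact fun z hz => ((Sec_iff ha hab hs ht).1 hz).1
  · intro z hz
    obtain ⟨q, h1, h2, h3, h4, rfl⟩ := Psi_surj ha hab hs ht hz
    have hlt := rect_lt ha hab hs ht
    have hq : q ∈ closure (Ioo (0 : ℝ) 1 ×ˢ Ioo (2 / b) (2 / a)) := by
      rw [closure_prod_eq, closure_Ioo (by norm_num), closure_Ioo hlt.ne]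
      exact ⟨⟨h1, h2⟩, h3, h4⟩
    have hcont := (Psi_cont ha hab hs ht) q ⟨⟨h1, h2⟩, h3, h4⟩
    have hsub : Ioo (0 : ℝ) 1 ×ˢ Ioo (2 / b) (2 / a) ⊆ Icc 0 1 ×ˢ Icc (2 / b) (2 / a) :=
      prod_mono Ioo_subset_Icc_self Ioo_subset_Icc_self
    have := (hcont.mono hsub).mem_closure_image hq
    refine closure_mono ?_ this
    rintro _ ⟨q', hq', rfl⟩
    exact (Sec_img_iff ha hab hs ht (hsub hq')).2 hq'

theorem frontier_Sec : frontier (Sec a b s t) = SecC a b s t \ Sec a b s t := by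
  rw [(isOpen_Sec a b s t).frontier_eq, closure_Sec ha hab hs ht]

/-- **Sectors are quadrangular faces.** -/
theorem sec_quad (U X : Set ℂ)
    (hU : ∀ z ∈ SecC a b s t, z ∈ U ↔ (a * fM z = fN z ∨ fN z = b * fM z ∨ fP z = 0 ∨ fQ z = 0))
    (hX : ∀ z ∈ SecC a b s t, z ∈ X ↔ ((a * fM z = fN z ∨ fN z = b * fM z) ∧
      (fP z = 0 ∨ fQ z = 0))) :
    (∃ p, p ∉ U ∧ Sec a b s t = connectedComponentIn Uᶜ p) ∧
    {e | ∃ p ∈ frontier (Sec a b s t) \ X,
      e = connectedComponentIn (frontier (Sec a b s t) \ X) p}.ncard = 4 := by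
  have hlt := rect_lt ha hab hs ht
  have h01 : (0 : ℝ) < 1 := one_pos
  have hfr := frontier_Sec ha hab hs ht
  constructor
  · -- a point
    set q0 : ℝ × ℝ := (1 / 2, (2 / b + 2 / a) / 2) with hq0
    have hq : q0 ∈ Ioo (0 : ℝ) 1 ×ˢ Ioo (2 / b) (2 / a) := by
      rw [hq0]
      constructor
      · constructor <;> norm_num
      · constructor <;> simp only <;> linarith
    have hq' : q0 ∈ Icc (0 : ℝ) 1 ×ˢ Icc (2 / b) (2 / a) :=
      ⟨⟨hq.1.1.le, hq.1.2.le⟩, hq.2.1.le, hq.2.2.le⟩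
    have hp : fPsi s t q0 ∈ Sec a b s t := (Sec_img_iff ha hab hs ht hq').2 hq
    have hFU : Sec a b s t ⊆ Uᶜ := by
      intro z hz hzU
      obtain ⟨h1, h2, h3, h4, h5⟩ := (Sec_iff ha hab hs ht).1 hz
      rcases (hU z h1).1 hzU with h | h | h | h
      · exact h2 h
      · exact h3 h
      · exact h4 h
      · exact h5 h
    refine ⟨fPsi s t q0, hFU hp, ?_⟩
    symm
    refine face_of (isOpen_Sec a b s t) (Sec_pre ha hab hs ht) hFU ?_ hp
    rw [hfr]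
    rintro z ⟨hz, hz'⟩
    rw [hU z hz]
    by_contra hcon
    push Not at hcon
    exact hz' ((Sec_iff ha hab hs ht).2 ⟨hz, hcon⟩)
  · set Y := frontier (Sec a b s t) \ X with hY
    -- description of `Y`
    have memY : ∀ z, z ∈ Y ↔ z ∈ SecC a b s t ∧
        (a * fM z = fN z ∨ fN z = b * fM z ∨ fP z = 0 ∨ fQ z = 0) ∧
        ¬ ((a * fM z = fN z ∨ fN z = b * fM z) ∧ (fP z = 0 ∨ fQ z = 0)) := by
      intro z
      rw [hY, hfr, mem_sdiff, mem_sdiff, Sec_iff ha hab hs ht]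
      constructor
      · rintro ⟨⟨h1, h2⟩, h3⟩
        refine ⟨h1, ?_, fun h => h3 ((hX z h1).2 h)⟩
        by_contra hcon
        push Not at hcon
        exact h2 ⟨h1, hcon⟩
      · rintro ⟨h1, h2, h3⟩
        refine ⟨⟨h1, fun h => ?_⟩, fun h => h3 ((hX z h1).1 h)⟩
        rcases h2 with h2 | h2 | h2 | h2
        · exact h.2.1 h2
        · exact h.2.2.1 h2
        · exact h.2.2.2.1 h2
        · exact h.2.2.2.2 h2
    let C : Fin 4 → Set ℂ := ![{z | a * fM z = fN z}, {z | fN z = b * fM z}, {z | fP z = 0},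
      {z | fQ z = 0}]
    let R : Fin 4 → Set (ℝ × ℝ) := ![Ioo 0 1 ×ˢ {2 / a}, Ioo 0 1 ×ˢ {2 / b},
      {0} ×ˢ Ioo (2 / b) (2 / a), {1} ×ˢ Ioo (2 / b) (2 / a)]
    -- exclusive conditions
    have ex1 : ∀ z ∈ SecC a b s t, ¬ (a * fM z = fN z ∧ fN z = b * fM z) := by
      rintro z hz ⟨h1, h2⟩
      have := (SecC_pos ha hab hs ht hz).1
      nlinarith
    have ex2 : ∀ z ∈ SecC a b s t, ¬ (fP z = 0 ∧ fQ z = 0) := by
      rintro z hz ⟨h1, h2⟩
      have h3 := SecC_pos ha hab hs ht hz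
      have h4 := fPQ z
      rw [h1, h2] at h4
      nlinarith [mul_pos h3.1 h3.2]
    have hRsub : ∀ i, R i ⊆ Icc 0 1 ×ˢ Icc (2 / b) (2 / a) := by
      intro i
      fin_cases i
      · exact prod_mono Ioo_subset_Icc_self (singleton_subset_iff.2 ⟨hlt.le, le_rfl⟩)
      · exact prod_mono Ioo_subset_Icc_self (singleton_subset_iff.2 ⟨le_rfl, hlt.le⟩)
      · exact prod_mono (singleton_subset_iff.2 ⟨le_rfl, zero_le_one⟩) Ioo_subset_Icc_self
      · exact prod_mono (singleton_subset_iff.2 ⟨zero_le_one, le_rfl⟩) Ioo_subset_Icc_self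
    have hRpre : ∀ i, IsPreconnected (R i) := by
      intro i
      fin_cases i
      · exact isPreconnected_Ioo.prod isPreconnected_singleton
      · exact isPreconnected_Ioo.prod isPreconnected_singleton
      · exact isPreconnected_singleton.prod isPreconnected_Ioo
      · exact isPreconnected_singleton.prod isPreconnected_Ioo
    have hRne : ∀ i, (R i).Nonempty := by
      have n1 : (Ioo (0 : ℝ) 1).Nonempty := nonempty_Ioo.2 h01
      have n2 : (Ioo (2 / b) (2 / a)).Nonempty := nonempty_Ioo.2 hlt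
      intro i
      fin_cases i
      · exact n1.prod (singleton_nonempty _)
      · exact n1.prod (singleton_nonempty _)
      · exact (singleton_nonempty _).prod n2
      · exact (singleton_nonempty _).prod n2
    have hYsub : ∀ i, Y ∩ C i ⊆ SecC a b s t := fun i z hz => ((memY z).1 hz.1).1
    have hiff : ∀ i, ∀ q ∈ Icc (0 : ℝ) 1 ×ˢ Icc (2 / b) (2 / a),
        fPsi s t q ∈ Y ∩ C i ↔ q ∈ R i := by
      intro i q hq
      obtain ⟨h1, h2, h3, h4, h5⟩ := Psi_iff ha hab hs ht (q := q) hq.1.1 hq.1.2 hq.2.1 hq.2.2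
      have hYq : fPsi s t q ∈ Y ↔ (q.2 = 2 / a ∨ q.2 = 2 / b ∨ q.1 = 0 ∨ q.1 = 1) ∧
          ¬ ((q.2 = 2 / a ∨ q.2 = 2 / b) ∧ (q.1 = 0 ∨ q.1 = 1)) := by
        rw [memY, h2, h3, h4, h5]
        exact ⟨fun h => h.2, fun h => ⟨h1, h⟩⟩
      rw [mem_inter_iff, hYq]
      have l1 := hq.1.1
      have l2 := hq.1.2
      have l3 := hq.2.1
      have l4 := hq.2.2
      fin_cases i
      · change _ ∧ a * fM (fPsi s t q) = fN (fPsi s t q) ↔ q.1 ∈ Ioo (0 : ℝ) 1 ∧ q.2 ∈ ({2 / a} : Set ℝ)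
        rw [h2, mem_singleton_iff]
        constructor
        · rintro ⟨⟨-, k2⟩, k3⟩
          refine ⟨⟨lt_of_le_of_ne l1 ?_, lt_of_le_of_ne l2 ?_⟩, k3⟩
          · exact fun e => k2 ⟨Or.inl k3, Or.inl e.symm⟩
          · exact fun e => k2 ⟨Or.inl k3, Or.inr e⟩
        · rintro ⟨⟨k1, k2⟩, k3⟩
          refine ⟨⟨Or.inl k3, ?_⟩, k3⟩
          rintro ⟨-, h | h⟩
          · exact k1.ne' h
          · exact k2.ne h
      · change _ ∧ fN (fPsi s t q) = b * fM (fPsi s t q) ↔ q.1 ∈ Ioo (0 : ℝ) 1 ∧ q.2 ∈ ({2 / b} : Set ℝ)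
        rw [h3, mem_singleton_iff]
        constructor
        · rintro ⟨⟨-, k2⟩, k3⟩
          refine ⟨⟨lt_of_le_of_ne l1 ?_, lt_of_le_of_ne l2 ?_⟩, k3⟩
          · exact fun e => k2 ⟨Or.inr k3, Or.inl e.symm⟩
          · exact fun e => k2 ⟨Or.inr k3, Or.inr e⟩
        · rintro ⟨⟨k1, k2⟩, k3⟩
          refine ⟨⟨Or.inr (Or.inl k3), ?_⟩, k3⟩
          rintro ⟨-, h | h⟩
          · exact k1.ne' h
          · exact k2.ne h
      · change _ ∧ fP (fPsi s t q) = 0 ↔ q.1 ∈ ({0} : Set ℝ) ∧ q.2 ∈ Ioo (2 / b) (2 / a)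
        rw [h4, mem_singleton_iff]
        constructor
        · rintro ⟨⟨-, k2⟩, k3⟩
          refine ⟨k3, lt_of_le_of_ne l3 ?_, lt_of_le_of_ne l4 ?_⟩
          · exact fun e => k2 ⟨Or.inr e.symm, Or.inl k3⟩
          · exact fun e => k2 ⟨Or.inl e, Or.inl k3⟩
        · rintro ⟨k3, k1, k2⟩
          refine ⟨⟨Or.inr (Or.inr (Or.inl k3)), ?_⟩, k3⟩
          rintro ⟨h | h, -⟩
          · exact k2.ne h
          · exact k1.ne' h
      · change _ ∧ fQ (fPsi s t q) = 0 ↔ q.1 ∈ ({1} : Set ℝ) ∧ q.2 ∈ Ioo (2 / b) (2 / a)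
        rw [h5, mem_singleton_iff]
        constructor
        · rintro ⟨⟨-, k2⟩, k3⟩
          refine ⟨k3, lt_of_le_of_ne l3 ?_, lt_of_le_of_ne l4 ?_⟩
          · exact fun e => k2 ⟨Or.inr e.symm, Or.inr k3⟩
          · exact fun e => k2 ⟨Or.inl e, Or.inr k3⟩
        · rintro ⟨k3, k1, k2⟩
          refine ⟨⟨Or.inr (Or.inr (Or.inr k3)), ?_⟩, k3⟩
          rintro ⟨h | h, -⟩
          · exact k2.ne h
          · exact k1.ne' h
    refine arcs_four C ?_ ?_ ?_ ?_ ?_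
    · intro i
      have c1 := continuous_fM
      have c2 := continuous_fN
      have c3 := continuous_fP
      have c4 := continuous_fQ
      fin_cases i
      · exact isClosed_eq (by fun_prop) c2
      · exact isClosed_eq c2 (by fun_prop)
      · exact isClosed_eq c3 continuous_const
      · exact isClosed_eq c4 continuous_const
    · intro z hz
      rcases ((memY z).1 hz).2.1 with h | h | h | h
      · exact ⟨0, h⟩
      · exact ⟨1, h⟩
      · exact ⟨2, h⟩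
      · exact ⟨3, h⟩
    · intro z hz i j hi hj
      obtain ⟨m1, -, m3⟩ := (memY z).1 hz
      fin_cases i <;> fin_cases j <;> first | rfl | skip
      · exact absurd ⟨hi, hj⟩ (ex1 z m1)
      · exact absurd ⟨Or.inl hi, Or.inl hj⟩ m3
      · exact absurd ⟨Or.inl hi, Or.inr hj⟩ m3
      · exact absurd ⟨hj, hi⟩ (ex1 z m1)
      · exact absurd ⟨Or.inr hi, Or.inl hj⟩ m3
      · exact absurd ⟨Or.inr hi, Or.inr hj⟩ m3
      · exact absurd ⟨Or.inl hj, Or.inl hi⟩ m3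
      · exact absurd ⟨Or.inr hj, Or.inl hi⟩ m3
      · exact absurd ⟨hi, hj⟩ (ex2 z m1)
      · exact absurd ⟨Or.inl hj, Or.inr hi⟩ m3
      · exact absurd ⟨Or.inr hj, Or.inr hi⟩ m3
      · exact absurd ⟨hj, hi⟩ (ex2 z m1)
    · intro i
      obtain ⟨q, hq⟩ := hRne i
      exact ⟨fPsi s t q, (hiff i q (hRsub i hq)).2 hq⟩
    · intro i
      exact img_pre ha hab hs ht (hYsub i) (hRsub i) (hiff i) (hRpre i)

end

end Pool.Agent.Helper79.OC
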