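import Pool.Agent.Helper79.OC.LowB

/-!
# Arrangements of orthogonal circles: many quadrangular faces, part C (the arrangement)
-/

set_option autoImplicit false
set_option linter.unusedSectionVars false

open Set

namespace Pool.Agent.Helper79.OC

open Pool.Agent.Helper56.OC

theorem kap_pos (k : ℕ) : 0 < ((k : ℝ) + 2) ^ 2 - 1 := by
  have : (0 : ℝ) ≤ k := Nat.cast_nonneg k
  nlinarith

/-- the circle of the points with `N = (k + 2) ^ 2 * M` -/
noncomputable def cA (k : ℕ) : Circ where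
  c := ⟨0, (((k : ℝ) + 2) ^ 2 + 1) / (((k : ℝ) + 2) ^ 2 - 1)⟩
  r := 2 * ((k : ℝ) + 2) / (((k : ℝ) + 2) ^ 2 - 1)
  pos := by
    have := kap_pos k
    positivity

/-- the circle with centre `s` through `i` and `-i` (for `s = 1` and `s = -1`) -/
noncomputable def cB (s : ℝ) : Circ where
  c := ⟨s, 0⟩
  r := Real.sqrt 2
  pos := by positivity

theorem mem_pts (C : Circ) (z : ℂ) :
    z ∈ C.pts ↔ (z.re - C.c.re) ^ 2 + (z.im - C.c.im) ^ 2 = C.r ^ 2 := by
  unfold Circ.pts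
  rw [mem_sphere_iff_norm]
  have h1 : ‖z - C.c‖ ^ 2 = (z.re - C.c.re) ^ 2 + (z.im - C.c.im) ^ 2 := by
    rw [← Complex.normSq_eq_norm_sq, Complex.normSq_apply, Complex.sub_re, Complex.sub_im]
    ring
  rw [← h1, pow_left_inj₀ (norm_nonneg _) C.pos.le two_ne_zero]

theorem mem_cA (k : ℕ) (z : ℂ) : z ∈ (cA k).pts ↔ fN z = ((k : ℝ) + 2) ^ 2 * fM z := by
  rw [mem_pts]
  have hk := kap_pos k
  unfold cA fN fM
  simp only
  set κ : ℝ := (k : ℝ) + 2 with hκ
  have e : (z.re - 0) ^ 2 + (z.im - (κ ^ 2 + 1) / (κ ^ 2 - 1)) ^ 2 -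
      (2 * κ / (κ ^ 2 - 1)) ^ 2 = (κ ^ 2 * (z.re ^ 2 + (z.im - 1) ^ 2) -
        (z.re ^ 2 + (z.im + 1) ^ 2)) / (κ ^ 2 - 1) := by
    field_simp
    ring
  rw [← sub_eq_zero, e, div_eq_zero_iff]
  constructor
  · rintro (h | h)
    · linarith
    · exact absurd h hk.ne'
  · intro h
    left; linarith

theorem mem_cBp (z : ℂ) : z ∈ (cB 1).pts ↔ fP z = 0 := by
  rw [mem_pts]
  unfold cB fP
  simp only
  rw [Real.sq_sqrt (by norm_num), sub_zero]
  constructor <;> intro h <;> linarith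

theorem mem_cBm (z : ℂ) : z ∈ (cB (-1)).pts ↔ fQ z = 0 := by
  rw [mem_pts]
  unfold cB fQ
  simp only
  rw [Real.sq_sqrt (by norm_num), sub_zero, sub_neg_eq_add]
  constructor <;> intro h <;> linarith

/-- two orthogonal circles as a family -/
noncomputable def famOf (C D : Circ)
    (h : (C.c.re - D.c.re) ^ 2 + (C.c.im - D.c.im) ^ 2 = C.r ^ 2 + D.r ^ 2) : Fam Bool where
  c := fun b => cond b C.c D.c
  r := fun b => cond b C.r D.r
  pos := by
    intro b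
    cases b
    · exact D.pos
    · exact C.pos
  pw := by
    have hn : ‖C.c - D.c‖ ^ 2 = C.r ^ 2 + D.r ^ 2 := by
      rw [← Complex.normSq_eq_norm_sq, Complex.normSq_apply, Complex.sub_re, Complex.sub_im, ← h]
      ring
    intro i j hij
    right
    cases i <;> cases j
    · exact absurd rfl hij
    · change ‖D.c - C.c‖ ^ 2 = D.r ^ 2 + C.r ^ 2
      rw [norm_sub_rev, hn]; ring
    · exact hn
    · exact absurd rfl hij

theorem orthogonal_of (C D : Circ)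
    (h : (C.c.re - D.c.re) ^ 2 + (C.c.im - D.c.im) ^ 2 = C.r ^ 2 + D.r ^ 2) : C.Orthogonal D := by
  obtain ⟨h1, h2, -⟩ := m_PTS Bool (famOf C D h)
  have hn : ‖C.c - D.c‖ ^ 2 = C.r ^ 2 + D.r ^ 2 := by
    rw [← Complex.normSq_eq_norm_sq, Complex.normSq_apply, Complex.sub_re, Complex.sub_im, ← h]
    ring
  constructor
  · obtain ⟨p, q, hpq, he⟩ := h2 true false hn
    have e : C.pts ∩ D.pts = {p, q} := he
    rw [e, ncard_pair hpq]
  · rintro p ⟨hp, hp'⟩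
    exact (h1 true false (by decide) p hp hp').2

theorem cA_im (k : ℕ) : 1 < (cA k).c.im := by
  have := kap_pos k
  change 1 < (((k : ℝ) + 2) ^ 2 + 1) / (((k : ℝ) + 2) ^ 2 - 1)
  rw [lt_div_iff₀ this]
  linarith

theorem cA_sq (k : ℕ) : (cA k).c.im ^ 2 = 1 + (cA k).r ^ 2 := by
  have := kap_pos k
  change ((((k : ℝ) + 2) ^ 2 + 1) / (((k : ℝ) + 2) ^ 2 - 1)) ^ 2 =
    1 + (2 * ((k : ℝ) + 2) / (((k : ℝ) + 2) ^ 2 - 1)) ^ 2
  field_simp
  ring

theorem cA_disj {j k : ℕ} (h : j ≠ k) : Disjoint (cA j).pts (cA k).pts := by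
  rw [disjoint_left]
  intro z h1 h2
  rw [mem_cA] at h1 h2
  have h3 : (((j : ℝ) + 2) ^ 2 - ((k : ℝ) + 2) ^ 2) * fM z = 0 := by linarith
  have h4 : ((j : ℝ) + 2) ^ 2 - ((k : ℝ) + 2) ^ 2 ≠ 0 := by
    intro h5
    have h6 : ((j : ℝ) - k) * ((j : ℝ) + k + 4) = 0 := by linarith
    rcases mul_eq_zero.1 h6 with h7 | h7
    · exact h (by exact_mod_cast sub_eq_zero.1 h7)
    · have : (0 : ℝ) ≤ j := Nat.cast_nonneg j
      have : (0 : ℝ) ≤ k := Nat.cast_nonneg k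
      linarith
  have h5 : fM z = 0 := (mul_eq_zero.1 h3).resolve_left h4
  rw [h5, mul_zero] at h1
  exact fMN z h5 h1

theorem cA_nonempty (k : ℕ) : ((cA k).pts).Nonempty := by
  refine ⟨(cA k).c + (cA k).r, ?_⟩
  unfold Circ.pts
  rw [mem_sphere_iff_norm]
  simp [abs_of_pos (cA k).pos]

theorem cA_inj {j k : ℕ} (h : cA j = cA k) : j = k := by
  by_contra hjk
  obtain ⟨z, hz⟩ := cA_nonempty j
  exact disjoint_left.1 (cA_disj hjk) hz (h ▸ hz)

theorem cB_ne : cB 1 ≠ cB (-1) := by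
  intro h
  have : (cB 1).c.re = (cB (-1)).c.re := by rw [h]
  change (1 : ℝ) = -1 at this
  norm_num at this

theorem cA_ne_cB (k : ℕ) (s : ℝ) : cB s ≠ cA k := by
  intro h
  have h1 := cA_im k
  rw [← h] at h1
  change (1 : ℝ) < 0 at h1
  norm_num at h1

open Classical in
/-- the arrangement -/
noncomputable def SN (m : ℕ) : Finset Circ :=
  insert (cB 1) (insert (cB (-1)) ((Finset.range m).image cA))

theorem mem_SN {m : ℕ} {C : Circ} :
    C ∈ SN m ↔ C = cB 1 ∨ C = cB (-1) ∨ ∃ k, k < m ∧ cA k = C := by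
  classical
  unfold SN
  rw [Finset.mem_insert, Finset.mem_insert, Finset.mem_image]
  simp only [Finset.mem_range]

theorem card_SN (m : ℕ) : (SN m).card = m + 2 := by
  classical
  unfold SN
  rw [Finset.card_insert_of_notMem, Finset.card_insert_of_notMem,
    Finset.card_image_of_injective _ (fun j k h => cA_inj h), Finset.card_range]
  · rw [Finset.mem_image]
    rintro ⟨k, -, hk⟩
    exact cA_ne_cB k _ hk.symm
  · rw [Finset.mem_insert, Finset.mem_image]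
    rintro (h | ⟨k, -, hk⟩)
    · exact cB_ne h
    · exact cA_ne_cB k _ hk.symm

theorem orth_BB : (cB 1).Orthogonal (cB (-1)) := by
  apply orthogonal_of
  change ((1 : ℝ) - -1) ^ 2 + (0 - 0) ^ 2 = Real.sqrt 2 ^ 2 + Real.sqrt 2 ^ 2
  rw [Real.sq_sqrt (by norm_num)]; norm_num

theorem orth_BB' : (cB (-1)).Orthogonal (cB 1) := by
  apply orthogonal_of
  change ((-1 : ℝ) - 1) ^ 2 + (0 - 0) ^ 2 = Real.sqrt 2 ^ 2 + Real.sqrt 2 ^ 2
  rw [Real.sq_sqrt (by norm_num)]; norm_num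

theorem orth_BA {s : ℝ} (hs : s ^ 2 = 1) (k : ℕ) : (cB s).Orthogonal (cA k) := by
  apply orthogonal_of
  have h := cA_sq k
  change (s - 0) ^ 2 + (0 - (cA k).c.im) ^ 2 = Real.sqrt 2 ^ 2 + (cA k).r ^ 2
  rw [Real.sq_sqrt (by norm_num), sub_zero, hs, zero_sub, neg_sq, h]; ring

theorem orth_AB {s : ℝ} (hs : s ^ 2 = 1) (k : ℕ) : (cA k).Orthogonal (cB s) := by
  apply orthogonal_of
  have h := cA_sq k
  change (0 - s) ^ 2 + ((cA k).c.im - 0) ^ 2 = (cA k).r ^ 2 + Real.sqrt 2 ^ 2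
  rw [Real.sq_sqrt (by norm_num), sub_zero, zero_sub, neg_sq, hs, h]; ring

theorem arr_SN (m : ℕ) : IsArrangement (SN m) := by
  intro C hC D hD hCD
  rcases mem_SN.1 hC with rfl | rfl | ⟨j, -, rfl⟩
  · rcases mem_SN.1 hD with rfl | rfl | ⟨k, -, rfl⟩
    · exact absurd rfl hCD
    · exact Or.inr orth_BB
    · exact Or.inr (orth_BA (by norm_num) k)
  · rcases mem_SN.1 hD with rfl | rfl | ⟨k, -, rfl⟩
    · exact Or.inr orth_BB'
    · exact absurd rfl hCD
    · exact Or.inr (orth_BA (by norm_num) k)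
  · rcases mem_SN.1 hD with rfl | rfl | ⟨k, -, rfl⟩
    · exact Or.inr (orth_AB (by norm_num) j)
    · exact Or.inr (orth_AB (by norm_num) j)
    · exact Or.inl (cA_disj fun e => hCD (e ▸ rfl))

/-! ## The faces -/

theorem mem_union_SN {m : ℕ} {z : ℂ} : z ∈ circUnion (SN m) ↔
    fP z = 0 ∨ fQ z = 0 ∨ ∃ k : ℕ, k < m ∧ fN z = ((k : ℝ) + 2) ^ 2 * fM z := by
  unfold circUnion
  rw [mem_iUnion₂]
  constructor
  · rintro ⟨C, hC, hz⟩
    rcases mem_SN.1 hC with rfl | rfl | ⟨k, hk, rfl⟩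
    · exact Or.inl ((mem_cBp z).1 hz)
    · exact Or.inr (Or.inl ((mem_cBm z).1 hz))
    · exact Or.inr (Or.inr ⟨k, hk, (mem_cA k z).1 hz⟩)
  · rintro (h | h | ⟨k, hk, h⟩)
    · exact ⟨cB 1, mem_SN.2 (Or.inl rfl), (mem_cBp z).2 h⟩
    · exact ⟨cB (-1), mem_SN.2 (Or.inr (Or.inl rfl)), (mem_cBm z).2 h⟩
    · exact ⟨cA k, mem_SN.2 (Or.inr (Or.inr ⟨k, hk, rfl⟩)), (mem_cA k z).2 h⟩

/-- the only circles which meet the closed sector -/
theorem only_two {j k : ℕ} {s t : ℝ} {z : ℂ}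
    (hz : z ∈ SecC (((k : ℝ) + 2) ^ 2) (((k : ℝ) + 3) ^ 2) s t) (hM : 0 < fM z)
    (h : fN z = ((j : ℝ) + 2) ^ 2 * fM z) : j = k ∨ j = k + 1 := by
  have h1 := hz.1
  have h2 := hz.2.1
  rw [h] at h1 h2
  have h3 := le_of_mul_le_mul_right h1 hM
  have h4 := le_of_mul_le_mul_right h2 hM
  have hj : (0 : ℝ) ≤ j := Nat.cast_nonneg j
  have hk : (0 : ℝ) ≤ k := Nat.cast_nonneg k
  have h5 : (k : ℝ) ≤ j := by
    have := abs_le_of_sq_le_sq' h3 (by linarith)
    linarith [this.2]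
  have h6 : (j : ℝ) ≤ (k : ℝ) + 1 := by
    have := abs_le_of_sq_le_sq' h4 (by linarith)
    linarith [this.2]
  have h7 : k ≤ j := by exact_mod_cast h5
  have h8 : j ≤ k + 1 := by exact_mod_cast h6
  omega

theorem sec_face {m k : ℕ} (hk : k + 1 < m) {s t : ℝ} (hs : s = 1 ∨ s = -1) (ht : t = 1 ∨ t = -1) :
    Sec (((k : ℝ) + 2) ^ 2) (((k : ℝ) + 3) ^ 2) s t ∈ quadFaces (SN m) := by
  have hk0 : (0 : ℝ) ≤ k := Nat.cast_nonneg k
  have ha : (1 : ℝ) < ((k : ℝ) + 2) ^ 2 := by nlinarith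
  have hab : ((k : ℝ) + 2) ^ 2 < ((k : ℝ) + 3) ^ 2 := by nlinarith
  have hk1 : (((k + 1 : ℕ) : ℝ) + 2) = (k : ℝ) + 3 := by push_cast; ring
  refine sec_quad ha hab hs ht (circUnion (SN m)) (crossings (SN m)) ?_ ?_
  · intro z hz
    have hM := (SecC_pos ha hab hs ht hz).1
    rw [mem_union_SN]
    constructor
    · rintro (h | h | ⟨j, -, h⟩)
      · exact Or.inr (Or.inr (Or.inl h))
      · exact Or.inr (Or.inr (Or.inr h))
      · rcases only_two hz hM h with rfl | rfl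
        · exact Or.inl h.symm
        · rw [hk1] at h
          exact Or.inr (Or.inl h)
    · rintro (h | h | h | h)
      · exact Or.inr (Or.inr ⟨k, by omega, h.symm⟩)
      · exact Or.inr (Or.inr ⟨k + 1, hk, by rw [hk1]; exact h⟩)
      · exact Or.inl h
      · exact Or.inr (Or.inl h)
  · intro z hz
    obtain ⟨hM, hN⟩ := SecC_pos ha hab hs ht hz
    constructor
    · -- a crossing point
      have hPQ : ¬ (fP z = 0 ∧ fQ z = 0) := by
        rintro ⟨h1, h2⟩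
        have h4 := fPQ z
        rw [h1, h2] at h4
        nlinarith [mul_pos hM hN]
      have hA : ∀ j, z ∈ (cA j).pts → ((k : ℝ) + 2) ^ 2 * fM z = fN z ∨
          fN z = ((k : ℝ) + 3) ^ 2 * fM z := by
        intro j hj
        have h := (mem_cA j z).1 hj
        rcases only_two hz hM h with rfl | rfl
        · exact Or.inl h.symm
        · rw [hk1] at h
          exact Or.inr h
      rintro ⟨C, hC, D, hD, hCD, h1, h2⟩
      rcases mem_SN.1 hC with rfl | rfl | ⟨i, -, rfl⟩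
      · rcases mem_SN.1 hD with rfl | rfl | ⟨j, -, rfl⟩
        · exact absurd rfl hCD
        · exact absurd ⟨(mem_cBp z).1 h1, (mem_cBm z).1 h2⟩ hPQ
        · exact ⟨hA j h2, Or.inl ((mem_cBp z).1 h1)⟩
      · rcases mem_SN.1 hD with rfl | rfl | ⟨j, -, rfl⟩
        · exact absurd ⟨(mem_cBp z).1 h2, (mem_cBm z).1 h1⟩ hPQ
        · exact absurd rfl hCD
        · exact ⟨hA j h2, Or.inr ((mem_cBm z).1 h1)⟩
      · rcases mem_SN.1 hD with rfl | rfl | ⟨j, -, rfl⟩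
        · exact ⟨hA i h1, Or.inl ((mem_cBp z).1 h2)⟩
        · exact ⟨hA i h1, Or.inr ((mem_cBm z).1 h2)⟩
        · have hij : i ≠ j := fun e => hCD (by rw [e])
          exact absurd h2 (disjoint_left.1 (cA_disj hij) h1)
    · rintro ⟨h1, h2⟩
      obtain ⟨j, hj, hjz⟩ : ∃ j, j < m ∧ z ∈ (cA j).pts := by
        rcases h1 with h1 | h1
        · exact ⟨k, by omega, (mem_cA k z).2 h1.symm⟩
        · exact ⟨k + 1, hk, (mem_cA (k + 1) z).2 (by rw [hk1]; exact h1)⟩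
      rcases h2 with h2 | h2
      · exact ⟨cA j, mem_SN.2 (Or.inr (Or.inr ⟨j, hj, rfl⟩)), cB 1, mem_SN.2 (Or.inl rfl),
          fun e => cA_ne_cB j 1 e.symm, hjz, (mem_cBp z).2 h2⟩
      · exact ⟨cA j, mem_SN.2 (Or.inr (Or.inr ⟨j, hj, rfl⟩)), cB (-1),
          mem_SN.2 (Or.inr (Or.inl rfl)), fun e => cA_ne_cB j _ e.symm, hjz, (mem_cBm z).2 h2⟩

/-- the sign of a Boolean -/
def sgb (b : Bool) : ℝ := cond b 1 (-1)

theorem sgb_or (b : Bool) : sgb b = 1 ∨ sgb b = -1 := by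
  cases b
  · exact Or.inr rfl
  · exact Or.inl rfl

/-- the sectors of the arrangement -/
def secOf (m : ℕ) (q : Fin m × Bool × Bool) : Set ℂ :=
  Sec (((q.1 : ℕ) + 2 : ℝ) ^ 2) (((q.1 : ℕ) + 3 : ℝ) ^ 2) (sgb q.2.1) (sgb q.2.2)

theorem sgb_eq {b c : Bool} {x : ℝ} (h1 : 0 < sgb b * x) (h2 : 0 < sgb c * x) : b = c := by
  cases b <;> cases c
  · rfl
  · exfalso
    change 0 < (-1) * x at h1
    change 0 < 1 * x at h2
    linarith
  · exfalso
    change 0 < (-1) * x at h2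
    change 0 < 1 * x at h1
    linarith
  · rfl

theorem secOf_inj (m : ℕ) : Function.Injective (secOf m) := by
  rintro ⟨k, b1, b2⟩ ⟨k', c1, c2⟩ h
  have hk0 : (0 : ℝ) ≤ (k : ℕ) := Nat.cast_nonneg _
  have hk0' : (0 : ℝ) ≤ (k' : ℕ) := Nat.cast_nonneg _
  obtain ⟨z, hz⟩ : (secOf m (k, b1, b2)).Nonempty := by
    obtain ⟨⟨p, hp, hp'⟩, -⟩ := sec_face (m := k + 2) (k := k) (by omega) (sgb_or b1) (sgb_or b2)
    refine ⟨p, ?_⟩
    have : secOf m (k, b1, b2) = connectedComponentIn (circUnion (SN (k + 2)))ᶜ p := hp'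
    rw [this]
    exact mem_connectedComponentIn hp
  have hz' : z ∈ secOf m (k', c1, c2) := h ▸ hz
  obtain ⟨z1, z2, z3, z4⟩ := hz
  obtain ⟨w1, w2, w3, w4⟩ := hz'
  simp only at z1 z2 z3 z4 w1 w2 w3 w4
  have hM : 0 < fM z := by
    rcases lt_or_eq_of_le (fM_nonneg z) with h' | h'
    · exact h'
    · rw [← h', mul_zero] at z1 z2
      linarith
  have e1 : b1 = c1 := sgb_eq z3 w3
  have e2 : b2 = c2 := sgb_eq z4 w4
  have l1 : (k : ℕ) < (k' : ℕ) + 1 := by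
    have h1 := lt_of_mul_lt_mul_right (z1.trans w2) hM.le
    have h2 := abs_lt_of_sq_lt_sq' h1 (by linarith)
    have h3 : ((k : ℕ) : ℝ) < ((k' : ℕ) : ℝ) + 1 := by linarith [h2.2]
    exact_mod_cast h3
  have l2 : (k' : ℕ) < (k : ℕ) + 1 := by
    have h1 := lt_of_mul_lt_mul_right (w1.trans z2) hM.le
    have h2 := abs_lt_of_sq_lt_sq' h1 (by linarith)
    have h3 : ((k' : ℕ) : ℝ) < ((k : ℕ) : ℝ) + 1 := by linarith [h2.2]
    exact_mod_cast h3
  have e3 : k = k' := by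
    apply Fin.ext
    omega
  rw [e1, e2, e3]

/-- **Lower bound.** -/
theorem low_card (m : ℕ) (hf : (quadFaces (SN (m + 1))).Finite) :
    4 * m ≤ (quadFaces (SN (m + 1))).ncard := by
  have h1 : range (secOf m) ⊆ quadFaces (SN (m + 1)) := by
    rintro _ ⟨⟨k, b, c⟩, rfl⟩
    exact sec_face (by omega) (sgb_or b) (sgb_or c)
  have h2 := ncard_le_ncard h1 hf
  rw [ncard_range_of_injective (secOf_inj m)] at h2
  simp only [Nat.card_eq_fintype_card, Fintype.card_prod, Fintype.card_fin, Fintype.card_bool] at h2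
  omega

/-- **Lower bound for `q(n)`**: for `n ≥ 3` there is an arrangement of `n` orthogonal circles with at
least `4 (n - 3)` quadrangular faces. -/
theorem lower (n : ℕ) (hn : 3 ≤ n) : ∃ S : Finset Circ, S.card = n ∧ IsArrangement S ∧
    ((quadFaces S).Finite → 4 * (n - 3) ≤ (quadFaces S).ncard) := by
  obtain ⟨m, rfl⟩ := Nat.exists_eq_add_of_le hn
  refine ⟨SN (m + 1), by rw [card_SN]; omega, arr_SN _, fun hf => ?_⟩
  have := low_card m hf
  have e : 3 + m - 3 = m := by omega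
  rw [e]; exact this

end Pool.Agent.Helper79.OC
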