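import Pool.Agent.Helper79.OC.St

/-!
# MP_8ec342_lc, module Norm: inversion in an intersection point of two orthogonal circles
-/

set_option autoImplicit false

namespace Pool.Agent.Helper79.OC

/-- An intersection point of two orthogonal circles and an adapted orthonormal frame. -/
theorem Norm_frame (xp yp rp xs ys rs : ℝ) (hrp : 0 < rp) (hrs : 0 < rs)
    (hD : (xp - xs) ^ 2 + (yp - ys) ^ 2 = rp ^ 2 + rs ^ 2) :
    ∃ Ox Oy a b : ℝ, a ^ 2 + b ^ 2 = 1 ∧ xs = Ox + rs * a ∧ ys = Oy + rs * b ∧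
      xp = Ox + rp * b ∧ yp = Oy - rp * a := by
  have hD0 : rp ^ 2 + rs ^ 2 ≠ 0 := by positivity
  refine ⟨xp + rp ^ 2 / (rp ^ 2 + rs ^ 2) * (xs - xp) - rp * rs / (rp ^ 2 + rs ^ 2) * (ys - yp),
    yp + rp ^ 2 / (rp ^ 2 + rs ^ 2) * (ys - yp) + rp * rs / (rp ^ 2 + rs ^ 2) * (xs - xp),
    (rs * (xs - xp) + rp * (ys - yp)) / (rp ^ 2 + rs ^ 2),
    (rs * (ys - yp) - rp * (xs - xp)) / (rp ^ 2 + rs ^ 2), ?_, ?_, ?_, ?_, ?_⟩
  · rw [div_pow, div_pow, ← add_div, div_eq_one_iff_eq (by positivity)]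
    linear_combination (rp ^ 2 + rs ^ 2) * hD
  · field_simp
    ring
  · field_simp
    ring
  · field_simp
    ring
  · field_simp
    ring

/-- The radii and the distance after the inversion. -/
theorem Norm_id (Au Bu ku ru Av Bv kv rv rs rp : ℝ) (hrp : rp ≠ 0) (hrs : rs ≠ 0)
    (hku : ku ≠ 0) (hkv : kv ≠ 0)
    (hu : ru ^ 2 = Au ^ 2 + Bu ^ 2 - ku) (hv : rv ^ 2 = Av ^ 2 + Bv ^ 2 - kv) :
    (ru / |ku|) ^ 2 + (rv / |kv|) ^ 2 -
      (((2 * rs * Au - ku) / (2 * rs * ku) - (2 * rs * Av - kv) / (2 * rs * kv)) ^ 2 +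
        ((2 * rp * Bu - ku) / (2 * rp * ku) - (2 * rp * Bv - kv) / (2 * rp * kv)) ^ 2) =
      (2 * (Au * Av + Bu * Bv) - ku - kv) / (ku * kv) := by
  have e1 : (2 * rs * Au - ku) / (2 * rs * ku) - (2 * rs * Av - kv) / (2 * rs * kv) =
      Au / ku - Av / kv := by
    field_simp
    ring
  have e2 : (2 * rp * Bu - ku) / (2 * rp * ku) - (2 * rp * Bv - kv) / (2 * rp * kv) =
      Bu / ku - Bv / kv := by
    field_simp
    ring
  rw [e1, e2, div_pow, div_pow, sq_abs, sq_abs, hu, hv]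
  field_simp
  ring

theorem Norm_main : StNorm := by
  intro V G x y r hR p s hps
  obtain ⟨hpos, hR⟩ := hR
  have hne : p ≠ s := hps.ne
  have hrp := hpos p
  have hrs := hpos s
  obtain ⟨Ox, Oy, a, b, hab, e1, e2, e3, e4⟩ := Norm_frame (x p) (y p) (r p) (x s) (y s) (r s)
    hrp hrs ((hR p s hne).1 hps)
  set A : V → ℝ := fun v => a * (x v - Ox) + b * (y v - Oy) with hA
  set B : V → ℝ := fun v => b * (x v - Ox) - a * (y v - Oy) with hB
  set κ : V → ℝ := fun v => A v ^ 2 + B v ^ 2 - r v ^ 2 with hκd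
  have hAB : ∀ u v, A u * A v + B u * B v = (x u - Ox) * (x v - Ox) + (y u - Oy) * (y v - Oy) := by
    intro u v
    simp only [hA, hB]
    linear_combination ((x u - Ox) * (x v - Ox) + (y u - Oy) * (y v - Oy)) * hab
  have hqs : ∀ v, r v ^ 2 + r s ^ 2 - ((x v - x s) ^ 2 + (y v - y s) ^ 2) =
      2 * r s * A v - κ v := by
    intro v
    have h1 := hAB v v
    simp only [hκd]
    rw [e1, e2]
    have h2 : A v = a * (x v - Ox) + b * (y v - Oy) := rfl
    linear_combination h1 + (-(r s ^ 2)) * hab - 2 * r s * h2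
  have hqp : ∀ v, r v ^ 2 + r p ^ 2 - ((x v - x p) ^ 2 + (y v - y p) ^ 2) =
      2 * r p * B v - κ v := by
    intro v
    have h1 := hAB v v
    simp only [hκd]
    rw [e3, e4]
    have h2 : B v = b * (x v - Ox) - a * (y v - Oy) := rfl
    linear_combination h1 + (-(r p ^ 2)) * hab - 2 * r p * h2
  have hq : ∀ u v, r u ^ 2 + r v ^ 2 - ((x u - x v) ^ 2 + (y u - y v) ^ 2) =
      2 * (A u * A v + B u * B v) - κ u - κ v := by
    intro u v
    have h1 := hAB u v
    have h2 := hAB u u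
    have h3 := hAB v v
    simp only [hκd]
    linear_combination -2 * h1 + h2 + h3
  have hrκ : ∀ v, r v ^ 2 = A v ^ 2 + B v ^ 2 - κ v := by
    intro v
    simp only [hκd]
    ring
  have hsym : ∀ u v, (x u - x v) ^ 2 + (y u - y v) ^ 2 = (x v - x u) ^ 2 + (y v - y u) ^ 2 :=
    fun u v => by ring
  -- adjacency with `s` and `p`
  have hs1 : ∀ v, v ≠ s → G.Adj s v → 2 * r s * A v - κ v = 0 := by
    intro v hv hav
    have h1 := (hR v s hv).1 hav.symm
    have h2 := hqs v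
    linarith
  have hs2 : ∀ v, v ≠ s → ¬ G.Adj s v → 2 * r v * r s < |2 * r s * A v - κ v| := by
    intro v hv hav
    have h1 := (hR v s hv).2 (fun h => hav h.symm)
    rwa [hqs v] at h1
  have hp1 : ∀ v, v ≠ p → G.Adj p v → 2 * r p * B v - κ v = 0 := by
    intro v hv hav
    have h1 := (hR v p hv).1 hav.symm
    have h2 := hqp v
    linarith
  have hp2 : ∀ v, v ≠ p → ¬ G.Adj p v → 2 * r v * r p < |2 * r p * B v - κ v| := by
    intro v hv hav
    have h1 := (hR v p hv).2 (fun h => hav h.symm)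
    rwa [hqp v] at h1
  have hκ : ∀ v, v ≠ p → v ≠ s → κ v ≠ 0 := by
    intro v hv1 hv2 h0
    have hrv := hpos v
    have h1 := hrκ v
    rw [h0, sub_zero] at h1
    have hA0 : A v = 0 := by
      by_cases hc : G.Adj s v
      · have h2 := hs1 v hv2 hc
        rw [h0, sub_zero] at h2
        rcases mul_eq_zero.1 h2 with h3 | h3
        · linarith
        · exact h3
      · exfalso
        have h2 := hs2 v hv2 hc
        rw [h0, sub_zero, abs_mul, abs_of_pos (by positivity : 0 < 2 * r s)] at h2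
        have h3 : |A v| ≤ r v := abs_le_of_sq_le_sq (by nlinarith [sq_nonneg (B v)]) hrv.le
        nlinarith
    have hB0 : B v = 0 := by
      by_cases hc : G.Adj p v
      · have h2 := hp1 v hv1 hc
        rw [h0, sub_zero] at h2
        rcases mul_eq_zero.1 h2 with h3 | h3
        · linarith
        · exact h3
      · exfalso
        have h2 := hp2 v hv1 hc
        rw [h0, sub_zero, abs_mul, abs_of_pos (by positivity : 0 < 2 * r p)] at h2
        have h3 : |B v| ≤ r v := abs_le_of_sq_le_sq (by nlinarith [sq_nonneg (A v)]) hrv.le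
        nlinarith
    rw [hA0, hB0] at h1
    nlinarith
  refine ⟨fun v => (2 * r s * A v - κ v) / (2 * r s * κ v),
    fun v => (2 * r p * B v - κ v) / (2 * r p * κ v), fun v => r v / |κ v|, ?_, ?_, ?_, ?_, ?_, ?_,
    ?_⟩
  · intro v hv1 hv2
    exact div_pos (hpos v) (abs_pos.2 (hκ v hv1 hv2))
  · intro v hv1 hv2 hav
    simp only [hp1 v hv1 hav, zero_div]
  · intro v hv1 hv2 hav
    have hk := abs_pos.2 (hκ v hv1 hv2)
    have h1 := hp2 v hv1 hav
    show r v / |κ v| < |(2 * r p * B v - κ v) / (2 * r p * κ v)|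
    rw [abs_div, abs_mul (2 * r p) (κ v), abs_of_pos (by positivity : 0 < 2 * r p),
      div_lt_div_iff₀ hk (by positivity)]
    nlinarith
  · intro v hv1 hv2 hav
    simp only [hs1 v hv2 hav, zero_div]
  · intro v hv1 hv2 hav
    have hk := abs_pos.2 (hκ v hv1 hv2)
    have h1 := hs2 v hv2 hav
    show r v / |κ v| < |(2 * r s * A v - κ v) / (2 * r s * κ v)|
    rw [abs_div, abs_mul (2 * r s) (κ v), abs_of_pos (by positivity : 0 < 2 * r s),
      div_lt_div_iff₀ hk (by positivity)]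
    nlinarith
  · intro u v hu1 hu2 hv1 hv2 huv hadj
    have h1 := (hR u v huv).1 hadj
    have h2 := hq u v
    have h3 := Norm_id (A u) (B u) (κ u) (r u) (A v) (B v) (κ v) (r v) (r s) (r p) hrp.ne' hrs.ne'
      (hκ u hu1 hu2) (hκ v hv1 hv2) (hrκ u) (hrκ v)
    have h4 : 2 * (A u * A v + B u * B v) - κ u - κ v = 0 := by linarith
    rw [h4, zero_div] at h3
    show (_ : ℝ) = _
    linarith
  · intro u v hu1 hu2 hv1 hv2 huv hadj
    have h1 := (hR u v huv).2 hadj
    rw [hq u v] at h1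
    have h3 := Norm_id (A u) (B u) (κ u) (r u) (A v) (B v) (κ v) (r v) (r s) (r p) hrp.ne' hrs.ne'
      (hκ u hu1 hu2) (hκ v hv1 hv2) (hrκ u) (hrκ v)
    have hk := abs_pos.2 (hκ u hu1 hu2)
    have hk' := abs_pos.2 (hκ v hv1 hv2)
    show 2 * (r u / |κ u|) * (r v / |κ v|) < |_|
    rw [h3, abs_div, abs_mul (κ u) (κ v), lt_div_iff₀ (by positivity)]
    have h5 : 2 * (r u / |κ u|) * (r v / |κ v|) * (|κ u| * |κ v|) = 2 * r u * r v := by
      field_simp
    rw [h5]
    exact h1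

end Pool.Agent.Helper79.OC
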