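import Pool.Agent.Helper79.OC.St

/-!
# MP_8ec342_lc: module Page, reading off the spine order and the pages
-/

set_option autoImplicit false

open Metric Set

namespace Pool.Agent.Helper79.OC

theorem Page_seg {P Q : ℂ} {r r' : ℝ} (h : dist P Q ≤ r + r') :
    segment ℝ P Q ⊆ closedBall P r ∪ closedBall Q r' := by
  intro z hz
  have h1 := dist_add_dist_of_mem_segment hz
  by_cases h2 : dist P z ≤ r
  · left
    rw [mem_closedBall, dist_comm]
    exact h2
  · right
    rw [mem_closedBall]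
    push Not at h2
    linarith

theorem Page_im (P Q : ℂ) (hP : 0 ≤ P.im) (hQ : 0 ≤ Q.im) {z : ℂ} (hz : z ∈ segment ℝ P Q) :
    0 ≤ z.im := by
  obtain ⟨s, t, hs, ht, -, rfl⟩ := hz
  simp only [Complex.add_im, Complex.real_smul, Complex.mul_im, Complex.ofReal_re,
    Complex.ofReal_im, zero_mul, add_zero]
  positivity

theorem Page_re (P Q : ℂ) (hP : P.re ≤ 0) (hQ : Q.re ≤ 0) {z : ℂ} (hz : z ∈ segment ℝ P Q) :
    z.re ≤ 0 := by
  obtain ⟨s, t, hs, ht, -, rfl⟩ := hz
  simp only [Complex.add_re, Complex.real_smul, Complex.mul_re, Complex.ofReal_re,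
    Complex.ofReal_im, zero_mul, sub_zero]
  nlinarith

/-- the centre of a vertex, possibly reflected -/
noncomputable def PageC {V : Type} (x y : V → ℝ) (sg : ℝ) (q : V) : ℂ := ⟨x q, sg * y q⟩

theorem Page_disj {V : Type} {x y r : V → ℝ} {sg : ℝ} (hsg : sg ^ 2 = 1) {p q : V} (hp : 0 < r p)
    (hq : 0 < r q) (h : (r p + r q) ^ 2 < (x p - x q) ^ 2 + (y p - y q) ^ 2) {z : ℂ}
    (h1 : z ∈ closedBall (PageC x y sg p) (r p)) (h2 : z ∈ closedBall (PageC x y sg q) (r q)) :
    False := by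
  rw [mem_closedBall] at h1 h2
  have h3 : dist (PageC x y sg p) (PageC x y sg q) ≤ r p + r q :=
    (dist_triangle_left _ _ z).trans (add_le_add h1 h2)
  have h4 : dist (PageC x y sg p) (PageC x y sg q) ^ 2 = (x p - x q) ^ 2 + (y p - y q) ^ 2 := by
    rw [Complex.dist_eq_re_im, Real.sq_sqrt (by positivity)]
    simp only [PageC]
    have : (sg * y p - sg * y q) ^ 2 = sg ^ 2 * (y p - y q) ^ 2 := by ring
    rw [this, hsg, one_mul]
  have h5 : dist (PageC x y sg p) (PageC x y sg q) ^ 2 ≤ (r p + r q) ^ 2 :=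
    pow_le_pow_left₀ dist_nonneg h3 2
  linarith

theorem Page_adj {V : Type} {x y r : V → ℝ} {sg : ℝ} (hsg : sg ^ 2 = 1) {p q : V} (hp : 0 < r p)
    (hq : 0 < r q) (h : (x p - x q) ^ 2 + (y p - y q) ^ 2 = r p ^ 2 + r q ^ 2) :
    dist (PageC x y sg p) (PageC x y sg q) ≤ r p + r q := by
  rw [Complex.dist_eq_re_im]
  apply Real.sqrt_le_iff.2
  refine ⟨by positivity, ?_⟩
  simp only [PageC]
  have : (sg * y p - sg * y q) ^ 2 = sg ^ 2 * (y p - y q) ^ 2 := by ring
  rw [this, hsg, one_mul, h]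
  nlinarith

/-- the region of a vertex `s v` -/
def PageD {n m k : ℕ} (v₀ : Fin n) (x y r : Vx n m k → ℝ) (sg : ℝ) (v : Fin n) : Set ℂ :=
  if v = v₀ then {z | z.re ≤ 0} else closedBall (PageC x y sg (.s v)) (r (.s v))

/-- the region of an edge -/
def PageS {n m k : ℕ} (v₀ : Fin n) (x y r : Vx n m k → ℝ) (sg : ℝ) (a b : Fin m → Fin n)
    (e : Fin m) : Set ℂ :=
  {z | 0 ≤ z.im} ∩ ((PageD v₀ x y r sg (a e) ∪ PageD v₀ x y r sg (b e)) ∪
    ⋃ i, closedBall (PageC x y sg (.c e i)) (r (.c e i)))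

/-- the position of a vertex on the spine -/
noncomputable def PageP {n m k : ℕ} (v₀ : Fin n) (x : Vx n m k → ℝ) (v : Fin n) : ℝ :=
  if v = v₀ then 0 else x (.s v)

section

variable {n m k : ℕ} {a b : Fin m → Fin n} {v₀ : Fin n} {x y r : Vx n m k → ℝ}

theorem Page_c (h : GRz (RG n m k a b) .p (.s v₀) x y r) (e : Fin m) (i : Fin k) :
    0 < r (.c e i) ∧ r (.c e i) < |y (.c e i)| :=
  ⟨h.pos _ (by simp) (by simp), h.hp2 _ (by simp) (by simp) (fun hh => hh)⟩

theorem Page_s (h : GRz (RG n m k a b) .p (.s v₀) x y r) {v : Fin n} (hv : v ≠ v₀) :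
    0 < r (.s v) ∧ r (.s v) < x (.s v) ∧ y (.s v) = 0 :=
  ⟨h.pos _ (by simp) (by simpa using hv),
    h.right _ (by simp) (by simpa using hv) (fun hh => hh),
    h.hp1 _ (by simp) (by simpa using hv) trivial⟩

/-- the path joining an end of `e` and the centre of the first or last circle -/
theorem Page_end (h : GRz (RG n m k a b) .p (.s v₀) x y r) {sg : ℝ} (hsg : sg ^ 2 = 1)
    {e : Fin m} (hy : ∀ i, 0 < sg * y (.c e i)) {w : Fin n} (hw : w = a e ∨ w = b e) {i : Fin k}
    (hadj : (RG n m k a b).Adj (.s w) (.c e i)) :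
    JoinedIn (PageS v₀ x y r sg a b e) (PageP v₀ x w : ℂ) (PageC x y sg (.c e i)) := by
  apply JoinedIn.of_segment_subset
  have hD : PageD v₀ x y r sg w ⊆ PageD v₀ x y r sg (a e) ∪ PageD v₀ x y r sg (b e) := by
    rcases hw with rfl | rfl
    · exact subset_union_left
    · exact subset_union_right
  intro z hz
  refine ⟨Page_im _ _ (by simp) (hy i).le hz, ?_⟩
  by_cases hwv : w = v₀
  · left
    apply hD
    subst hwv
    rw [PageD, if_pos rfl]
    refine Page_re _ _ ?_ ?_ hz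
    · rw [PageP, if_pos rfl]
      simp
    · have := h.hs1 (.c e i) (by simp) (by simp) hadj
      simp [PageC, this]
  · obtain ⟨h1, h2, h3⟩ := Page_s h hwv
    have h4 : (PageP v₀ x w : ℂ) = PageC x y sg (.s w) := by
      rw [PageP, if_neg hwv, PageC, h3, mul_zero]
      rfl
    rw [h4] at hz
    have h5 := h.adj (.s w) (.c e i) (by simp) (by simpa using hwv) (by simp) (by simp) (by simp)
      hadj
    rcases Page_seg (Page_adj hsg h1 (Page_c h e i).1 h5) hz with h6 | h6
    · left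
      apply hD
      rw [PageD, if_neg hwv]
      exact h6
    · right
      exact mem_iUnion.2 ⟨i, h6⟩

theorem Page_step (h : GRz (RG n m k a b) .p (.s v₀) x y r) {sg : ℝ} (hsg : sg ^ 2 = 1)
    {e : Fin m} (hy : ∀ i, 0 < sg * y (.c e i)) {i j : Fin k} (hij : i.1 + 1 = j.1) :
    JoinedIn (PageS v₀ x y r sg a b e) (PageC x y sg (.c e i)) (PageC x y sg (.c e j)) := by
  apply JoinedIn.of_segment_subset
  intro z hz
  refine ⟨Page_im _ _ (hy i).le (hy j).le hz, Or.inr ?_⟩
  have hne : i ≠ j := by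
    rintro rfl
    omega
  have h5 := h.adj (.c e i) (.c e j) (by simp) (by simp) (by simp) (by simp) (by simpa using hne)
    ⟨rfl, Or.inl hij⟩
  rcases Page_seg (Page_adj hsg (Page_c h e i).1 (Page_c h e j).1 h5) hz with h6 | h6
  · exact mem_iUnion.2 ⟨i, h6⟩
  · exact mem_iUnion.2 ⟨j, h6⟩

theorem Page_chain (h : GRz (RG n m k a b) .p (.s v₀) x y r) {sg : ℝ} (hsg : sg ^ 2 = 1)
    {e : Fin m} (hy : ∀ i, 0 < sg * y (.c e i)) (hk : 0 < k) : ∀ (i : ℕ) (hi : i < k),
    JoinedIn (PageS v₀ x y r sg a b e) (PageC x y sg (.c e ⟨0, hk⟩)) (PageC x y sg (.c e ⟨i, hi⟩))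
  | 0, hi => by
    have := Page_end h hsg hy (Or.inl rfl) (i := ⟨0, hk⟩) (w := a e) (Or.inl ⟨rfl, rfl⟩)
    exact JoinedIn.refl this.target_mem
  | i + 1, hi => (Page_chain h hsg hy hk i (by omega)).trans (Page_step h hsg hy rfl)

theorem Page_join (h : GRz (RG n m k a b) .p (.s v₀) x y r) {sg : ℝ} (hsg : sg ^ 2 = 1)
    {e : Fin m} (hy : ∀ i, 0 < sg * y (.c e i)) (hk : 0 < k) :
    JoinedIn (PageS v₀ x y r sg a b e) (PageP v₀ x (a e) : ℂ) (PageP v₀ x (b e) : ℂ) := by
  refine (Page_end h hsg hy (Or.inl rfl) (i := ⟨0, hk⟩) (Or.inl ⟨rfl, rfl⟩)).trans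
    ((Page_chain h hsg hy hk (k - 1) (by omega)).trans
      (Page_end h hsg hy (Or.inr rfl) (i := ⟨k - 1, by omega⟩) (Or.inr ⟨rfl, ?_⟩)).symm)
  show k - 1 + 1 = k
  omega

theorem Page_sign (h : GRz (RG n m k a b) .p (.s v₀) x y r) (e : Fin m) (hk : 0 < k) :
    ∀ (i : ℕ) (hi : i < k), (0 < y (.c e ⟨i, hi⟩) ↔ 0 < y (.c e ⟨0, hk⟩))
  | 0, _ => Iff.rfl
  | i + 1, hi => by
    rw [← Page_sign h e hk i (by omega)]
    have h1 := Page_c h e ⟨i, by omega⟩
    have h2 := Page_c h e ⟨i + 1, hi⟩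
    have h3 := h.adj (.c e ⟨i, by omega⟩) (.c e ⟨i + 1, hi⟩) (by simp) (by simp) (by simp) (by simp)
      (by simp) ⟨rfl, Or.inl rfl⟩
    obtain ⟨p1, q1⟩ := h1
    obtain ⟨p2, q2⟩ := h2
    generalize y (.c e ⟨i, by omega⟩) = y1 at q1 h3 ⊢
    generalize y (.c e ⟨i + 1, hi⟩) = y2 at q2 h3 ⊢
    generalize r (.c e ⟨i, by omega⟩) = r1 at p1 q1 h3
    generalize r (.c e ⟨i + 1, hi⟩) = r2 at p2 q2 h3
    have hx := sq_nonneg (x (.c e ⟨i, by omega⟩) - x (.c e ⟨i + 1, hi⟩))
    constructor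
    · intro h4
      by_contra h5
      rw [abs_of_pos h4] at q2
      rw [abs_of_nonpos (by linarith)] at q1
      nlinarith
    · intro h4
      by_contra h5
      rw [abs_of_pos h4] at q1
      rw [abs_of_nonpos (by linarith)] at q2
      nlinarith

/-- regions of different vertices, one of them `s v` -/
theorem Page_DD (h : GRz (RG n m k a b) .p (.s v₀) x y r) {sg : ℝ} (hsg : sg ^ 2 = 1)
    {v : Fin n} {q : Vx n m k} (hq : q ≠ .p) (hq0 : q ≠ .s v₀) (hne : .s v ≠ q)
    (hadj : ¬ (RG n m k a b).Adj (.s v) q) {z : ℂ} (h1 : z ∈ PageD v₀ x y r sg v)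
    (h2 : z ∈ closedBall (PageC x y sg q) (r q)) : False := by
  rw [PageD] at h1
  have hr := h.pos q hq hq0
  split_ifs at h1 with hv
  · subst hv
    have h3 := h.right q hq hq0 hadj
    rw [mem_closedBall, Complex.dist_eq] at h2
    have h4 := (Complex.abs_re_le_norm _).trans h2
    rw [Complex.sub_re, abs_le] at h4
    have h5 : z.re ≤ 0 := h1
    have h6 : (PageC x y sg q).re = x q := rfl
    rw [h6] at h4
    linarith [h4.1]
  · have h3 := Page_s h hv
    exact Page_disj hsg h3.1 hr (h.disj (.s v) q (by simp) (by simpa using hv) hq hq0 hne hadj)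
      h1 h2

end

theorem Page_main (hX : StCross) : StPage := by
  intro n m k a b hk hab v₀ x y r h
  have hk0 : 0 < k := by omega
  have hpos0 : ∀ v, v ≠ v₀ → 0 < PageP v₀ x v := by
    intro v hv
    obtain ⟨h1, h2, -⟩ := Page_s h hv
    rw [PageP, if_neg hv]
    linarith
  have hposn : ∀ v, 0 ≤ PageP v₀ x v := by
    intro v
    by_cases hv : v = v₀
    · rw [PageP, if_pos hv]
    · exact (hpos0 v hv).le
  have hne0 : ∀ u v, PageP v₀ x u < PageP v₀ x v → v ≠ v₀ := by
    rintro u v huv rfl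
    have h1 := hposn u
    have h2 : PageP v x v = 0 := by rw [PageP, if_pos rfl]
    linarith
  refine ⟨PageP v₀ x, fun e => decide (0 < y (.c e ⟨0, hk0⟩)), ?_, ?_⟩
  · intro v w hvw
    by_contra hne
    by_cases hv : v = v₀
    · have hw : w ≠ v₀ := fun hh => hne (hv.trans hh.symm)
      have h1 := hpos0 w hw
      rw [← hvw, PageP, if_pos hv] at h1
      exact lt_irrefl _ h1
    · by_cases hw : w = v₀
      · have h1 := hpos0 v hv
        rw [hvw, PageP, if_pos hw] at h1
        exact lt_irrefl _ h1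
      · obtain ⟨-, -, h1⟩ := Page_s h hv
        obtain ⟨-, -, h2⟩ := Page_s h hw
        have h3 := h.disj (.s v) (.s w) (by simp) (by simpa using hv) (by simp)
          (by simpa using hw) (by simpa using hne) (fun hh => hh)
        rw [PageP, PageP, if_neg hv, if_neg hw] at hvw
        rw [h1, h2, hvw, sub_self, sub_self] at h3
        have h4 := sq_nonneg (r (.s v) + r (.s w))
        norm_num at h3
        linarith
  · intro e f hpage u v w z hu hw huw hwv hvz
    set sg : ℝ := if 0 < y (.c e ⟨0, hk0⟩) then 1 else -1 with hsgdef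
    have hsg : sg ^ 2 = 1 := by
      rw [hsgdef]
      split_ifs <;> norm_num
    have hyg : ∀ g : Fin m, decide (0 < y (.c g ⟨0, hk0⟩)) = decide (0 < y (.c e ⟨0, hk0⟩)) →
        ∀ i, 0 < sg * y (.c g i) := by
      intro g hg i
      have h1 := Page_sign h g hk0 i.1 i.2
      obtain ⟨h2, h3⟩ := Page_c h g i
      have h4 : (0 < y (.c g ⟨0, hk0⟩)) ↔ (0 < y (.c e ⟨0, hk0⟩)) := by
        rwa [decide_eq_decide] at hg
      rw [hsgdef]
      split_ifs with h5
      · rw [one_mul]
        exact h1.2 (h4.2 h5)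
      · have h6 : ¬ 0 < y (.c g i) := fun hh => h5 (h4.1 (h1.1 hh))
        rw [abs_of_nonpos (by linarith)] at h3
        linarith
    have hye := hyg e rfl
    have hyf := hyg f hpage.symm
    have hv0 : v ≠ v₀ := hne0 _ _ hwv
    have hw0 : w ≠ v₀ := hne0 _ _ huw
    have hz0 : z ≠ v₀ := hne0 _ _ hvz
    have huw' : u ≠ w := by rintro rfl; exact lt_irrefl _ huw
    have huz' : u ≠ z := by rintro rfl; exact lt_irrefl _ (huw.trans (hwv.trans hvz))
    have hvw' : v ≠ w := by rintro rfl; exact lt_irrefl _ hwv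
    have hvz' : v ≠ z := by rintro rfl; exact lt_irrefl _ hvz
    -- ends of `e` and `f` are different
    have hends : ∀ p, (p = a e ∨ p = b e) → ∀ q, (q = a f ∨ q = b f) → p ≠ q := by
      have h1 : ∀ p, (p = a e ∨ p = b e) → p = u ∨ p = v := by
        rintro p hp
        rcases hu with ⟨h1, h2⟩ | ⟨h1, h2⟩
        · rw [← h1, ← h2] at hp
          exact hp
        · rw [← h1, ← h2] at hp
          exact hp.symm
      have h2 : ∀ q, (q = a f ∨ q = b f) → q = w ∨ q = z := by
        rintro p hp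
        rcases hw with ⟨h1, h2⟩ | ⟨h1, h2⟩
        · rw [← h1, ← h2] at hp
          exact hp
        · rw [← h1, ← h2] at hp
          exact hp.symm
      intro p hp q hq
      rcases h1 p hp with rfl | rfl <;> rcases h2 q hq with rfl | rfl
      · exact huw'
      · exact huz'
      · exact hvw'
      · exact hvz'
    have hf0 : ∀ q, (q = a f ∨ q = b f) → q ≠ v₀ := by
      rintro p hp
      rcases hw with ⟨h1, h2⟩ | ⟨h1, h2⟩
      · rw [← h1, ← h2] at hp
        rcases hp with rfl | rfl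
        · exact hw0
        · exact hz0
      · rw [← h1, ← h2] at hp
        rcases hp with rfl | rfl
        · exact hz0
        · exact hw0
    have hef : e ≠ f := by
      rintro rfl
      exact hends (a e) (Or.inl rfl) (a e) (Or.inl rfl) rfl
    -- the two paths
    have je : JoinedIn (PageS v₀ x y r sg a b e) (PageP v₀ x u : ℂ) (PageP v₀ x v : ℂ) := by
      rcases hu with ⟨rfl, rfl⟩ | ⟨rfl, rfl⟩
      · exact Page_join h hsg hye hk0
      · exact (Page_join h hsg hye hk0).symm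
    have jf : JoinedIn (PageS v₀ x y r sg a b f) (PageP v₀ x w : ℂ) (PageP v₀ x z : ℂ) := by
      rcases hw with ⟨rfl, rfl⟩ | ⟨rfl, rfl⟩
      · exact Page_join h hsg hyf hk0
      · exact (Page_join h hsg hyf hk0).symm
    obtain ⟨t, ⟨-, ht1⟩, -, ht2⟩ := hX _ _ (fun t ht => ht.1) (fun t ht => ht.1) _ _ _ _ huw hwv hvz
      je jf
    -- the vertices of `f` are balls
    have hfball : ∀ q, (q = a f ∨ q = b f) → t ∈ PageD v₀ x y r sg q →
        t ∈ closedBall (PageC x y sg (.s q)) (r (.s q)) := by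
      intro q hq ht
      rwa [PageD, if_neg (hf0 q hq)] at ht
    have hsc : ∀ (p : Fin n) (g : Fin m) (i : Fin k), p ≠ a g → p ≠ b g →
        ¬ (RG n m k a b).Adj (.s p) (.c g i) := by
      rintro p g i h1 h2 (⟨h3, -⟩ | ⟨h3, -⟩)
      · exact h1 h3
      · exact h2 h3
    have key1 : ∀ p, (p = a e ∨ p = b e) → t ∈ PageD v₀ x y r sg p → False := by
      intro p hp htp
      rcases ht2 with ht2 | ht2
      · obtain ⟨q, hq, htq⟩ : ∃ q, (q = a f ∨ q = b f) ∧ t ∈ PageD v₀ x y r sg q := by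
          rcases ht2 with ht2 | ht2
          · exact ⟨_, Or.inl rfl, ht2⟩
          · exact ⟨_, Or.inr rfl, ht2⟩
        refine Page_DD h hsg (q := .s q) (by simp) (by simpa using hf0 q hq) ?_ (fun hh => hh) htp
          (hfball q hq htq)
        simpa using hends p hp q hq
      · obtain ⟨i, hi⟩ := mem_iUnion.1 ht2
        exact Page_DD h hsg (q := .c f i) (by simp) (by simp) (by simp)
          (hsc p f i (hends p hp _ (Or.inl rfl)) (hends p hp _ (Or.inr rfl))) htp hi
    rcases ht1 with (ht1 | ht1) | ht1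
    · exact key1 _ (Or.inl rfl) ht1
    · exact key1 _ (Or.inr rfl) ht1
    · obtain ⟨i, hi⟩ := mem_iUnion.1 ht1
      rcases ht2 with ht2 | ht2
      · obtain ⟨q, hq, htq⟩ : ∃ q, (q = a f ∨ q = b f) ∧ t ∈ PageD v₀ x y r sg q := by
          rcases ht2 with ht2 | ht2
          · exact ⟨_, Or.inl rfl, ht2⟩
          · exact ⟨_, Or.inr rfl, ht2⟩
        exact Page_DD h hsg (q := .c e i) (by simp) (by simp) (by simp)
          (hsc q e i (hends _ (Or.inl rfl) q hq).symm (hends _ (Or.inr rfl) q hq).symm) htq hi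
      · obtain ⟨j, hj⟩ := mem_iUnion.1 ht2
        refine Page_disj hsg (Page_c h e i).1 (Page_c h f j).1 (h.disj (.c e i) (.c f j) (by simp)
          (by simp) (by simp) (by simp) ?_ ?_) hi hj
        · intro hh
          injection hh with h1 h2
          exact hef h1
        · rintro ⟨h1, -⟩
          exact hef h1

end Pool.Agent.Helper79.OC
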