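import Pool.Agent.Helper79.OC.St

/-!
# MP_8ec342_lc, modules Par and Path
-/

set_option autoImplicit false

namespace Pool.Agent.Helper79.OC

theorem Par_main : StPar := by
  intro k ε L hk hε hL
  have hk' : (2 : ℝ) ≤ k := by exact_mod_cast hk
  have hcont : ContinuousOn (fun ρ : ℝ => (k - 1) * Real.sqrt 2 * ρ +
      2 * Real.sqrt (ε ^ 2 + ρ ^ 2)) (Set.Icc 0 L) := by
    apply Continuous.continuousOn
    fun_prop
  have hL0 : 0 < L := by linarith
  have h1 := intermediate_value_Icc hL0.le hcont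
  have h0 : (k - 1) * Real.sqrt 2 * 0 + 2 * Real.sqrt (ε ^ 2 + 0 ^ 2) = 2 * ε := by
    rw [mul_zero, zero_add]
    simp [Real.sqrt_sq hε.le]
  have h2 : L ≤ (k - 1) * Real.sqrt 2 * L + 2 * Real.sqrt (ε ^ 2 + L ^ 2) := by
    have h3 : (1 : ℝ) ≤ Real.sqrt 2 := by
      rw [Real.one_le_sqrt]
      norm_num
    have h4 : 0 ≤ 2 * Real.sqrt (ε ^ 2 + L ^ 2) := by positivity
    have h5 : (1 : ℝ) ≤ (k - 1) * Real.sqrt 2 := by nlinarith
    nlinarith
  obtain ⟨ρ, hρ, hρe⟩ := h1 (show L ∈ Set.Icc _ _ from ⟨by rw [h0]; exact hL.le, h2⟩)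
  refine ⟨ρ, lt_of_le_of_ne hρ.1 ?_, hρe⟩
  rintro rfl
  simp only [h0] at hρe
  linarith

theorem Path_main (h1 : StPts) (h2 : StPar) (h3 : StPathA) (h4 : StPathB) : StPath := by
  intro n m k a b pos hn hk hab hpos hinj
  have hnR : (1 : ℝ) ≤ n := by exact_mod_cast hn
  set ε : ℝ := 1 / (4 * (n : ℝ) ^ 3) with hε
  have hn3 : (1 : ℝ) ≤ (n : ℝ) ^ 3 := one_le_pow₀ hnR
  have hε0 : 0 < ε := by rw [hε]; positivity
  have hε1 : ε ≤ 1 / 4 := by
    rw [hε]
    apply one_div_le_one_div_of_le (by norm_num)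
    linarith
  obtain ⟨X, Y, p1, p2, p3, p4⟩ := h1 n ε hn hε0 hε1
  have hPt : Pt n ε pos (fun v => X (pos v)) (fun v => Y (pos v)) := by
    refine ⟨fun v => p1 _ (hpos v), fun v => p2 _ (hpos v), fun v w hvw => ?_,
      fun u v w huv hvw => p4 _ (hpos u) _ (hpos v) _ (hpos w) huv hvw⟩
    exact p3 _ (hpos v) _ (hpos w) fun h => hvw (hinj h)
  have hk2 : 2 ≤ k := by
    have h5 : 2 ^ 8 ≤ (n + 2) ^ 8 := Nat.pow_le_pow_left (by omega) 8
    have h6 : 2 ≤ 2 ^ 8 := by norm_num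
    omega
  have hlen : ∀ e, 2 * ε < len a b (fun v => X (pos v)) (fun v => Y (pos v)) e := by
    intro e
    have h5 := (hPt.c3 (a e) (b e) (hab e)).1
    unfold len
    apply Real.lt_sqrt_of_sq_lt
    refine lt_of_lt_of_le ?_ h5
    apply pow_lt_pow_left₀ _ (by positivity) (by norm_num)
    rw [hε]
    rw [mul_one_div, div_lt_div_iff₀ (by positivity) (by positivity)]
    have h7 : (n : ℝ) ^ 3 = n * (n : ℝ) ^ 2 := by ring
    have h8 : (1 : ℝ) ≤ (n : ℝ) ^ 2 := one_le_pow₀ hnR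
    rw [h7]
    nlinarith
  choose R hR using fun e => h2 k ε _ hk2 hε0 (hlen e)
  refine ⟨fun v => X (pos v), fun v => Y (pos v), ε, _, _, R,
    h3 n m k a b pos _ _ ε R hn hk hab hinj rfl hPt hR, ?_⟩
  exact h4 n m k a b pos _ _ ε R hn hk hab hinj rfl hPt hR

end Pool.Agent.Helper79.OC
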