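import Pool.Agent.Helper79.OC.St

/-!
# MP_8ec342_lc, module PathA: the circles of one path
-/

set_option autoImplicit false

namespace Pool.Agent.Helper79.OC

/-- orientation determinant -/
def PathA_D {n : ℕ} (X Y : Fin n → ℝ) (u v w : Fin n) : ℝ :=
  (X v - X u) * (Y w - Y u) - (Y v - Y u) * (X w - X u)

theorem PathA_Dpos {n : ℕ} {ε : ℝ} {pos : Fin n → ℕ} {X Y : Fin n → ℝ} (h : Pt n ε pos X Y)
    {u v w : Fin n} (hc : (pos u < pos v ∧ pos v < pos w) ∨ (pos v < pos w ∧ pos w < pos u) ∨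
      (pos w < pos u ∧ pos u < pos v)) : 1 / (n : ℝ) ^ 3 ≤ PathA_D X Y u v w := by
  rcases hc with ⟨h1, h2⟩ | ⟨h1, h2⟩ | ⟨h1, h2⟩
  · exact h.c4 u v w h1 h2
  · refine (h.c4 v w u h1 h2).trans (le_of_eq ?_)
    unfold PathA_D; ring
  · refine (h.c4 w u v h1 h2).trans (le_of_eq ?_)
    unfold PathA_D; ring

theorem PathA_Dneg {n : ℕ} {ε : ℝ} {pos : Fin n → ℕ} {X Y : Fin n → ℝ} (h : Pt n ε pos X Y)
    {u v w : Fin n} (hc : (pos v < pos u ∧ pos u < pos w) ∨ (pos u < pos w ∧ pos w < pos v) ∨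
      (pos w < pos v ∧ pos v < pos u)) : PathA_D X Y u v w ≤ -(1 / (n : ℝ) ^ 3) := by
  have h1 := PathA_Dpos h hc
  have h2 : PathA_D X Y u v w = - PathA_D X Y v u w := by unfold PathA_D; ring
  linarith

theorem PathA_Dsq {n : ℕ} {ε : ℝ} {pos : Fin n → ℕ} {X Y : Fin n → ℝ} (h : Pt n ε pos X Y)
    (hinj : Function.Injective pos) {u v w : Fin n} (huv : u ≠ v) (huw : u ≠ w) (hvw : v ≠ w) :
    (1 / (n : ℝ) ^ 3) ^ 2 ≤ PathA_D X Y u v w ^ 2 := by
  have h0 : 0 ≤ 1 / (n : ℝ) ^ 3 := by positivity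
  have h1 : pos u ≠ pos v := fun hh => huv (hinj hh)
  have h2 : pos u ≠ pos w := fun hh => huw (hinj hh)
  have h3 : pos v ≠ pos w := fun hh => hvw (hinj hh)
  have h4 : ((pos u < pos v ∧ pos v < pos w) ∨ (pos v < pos w ∧ pos w < pos u) ∨
      (pos w < pos u ∧ pos u < pos v)) ∨ ((pos v < pos u ∧ pos u < pos w) ∨
      (pos u < pos w ∧ pos w < pos v) ∨ (pos w < pos v ∧ pos v < pos u)) := by omega
  rcases h4 with h4 | h4
  · have := PathA_Dpos h h4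
    nlinarith
  · have := PathA_Dneg h h4
    nlinarith

/-- facts about one chord -/
structure PathA_Ch (n : ℕ) (ax ay bx bz ε ρ L : ℝ) (k : ℕ) : Prop where
  n1 : 1 ≤ (n : ℝ)
  eps : ε = 1 / (4 * (n : ℝ) ^ 3)
  Lsq : L ^ 2 = (ax - bx) ^ 2 + (ay - bz) ^ 2
  L1 : 1 / (n : ℝ) ≤ L
  L2 : L ≤ 17 / 8
  ρ0 : 0 < ρ
  ρ1 : ρ ≤ 1 / (70 * (n : ℝ) ^ 6)
  eq : (k - 1) * Real.sqrt 2 * ρ + 2 * Real.sqrt (ε ^ 2 + ρ ^ 2) = L

theorem PathA_ch {n m k : ℕ} {a b : Fin m → Fin n} {pos : Fin n → ℕ} {X Y : Fin n → ℝ} {ε : ℝ}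
    {R : Fin m → ℝ} (hn : 1 ≤ n) (hk : (n + 2) ^ 8 ≤ k) (hab : ∀ e, a e ≠ b e)
    (hε : ε = 1 / (4 * (n : ℝ) ^ 3)) (hP : Pt n ε pos X Y)
    (hR : ∀ e, 0 < R e ∧ (k - 1) * Real.sqrt 2 * R e + 2 * Real.sqrt (ε ^ 2 + R e ^ 2) =
      len a b X Y e) (e : Fin m) :
    PathA_Ch n (X (a e)) (Y (a e)) (X (b e)) (Y (b e)) ε (R e) (len a b X Y e) k := by
  have hn' : (1 : ℝ) ≤ n := by exact_mod_cast hn
  have hn6 : (1 : ℝ) ≤ (n : ℝ) ^ 6 := one_le_pow₀ hn'
  have hLsq : len a b X Y e ^ 2 = (X (a e) - X (b e)) ^ 2 + (Y (a e) - Y (b e)) ^ 2 :=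
    Real.sq_sqrt (by positivity)
  have hL0 : 0 ≤ len a b X Y e := Real.sqrt_nonneg _
  have h3 := hP.c3 _ _ (hab e)
  rw [← hLsq] at h3
  have hL1 : 1 / (n : ℝ) ≤ len a b X Y e := by
    have := sq_le_sq.1 h3.1
    rwa [abs_of_nonneg hL0, abs_of_nonneg (by positivity)] at this
  have hL2 : len a b X Y e ≤ 17 / 8 := by
    have := sq_le_sq.1 h3.2
    rwa [abs_of_nonneg hL0, abs_of_nonneg (by norm_num)] at this
  refine ⟨hn', hε, hLsq, hL1, hL2, (hR e).1, ?_, (hR e).2⟩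
  have hρ := (hR e).1
  have heq := (hR e).2
  have hs : 0 ≤ Real.sqrt (ε ^ 2 + R e ^ 2) := Real.sqrt_nonneg _
  have h2 : (1.4 : ℝ) ≤ Real.sqrt 2 := Real.le_sqrt_of_sq_le (by norm_num)
  have hk' : 112 * (n : ℝ) ^ 6 + 256 ≤ k := by
    have h4 : 112 * n ^ 6 + 256 ≤ (n + 2) ^ 8 := by
      have : (n + 2) ^ 8 = 112 * n ^ 6 + 256 + (n ^ 8 + 16 * n ^ 7 + 448 * n ^ 5 + 1120 * n ^ 4 +
        1792 * n ^ 3 + 1792 * n ^ 2 + 1024 * n) := by ring
      omega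
    exact_mod_cast h4.trans hk
  rw [le_div_iff₀ (by positivity)]
  have h5 : (112 * (n : ℝ) ^ 6) * (1.4 * R e) ≤ (k - 1) * (Real.sqrt 2 * R e) :=
    mul_le_mul (by linarith) (mul_le_mul_of_nonneg_right h2 hρ.le) (by positivity) (by linarith)
  nlinarith

namespace PathA_Ch

variable {n : ℕ} {ax ay bx bz ε ρ L : ℝ} {k : ℕ}

theorem Lpos (h : PathA_Ch n ax ay bx bz ε ρ L k) : 0 < L :=
  lt_of_lt_of_le (by have := h.n1; positivity) h.L1

theorem ε0 (h : PathA_Ch n ax ay bx bz ε ρ L k) : 0 < ε := by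
  rw [h.eps]; have := h.n1; positivity

theorem s1 (h : PathA_Ch n ax ay bx bz ε ρ L k) : ε ≤ Real.sqrt (ε ^ 2 + ρ ^ 2) :=
  Real.le_sqrt_of_sq_le (by nlinarith [h.ρ0])

theorem s2 (h : PathA_Ch n ax ay bx bz ε ρ L k) : Real.sqrt (ε ^ 2 + ρ ^ 2) ≤ ε + ρ := by
  have h1 := h.ρ0
  have h2 := h.ε0
  exact Real.sqrt_le_iff.2 ⟨by linarith, by nlinarith⟩

theorem t1 (h : PathA_Ch n ax ay bx bz ε ρ L k) (i : ℕ) :
    Real.sqrt (ε ^ 2 + ρ ^ 2) ≤ tt ε ρ i := by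
  unfold tt
  have := h.ρ0
  have : 0 ≤ Real.sqrt 2 * ρ * i := by positivity
  linarith

theorem Lt (h : PathA_Ch n ax ay bx bz ε ρ L k) (i : ℕ) :
    L - tt ε ρ i = Real.sqrt (ε ^ 2 + ρ ^ 2) + Real.sqrt 2 * ρ * ((k : ℝ) - 1 - i) := by
  unfold tt
  rw [← h.eq]
  ring

theorem t2 (h : PathA_Ch n ax ay bx bz ε ρ L k) {i : ℕ} (hi : i < k) :
    Real.sqrt (ε ^ 2 + ρ ^ 2) ≤ L - tt ε ρ i := by
  rw [h.Lt]
  have := h.ρ0
  have h1 : (i : ℝ) + 1 ≤ k := by exact_mod_cast hi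
  have : 0 ≤ Real.sqrt 2 * ρ * ((k : ℝ) - 1 - i) := mul_nonneg (by positivity) (by linarith)
  linarith

theorem l1 (h : PathA_Ch n ax ay bx bz ε ρ L k) (i : ℕ) : ε / L ≤ tt ε ρ i / L :=
  div_le_div_of_nonneg_right (h.s1.trans (h.t1 i)) h.Lpos.le

theorem l2 (h : PathA_Ch n ax ay bx bz ε ρ L k) {i : ℕ} (hi : i < k) :
    ε / L ≤ 1 - tt ε ρ i / L := by
  have h1 := h.s1.trans (h.t2 hi)
  have h2 : 1 - tt ε ρ i / L = (L - tt ε ρ i) / L := by
    rw [sub_div, div_self h.Lpos.ne']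
  rw [h2]
  exact div_le_div_of_nonneg_right h1 h.Lpos.le

theorem distA (h : PathA_Ch n ax ay bx bz ε ρ L k) (i : ℕ) :
    (ax - (ax + (bx - ax) * (tt ε ρ i / L))) ^ 2 + (ay - (ay + (bz - ay) * (tt ε ρ i / L))) ^ 2 =
      tt ε ρ i ^ 2 := by
  have h1 : (ax - (ax + (bx - ax) * (tt ε ρ i / L))) ^ 2 +
      (ay - (ay + (bz - ay) * (tt ε ρ i / L))) ^ 2 =
      ((ax - bx) ^ 2 + (ay - bz) ^ 2) * (tt ε ρ i / L) ^ 2 := by ring
  have := h.Lpos.ne'
  rw [h1, ← h.Lsq]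
  field_simp

theorem distB (h : PathA_Ch n ax ay bx bz ε ρ L k) (i : ℕ) :
    (bx - (ax + (bx - ax) * (tt ε ρ i / L))) ^ 2 + (bz - (ay + (bz - ay) * (tt ε ρ i / L))) ^ 2 =
      (L - tt ε ρ i) ^ 2 := by
  have h1 : (bx - (ax + (bx - ax) * (tt ε ρ i / L))) ^ 2 +
      (bz - (ay + (bz - ay) * (tt ε ρ i / L))) ^ 2 =
      ((ax - bx) ^ 2 + (ay - bz) ^ 2) * (1 - tt ε ρ i / L) ^ 2 := by ring
  have := h.Lpos.ne'
  rw [h1, ← h.Lsq]
  field_simp

theorem distC (h : PathA_Ch n ax ay bx bz ε ρ L k) (i j : ℕ) :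
    ((ax + (bx - ax) * (tt ε ρ i / L)) - (ax + (bx - ax) * (tt ε ρ j / L))) ^ 2 +
      ((ay + (bz - ay) * (tt ε ρ i / L)) - (ay + (bz - ay) * (tt ε ρ j / L))) ^ 2 =
      2 * ρ ^ 2 * ((i : ℝ) - j) ^ 2 := by
  have h1 : ((ax + (bx - ax) * (tt ε ρ i / L)) - (ax + (bx - ax) * (tt ε ρ j / L))) ^ 2 +
      ((ay + (bz - ay) * (tt ε ρ i / L)) - (ay + (bz - ay) * (tt ε ρ j / L))) ^ 2 =
      ((ax - bx) ^ 2 + (ay - bz) ^ 2) * ((tt ε ρ i - tt ε ρ j) / L) ^ 2 := by ring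
  have h2 := h.Lpos.ne'
  have h3 : tt ε ρ i - tt ε ρ j = Real.sqrt 2 * ρ * ((i : ℝ) - j) := by unfold tt; ring
  have h4 : Real.sqrt 2 ^ 2 = 2 := Real.sq_sqrt (by norm_num)
  rw [h1, ← h.Lsq, div_pow, mul_div_cancel₀ _ (pow_ne_zero 2 h2), h3, mul_pow, mul_pow, h4]

theorem normC (h : PathA_Ch n ax ay bx bz ε ρ L k) (hA : ax ^ 2 + ay ^ 2 = 1 + ε ^ 2)
    (hB : bx ^ 2 + bz ^ 2 = 1 + ε ^ 2) (i : ℕ) :
    (ax + (bx - ax) * (tt ε ρ i / L)) ^ 2 + (ay + (bz - ay) * (tt ε ρ i / L)) ^ 2 =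
      1 + ε ^ 2 - tt ε ρ i * (L - tt ε ρ i) := by
  have h1 : (ax + (bx - ax) * (tt ε ρ i / L)) ^ 2 + (ay + (bz - ay) * (tt ε ρ i / L)) ^ 2 =
      (1 - tt ε ρ i / L) * (ax ^ 2 + ay ^ 2) + (tt ε ρ i / L) * (bx ^ 2 + bz ^ 2) -
      (tt ε ρ i / L) * (1 - tt ε ρ i / L) * ((ax - bx) ^ 2 + (ay - bz) ^ 2) := by ring
  have h2 := h.Lpos.ne'
  rw [h1, hA, hB, ← h.Lsq]
  field_simp
  ring

end PathA_Ch

/-- a point far from a line -/
theorem PathA_line {ax ay bx bz vx vy L s δ : ℝ} (hL : 0 < L)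
    (hLsq : L ^ 2 = (ax - bx) ^ 2 + (ay - bz) ^ 2)
    (hδ : δ ^ 2 ≤ ((bx - ax) * (vy - ay) - (bz - ay) * (vx - ax)) ^ 2) :
    (δ / L) ^ 2 ≤ (vx - (ax + (bx - ax) * s)) ^ 2 + (vy - (ay + (bz - ay) * s)) ^ 2 := by
  rw [div_pow, div_le_iff₀ (by positivity), hLsq]
  refine hδ.trans ?_
  have h1 : (bx - ax) * (vy - ay) - (bz - ay) * (vx - ax) =
    (bx - ax) * (vy - (ay + (bz - ay) * s)) - (bz - ay) * (vx - (ax + (bx - ax) * s)) := by ring
  rw [h1]
  nlinarith [sq_nonneg ((bx - ax) * (vx - (ax + (bx - ax) * s)) +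
    (bz - ay) * (vy - (ay + (bz - ay) * s)))]

theorem PathA_main : StPathA := by
  intro n m k a b pos X Y ε R hn hk hab hinj hε hP hR
  have ch := PathA_ch hn hk hab hε hP hR
  have hn' : (1 : ℝ) ≤ n := by exact_mod_cast hn
  have hn3 : (1 : ℝ) ≤ (n : ℝ) ^ 3 := one_le_pow₀ hn'
  have hε0 : 0 < ε := by rw [hε]; positivity
  refine ⟨hε0, fun e => (hR e).1, hP.c1, ?_, ?_, ?_, ?_, ?_, ?_, ?_⟩
  · -- ss
    intro v w hvw
    refine lt_of_lt_of_le ?_ (hP.c3 v w hvw).1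
    have h1 : 2 * ε < 1 / (n : ℝ) := by
      rw [hε, lt_div_iff₀ (by positivity)]
      have : 2 * (1 / (4 * (n : ℝ) ^ 3)) * n = 1 / (2 * (n : ℝ) ^ 2) := by
        field_simp; ring
      rw [this, div_lt_one (by positivity)]
      nlinarith
    exact pow_lt_pow_left₀ h1 (by positivity) (by norm_num)
  · -- ins
    intro e i
    have c := ch e
    have hρ0 := c.ρ0
    have hL1 := c.L1
    have hn6 : (1 : ℝ) ≤ (n : ℝ) ^ 6 := one_le_pow₀ hn'
    have hρs : R e ≤ 1 / 70 := c.ρ1.trans (by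
      rw [div_le_div_iff₀ (by positivity) (by norm_num)]; linarith)
    refine ⟨?_, by linarith, ?_⟩
    · show (ctr a b X Y ε R X e i) ^ 2 + (ctr a b X Y ε R Y e i) ^ 2 < _
      unfold ctr
      rw [c.normC (hP.c1 _) (hP.c1 _) i]
      set t := tt ε (R e) i with ht
      set s := Real.sqrt (ε ^ 2 + R e ^ 2) with hs
      have e1 : s ≤ t := c.t1 i
      have e2 : s ≤ len a b X Y e - t := c.t2 i.2
      have e3 : ε ≤ s := c.s1
      have e4 : s ≤ ε + R e := c.s2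
      have e5 : ε * (1 / (n : ℝ) - ε - R e) ≤ t * (len a b X Y e - t) := by
        have e6 : s * (len a b X Y e - s) ≤ t * (len a b X Y e - t) := by nlinarith
        have e7 : ε * (1 / (n : ℝ) - ε - R e) ≤ s * (len a b X Y e - s) := by
          have : ε * (1 / (n : ℝ) - ε - R e) ≤ ε * (len a b X Y e - s) :=
            mul_le_mul_of_nonneg_left (by linarith) hε0.le
          refine this.trans (mul_le_mul_of_nonneg_right e3 ?_)
          linarith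
        exact e7.trans e6
      have e8 : ε ^ 2 + 2 * R e < ε * (1 / (n : ℝ) - ε - R e) := by
        have f1 := c.ρ1
        have f2 : ε * (1 / (n : ℝ)) = 1 / (4 * (n : ℝ) ^ 4) := by
          rw [hε]; field_simp
        have f3 : ε ^ 2 = 1 / (16 * (n : ℝ) ^ 6) := by
          rw [hε]; field_simp; norm_num
        have f4 : ε ≤ 1 / 4 := by
          rw [hε, div_le_div_iff₀ (by positivity) (by norm_num)]; linarith
        have f5 : 1 / (4 * (n : ℝ) ^ 6) ≤ 1 / (4 * (n : ℝ) ^ 4) := by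
          rw [div_le_div_iff₀ (by positivity) (by positivity)]
          have : (n : ℝ) ^ 4 ≤ (n : ℝ) ^ 6 := pow_le_pow_right₀ hn' (by norm_num)
          linarith
        have f6 : ε * R e ≤ 1 / 4 * R e := mul_le_mul_of_nonneg_right f4 hρ0.le
        have f7 : 1 / (16 * (n : ℝ) ^ 6) = (1 / 16) * (1 / (n : ℝ) ^ 6) := by
          field_simp
        have f8 : 1 / (70 * (n : ℝ) ^ 6) = (1 / 70) * (1 / (n : ℝ) ^ 6) := by
          field_simp
        have f9 : 1 / (4 * (n : ℝ) ^ 6) = (1 / 4) * (1 / (n : ℝ) ^ 6) := by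
          field_simp
        have f10 : 0 < 1 / (n : ℝ) ^ 6 := by positivity
        rw [f8] at f1
        rw [f7] at f3
        rw [f9] at f5
        nlinarith
      nlinarith [sq_nonneg (R e)]
    · show _ < (ctr a b X Y ε R X e i) ^ 2 + (ctr a b X Y ε R Y e i) ^ 2
      unfold ctr
      set l := tt ε (R e) i / len a b X Y e with hl
      have g1 : 0 ≤ l := le_trans (div_nonneg hε0.le c.Lpos.le) (c.l1 i)
      have g2 : 0 ≤ 1 - l := le_trans (div_nonneg hε0.le c.Lpos.le) (c.l2 i.2)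
      have g3 := (hP.c2 (a e)).2.2
      have g4 := (hP.c2 (b e)).2.2
      have g5 : 1 ≤ (X (a e) + (X (b e) - X (a e)) * l) + (Y (a e) + (Y (b e) - Y (a e)) * l) := by
        have : (X (a e) + (X (b e) - X (a e)) * l) + (Y (a e) + (Y (b e) - Y (a e)) * l) =
          (1 - l) * (X (a e) + Y (a e)) + l * (X (b e) + Y (b e)) := by ring
        rw [this]
        nlinarith
      nlinarith [sq_nonneg ((X (a e) + (X (b e) - X (a e)) * l) -
        (Y (a e) + (Y (b e) - Y (a e)) * l))]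
  · -- fst
    intro e i hi
    have c := ch e
    unfold ctr
    rw [c.distA i, hi]
    unfold tt
    rw [Nat.cast_zero, mul_zero, add_zero, Real.sq_sqrt (by positivity)]
  · -- lst
    intro e i hi
    have c := ch e
    unfold ctr
    rw [c.distB i, c.Lt]
    have : (k : ℝ) - 1 - i.1 = 0 := by
      have : (i.1 : ℝ) + 1 = k := by exact_mod_cast hi
      linarith
    rw [this, mul_zero, add_zero, Real.sq_sqrt (by positivity)]
  · -- sc
    intro v e i h1 h2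
    have c := ch e
    have hρ0 := c.ρ0
    have hsq2 : (1 : ℝ) < Real.sqrt 2 := by
      rw [Real.lt_sqrt (by norm_num)]; norm_num
    by_cases hva : v = a e
    · have hi : 1 ≤ i.1 := by
        by_contra hcon
        exact h1 ⟨hva, by omega⟩
      subst hva
      unfold ctr
      rw [c.distA i]
      refine pow_lt_pow_left₀ ?_ (by positivity) (by norm_num)
      have h3 := c.s1
      unfold tt
      have h4 : (1 : ℝ) ≤ i.1 := by exact_mod_cast hi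
      have h5 : Real.sqrt 2 * R e * 1 ≤ Real.sqrt 2 * R e * i.1 :=
        mul_le_mul_of_nonneg_left h4 (by positivity)
      nlinarith
    · by_cases hvb : v = b e
      · have hi : i.1 + 2 ≤ k := by
          have := i.2
          by_contra hcon
          exact h2 ⟨hvb, by omega⟩
        subst hvb
        unfold ctr
        rw [c.distB i, c.Lt]
        refine pow_lt_pow_left₀ ?_ (by positivity) (by norm_num)
        have h3 := c.s1
        have h4 : (i.1 : ℝ) + 2 ≤ k := by exact_mod_cast hi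
        have h5 : Real.sqrt 2 * R e * 1 ≤ Real.sqrt 2 * R e * ((k : ℝ) - 1 - i.1) :=
          mul_le_mul_of_nonneg_left (by linarith) (by positivity)
        nlinarith
      · have h3 := PathA_Dsq hP hinj (hab e) (Ne.symm hva) (Ne.symm hvb)
        unfold PathA_D at h3
        have h4 := PathA_line (s := tt ε (R e) i / len a b X Y e) c.Lpos c.Lsq h3
        unfold ctr
        refine lt_of_lt_of_le ?_ h4
        refine pow_lt_pow_left₀ ?_ (by positivity) (by norm_num)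
        rw [lt_div_iff₀ c.Lpos]
        have f1 := c.ρ1
        have f2 : 1 / (70 * (n : ℝ) ^ 6) ≤ 1 / 70 * (1 / (n : ℝ) ^ 3) := by
          rw [div_mul_div_comm, div_le_div_iff₀ (by positivity) (by positivity)]
          have : (n : ℝ) ^ 3 ≤ (n : ℝ) ^ 6 := pow_le_pow_right₀ hn' (by norm_num)
          linarith
        have f3 : ε = 1 / 4 * (1 / (n : ℝ) ^ 3) := by
          rw [hε]; field_simp
        have f4 : 0 < 1 / (n : ℝ) ^ 3 := by positivity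
        have f5 := c.L2
        have f6 := c.Lpos
        have f7 : ε + R e ≤ 37 / 140 * (1 / (n : ℝ) ^ 3) := by linarith
        calc (ε + R e) * len a b X Y e ≤ (37 / 140 * (1 / (n : ℝ) ^ 3)) * (17 / 8) :=
              mul_le_mul f7 f5 f6.le (by positivity)
          _ < 1 / (n : ℝ) ^ 3 := by linarith
  · -- cons
    intro e i j hij
    have c := ch e
    unfold ctr
    rw [c.distC i j]
    have : ((i.1 : ℝ) - j.1) = -1 := by
      rw [← hij]; push_cast; ring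
    rw [this]; ring
  · -- far
    intro e i j hij
    have c := ch e
    have hρ0 := c.ρ0
    unfold ctr
    rw [c.distC i j]
    have h1 : (i.1 : ℝ) + 2 ≤ j.1 := by exact_mod_cast hij
    have h2 : (4 : ℝ) ≤ ((i.1 : ℝ) - j.1) ^ 2 := by nlinarith
    have h3 : 0 < R e ^ 2 := by positivity
    nlinarith

end Pool.Agent.Helper79.OC
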