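import Pool.Agent.Helper79.OC.PathA

/-!
# MP_8ec342_lc, module PathB: two paths do not meet
-/

set_option autoImplicit false

namespace Pool.Agent.Helper79.OC

/-- two chords with a common end -/
theorem PathB_one {n : ℕ} (hn : (1 : ℝ) ≤ n) {px py qx qy wx wy L1 L2 s s' ρ₁ ρ₂ : ℝ}
    (hL1 : 0 < L1) (hL2 : 0 < L2) (hL1' : L1 ≤ 17 / 8) (hL2' : L2 ≤ 17 / 8)
    (hsq : L1 ^ 2 = (px - qx) ^ 2 + (py - qy) ^ 2)
    (hD : (1 / (n : ℝ) ^ 3) ^ 2 ≤ ((qx - px) * (wy - py) - (qy - py) * (wx - px)) ^ 2)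
    (hs : 1 / (4 * (n : ℝ) ^ 3) / L2 ≤ s')
    (h1 : 0 < ρ₁) (h2 : 0 < ρ₂) (h1' : ρ₁ ≤ 1 / (70 * (n : ℝ) ^ 6))
    (h2' : ρ₂ ≤ 1 / (70 * (n : ℝ) ^ 6)) :
    (ρ₁ + ρ₂) ^ 2 < ((px + (qx - px) * s) - (px + (wx - px) * s')) ^ 2 +
      ((py + (qy - py) * s) - (py + (wy - py) * s')) ^ 2 := by
  have hN : 0 < 1 / (n : ℝ) ^ 3 := by positivity
  have hδ : 0 < 1 / (4 * (n : ℝ) ^ 3) / L2 * (1 / (n : ℝ) ^ 3) := by positivity
  have h3 := PathA_line (vx := px + (wx - px) * s') (vy := py + (wy - py) * s') (s := s)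
    (δ := 1 / (4 * (n : ℝ) ^ 3) / L2 * (1 / (n : ℝ) ^ 3)) hL1 hsq (by
      have e : (qx - px) * ((py + (wy - py) * s') - py) - (qy - py) * ((px + (wx - px) * s') - px) =
        s' * ((qx - px) * (wy - py) - (qy - py) * (wx - px)) := by ring
      rw [e, mul_pow, mul_pow]
      exact mul_le_mul (pow_le_pow_left₀ (by positivity) hs 2) hD (by positivity) (by positivity))
  have h4 : ((px + (qx - px) * s) - (px + (wx - px) * s')) ^ 2 +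
      ((py + (qy - py) * s) - (py + (wy - py) * s')) ^ 2 =
      ((px + (wx - px) * s') - (px + (qx - px) * s)) ^ 2 +
      ((py + (wy - py) * s') - (py + (qy - py) * s)) ^ 2 := by ring
  rw [h4]
  refine lt_of_lt_of_le ?_ h3
  refine pow_lt_pow_left₀ ?_ (by positivity) (by norm_num)
  rw [lt_div_iff₀ hL1, div_mul_eq_mul_div, lt_div_iff₀ hL2]
  have e1 : 1 / (4 * (n : ℝ) ^ 3) * (1 / (n : ℝ) ^ 3) = 1 / 4 * (1 / (n : ℝ) ^ 6) := by
    field_simp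
  have e2 : 1 / (70 * (n : ℝ) ^ 6) = 1 / 70 * (1 / (n : ℝ) ^ 6) := by field_simp
  rw [e1]
  rw [e2] at h1' h2'
  have e3 : 0 < 1 / (n : ℝ) ^ 6 := by positivity
  calc (ρ₁ + ρ₂) * L1 * L2 ≤ (1 / 35 * (1 / (n : ℝ) ^ 6)) * (17 / 8) * (17 / 8) := by
        refine mul_le_mul (mul_le_mul (by linarith) hL1' hL1.le (by positivity)) hL2' hL2.le
          (by positivity)
    _ < 1 / 4 * (1 / (n : ℝ) ^ 6) := by linarith

/-- the cyclic order -/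
def PathB_C (a b c : ℕ) : Prop := (a < b ∧ b < c) ∨ (b < c ∧ c < a) ∨ (c < a ∧ a < b)

theorem PathB_ord {a b c d : ℕ} (p1 : a ≠ c) (p2 : a ≠ d) (p3 : b ≠ c) (p4 : b ≠ d) (p5 : a ≠ b)
    (n1 : ¬ (a < c ∧ c < b ∧ b < d)) (n1' : ¬ (c < a ∧ a < d ∧ d < b))
    (n2 : ¬ (a < d ∧ d < b ∧ b < c)) (n2' : ¬ (d < a ∧ a < c ∧ c < b))
    (n3 : ¬ (b < c ∧ c < a ∧ a < d)) (n3' : ¬ (c < b ∧ b < d ∧ d < a))
    (n4 : ¬ (b < d ∧ d < a ∧ a < c)) (n4' : ¬ (d < b ∧ b < c ∧ c < a)) :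
    (PathB_C a b c ∧ PathB_C a b d) ∨ (PathB_C b a c ∧ PathB_C b a d) := by
  rcases lt_or_gt_of_ne p1 with h1 | h1 <;> rcases lt_or_gt_of_ne p2 with h2 | h2 <;>
  rcases lt_or_gt_of_ne p3 with h3 | h3 <;> rcases lt_or_gt_of_ne p4 with h4 | h4 <;>
  rcases lt_or_gt_of_ne p5 with h5 | h5 <;> unfold PathB_C <;>
  first
  | exact (n1 ⟨h1, h3, h4⟩).elim
  | exact (n1' ⟨h1, h2, h4⟩).elim
  | exact (n2 ⟨h2, h4, h3⟩).elim
  | exact (n2' ⟨h2, h1, h3⟩).elim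
  | exact (n3 ⟨h3, h1, h2⟩).elim
  | exact (n3' ⟨h3, h4, h2⟩).elim
  | exact (n4 ⟨h4, h2, h1⟩).elim
  | exact (n4' ⟨h4, h3, h1⟩).elim
  | (exfalso; clear n1 n1' n2 n2' n3 n3' n4 n4'; omega)
  | (clear n1 n1' n2 n2' n3 n3' n4 n4'; left; exact ⟨by omega, by omega⟩)
  | (clear n1 n1' n2 n2' n3 n3' n4 n4'; right; exact ⟨by omega, by omega⟩)

theorem PathB_main : StPathB := by
  intro n m k a b pos X Y ε R hn hk hab hinj hε hP hR e f hne1 hne2 hna i j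
  have ch := PathA_ch hn hk hab hε hP hR
  have hn' : (1 : ℝ) ≤ n := by exact_mod_cast hn
  have ce := ch e
  have cf := ch f
  have hle1 := ce.l1 i
  have hle2 := ce.l2 i.2
  have hlf1 := cf.l1 j
  have hlf2 := cf.l2 j.2
  unfold ctr
  obtain ⟨l, hl⟩ : ∃ l, l = tt ε (R e) i / len a b X Y e := ⟨_, rfl⟩
  obtain ⟨l', hl'⟩ : ∃ l', l' = tt ε (R f) j / len a b X Y f := ⟨_, rfl⟩
  rw [← hl] at hle1 hle2 ⊢
  rw [← hl'] at hlf1 hlf2 ⊢
  have hε0 := ce.ε0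
  rw [ce.eps] at hle1 hle2 hlf1 hlf2
  -- the four possibilities for a common end
  have key : ∀ (p q w : Fin n) (s s' : ℝ), p ≠ q → p ≠ w → q ≠ w →
      len a b X Y e ^ 2 = (X p - X q) ^ 2 + (Y p - Y q) ^ 2 →
      1 / (4 * (n : ℝ) ^ 3) / len a b X Y f ≤ s' →
      (R e + R f) ^ 2 < ((X p + (X q - X p) * s) - (X p + (X w - X p) * s')) ^ 2 +
      ((Y p + (Y q - Y p) * s) - (Y p + (Y w - Y p) * s')) ^ 2 := by
    intro p q w s s' h1 h2 h3 h4 h5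
    exact PathB_one hn' ce.Lpos cf.Lpos ce.L2 cf.L2 h4 (PathA_Dsq hP hinj h1 h2 h3) h5 ce.ρ0 cf.ρ0
      ce.ρ1 cf.ρ1
  have hLsq' : len a b X Y e ^ 2 = (X (b e) - X (a e)) ^ 2 + (Y (b e) - Y (a e)) ^ 2 := by
    rw [ce.Lsq]; ring
  have flip : ∀ u v t : ℝ, u + (v - u) * t = v + (u - v) * (1 - t) := fun u v t => by ring
  by_cases h1 : a e = a f
  · have h2 : b e ≠ b f := fun h => hne1 ⟨h1, h⟩
    have h3 : a e ≠ b f := h1 ▸ hab f
    rw [← h1]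
    exact key (a e) (b e) (b f) l l' (hab e) h3 h2 ce.Lsq hlf1
  by_cases h2 : a e = b f
  · have h3 : b e ≠ a f := fun h => hne2 ⟨h2, h⟩
    rw [← h2, flip (X (a f)), flip (Y (a f))]
    exact key (a e) (b e) (a f) l (1 - l') (hab e) h1 h3 ce.Lsq hlf2
  by_cases h3 : b e = a f
  · have h4 : b e ≠ b f := h3 ▸ hab f
    rw [← h3, flip (X (a e)), flip (Y (a e))]
    exact key (b e) (a e) (b f) (1 - l) l' (hab e).symm h4 h2 hLsq' hlf1
  by_cases h4 : b e = b f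
  · rw [← h4, flip (X (a e)), flip (Y (a e)), flip (X (a f)), flip (Y (a f))]
    exact key (b e) (a e) (a f) (1 - l) (1 - l') (hab e).symm h3 h1 hLsq' hlf2
  -- four different ends
  have p1 : pos (a e) ≠ pos (a f) := fun h => h1 (hinj h)
  have p2 : pos (a e) ≠ pos (b f) := fun h => h2 (hinj h)
  have p3 : pos (b e) ≠ pos (a f) := fun h => h3 (hinj h)
  have p4 : pos (b e) ≠ pos (b f) := fun h => h4 (hinj h)
  have p5 : pos (a e) ≠ pos (b e) := fun h => hab e (hinj h)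
  have n1 := hna (a e) (b e) (a f) (b f) (Or.inl ⟨rfl, rfl⟩) (Or.inl ⟨rfl, rfl⟩)
  have n2 := hna (a e) (b e) (b f) (a f) (Or.inl ⟨rfl, rfl⟩) (Or.inr ⟨rfl, rfl⟩)
  have n3 := hna (b e) (a e) (a f) (b f) (Or.inr ⟨rfl, rfl⟩) (Or.inl ⟨rfl, rfl⟩)
  have n4 := hna (b e) (a e) (b f) (a f) (Or.inr ⟨rfl, rfl⟩) (Or.inr ⟨rfl, rfl⟩)
  have hord := PathB_ord p1 p2 p3 p4 p5 n1.1 n1.2 n2.1 n2.2 n3.1 n3.2 n4.1 n4.2
  have hl0 : 0 ≤ l' := le_trans (div_nonneg (by positivity) cf.Lpos.le) hlf1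
  have hl1 : 0 ≤ 1 - l' := le_trans (div_nonneg (by positivity) cf.Lpos.le) hlf2
  have hN : 0 < 1 / (n : ℝ) ^ 3 := by positivity
  have hdet : (1 / (n : ℝ) ^ 3) ^ 2 ≤ ((X (b e) - X (a e)) *
      ((Y (a f) + (Y (b f) - Y (a f)) * l') - Y (a e)) - (Y (b e) - Y (a e)) *
      ((X (a f) + (X (b f) - X (a f)) * l') - X (a e))) ^ 2 := by
    have e1 : (X (b e) - X (a e)) *
      ((Y (a f) + (Y (b f) - Y (a f)) * l') - Y (a e)) - (Y (b e) - Y (a e)) *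
      ((X (a f) + (X (b f) - X (a f)) * l') - X (a e)) =
      (1 - l') * PathA_D X Y (a e) (b e) (a f) + l' * PathA_D X Y (a e) (b e) (b f) := by
      unfold PathA_D; ring
    rw [e1]
    rcases hord with ⟨h5, h6⟩ | ⟨h5, h6⟩
    · have h7 := PathA_Dpos hP h5
      have h8 := PathA_Dpos hP h6
      have h9 : 1 / (n : ℝ) ^ 3 ≤ (1 - l') * PathA_D X Y (a e) (b e) (a f) +
          l' * PathA_D X Y (a e) (b e) (b f) := by
        have h10 := mul_le_mul_of_nonneg_left h7 hl1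
        have h11 := mul_le_mul_of_nonneg_left h8 hl0
        linarith
      exact pow_le_pow_left₀ hN.le h9 2
    · have h7 := PathA_Dneg hP h5
      have h8 := PathA_Dneg hP h6
      have h9 : 1 / (n : ℝ) ^ 3 ≤ -((1 - l') * PathA_D X Y (a e) (b e) (a f) +
          l' * PathA_D X Y (a e) (b e) (b f)) := by
        have h10 := mul_le_mul_of_nonneg_left h7 hl1
        have h11 := mul_le_mul_of_nonneg_left h8 hl0
        linarith
      have h12 := pow_le_pow_left₀ hN.le h9 2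
      rwa [neg_sq] at h12
  have hfin := PathA_line (s := l) ce.Lpos ce.Lsq hdet
  have hsym : (X (a e) + (X (b e) - X (a e)) * l - (X (a f) + (X (b f) - X (a f)) * l')) ^ 2 +
      (Y (a e) + (Y (b e) - Y (a e)) * l - (Y (a f) + (Y (b f) - Y (a f)) * l')) ^ 2 =
      (X (a f) + (X (b f) - X (a f)) * l' - (X (a e) + (X (b e) - X (a e)) * l)) ^ 2 +
      (Y (a f) + (Y (b f) - Y (a f)) * l' - (Y (a e) + (Y (b e) - Y (a e)) * l)) ^ 2 := by ring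
  rw [hsym]
  refine lt_of_lt_of_le ?_ hfin
  have hρ1 := ce.ρ0
  have hρ2 := cf.ρ0
  have hρ3 := ce.ρ1
  have hρ4 := cf.ρ1
  refine pow_lt_pow_left₀ ?_ (by positivity) (by norm_num)
  rw [lt_div_iff₀ ce.Lpos]
  have e2 : 1 / (70 * (n : ℝ) ^ 6) ≤ 1 / 70 * (1 / (n : ℝ) ^ 3) := by
    rw [div_mul_div_comm, div_le_div_iff₀ (by positivity) (by positivity)]
    have : (n : ℝ) ^ 3 ≤ (n : ℝ) ^ 6 := pow_le_pow_right₀ hn' (by norm_num)
    linarith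
  calc (R e + R f) * len a b X Y e ≤ (1 / 35 * (1 / (n : ℝ) ^ 3)) * (17 / 8) := by
        refine mul_le_mul (by linarith) ce.L2 ce.Lpos.le (by positivity)
    _ < 1 / (n : ℝ) ^ 3 := by linarith

end Pool.Agent.Helper79.OC
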