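import Pool.Agent.Helper79.OC.St

/-!
# MP_8ec342_lc: module Pts, points on a circle
-/

set_option autoImplicit false

namespace Pool.Agent.Helper79.OC

theorem Pts_dist (R s t : ℝ) :
    (R * (1 - s ^ 2) / (1 + s ^ 2) - R * (1 - t ^ 2) / (1 + t ^ 2)) ^ 2 +
      (R * (2 * s) / (1 + s ^ 2) - R * (2 * t) / (1 + t ^ 2)) ^ 2 =
      R ^ 2 * (4 * (s - t) ^ 2) / ((1 + s ^ 2) * (1 + t ^ 2)) := by
  have h1 : 1 + s ^ 2 ≠ 0 := by positivity
  have h2 : 1 + t ^ 2 ≠ 0 := by positivity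
  field_simp
  ring

theorem Pts_det (R r s t : ℝ) :
    (R * (1 - s ^ 2) / (1 + s ^ 2) - R * (1 - r ^ 2) / (1 + r ^ 2)) *
        (R * (2 * t) / (1 + t ^ 2) - R * (2 * r) / (1 + r ^ 2)) -
      (R * (2 * s) / (1 + s ^ 2) - R * (2 * r) / (1 + r ^ 2)) *
        (R * (1 - t ^ 2) / (1 + t ^ 2) - R * (1 - r ^ 2) / (1 + r ^ 2)) =
      R ^ 2 * (4 * ((s - r) * (t - r) * (t - s))) / ((1 + r ^ 2) * (1 + s ^ 2) * (1 + t ^ 2)) := by
  have h1 : 1 + s ^ 2 ≠ 0 := by positivity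
  have h2 : 1 + t ^ 2 ≠ 0 := by positivity
  have h3 : 1 + r ^ 2 ≠ 0 := by positivity
  field_simp
  ring

theorem Pts_main : StPts := by
  intro n ε hn hε hε4
  have hnr : (0 : ℝ) < n := by exact_mod_cast hn
  set R := Real.sqrt (1 + ε ^ 2) with hR
  have hR2 : R ^ 2 = 1 + ε ^ 2 := Real.sq_sqrt (by positivity)
  have hR1 : 1 ≤ R := by
    rw [hR]
    apply Real.le_sqrt_of_sq_le
    nlinarith
  have hR3 : R ^ 2 ≤ 17 / 16 := by
    rw [hR2]
    nlinarith
  have ht0 : ∀ i : ℕ, 0 ≤ (i : ℝ) / n := fun i => by positivity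
  have ht1 : ∀ i : ℕ, i < n → (i : ℝ) / n ≤ 1 := by
    intro i hi
    rw [div_le_one hnr]
    exact_mod_cast hi.le
  have hdiff : ∀ i j : ℕ, i < j → (1 : ℝ) / n ≤ (j : ℝ) / n - (i : ℝ) / n := by
    intro i j hij
    rw [← sub_div]
    apply div_le_div_of_nonneg_right _ hnr.le
    have : (i : ℝ) + 1 ≤ j := by exact_mod_cast hij
    linarith
  refine ⟨fun i => R * (1 - ((i : ℝ) / n) ^ 2) / (1 + ((i : ℝ) / n) ^ 2),
    fun i => R * (2 * ((i : ℝ) / n)) / (1 + ((i : ℝ) / n) ^ 2), ?_, ?_, ?_, ?_⟩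
  · intro i _
    simp only
    generalize (i : ℝ) / n = t
    have h : 1 + t ^ 2 ≠ 0 := by positivity
    rw [← hR2]
    field_simp
    ring
  · intro i hi
    have h0 := ht0 i
    have h1 := ht1 i hi
    simp only
    generalize (i : ℝ) / n = t at h0 h1
    have hp : 0 < 1 + t ^ 2 := by positivity
    have ht2 : t ^ 2 ≤ 1 := by nlinarith
    refine ⟨?_, by positivity, ?_⟩
    · apply div_nonneg _ hp.le
      apply mul_nonneg (by linarith)
      linarith
    · rw [← add_div, le_div_iff₀ hp]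
      nlinarith
  · intro i hi j hj hij
    have h : (1 / (n : ℝ)) ^ 2 ≤ ((i : ℝ) / n - (j : ℝ) / n) ^ 2 := by
      rcases lt_or_gt_of_ne hij with h | h
      · have := hdiff i j h
        have h0 : 0 ≤ 1 / (n : ℝ) := by positivity
        nlinarith
      · have := hdiff j i h
        have h0 : 0 ≤ 1 / (n : ℝ) := by positivity
        nlinarith
    have s0 := ht0 i
    have s1 := ht1 i hi
    have t0 := ht0 j
    have t1 := ht1 j hj
    simp only
    rw [Pts_dist]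
    generalize (1 / (n : ℝ)) ^ 2 = N at h
    generalize (i : ℝ) / n = s at h s0 s1
    generalize (j : ℝ) / n = t at h t0 t1
    have hs2 : s ^ 2 ≤ 1 := by nlinarith
    have ht2 : t ^ 2 ≤ 1 := by nlinarith
    have hp : 0 < (1 + s ^ 2) * (1 + t ^ 2) := by positivity
    have hp4 : (1 + s ^ 2) * (1 + t ^ 2) ≤ 4 := by nlinarith [sq_nonneg s, sq_nonneg t]
    have hp1 : 1 ≤ (1 + s ^ 2) * (1 + t ^ 2) := by nlinarith [sq_nonneg s, sq_nonneg t, mul_nonneg (sq_nonneg s) (sq_nonneg t)]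
    have hst : (s - t) ^ 2 ≤ 1 := by nlinarith
    have hst0 : 0 ≤ (s - t) ^ 2 := sq_nonneg _
    have hR4 : 1 ≤ R ^ 2 := by nlinarith
    constructor
    · rw [le_div_iff₀ hp]
      have h1 : N * ((1 + s ^ 2) * (1 + t ^ 2)) ≤ (s - t) ^ 2 * 4 :=
        mul_le_mul h hp4 hp.le hst0
      nlinarith
    · rw [div_le_iff₀ hp]
      have h1 : R ^ 2 * (4 * (s - t) ^ 2) ≤ 17 / 16 * 4 := by
        have : 4 * (s - t) ^ 2 ≤ 4 := by linarith
        exact mul_le_mul hR3 this (by positivity) (by norm_num)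
      nlinarith
  · intro i hi j hj l hl hij hjl
    have h1 := hdiff i j hij
    have h2 := hdiff j l hjl
    have r0 := ht0 i
    have r1 := ht1 i hi
    have s0 := ht0 j
    have s1 := ht1 j hj
    have t0 := ht0 l
    have t1 := ht1 l hl
    simp only
    rw [Pts_det]
    have hN : 1 / (n : ℝ) ^ 3 = (1 / (n : ℝ)) ^ 3 := by rw [one_div_pow]
    rw [hN]
    have hN0 : 0 < 1 / (n : ℝ) := by positivity
    generalize 1 / (n : ℝ) = N at h1 h2 hN0
    generalize (i : ℝ) / n = r at h1 h2 r0 r1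
    generalize (j : ℝ) / n = s at h1 h2 s0 s1
    generalize (l : ℝ) / n = t at h1 h2 t0 t1
    have hr2 : r ^ 2 ≤ 1 := by nlinarith
    have hs2 : s ^ 2 ≤ 1 := by nlinarith
    have ht2 : t ^ 2 ≤ 1 := by nlinarith
    have hp : 0 < (1 + r ^ 2) * (1 + s ^ 2) * (1 + t ^ 2) := by positivity
    have hp8 : (1 + r ^ 2) * (1 + s ^ 2) * (1 + t ^ 2) ≤ 2 * 2 * 2 := by
      refine mul_le_mul (mul_le_mul ?_ ?_ ?_ ?_) ?_ ?_ ?_
      · linarith
      · linarith
      · positivity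
      · norm_num
      · linarith
      · positivity
      · norm_num
    have hR4 : 1 ≤ R ^ 2 := by nlinarith
    rw [le_div_iff₀ hp]
    have e1 : N * (2 * N) ≤ (s - r) * (t - r) :=
      mul_le_mul h1 (by linarith) (by positivity) (by linarith)
    have e2 : N * (2 * N) * N ≤ (s - r) * (t - r) * (t - s) :=
      mul_le_mul e1 h2 hN0.le (by
        have : 0 ≤ N * (2 * N) := by positivity
        linarith)
    have e3 : N ^ 3 * ((1 + r ^ 2) * (1 + s ^ 2) * (1 + t ^ 2)) ≤ N ^ 3 * (2 * 2 * 2) :=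
      mul_le_mul_of_nonneg_left hp8 (by positivity)
    have e4 : 4 * ((s - r) * (t - r) * (t - s)) ≤
        R ^ 2 * (4 * ((s - r) * (t - r) * (t - s))) := by
      have h0 : 0 ≤ N * (2 * N) * N := by positivity
      have h3 : 0 ≤ 4 * ((s - r) * (t - r) * (t - s)) := by linarith
      exact le_mul_of_one_le_left h3 hR4
    have e5 : N ^ 3 * (2 * 2 * 2) = 4 * (N * (2 * N) * N) := by ring
    linarith

end Pool.Agent.Helper79.OC
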