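import Pool.Agent.Helper79.OC.St

/-!
# MP_8ec342_lc: module ReachC
-/

set_option autoImplicit false

namespace Pool.Agent.Helper79.OC

variable {n m k : ℕ} {a b : Fin m → Fin n}

/-- walk down along a path -/
theorem ReachC_down (x : Vx n m k) (f : Fin m)
    (hs : Vx.s (a f) ≠ x ∧ ¬ (RG n m k a b).Adj x (.s (a f))) :
    ∀ (N : ℕ) (j : Fin k), j.1 = N →
      (∀ t : Fin k, t.1 < j.1 → Vx.c f t ≠ x ∧ ¬ (RG n m k a b).Adj x (.c f t)) →
      Rch (RG n m k a b) x (.c f j) (.s (a f)) := by
  intro N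
  induction N with
  | zero =>
    intro j hj _
    refine Relation.ReflTransGen.single ⟨?_, hs.1, hs.2⟩
    exact Or.inl ⟨rfl, hj⟩
  | succ N ih =>
    intro j hj ht
    have hN : N < k := by have := j.2; omega
    refine Relation.ReflTransGen.head (b := Vx.c f ⟨N, hN⟩) ⟨?_, ?_⟩ (ih ⟨N, hN⟩ rfl ?_)
    · exact ⟨rfl, Or.inr hj.symm⟩
    · exact ht ⟨N, hN⟩ (by show N < j.1; omega)
    · intro t h
      exact ht t (by have h' : t.1 < N := h; omega)

/-- walk up along a path -/
theorem ReachC_up (x : Vx n m k) (f : Fin m)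
    (hs : Vx.s (b f) ≠ x ∧ ¬ (RG n m k a b).Adj x (.s (b f))) :
    ∀ (N : ℕ) (j : Fin k), j.1 + N + 1 = k →
      (∀ t : Fin k, j.1 < t.1 → Vx.c f t ≠ x ∧ ¬ (RG n m k a b).Adj x (.c f t)) →
      Rch (RG n m k a b) x (.c f j) (.s (b f)) := by
  intro N
  induction N with
  | zero =>
    intro j hj _
    refine Relation.ReflTransGen.single ⟨?_, hs.1, hs.2⟩
    exact Or.inr ⟨rfl, hj⟩
  | succ N ih =>
    intro j hj ht
    have hN : j.1 + 1 < k := by omega
    refine Relation.ReflTransGen.head (b := Vx.c f ⟨j.1 + 1, hN⟩) ⟨?_, ?_⟩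
      (ih ⟨j.1 + 1, hN⟩ (by show j.1 + 1 + N + 1 = k; omega) ?_)
    · exact ⟨rfl, Or.inl rfl⟩
    · exact ht ⟨j.1 + 1, hN⟩ (by show j.1 < j.1 + 1; omega)
    · intro t h
      exact ht t (by have h' : j.1 + 1 < t.1 := h; omega)

theorem ReachC_main : StReachC := by
  intro n m k a b hk hab e i y hy hadj
  -- the last step
  have hlast : ∀ v : Fin n, Rch (RG n m k a b) (.c e i) (.s v) .p := fun v =>
    Relation.ReflTransGen.single ⟨trivial, by rintro ⟨⟩, fun h => h⟩
  have hsx : ∀ v : Fin n, (Vx.s v : Vx n m k) ≠ .c e i := fun v => by rintro ⟨⟩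
  cases y with
  | p => exact Relation.ReflTransGen.refl
  | s v => exact hlast v
  | c f j =>
    by_cases hf : e = f
    · subst hf
      have hij : i.1 ≠ j.1 := fun h => hy (by rw [Fin.ext h])
      have hnadj : ¬ (i.1 + 1 = j.1 ∨ j.1 + 1 = i.1) := fun h => hadj ⟨rfl, h⟩
      rcases Nat.lt_or_gt_of_ne hij with h | h
      · -- `i < j`, walk up
        have h1 : i.1 + 1 < j.1 := by omega
        refine Relation.ReflTransGen.trans (ReachC_up (.c e i) e ⟨hsx _, ?_⟩ (k - 1 - j.1) j
          (by have := j.2; omega) ?_) (hlast (b e))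
        · rintro (⟨h2, -⟩ | ⟨-, h2⟩)
          · exact hab e h2.symm
          · have := j.2; omega
        · intro t ht
          refine ⟨fun h2 => ?_, ?_⟩
          · injection h2 with h3 h4
            have h5 : t.1 = i.1 := by rw [h4]
            omega
          · rintro ⟨-, h2⟩
            omega
      · -- `j < i`, walk down
        have h1 : j.1 + 1 < i.1 := by omega
        refine Relation.ReflTransGen.trans (ReachC_down (.c e i) e ⟨hsx _, ?_⟩ j.1 j rfl ?_)
          (hlast (a e))
        · rintro (⟨-, h2⟩ | ⟨h2, -⟩)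
          · omega
          · exact hab e h2
        · intro t ht
          refine ⟨fun h2 => ?_, ?_⟩
          · injection h2 with h3 h4
            have h5 : t.1 = i.1 := by rw [h4]
            omega
          · rintro ⟨-, h2⟩
            omega
    · have hpath : ∀ t : Fin k, (Vx.c f t : Vx n m k) ≠ Vx.c e i ∧
          ¬ (RG n m k a b).Adj (.c e i) (.c f t) := by
        intro t
        refine ⟨fun h2 => ?_, ?_⟩
        · injection h2 with h3 h4
          exact hf h3.symm
        · rintro ⟨h2, -⟩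
          exact hf h2
      by_cases ha : (RG n m k a b).Adj (.c e i) (.s (a f))
      · have hb : ¬ (RG n m k a b).Adj (.c e i) (.s (b f)) := by
          intro hb
          rcases ha with ⟨h1, h2⟩ | ⟨h1, h2⟩ <;> rcases hb with ⟨h3, h4⟩ | ⟨h3, h4⟩
          · exact hab f (h1.trans h3.symm)
          · omega
          · omega
          · exact hab f (h1.trans h3.symm)
        exact Relation.ReflTransGen.trans (ReachC_up (.c e i) f ⟨hsx _, hb⟩ (k - 1 - j.1) j
          (by have := j.2; omega) (fun t _ => hpath t)) (hlast (b f))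
      · exact Relation.ReflTransGen.trans (ReachC_down (.c e i) f ⟨hsx _, ha⟩ j.1 j rfl
          (fun t _ => hpath t)) (hlast (a f))

end Pool.Agent.Helper79.OC
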