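import Pool.Agent.Helper79.OC.St

/-!
# MP_8ec342_lc: module ReachS
-/

set_option autoImplicit false

namespace Pool.Agent.Helper79.OC

section

variable {n m k : ℕ} (a b : Fin m → Fin n) (w : Fin n)

theorem ReachS_up (f : Fin m) (i : Fin k) : ∀ (d : ℕ) (j : Fin k), j.1 = i.1 + d →
    (∀ l : Fin k, i.1 < l.1 → l.1 ≤ j.1 → ¬ ((w = a f ∧ l.1 = 0) ∨ (w = b f ∧ l.1 + 1 = k))) →
    Rch (RG n m k a b) (.s w) (.c f i) (.c f j) := by
  intro d
  induction d with
  | zero =>
    intro j hj _
    have : j = i := Fin.ext (by omega)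
    rw [this]
    exact Relation.ReflTransGen.refl
  | succ d ih =>
    intro j hj hl
    have hlt : i.1 + d < k := by have := j.2; omega
    have h1 := ih ⟨i.1 + d, hlt⟩ rfl (fun l h1 h2 => hl l h1 (by
      have : l.1 ≤ i.1 + d := h2
      omega))
    refine Relation.ReflTransGen.tail h1 ⟨?_, ?_, ?_⟩
    · show f = f ∧ _
      refine ⟨rfl, Or.inl ?_⟩
      show i.1 + d + 1 = j.1
      omega
    · intro h
      cases h
    · exact hl j (by omega) le_rfl

theorem ReachS_down (f : Fin m) (i : Fin k) : ∀ (d : ℕ) (j : Fin k), i.1 = j.1 + d →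
    (∀ l : Fin k, j.1 ≤ l.1 → l.1 < i.1 → ¬ ((w = a f ∧ l.1 = 0) ∨ (w = b f ∧ l.1 + 1 = k))) →
    Rch (RG n m k a b) (.s w) (.c f i) (.c f j) := by
  intro d
  induction d with
  | zero =>
    intro j hj _
    have : j = i := Fin.ext (by omega)
    rw [this]
    exact Relation.ReflTransGen.refl
  | succ d ih =>
    intro j hj hl
    have hlt : j.1 + 1 < k := by have := i.2; omega
    have h1 := ih ⟨j.1 + 1, hlt⟩ (by show i.1 = j.1 + 1 + d; omega) (fun l h1 h2 => hl l (by
      have : j.1 + 1 ≤ l.1 := h1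
      omega) h2)
    refine Relation.ReflTransGen.tail h1 ⟨?_, ?_, ?_⟩
    · show f = f ∧ _
      refine ⟨rfl, Or.inr ?_⟩
      rfl
    · intro h
      cases h
    · exact hl j le_rfl (by omega)

theorem ReachS_edge (hk : 2 ≤ k) (v₁ v₂ : Fin n) (h1 : v₁ ≠ w) (h2 : v₂ ≠ w)
    (h : (HG n m a b).Adj v₁ v₂) : Rch (RG n m k a b) (.s w) (.s v₁) (.s v₂) := by
  have h0 : 0 < k := by omega
  have hk1 : k - 1 < k := by omega
  have hn : ∀ e : Fin m, w ≠ a e → w ≠ b e → ∀ l : Fin k,
      ¬ ((w = a e ∧ l.1 = 0) ∨ (w = b e ∧ l.1 + 1 = k)) := by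
    intro e ha hb l hl
    rcases hl with hl | hl
    · exact ha hl.1
    · exact hb hl.1
  rcases (SimpleGraph.fromRel_adj _ _ _).mp h with ⟨_, ⟨e, ha, hb⟩ | ⟨e, ha, hb⟩⟩
  · have ha' : w ≠ a e := by rw [ha]; exact h1.symm
    have hb' : w ≠ b e := by rw [hb]; exact h2.symm
    have s1 : Rch (RG n m k a b) (.s w) (.s v₁) (.c e ⟨0, h0⟩) := by
      refine Relation.ReflTransGen.single ⟨?_, ?_, ?_⟩
      · exact Or.inl ⟨ha.symm, rfl⟩
      · intro h
        cases h
      · exact hn e ha' hb' _
    have s2 := ReachS_up a b w e ⟨0, h0⟩ (k - 1) ⟨k - 1, hk1⟩ (by simp) (fun l _ _ => hn e ha' hb' l)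
    refine Relation.ReflTransGen.tail (s1.trans s2) ⟨?_, ?_, ?_⟩
    · exact Or.inr ⟨hb.symm, by show k - 1 + 1 = k; omega⟩
    · intro h
      cases h
      exact h2 rfl
    · exact fun h => h
  · have ha' : w ≠ a e := by rw [ha]; exact h2.symm
    have hb' : w ≠ b e := by rw [hb]; exact h1.symm
    have s1 : Rch (RG n m k a b) (.s w) (.s v₁) (.c e ⟨k - 1, hk1⟩) := by
      refine Relation.ReflTransGen.single ⟨?_, ?_, ?_⟩
      · exact Or.inr ⟨hb.symm, by show k - 1 + 1 = k; omega⟩
      · intro h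
        cases h
      · exact hn e ha' hb' _
    have s2 := ReachS_down a b w e ⟨k - 1, hk1⟩ (k - 1) ⟨0, h0⟩ (by simp) (fun l _ _ => hn e ha' hb' l)
    refine Relation.ReflTransGen.tail (s1.trans s2) ⟨?_, ?_, ?_⟩
    · exact Or.inl ⟨ha.symm, rfl⟩
    · intro h
      cases h
      exact h2 rfl
    · exact fun h => h

end

theorem ReachS_main : StReachS := by
  intro n m k a b hk hab hconn w v hwv y hy hyn
  have h0 : 0 < k := by omega
  have hk1 : k - 1 < k := by omega
  -- between the old vertices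
  have hs : ∀ v' : Fin n, v' ≠ w → Rch (RG n m k a b) (.s w) (.s v') (.s v) := by
    intro v' hv'
    have h1 := (hconn w).preconnected ⟨v', hv'⟩ ⟨v, hwv.symm⟩
    rw [SimpleGraph.reachable_iff_reflTransGen] at h1
    have h2 : ∀ (x y : ↥({w}ᶜ : Set (Fin n))),
        Relation.ReflTransGen ((HG n m a b).induce {w}ᶜ).Adj x y →
        Rch (RG n m k a b) (.s w) (.s x.1) (.s y.1) := by
      intro x y hxy
      induction hxy with
      | refl => exact Relation.ReflTransGen.refl
      | tail _ hst ih =>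
        rename_i p q _
        exact ih.trans (ReachS_edge a b w hk p.1 q.1 p.2 q.2 hst)
    exact h2 _ _ h1
  cases y with
  | p => exact absurd (by trivial : (RG n m k a b).Adj (.s w) .p) hyn
  | s v' =>
    refine hs v' ?_
    rintro rfl
    exact hy rfl
  | c f j =>
    have hyn' : ¬ ((w = a f ∧ j.1 = 0) ∨ (w = b f ∧ j.1 + 1 = k)) := hyn
    by_cases hwa : w = a f
    · have hwb : w ≠ b f := by
        rw [hwa]
        exact hab f
      have s1 := ReachS_up a b w f j (k - 1 - j.1) ⟨k - 1, hk1⟩ (by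
        have := j.2
        show k - 1 = j.1 + (k - 1 - j.1)
        omega) (fun l hl _ h => by
          rcases h with h | h
          · have := h.2
            omega
          · exact hwb h.1)
      have s2 : Rch (RG n m k a b) (.s w) (.c f j) (.s (b f)) := by
        refine Relation.ReflTransGen.tail s1 ⟨?_, ?_, ?_⟩
        · exact Or.inr ⟨rfl, by show k - 1 + 1 = k; omega⟩
        · intro h
          cases h
          exact hwb rfl
        · exact fun h => h
      exact s2.trans (hs (b f) hwb.symm)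
    · have s1 := ReachS_down a b w f j j.1 ⟨0, h0⟩ (by simp) (fun l _ hl h => by
          rcases h with h | h
          · exact hwa h.1
          · have := h.2
            have := j.2
            omega)
      have s2 : Rch (RG n m k a b) (.s w) (.c f j) (.s (a f)) := by
        refine Relation.ReflTransGen.tail s1 ⟨?_, ?_, ?_⟩
        · exact Or.inl ⟨rfl, rfl⟩
        · intro h
          cases h
          exact hwa rfl
        · exact fun h => h
      exact s2.trans (hs (a f) (Ne.symm hwa))

end Pool.Agent.Helper79.OC
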