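import Pool.Agent.Helper79.OC.St

/-!
# MP_8ec342_lc, module Side: no nesting
-/

set_option autoImplicit false

open Metric

namespace Pool.Agent.Helper79.OC

/-- the distance of two centres -/
noncomputable def Side_d {V : Type} (x y : V → ℝ) (u v : V) : ℝ :=
  dist (⟨x u, y u⟩ : ℂ) ⟨x v, y v⟩

theorem Side_d_sq {V : Type} (x y : V → ℝ) (u v : V) :
    Side_d x y u v ^ 2 = (x u - x v) ^ 2 + (y u - y v) ^ 2 := by
  unfold Side_d
  rw [Complex.dist_eq_re_im, Real.sq_sqrt (by positivity)]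

theorem Side_d_nonneg {V : Type} (x y : V → ℝ) (u v : V) : 0 ≤ Side_d x y u v := dist_nonneg

theorem Side_d_comm {V : Type} (x y : V → ℝ) (u v : V) : Side_d x y u v = Side_d x y v u :=
  dist_comm _ _

theorem Side_d_tri {V : Type} (x y : V → ℝ) (u v w : V) :
    Side_d x y u w ≤ Side_d x y u v + Side_d x y v w := dist_triangle _ _ _

/-- the mirror image of a realization -/
theorem Side_neg {V : Type} {G : SimpleGraph V} {p s : V} {x y r : V → ℝ}
    (h : NRz G p s x y r) : NRz G p s (fun v => - x v) y r := by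
  refine ⟨h.pos, h.hp1, h.hp2, ?_, ?_, ?_, ?_⟩
  · intro v h1 h2 h3
    simp [h.hs1 v h1 h2 h3]
  · intro v h1 h2 h3
    simpa using h.hs2 v h1 h2 h3
  · intro u v h1 h2 h3 h4 h5 h6
    have := h.adj u v h1 h2 h3 h4 h5 h6
    rw [← this]; ring
  · intro u v h1 h2 h3 h4 h5 h6
    have := h.nadj u v h1 h2 h3 h4 h5 h6
    have e : (-x u - -x v) ^ 2 = (x u - x v) ^ 2 := by ring
    rw [e]; exact this

/-- the sign of `x` is the same for adjacent vertices that are not adjacent to `s` -/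
theorem Side_sign {V : Type} {G : SimpleGraph V} {p s : V} {x y r : V → ℝ}
    (h : NRz G p s x y r) {u v : V} (hup : u ≠ p) (hus : u ≠ s) (hvp : v ≠ p) (hvs : v ≠ s)
    (hu : ¬ G.Adj s u) (hv : ¬ G.Adj s v) (huv : G.Adj u v) (hx : 0 < x v) : 0 < x u := by
  have h1 := h.hs2 u hup hus hu
  have h2 := h.hs2 v hvp hvs hv
  have h3 := h.pos u hup hus
  have h4 := h.pos v hvp hvs
  have h5 := h.adj u v hup hus hvp hvs huv.ne huv
  by_contra hc
  push Not at hc
  rw [abs_of_nonpos hc] at h1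
  rw [abs_of_pos hx] at h2
  nlinarith [sq_nonneg (y u - y v), mul_pos h3 h4]

theorem Side_signR {V : Type} {G : SimpleGraph V} {p s : V} {x y r : V → ℝ}
    (h : NRz G p s x y r) (hps : G.Adj s p) {z w : V} (hR : Rch G s z w) :
    z ≠ s → ¬ G.Adj s z → 0 < x w → 0 < x z := by
  induction hR using Relation.ReflTransGen.head_induction_on with
  | refl => intro _ _ hx; exact hx
  | head h1 h2 ih =>
    intro hz1 hz2 hx
    have h3 := ih h1.2.1 h1.2.2 hx
    refine Side_sign h ?_ hz1 ?_ h1.2.1 hz2 h1.2.2 h1.1 h3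
    · rintro rfl; exact hz2 hps
    · rintro rfl; exact h1.2.2 hps

/-- one step in the proof that there is no nesting -/
theorem Side_step {V : Type} {G : SimpleGraph V} {p s : V} {x y r : V → ℝ}
    (h : NRz G p s x y r) {u z z' : V} (hup : u ≠ p) (hus : u ≠ s)
    (hz : z ≠ p ∧ z ≠ s ∧ z ≠ u ∧ r z < r u ∧ Side_d x y u z < r u - r z)
    (hzz : G.Adj z z') (hu1 : z' ≠ u) (hu2 : ¬ G.Adj u z') :
    z' ≠ p ∧ z' ≠ s ∧ z' ≠ u ∧ r z' < r u ∧ Side_d x y u z' < r u - r z' := by
  obtain ⟨hzp, hzs, hzu, hzr, hzd⟩ := hz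
  have pu := h.pos u hup hus
  have pz := h.pos z hzp hzs
  have d0 := Side_d_nonneg x y u z
  have dsq := Side_d_sq x y u z
  have dlt : Side_d x y u z ^ 2 < r u ^ 2 := by nlinarith
  have hp : z' ≠ p := by
    rintro rfl
    have h1 := h.hp1 z hzp hzs hzz.symm
    have h2 := h.hp2 u hup hus (fun hh => hu2 hh.symm)
    have h3 : r u ^ 2 < (y u) ^ 2 := by
      rw [← sq_abs (y u)]; nlinarith
    rw [h1] at dsq
    nlinarith [sq_nonneg (x u - x z)]
  have hs : z' ≠ s := by
    rintro rfl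
    have h1 := h.hs1 z hzp hzs hzz.symm
    have h2 := h.hs2 u hup hus (fun hh => hu2 hh.symm)
    have h3 : r u ^ 2 < (x u) ^ 2 := by
      rw [← sq_abs (x u)]; nlinarith
    rw [h1] at dsq
    nlinarith [sq_nonneg (y u - y z)]
  have pz' := h.pos z' hp hs
  have hadj := h.adj z z' hzp hzs hp hs hzz.ne hzz
  rw [← Side_d_sq] at hadj
  have hn := h.nadj u z' hup hus hp hs hu1.symm hu2
  rw [← Side_d_sq] at hn
  have e0 := Side_d_nonneg x y u z'
  have f0 := Side_d_nonneg x y z z'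
  have t1 := Side_d_tri x y u z z'
  have t2 := Side_d_tri x y z u z'
  rw [Side_d_comm x y z u] at t2
  have flt : Side_d x y z z' < r z + r z' := by
    by_contra hc
    push Not at hc
    nlinarith [mul_pos pz pz']
  have key : Side_d x y u z' ^ 2 < (r u - r z') ^ 2 := by
    rcases lt_abs.1 hn with h1 | h1
    · nlinarith
    · exfalso
      have h2 : (r u + r z') ^ 2 < Side_d x y u z' ^ 2 := by nlinarith
      have h3 : r u + r z' < Side_d x y u z' := lt_of_pow_lt_pow_left₀ 2 e0 h2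
      linarith
  have hlt : r z' < r u := by
    by_contra hc
    push Not at hc
    have h1 : Side_d x y u z' < r z' - r u := by
      refine lt_of_pow_lt_pow_left₀ 2 (by linarith) ?_
      nlinarith
    have h2 : Side_d x y z z' < r z' - r z := by linarith
    nlinarith [mul_pos pz pz']
  refine ⟨hp, hs, hu1, hlt, ?_⟩
  exact lt_of_pow_lt_pow_left₀ 2 (by linarith) key

theorem Side_reach {V : Type} {G : SimpleGraph V} {p s : V} {x y r : V → ℝ}
    (h : NRz G p s x y r) {u v z : V} (hup : u ≠ p) (hus : u ≠ s)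
    (hv : v ≠ p ∧ v ≠ s ∧ v ≠ u ∧ r v < r u ∧ Side_d x y u v < r u - r v)
    (hR : Rch G u v z) :
    z ≠ p ∧ z ≠ s ∧ z ≠ u ∧ r z < r u ∧ Side_d x y u z < r u - r z := by
  induction hR with
  | refl => exact hv
  | tail _ h2 ih => exact Side_step h hup hus ih h2.1 h2.2.1 h2.2.2

theorem Side_main (h1 : StReachC) (h2 : StReachS) : StSide := by
  intro n m k a b hk hab hcon v₀ x y r hN
  obtain ⟨⟨v₁, hv₁⟩⟩ := (hcon v₀).nonempty
  have hv₁' : v₁ ≠ v₀ := hv₁
  set G := RG n m k a b with hG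
  have hps : G.Adj (.s v₀) .p := trivial
  have hs1 : (.s v₁ : Vx n m k) ≠ .s v₀ := by
    intro hh; injection hh with hh; exact hv₁' hh
  have hs2 : ¬ G.Adj (.s v₀) (.s v₁) := fun hh => hh
  -- choose the side
  have hright : ∃ x' : Vx n m k → ℝ, NRz G .p (.s v₀) x' y r ∧ 0 < x' (.s v₁) := by
    have h3 := hN.hs2 (.s v₁) (by simp) hs1 hs2
    have h4 := hN.pos (.s v₁) (by simp) hs1
    rcases lt_abs.1 h3 with h5 | h5
    · exact ⟨x, hN, lt_trans h4 h5⟩
    · exact ⟨fun v => - x v, Side_neg hN, lt_trans h4 h5⟩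
  obtain ⟨x', hN', hpos'⟩ := hright
  have right : ∀ v, v ≠ (.p : Vx n m k) → v ≠ .s v₀ → ¬ G.Adj (.s v₀) v → r v < x' v := by
    intro v hvp hvs hva
    have h3 := h2 n m k a b hk hab hcon v₀ v₁ hv₁'.symm v hvs hva
    have h4 := Side_signR hN' hps h3 hvs hva hpos'
    have h5 := hN'.hs2 v hvp hvs hva
    rwa [abs_of_pos h4] at h5
  -- no nesting, ordered version
  have nest : ∀ u v, u ≠ (.p : Vx n m k) → u ≠ .s v₀ → v ≠ .p → v ≠ .s v₀ → u ≠ v →
      ¬ G.Adj u v → r v < r u → ¬ (Side_d x' y u v < r u - r v) := by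
    intro u v hup hus hvp hvs huv hna hr hd
    have hin : v ≠ (.p : Vx n m k) ∧ v ≠ .s v₀ ∧ v ≠ u ∧ r v < r u ∧
        Side_d x' y u v < r u - r v := ⟨hvp, hvs, huv.symm, hr, hd⟩
    cases u with
    | p => exact hup rfl
    | s w =>
      have hw : w ≠ v₀ := by rintro rfl; exact hus rfl
      have h3 := h2 n m k a b hk hab hcon w v₀ hw v huv.symm hna
      exact (Side_reach hN' hup hus hin h3).2.1 rfl
    | c e i =>
      have h3 := h1 n m k a b hk hab e i v huv.symm hna
      exact (Side_reach hN' hup hus hin h3).1 rfl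
  refine ⟨x', y, r, ⟨hN', right, ?_⟩⟩
  intro u v hup hus hvp hvs huv hna
  have hn := hN'.nadj u v hup hus hvp hvs huv hna
  rw [← Side_d_sq] at hn ⊢
  have pu := hN'.pos u hup hus
  have pv := hN'.pos v hvp hvs
  have d0 := Side_d_nonneg x' y u v
  rcases lt_abs.1 hn with h3 | h3
  · exfalso
    have h4 : Side_d x' y u v ^ 2 < (r u - r v) ^ 2 := by nlinarith
    rcases lt_trichotomy (r v) (r u) with h5 | h5 | h5
    · exact nest u v hup hus hvp hvs huv hna h5
        (lt_of_pow_lt_pow_left₀ 2 (by linarith) h4)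
    · rw [h5] at h4
      nlinarith [sq_nonneg (Side_d x' y u v)]
    · refine nest v u hvp hvs hup hus huv.symm (fun hh => hna hh.symm) h5 ?_
      rw [Side_d_comm]
      refine lt_of_pow_lt_pow_left₀ 2 (by linarith) ?_
      nlinarith
  · nlinarith

end Pool.Agent.Helper79.OC
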