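import Pool.Agent.Helper79.OC.Defs

/-!
# MP_8ec342_lc: statements of the modules
-/

set_option autoImplicit false

open Metric

namespace Pool.Agent.Helper79.OC

/-- module Alg: algebraic form of realizations -/
def StAlg : Prop :=
  ∀ (V : Type) (G : SimpleGraph V), IsOCI G ↔ ∃ x y r : V → ℝ, Rz G x y r

/-- module Norm: inversion in an intersection point of two orthogonal circles -/
def StNorm : Prop :=
  ∀ (V : Type) (G : SimpleGraph V) (x y r : V → ℝ), Rz G x y r → ∀ p s : V, G.Adj p s →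
    ∃ x' y' r' : V → ℝ, NRz G p s x' y' r'

/-- module ReachC: the complement of the neighbourhood of an inner vertex is connected -/
def StReachC : Prop :=
  ∀ (n m k : ℕ) (a b : Fin m → Fin n), 2 ≤ k → (∀ e, a e ≠ b e) → ∀ (e : Fin m) (i : Fin k)
    (y : Vx n m k), y ≠ .c e i → ¬ (RG n m k a b).Adj (.c e i) y →
      Rch (RG n m k a b) (.c e i) y .p

/-- module ReachS: the complement of the neighbourhood of `s w` is connected -/
def StReachS : Prop :=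
  ∀ (n m k : ℕ) (a b : Fin m → Fin n), 2 ≤ k → (∀ e, a e ≠ b e) →
    (∀ w, ((HG n m a b).induce {w}ᶜ).Connected) → ∀ (w v : Fin n), w ≠ v →
    ∀ y : Vx n m k, y ≠ .s w → ¬ (RG n m k a b).Adj (.s w) y →
      Rch (RG n m k a b) (.s w) y (.s v)

/-- module Side (uses StReachC, StReachS): no nesting -/
def StSide : Prop :=
  ∀ (n m k : ℕ) (a b : Fin m → Fin n), 2 ≤ k → (∀ e, a e ≠ b e) →
    (∀ w, ((HG n m a b).induce {w}ᶜ).Connected) → ∀ (v₀ : Fin n) (x y r : Vx n m k → ℝ),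
    NRz (RG n m k a b) .p (.s v₀) x y r →
    ∃ x' y' r' : Vx n m k → ℝ, GRz (RG n m k a b) .p (.s v₀) x' y' r'

/-- module Cross: paths in the upper half-plane with alternating ends meet -/
def StCross : Prop :=
  ∀ (S T : Set ℂ), (∀ z ∈ S, 0 ≤ z.im) → (∀ z ∈ T, 0 ≤ z.im) → ∀ a b c d : ℝ,
    a < b → b < c → c < d → JoinedIn S (a : ℂ) (c : ℂ) → JoinedIn T (b : ℂ) (d : ℂ) →
      (S ∩ T).Nonempty

/-- module Page (uses StCross): reading off the spine order and the pages -/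
def StPage : Prop :=
  ∀ (n m k : ℕ) (a b : Fin m → Fin n), 2 ≤ k → (∀ e, a e ≠ b e) → ∀ (v₀ : Fin n)
    (x y r : Vx n m k → ℝ), GRz (RG n m k a b) .p (.s v₀) x y r →
    ∃ (pos : Fin n → ℝ) (page : Fin m → Bool), Function.Injective pos ∧ NC a b pos page

/-- module Pts: points on a circle -/
def StPts : Prop :=
  ∀ (n : ℕ) (ε : ℝ), 1 ≤ n → 0 < ε → ε ≤ 1 / 4 → ∃ X Y : ℕ → ℝ,
    (∀ i < n, X i ^ 2 + Y i ^ 2 = 1 + ε ^ 2) ∧
    (∀ i < n, 0 ≤ X i ∧ 0 ≤ Y i ∧ 1 ≤ X i + Y i) ∧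
    (∀ i < n, ∀ j < n, i ≠ j → (1 / (n : ℝ)) ^ 2 ≤ (X i - X j) ^ 2 + (Y i - Y j) ^ 2 ∧
      (X i - X j) ^ 2 + (Y i - Y j) ^ 2 ≤ (17 / 8) ^ 2) ∧
    (∀ i < n, ∀ j < n, ∀ l < n, i < j → j < l →
      1 / (n : ℝ) ^ 3 ≤ (X j - X i) * (Y l - Y i) - (Y j - Y i) * (X l - X i))

/-- module Par: the radius of the circles of a path -/
def StPar : Prop :=
  ∀ (k : ℕ) (ε L : ℝ), 2 ≤ k → 0 < ε → 2 * ε < L → ∃ ρ : ℝ, 0 < ρ ∧
    (k - 1) * Real.sqrt 2 * ρ + 2 * Real.sqrt (ε ^ 2 + ρ ^ 2) = L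

/-- the data of the realization with straight paths inside the unit circle: the circles `s v`
have centre `(X v, Y v)` and radius `ε`, the circles of the path `e` have centre
`(U e i, V e i)` and radius `R e` -/
structure Inner (n m k : ℕ) (a b : Fin m → Fin n) (X Y : Fin n → ℝ) (ε : ℝ)
    (U V : Fin m → Fin k → ℝ) (R : Fin m → ℝ) : Prop where
  eps : 0 < ε
  R0 : ∀ e, 0 < R e
  /-- orthogonal to the unit circle -/
  unit : ∀ v, X v ^ 2 + Y v ^ 2 = 1 + ε ^ 2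
  /-- the circles `s v` are disjoint -/
  ss : ∀ v w, v ≠ w → (2 * ε) ^ 2 < (X v - X w) ^ 2 + (Y v - Y w) ^ 2
  /-- the circles of the paths are inside of the unit circle and do not surround the centre -/
  ins : ∀ e i, U e i ^ 2 + V e i ^ 2 < (1 - R e) ^ 2 ∧ R e < 1 ∧ R e ^ 2 < U e i ^ 2 + V e i ^ 2
  /-- first and last circle of a path -/
  fst : ∀ e i, i.1 = 0 → (X (a e) - U e i) ^ 2 + (Y (a e) - V e i) ^ 2 = ε ^ 2 + R e ^ 2
  lst : ∀ e i, i.1 + 1 = k → (X (b e) - U e i) ^ 2 + (Y (b e) - V e i) ^ 2 = ε ^ 2 + R e ^ 2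
  /-- no other incidences of circles of a path with the circles `s v` -/
  sc : ∀ v e i, ¬ (v = a e ∧ i.1 = 0) → ¬ (v = b e ∧ i.1 + 1 = k) →
    (ε + R e) ^ 2 < (X v - U e i) ^ 2 + (Y v - V e i) ^ 2
  /-- consecutive circles of a path -/
  cons : ∀ e i j, i.1 + 1 = j.1 → (U e i - U e j) ^ 2 + (V e i - V e j) ^ 2 = 2 * R e ^ 2
  /-- other circles of the same path -/
  far : ∀ e i j, i.1 + 1 < j.1 → (2 * R e) ^ 2 < (U e i - U e j) ^ 2 + (V e i - V e j) ^ 2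

/-- module PathA: the circles of the paths, facts about one path -/
def StPathA : Prop :=
  ∀ (n m k : ℕ) (a b : Fin m → Fin n) (pos : Fin n → ℕ) (X Y : Fin n → ℝ) (ε : ℝ) (R : Fin m → ℝ),
    1 ≤ n → (n + 2) ^ 8 ≤ k → (∀ e, a e ≠ b e) → Function.Injective pos →
    ε = 1 / (4 * (n : ℝ) ^ 3) → Pt n ε pos X Y →
    (∀ e, 0 < R e ∧ (k - 1) * Real.sqrt 2 * R e + 2 * Real.sqrt (ε ^ 2 + R e ^ 2) =
      len a b X Y e) →
    Inner n m k a b X Y ε (ctr a b X Y ε R X) (ctr a b X Y ε R Y) R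

/-- module PathB: two paths do not meet if the ends of the edges do not alternate -/
def StPathB : Prop :=
  ∀ (n m k : ℕ) (a b : Fin m → Fin n) (pos : Fin n → ℕ) (X Y : Fin n → ℝ) (ε : ℝ) (R : Fin m → ℝ),
    1 ≤ n → (n + 2) ^ 8 ≤ k → (∀ e, a e ≠ b e) → Function.Injective pos →
    ε = 1 / (4 * (n : ℝ) ^ 3) → Pt n ε pos X Y →
    (∀ e, 0 < R e ∧ (k - 1) * Real.sqrt 2 * R e + 2 * Real.sqrt (ε ^ 2 + R e ^ 2) =
      len a b X Y e) →
    ∀ e f : Fin m, ¬ (a e = a f ∧ b e = b f) → ¬ (a e = b f ∧ b e = a f) →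
      (∀ u v w z, ((u = a e ∧ v = b e) ∨ (u = b e ∧ v = a e)) →
        ((w = a f ∧ z = b f) ∨ (w = b f ∧ z = a f)) →
        ¬ (pos u < pos w ∧ pos w < pos v ∧ pos v < pos z) ∧
        ¬ (pos w < pos u ∧ pos u < pos z ∧ pos z < pos v)) →
      ∀ i j : Fin k, (R e + R f) ^ 2 <
        (ctr a b X Y ε R X e i - ctr a b X Y ε R X f j) ^ 2 +
        (ctr a b X Y ε R Y e i - ctr a b X Y ε R Y f j) ^ 2

/-- module Path (uses StPts, StPar, StPathA, StPathB): the circles for all edges; two paths do not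
meet if the ends of the edges do not alternate -/
def StPath : Prop :=
  ∀ (n m k : ℕ) (a b : Fin m → Fin n) (pos : Fin n → ℕ), 1 ≤ n → (n + 2) ^ 8 ≤ k →
    (∀ e, a e ≠ b e) → (∀ v, pos v < n) → Function.Injective pos →
    ∃ (X Y : Fin n → ℝ) (ε : ℝ) (U V : Fin m → Fin k → ℝ) (R : Fin m → ℝ),
      Inner n m k a b X Y ε U V R ∧
      ∀ e f : Fin m, ¬ (a e = a f ∧ b e = b f) → ¬ (a e = b f ∧ b e = a f) →
        (∀ u v w z, ((u = a e ∧ v = b e) ∨ (u = b e ∧ v = a e)) →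
          ((w = a f ∧ z = b f) ∨ (w = b f ∧ z = a f)) →
          ¬ (pos u < pos w ∧ pos w < pos v ∧ pos v < pos z) ∧
          ¬ (pos w < pos u ∧ pos u < pos z ∧ pos z < pos v)) →
        ∀ i j, (R e + R f) ^ 2 < (U e i - U f j) ^ 2 + (V e i - V f j) ^ 2

/-- module Yes (uses StPath, StAlg): the realization; the paths of the second page are inverted in
the unit circle -/
def StYes : Prop :=
  ∀ (n m k : ℕ) (a b : Fin m → Fin n) (pos : Fin n → ℝ) (page : Fin m → Bool),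
    (n + 2) ^ 8 ≤ k → (∀ e, a e ≠ b e) →
    (∀ e f, e ≠ f → ¬ (a e = a f ∧ b e = b f) ∧ ¬ (a e = b f ∧ b e = a f)) →
    Function.Injective pos → NC a b pos page → IsOCI (RG n m k a b)

/-- module Iso: the graph of the list `redE` is the graph of the reduction -/
def StIso : Prop :=
  ∀ (H F : GI), F.n = H.n + 1 + H.E.length * (K1 H.n + 1) → F.E = redE H.n (K1 H.n) H.E →
    ∃ a b : Fin H.E.length → Fin H.n, (∀ e, a e ≠ b e) ∧
      (∀ e f, e ≠ f → ¬ (a e = a f ∧ b e = b f) ∧ ¬ (a e = b f ∧ b e = a f)) ∧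
      HG H.n H.E.length a b = H.graph ∧
      Nonempty (F.graph ≃g RG H.n H.E.length (K1 H.n + 1) a b)

/-- module Val: the list `redE` is a valid list of edges -/
def StVal : Prop :=
  ∀ (n k1 : ℕ) (E : List (ℕ × ℕ)), (∀ e ∈ E, e.1 < e.2 ∧ e.2 < n) → E.Nodup →
    (∀ e ∈ redE n k1 E, e.1 < e.2 ∧ e.2 < n + 1 + E.length * (k1 + 1)) ∧ (redE n k1 E).Nodup

/-- module TwoP: two-page embeddings in terms of `NC` -/
def StTwoP : Prop :=
  ∀ (n m : ℕ) (a b : Fin m → Fin n), (∀ e, a e ≠ b e) →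
    (∀ e f, e ≠ f → ¬ (a e = a f ∧ b e = b f) ∧ ¬ (a e = b f ∧ b e = a f)) →
    (TwoPage (HG n m a b) ↔
      ∃ (pos : Fin n → ℝ) (page : Fin m → Bool), Function.Injective pos ∧ NC a b pos page)

/-- module TM: the reduction is computed in polynomial time -/
def StTM : Prop :=
  ∀ f : GI → GI, (∀ H, (f H).n = H.n + 1 + H.E.length * (K1 H.n + 1) ∧
    (f H).E = redE H.n (K1 H.n) H.E) →
    Nonempty (Turing.TM2ComputableInPolyTime GI.code GI.code f)

end Pool.Agent.Helper79.OC
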