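import Pool.Agent.Helper79.OC.St
import Pool.Agent.Helper76.Prog6
import Pool.Agent.Helper72.Arith

/-!
# MP_8ec342_lc, module TM: the reduction is computed by a Turing machine in polynomial time
-/

set_option autoImplicit false

namespace Pool.Agent.Helper79.OC

open Function Turing Computability Pool.Agent.Helper72 Pool.Agent.Helper4.Glue
open Pool.Agent.Helper76.Prog (Rn RnL S9 rd rd_A rd_B)

namespace TM

theorem polyTime_of_prog {α β : Type} (ea : α → List Bool) (eb : β → List Bool) (g : α → β)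
    (c : Cmd) (hok : c.ok = true) (o : ℕ) (T : ℕ → ℕ) (hT : PB T)
    (h : ∀ a, c.LB (T (ea a).length) (initSt 0 (ea a)) ∧
      c.eval (initSt 0 (ea a)) o = eb (g a)) :
    Nonempty (TM2ComputableInPolyTime ea eb g) := by
  obtain ⟨M, f, hf, hmono, -, hM⟩ := outputs_aux c hok o
  obtain ⟨a, d, had⟩ := hf.comp (PB.id.add hT)
  refine ⟨{ toTM2ComputableAux := M
            time := Polynomial.C a * (Polynomial.X + 1) ^ d
            outputsFun := fun x => ?_ }⟩
  obtain ⟨h1, h2⟩ := h x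
  have h5 := hM (ea x) _ h1
  rw [h2] at h5
  refine Classical.choice ?_
  obtain ⟨h6⟩ := h5
  refine ⟨⟨h6.toEvalsTo, h6.steps_le_m.trans ?_⟩⟩
  have := had (ea x).length
  simp only [Polynomial.eval_mul, Polynomial.eval_C, Polynomial.eval_pow, Polynomial.eval_add,
    Polynomial.eval_X, Polynomial.eval_one]
  exact this

variable {L : ℕ}

section

variable (a0 a1 a2 a3 a4 a5 a6 a7 a8 : List Bool) (b : Bool)

theorem push1 : Rn L (S9 a0 a1 a2 a3 a4 a5 a6 a7 a8) (.push 1 b)
    (S9 a0 (b :: a1) a2 a3 a4 a5 a6 a7 a8) := ⟨trivial, S9.u1 ..⟩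
theorem push2 : Rn L (S9 a0 a1 a2 a3 a4 a5 a6 a7 a8) (.push 2 b)
    (S9 a0 a1 (b :: a2) a3 a4 a5 a6 a7 a8) := ⟨trivial, S9.u2 ..⟩
theorem push4 : Rn L (S9 a0 a1 a2 a3 a4 a5 a6 a7 a8) (.push 4 b)
    (S9 a0 a1 a2 a3 (b :: a4) a5 a6 a7 a8) := ⟨trivial, S9.u4 ..⟩
theorem push6 : Rn L (S9 a0 a1 a2 a3 a4 a5 a6 a7 a8) (.push 6 b)
    (S9 a0 a1 a2 a3 a4 a5 (b :: a6) a7 a8) := ⟨trivial, S9.u6 ..⟩
theorem push7 : Rn L (S9 a0 a1 a2 a3 a4 a5 a6 a7 a8) (.push 7 b)
    (S9 a0 a1 a2 a3 a4 a5 a6 (b :: a7) a8) := ⟨trivial, S9.u7 ..⟩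
theorem push8 : Rn L (S9 a0 a1 a2 a3 a4 a5 a6 a7 a8) (.push 8 b)
    (S9 a0 a1 a2 a3 a4 a5 a6 a7 (b :: a8)) := ⟨trivial, S9.u8 ..⟩
theorem pop2 : Rn L (S9 a0 a1 (b :: a2) a3 a4 a5 a6 a7 a8) (.pop 2)
    (S9 a0 a1 a2 a3 a4 a5 a6 a7 a8) := ⟨trivial, S9.u2 ..⟩
theorem pop3 : Rn L (S9 a0 a1 a2 (b :: a3) a4 a5 a6 a7 a8) (.pop 3)
    (S9 a0 a1 a2 a3 a4 a5 a6 a7 a8) := ⟨trivial, S9.u3 ..⟩
theorem pop4 : Rn L (S9 a0 a1 a2 a3 (b :: a4) a5 a6 a7 a8) (.pop 4)
    (S9 a0 a1 a2 a3 a4 a5 a6 a7 a8) := ⟨trivial, S9.u4 ..⟩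

theorem clear1 (h : a1.length ≤ L) : Rn L (S9 a0 a1 a2 a3 a4 a5 a6 a7 a8) (Cmd.clear 1)
    (S9 a0 [] a2 a3 a4 a5 a6 a7 a8) := ⟨Cmd.LB_clear h, by rw [Cmd.eval_clear, S9.u1]⟩
theorem clear2 (h : a2.length ≤ L) : Rn L (S9 a0 a1 a2 a3 a4 a5 a6 a7 a8) (Cmd.clear 2)
    (S9 a0 a1 [] a3 a4 a5 a6 a7 a8) := ⟨Cmd.LB_clear h, by rw [Cmd.eval_clear, S9.u2]⟩
theorem clear6 (h : a6.length ≤ L) : Rn L (S9 a0 a1 a2 a3 a4 a5 a6 a7 a8) (Cmd.clear 6)
    (S9 a0 a1 a2 a3 a4 a5 [] a7 a8) := ⟨Cmd.LB_clear h, by rw [Cmd.eval_clear, S9.u6]⟩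

theorem mv60 (h : a6.length ≤ L) : Rn L (S9 a0 a1 a2 a3 a4 a5 a6 a7 a8) (Cmd.mv 6 0)
    (S9 (a6.reverse ++ a0) a1 a2 a3 a4 a5 [] a7 a8) :=
  ⟨Cmd.LB_mv (by norm_num) h, by rw [Cmd.eval_mv (by norm_num), S9.u6, S9.u0]; rfl⟩
theorem mv48 (h : a4.length ≤ L) : Rn L (S9 a0 a1 a2 a3 a4 a5 a6 a7 a8) (Cmd.mv 4 8)
    (S9 a0 a1 a2 a3 [] a5 a6 a7 (a4.reverse ++ a8)) :=
  ⟨Cmd.LB_mv (by norm_num) h, by rw [Cmd.eval_mv (by norm_num), S9.u4, S9.u8]; rfl⟩

theorem copy14 (h : a1.length ≤ L) : Rn L (S9 a0 a1 a2 a3 a4 [] a6 a7 a8) (Cmd.copy 1 4 5)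
    (S9 a0 a1 a2 a3 (a1 ++ a4) [] a6 a7 a8) :=
  ⟨Cmd.LB_copy (by norm_num) (by norm_num) (by norm_num) rfl h, by
    rw [Cmd.eval_copy (by norm_num) (by norm_num) (by norm_num) rfl, S9.u4]; rfl⟩
theorem copy24 (h : a2.length ≤ L) : Rn L (S9 a0 a1 a2 a3 a4 [] a6 a7 a8) (Cmd.copy 2 4 5)
    (S9 a0 a1 a2 a3 (a2 ++ a4) [] a6 a7 a8) :=
  ⟨Cmd.LB_copy (by norm_num) (by norm_num) (by norm_num) rfl h, by
    rw [Cmd.eval_copy (by norm_num) (by norm_num) (by norm_num) rfl, S9.u4]; rfl⟩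
theorem copy64 (h : a6.length ≤ L) : Rn L (S9 a0 a1 a2 a3 a4 [] a6 a7 a8) (Cmd.copy 6 4 5)
    (S9 a0 a1 a2 a3 (a6 ++ a4) [] a6 a7 a8) :=
  ⟨Cmd.LB_copy (by norm_num) (by norm_num) (by norm_num) rfl h, by
    rw [Cmd.eval_copy (by norm_num) (by norm_num) (by norm_num) rfl, S9.u4]; rfl⟩
theorem copy74 (h : a7.length ≤ L) : Rn L (S9 a0 a1 a2 a3 a4 [] a6 a7 a8) (Cmd.copy 7 4 5)
    (S9 a0 a1 a2 a3 (a7 ++ a4) [] a6 a7 a8) :=
  ⟨Cmd.LB_copy (by norm_num) (by norm_num) (by norm_num) rfl h, by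
    rw [Cmd.eval_copy (by norm_num) (by norm_num) (by norm_num) rfl, S9.u4]; rfl⟩
theorem copy18 (h : a1.length ≤ L) : Rn L (S9 a0 a1 a2 a3 a4 [] a6 a7 a8) (Cmd.copy 1 8 5)
    (S9 a0 a1 a2 a3 a4 [] a6 a7 (a1 ++ a8)) :=
  ⟨Cmd.LB_copy (by norm_num) (by norm_num) (by norm_num) rfl h, by
    rw [Cmd.eval_copy (by norm_num) (by norm_num) (by norm_num) rfl, S9.u8]; rfl⟩
theorem copy17 (h : a1.length ≤ L) : Rn L (S9 a0 a1 a2 a3 a4 [] a6 a7 a8) (Cmd.copy 1 7 5)
    (S9 a0 a1 a2 a3 a4 [] a6 (a1 ++ a7) a8) :=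
  ⟨Cmd.LB_copy (by norm_num) (by norm_num) (by norm_num) rfl h, by
    rw [Cmd.eval_copy (by norm_num) (by norm_num) (by norm_num) rfl, S9.u7]; rfl⟩
theorem copy38 (h : a3.length ≤ L) : Rn L (S9 a0 a1 a2 a3 a4 [] a6 a7 a8) (Cmd.copy 3 8 5)
    (S9 a0 a1 a2 a3 a4 [] a6 a7 (a3 ++ a8)) :=
  ⟨Cmd.LB_copy (by norm_num) (by norm_num) (by norm_num) rfl h, by
    rw [Cmd.eval_copy (by norm_num) (by norm_num) (by norm_num) rfl, S9.u8]; rfl⟩
theorem copy78 (h : a7.length ≤ L) : Rn L (S9 a0 a1 a2 a3 a4 [] a6 a7 a8) (Cmd.copy 7 8 5)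
    (S9 a0 a1 a2 a3 a4 [] a6 a7 (a7 ++ a8)) :=
  ⟨Cmd.LB_copy (by norm_num) (by norm_num) (by norm_num) rfl h, by
    rw [Cmd.eval_copy (by norm_num) (by norm_num) (by norm_num) rfl, S9.u8]; rfl⟩

end

/-- code of one edge -/
def ce (x y : ℕ) : List Bool := true :: (un x ++ false :: (un y ++ [false]))

theorem ce_rev (x y : ℕ) (o : List Bool) : (ce x y).reverse ++ o =
    false :: (un y ++ (false :: (un x ++ (true :: o)))) := by
  simp [ce]

theorem un_cons (n : ℕ) : true :: un n = un (n + 1) := by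
  simp [List.replicate_succ]

theorem codeE_nil : GI.codeE [] = [] := rfl

theorem codeE_cons (e : ℕ × ℕ) (l : List (ℕ × ℕ)) :
    GI.codeE (e :: l) = ce e.1 e.2 ++ GI.codeE l := rfl

theorem codeE_append (l l' : List (ℕ × ℕ)) :
    GI.codeE (l ++ l') = GI.codeE l ++ GI.codeE l' := by
  unfold GI.codeE
  rw [List.flatMap_append]

/-! ### the edges at `p` -/

/-- body of the first loop: the edge `(0, v + 1)` -/
def bP : Cmd := .seq (.push 2 true) (.seq (.push 4 true) (.seq (.push 4 false)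
  (.seq (Cmd.copy 2 4 5) (.push 4 false))))

theorem bP_loop (a0 a1 a3 a7 : List Bool) : ∀ (n v : ℕ) (o : List Bool), v + n ≤ L →
    RnL L 8 bP bP (un n) (S9 a0 a1 (un v) a3 o [] [] a7 (un n))
      (S9 a0 a1 (un (v + n)) a3
        ((GI.codeE ((List.range n).map (fun w => (0, v + w + 1)))).reverse ++ o) [] [] a7 [])
  | 0, v, o, _ => by
    have := RnL.nil (L := L) (r := 8) (c0 := bP) (c1 := bP) (S9 a0 a1 (un v) a3 o [] [] a7 [])
    simpa [codeE_nil] using this
  | n + 1, v, o, h => by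
    have hs : un (n + 1) = true :: un n := by simp [List.replicate_succ]
    rw [hs]
    refine RnL.cons (s' := S9 a0 a1 (un (v + 1)) a3 ((ce 0 (v + 1)).reverse ++ o) [] [] a7 (un n))
      ?_ ?_
    · rw [S9.u8, ite_self]
      have h1 := push2 (L := L) a0 a1 (un v) a3 o [] [] a7 (un n) true
      rw [un_cons] at h1
      have h2 := push4 (L := L) a0 a1 (un (v + 1)) a3 o [] [] a7 (un n) true
      have h3 := push4 (L := L) a0 a1 (un (v + 1)) a3 (true :: o) [] [] a7 (un n) false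
      have h4 := copy24 (L := L) a0 a1 (un (v + 1)) a3 (false :: true :: o) [] a7 (un n)
        (by simp; omega)
      have h5 := push4 (L := L) a0 a1 (un (v + 1)) a3 (un (v + 1) ++ (false :: true :: o)) [] []
        a7 (un n) false
      have h6 := h1.seq (h2.seq (h3.seq (h4.seq h5)))
      rw [ce_rev]
      exact h6
    · have := bP_loop a0 a1 a3 a7 n (v + 1) ((ce 0 (v + 1)).reverse ++ o) (by omega)
      have e1 : v + 1 + n = v + (n + 1) := by omega
      rw [e1] at this
      convert this using 2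
      rw [List.range_succ_eq_map, List.map_cons, codeE_cons, List.reverse_append,
        List.append_assoc, List.map_map]
      congr 3
      refine List.map_congr_left fun w _ => ?_
      simp only [comp_apply]
      congr 1
      omega

/-! ### one path -/

/-- body of the loop along a path: the edge `(cur, cur + 1)` -/
def bC : Cmd := .seq (.push 4 true) (.seq (Cmd.copy 7 4 5) (.seq (.push 4 false)
  (.seq (.push 7 true) (.seq (Cmd.copy 7 4 5) (.push 4 false)))))

theorem bC_loop (a0 a1 a2 a3 a6 : List Bool) : ∀ (n c : ℕ) (o : List Bool), c + n ≤ L →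
    RnL L 8 bC bC (un n) (S9 a0 a1 a2 a3 o [] a6 (un c) (un n))
      (S9 a0 a1 a2 a3
        ((GI.codeE ((List.range n).map (fun t => (c + t, c + t + 1)))).reverse ++ o) [] a6
        (un (c + n)) [])
  | 0, c, o, _ => by
    have := RnL.nil (L := L) (r := 8) (c0 := bC) (c1 := bC) (S9 a0 a1 a2 a3 o [] a6 (un c) [])
    simpa [codeE_nil] using this
  | n + 1, c, o, h => by
    have hs : un (n + 1) = true :: un n := by simp [List.replicate_succ]
    rw [hs]
    refine RnL.cons (s' := S9 a0 a1 a2 a3 ((ce c (c + 1)).reverse ++ o) [] a6 (un (c + 1)) (un n))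
      ?_ ?_
    · rw [S9.u8, ite_self]
      have h1 := push4 (L := L) a0 a1 a2 a3 o [] a6 (un c) (un n) true
      have h2 := copy74 (L := L) a0 a1 a2 a3 (true :: o) a6 (un c) (un n) (by simp; omega)
      have h3 := push4 (L := L) a0 a1 a2 a3 (un c ++ (true :: o)) [] a6 (un c) (un n) false
      have h4 := push7 (L := L) a0 a1 a2 a3 (false :: (un c ++ (true :: o))) [] a6 (un c) (un n)
        true
      rw [un_cons] at h4
      have h5 := copy74 (L := L) a0 a1 a2 a3 (false :: (un c ++ (true :: o))) a6 (un (c + 1))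
        (un n) (by simp; omega)
      have h6 := push4 (L := L) a0 a1 a2 a3 (un (c + 1) ++ (false :: (un c ++ (true :: o)))) [] a6
        (un (c + 1)) (un n) false
      have h7 := h1.seq (h2.seq (h3.seq (h4.seq (h5.seq h6))))
      rw [ce_rev]
      exact h7
    · have := bC_loop a0 a1 a2 a3 a6 n (c + 1) ((ce c (c + 1)).reverse ++ o) (by omega)
      have e1 : c + 1 + n = c + (n + 1) := by omega
      rw [e1] at this
      convert this using 2
      rw [List.range_succ_eq_map, List.map_cons, codeE_cons, List.reverse_append,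
        List.append_assoc, List.map_map]
      congr 3
      refine List.map_congr_left fun w _ => ?_
      simp only [comp_apply]
      have e2 : c + (w + 1) = c + 1 + w := by omega
      simp only [Nat.succ_eq_add_one, e2]

/-- the path of an edge, ends in the registers 1 and 6 -/
def emE : Cmd :=
  .seq (.push 1 true) (.seq (.push 4 true) (.seq (Cmd.copy 1 4 5) (.seq (.push 4 false)
  (.seq (Cmd.copy 7 4 5) (.seq (.push 4 false) (.seq (Cmd.copy 3 8 5) (.seq (.loop 8 bC bC)
  (.seq (.push 6 true) (.seq (.push 4 true) (.seq (Cmd.copy 6 4 5) (.seq (.push 4 false)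
  (.seq (Cmd.copy 7 4 5) (.seq (.push 4 false) (.seq (.push 7 true) (.seq (Cmd.clear 1)
  (Cmd.clear 6))))))))))))))))

theorem emE_run (a0 a2 o : List Bool) {x y k1 c : ℕ} (hx : x + 1 ≤ L) (hy : y + 1 ≤ L)
    (hc : c + k1 ≤ L) :
    Rn L (S9 a0 (un x) a2 (un k1) o [] (un y) (un c) []) emE
      (S9 a0 [] a2 (un k1) ((GI.codeE (edgeOut k1 c (x, y))).reverse ++ o) [] []
        (un (c + k1 + 1)) []) := by
  have h1 := push1 (L := L) a0 (un x) a2 (un k1) o [] (un y) (un c) [] true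
  rw [un_cons] at h1
  have h2 := push4 (L := L) a0 (un (x + 1)) a2 (un k1) o [] (un y) (un c) [] true
  have h3 := copy14 (L := L) a0 (un (x + 1)) a2 (un k1) (true :: o) (un y) (un c) []
    (by simpa using hx)
  have h4 := push4 (L := L) a0 (un (x + 1)) a2 (un k1) (un (x + 1) ++ (true :: o)) [] (un y)
    (un c) [] false
  have h5 := copy74 (L := L) a0 (un (x + 1)) a2 (un k1) (false :: (un (x + 1) ++ (true :: o)))
    (un y) (un c) [] (by simp; omega)
  have h6 := push4 (L := L) a0 (un (x + 1)) a2 (un k1)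
    (un c ++ (false :: (un (x + 1) ++ (true :: o)))) [] (un y) (un c) [] false
  rw [← ce_rev] at h6
  have h7 := copy38 (L := L) a0 (un (x + 1)) a2 (un k1) ((ce (x + 1) c).reverse ++ o) (un y)
    (un c) [] (by simp; omega)
  rw [List.append_nil] at h7
  have h8 : Rn L (S9 a0 (un (x + 1)) a2 (un k1) ((ce (x + 1) c).reverse ++ o) [] (un y)
      (un c) (un k1)) (.loop 8 bC bC) _ :=
    Rn.loop (by show (un k1).length ≤ L; simp; omega)
      (bC_loop (L := L) a0 (un (x + 1)) a2 (un k1) (un y) k1 c ((ce (x + 1) c).reverse ++ o) hc)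
  set o1 := (GI.codeE ((List.range k1).map (fun t => (c + t, c + t + 1)))).reverse ++
    ((ce (x + 1) c).reverse ++ o) with ho1
  have h9 := push6 (L := L) a0 (un (x + 1)) a2 (un k1) o1 [] (un y) (un (c + k1)) [] true
  rw [un_cons] at h9
  have h10 := push4 (L := L) a0 (un (x + 1)) a2 (un k1) o1 [] (un (y + 1)) (un (c + k1)) [] true
  have h11 := copy64 (L := L) a0 (un (x + 1)) a2 (un k1) (true :: o1) (un (y + 1)) (un (c + k1))
    [] (by simpa using hy)
  have h12 := push4 (L := L) a0 (un (x + 1)) a2 (un k1) (un (y + 1) ++ (true :: o1)) []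
    (un (y + 1)) (un (c + k1)) [] false
  have h13 := copy74 (L := L) a0 (un (x + 1)) a2 (un k1)
    (false :: (un (y + 1) ++ (true :: o1))) (un (y + 1)) (un (c + k1)) [] (by simpa using hc)
  have h14 := push4 (L := L) a0 (un (x + 1)) a2 (un k1)
    (un (c + k1) ++ (false :: (un (y + 1) ++ (true :: o1)))) [] (un (y + 1)) (un (c + k1)) [] false
  rw [← ce_rev] at h14
  have h15 := push7 (L := L) a0 (un (x + 1)) a2 (un k1) ((ce (y + 1) (c + k1)).reverse ++ o1) []
    (un (y + 1)) (un (c + k1)) [] true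
  rw [un_cons] at h15
  have h16 := clear1 (L := L) a0 (un (x + 1)) a2 (un k1) ((ce (y + 1) (c + k1)).reverse ++ o1) []
    (un (y + 1)) (un (c + k1 + 1)) [] (by simpa using hx)
  have h17 := clear6 (L := L) a0 [] a2 (un k1) ((ce (y + 1) (c + k1)).reverse ++ o1) []
    (un (y + 1)) (un (c + k1 + 1)) [] (by simpa using hy)
  have hall := h1.seq (h2.seq (h3.seq (h4.seq (h5.seq (h6.seq (h7.seq (h8.seq (h9.seq (h10.seq
    (h11.seq (h12.seq (h13.seq (h14.seq (h15.seq (h16.seq h17)))))))))))))))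
  have ho : (GI.codeE (edgeOut k1 c (x, y))).reverse ++ o =
      (ce (y + 1) (c + k1)).reverse ++ o1 := by
    rw [ho1, edgeOut, codeE_cons, codeE_append, codeE_cons, codeE_nil, List.append_nil]
    simp only [List.reverse_append, List.append_assoc]
  rw [ho]
  exact hall

/-! ### the main loop -/

/-- a bit `0` -/
def m0 : Cmd := .ite 2 .nop (.seq emE (.pop 2)) (.seq (.pop 2) (.push 2 false))

/-- a bit `1` -/
def m1 : Cmd := .ite 2 (.push 2 true) (.push 6 true) (.push 1 true)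

theorem ite_false' {r : ℕ} {c0 c1 c2 : Cmd} {s s' : St} {l : List Bool} (h : s r = false :: l)
    (h' : Rn L s c1 s') : Rn L s (.ite r c0 c1 c2) s' := by
  constructor
  · simp only [Cmd.LB, h]; exact h'.1
  · simp only [Cmd.eval, h]; exact h'.2

/-- runs of the main loop -/
def Go (L : ℕ) (l a1 a2 a3 o a6 a7 : List Bool) (s : St) : Prop :=
  RnL L 0 m0 m1 l (S9 l a1 a2 a3 o [] a6 a7 []) s

theorem Go.step {b : Bool} {l a1 a2 a3 o a6 a7 a1' a2' a3' o' a6' a7' : List Bool} {s : St}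
    (h : Rn L (S9 l a1 a2 a3 o [] a6 a7 []) (if b then m1 else m0)
      (S9 l a1' a2' a3' o' [] a6' a7' []))
    (h' : Go L l a1' a2' a3' o' a6' a7' s) : Go L (b :: l) a1 a2 a3 o a6 a7 s := by
  refine RnL.cons (s' := S9 l a1' a2' a3' o' [] a6' a7' []) ?_ h'
  rw [S9.u0]
  exact h

theorem Go.un1 {l a3 o a7 : List Bool} {s : St} : ∀ (j x : ℕ),
    Go L l (un (x + j)) [true] a3 o [] a7 s → Go L (un j ++ l) (un x) [true] a3 o [] a7 s
  | 0, x, h => by simpa using h
  | j + 1, x, h => by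
    have e : un (j + 1) ++ l = true :: (un j ++ l) := by simp [List.replicate_succ]
    rw [e]
    refine Go.step (a1' := un (x + 1)) (a2' := [true]) (a3' := a3) (o' := o) (a6' := [])
      (a7' := a7) ?_ (Go.un1 j (x + 1) ?_)
    · refine Rn.ite_true (l := []) rfl ?_
      have := push1 (L := L) (un j ++ l) (un x) [true] a3 o [] [] a7 [] true
      rw [un_cons] at this
      exact this
    · have e1 : x + 1 + j = x + (j + 1) := by omega
      rw [e1]
      exact h

theorem Go.un6 {l a1 a3 o a7 : List Bool} {s : St} : ∀ (j y : ℕ),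
    Go L l a1 [false] a3 o (un (y + j)) a7 s → Go L (un j ++ l) a1 [false] a3 o (un y) a7 s
  | 0, y, h => by simpa using h
  | j + 1, y, h => by
    have e : un (j + 1) ++ l = true :: (un j ++ l) := by simp [List.replicate_succ]
    rw [e]
    refine Go.step (a1' := a1) (a2' := [false]) (a3' := a3) (o' := o) (a6' := un (y + 1))
      (a7' := a7) ?_ (Go.un6 j (y + 1) ?_)
    · refine ite_false' (l := []) rfl ?_
      have := push6 (L := L) (un j ++ l) a1 [false] a3 o [] (un y) a7 [] true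
      rw [un_cons] at this
      exact this
    · have e1 : y + 1 + j = y + (j + 1) := by omega
      rw [e1]
      exact h

theorem Go.edge {e : ℕ × ℕ} {l o : List Bool} {k1 c : ℕ} {s : St} (hx : e.1 + 1 ≤ L)
    (hy : e.2 + 1 ≤ L) (hc : c + k1 ≤ L)
    (h : Go L l [] [] (un k1) ((GI.codeE (edgeOut k1 c e)).reverse ++ o) [] (un (c + k1 + 1)) s) :
    Go L (ce e.1 e.2 ++ l) [] [] (un k1) o [] (un c) s := by
  have e1 : ce e.1 e.2 ++ l = true :: (un e.1 ++ (false :: (un e.2 ++ (false :: l)))) := by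
    simp [ce]
  rw [e1]
  refine Go.step (a1' := un 0) (a2' := [true]) (a3' := un k1) (o' := o) (a6' := [])
      (a7' := un c) ?_ (Go.un1 e.1 0 ?_)
  · refine Rn.ite_nil rfl ?_
    exact push2 (L := L) _ [] [] (un k1) o [] [] (un c) [] true
  rw [Nat.zero_add]
  refine Go.step (a1' := un e.1) (a2' := [false]) (a3' := un k1) (o' := o) (a6' := un 0)
      (a7' := un c) ?_ (Go.un6 e.2 0 ?_)
  · refine Rn.ite_true (l := []) rfl ?_
    exact (pop2 (L := L) _ (un e.1) [] (un k1) o [] [] (un c) [] true).seq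
      (push2 (L := L) _ (un e.1) [] (un k1) o [] [] (un c) [] false)
  rw [Nat.zero_add]
  refine Go.step (a1' := []) (a2' := []) (a3' := un k1)
      (o' := (GI.codeE (edgeOut k1 c e)).reverse ++ o) (a6' := [])
      (a7' := un (c + k1 + 1)) ?_ h
  refine ite_false' (l := []) rfl ?_
  exact (emE_run (L := L) l [false] o hx hy hc).seq
    (pop2 (L := L) l [] [] (un k1) _ [] [] (un (c + k1 + 1)) [] false)

theorem Go.all {k1 : ℕ} : ∀ (E : List (ℕ × ℕ)) (c : ℕ) (o : List Bool),
    (∀ e ∈ E, e.1 + 1 ≤ L ∧ e.2 + 1 ≤ L) → c + E.length * (k1 + 1) ≤ L →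
    Go L (GI.codeE E) [] [] (un k1) o [] (un c)
      (S9 [] [] [] (un k1) ((GI.codeE (outs k1 c E)).reverse ++ o) [] []
        (un (c + E.length * (k1 + 1))) [])
  | [], c, o, _, _ => by
    have := RnL.nil (L := L) (r := 0) (c0 := m0) (c1 := m1)
      (S9 [] [] [] (un k1) o [] [] (un c) [])
    simpa [Go, outs, codeE_nil] using this
  | e :: E, c, o, he, hL => by
    have h1 := he e List.mem_cons_self
    have h2 : c + (e :: E).length * (k1 + 1) = c + k1 + 1 + E.length * (k1 + 1) := by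
      simp only [List.length_cons]; ring
    rw [codeE_cons]
    refine Go.edge h1.1 h1.2 (by rw [h2] at hL; omega) ?_
    have h3 := Go.all (k1 := k1) E (c + k1 + 1) ((GI.codeE (edgeOut k1 c e)).reverse ++ o)
      (fun e' h' => he e' (List.mem_cons_of_mem _ h')) (by rw [← h2]; exact hL)
    rw [h2, outs, codeE_append, List.reverse_append, List.append_assoc]
    exact h3

/-! ### the program -/

/-- the program, with a program `c` for the number `(n + 2) ^ 8` -/
def main (c : Cmd) : Cmd :=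
  .seq rd (.seq (.pop 4) (.seq (Cmd.mv 6 0) (.seq c (.seq (.pop 3) (.seq (Cmd.copy 1 7 5)
  (.seq (.push 7 true) (.seq (Cmd.copy 1 8 5) (.seq (.loop 8 bP bP) (.seq (Cmd.clear 2)
  (.seq (Cmd.clear 1) (.seq (.loop 0 m0 m1) (.seq (Cmd.mv 4 8) (.seq (.push 8 false)
  (Cmd.copy 7 8 5))))))))))))))

theorem main_ok {c : Cmd} (hc : c.ok = true) : (main c).ok = true := by
  simp only [main, Cmd.ok, hc, Bool.true_and, Bool.and_eq_true]
  decide

theorem main_run {c : Cmd} {n N : ℕ} {E : List (ℕ × ℕ)}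
    (hc : ∀ s : St, s 2 = [] → s 5 = [] → s 8 = [] → (s 1).length ≤ N →
      c.eval s = update s 3 (un (((s 1).length + 2) ^ 8) ++ s 3) ∧ c.LB L s)
    (hn : n ≤ N) (hN : (un n ++ false :: GI.codeE E).length ≤ L)
    (hE : ∀ e ∈ E, e.1 + 1 ≤ L ∧ e.2 + 1 ≤ L)
    (h1 : n + 1 + E.length * (K1 n + 1) ≤ L)
    (h2 : (GI.codeE (redE n (K1 n) E)).length ≤ L) :
    (main c).LB L (initSt 0 (un n ++ false :: GI.codeE E)) ∧
    (main c).eval (initSt 0 (un n ++ false :: GI.codeE E)) 8 =
      un (n + 1 + E.length * (K1 n + 1)) ++ false :: GI.codeE (redE n (K1 n) E) := by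
  set rest := GI.codeE E with hrest
  have hlen : n + 1 + rest.length ≤ L := by
    simp only [List.length_append, List.length_replicate, List.length_cons] at hN
    omega
  set k1 := K1 n with hk1
  have hK : (n + 2) ^ 8 = k1 + 1 := by
    rw [hk1]
    unfold K1
    exact (Nat.sub_add_cancel (Nat.one_le_pow _ _ (by omega))).symm
  have g1 : Rn L (S9 (un n ++ false :: rest) [] [] [] [] [] [] [] []) rd
      (S9 [] (un n) [] [] [true] [] rest.reverse [] []) := by
    refine Rn.loop hN ?_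
    have := rd_A (L := L) rest n 0
    rw [Nat.zero_add] at this
    exact this
  have g2 := pop4 (L := L) [] (un n) [] [] [] [] rest.reverse [] [] true
  have g3 := mv60 (L := L) [] (un n) [] [] [] [] rest.reverse [] [] (by
    rw [List.length_reverse]; omega)
  rw [List.reverse_reverse, List.append_nil] at g3
  have g4 : Rn L (S9 rest (un n) [] [] [] [] [] [] []) c
      (S9 rest (un n) [] (true :: un k1) [] [] [] [] []) := by
    obtain ⟨e1, e2⟩ := hc (S9 rest (un n) [] [] [] [] [] [] []) rfl rfl rfl (by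
      show (un n).length ≤ N
      simpa using hn)
    refine ⟨e2, ?_⟩
    rw [e1, S9.u3]
    show S9 _ _ _ (un (((un n).length + 2) ^ 8) ++ []) _ _ _ _ _ = _
    rw [List.length_replicate, hK, un_cons, List.append_nil]
  have g5 := pop3 (L := L) rest (un n) [] (un k1) [] [] [] [] [] true
  have g6 := copy17 (L := L) rest (un n) [] (un k1) [] [] [] [] (by simp; omega)
  rw [List.append_nil] at g6
  have g7 := push7 (L := L) rest (un n) [] (un k1) [] [] [] (un n) [] true
  rw [un_cons] at g7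
  have g8 := copy18 (L := L) rest (un n) [] (un k1) [] [] (un (n + 1)) [] (by simp; omega)
  rw [List.append_nil] at g8
  have g9 : Rn L (S9 rest (un n) [] (un k1) [] [] [] (un (n + 1)) (un n)) (.loop 8 bP bP) _ :=
    Rn.loop (by show (un n).length ≤ L; simp; omega)
      (bP_loop (L := L) rest (un n) (un k1) (un (n + 1)) n 0 [] (by omega))
  simp only [Nat.zero_add, List.append_nil] at g9
  set o := (GI.codeE ((List.range n).map (fun w => (0, w + 1)))).reverse with ho
  have g10 := clear2 (L := L) rest (un n) (un n) (un k1) o [] [] (un (n + 1)) [] (by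
    simp; omega)
  have g11 := clear1 (L := L) rest (un n) [] (un k1) o [] [] (un (n + 1)) [] (by simp; omega)
  have g12 : Rn L (S9 rest [] [] (un k1) o [] [] (un (n + 1)) []) (.loop 0 m0 m1) _ :=
    Rn.loop (by show rest.length ≤ L; omega)
      (Go.all (L := L) (k1 := k1) E (n + 1) o hE h1)
  have ho2 : (GI.codeE (outs k1 (n + 1) E)).reverse ++ o =
      (GI.codeE (redE n k1 E)).reverse := by
    rw [ho, redE, codeE_append, List.reverse_append]
  rw [ho2] at g12
  have g13 := mv48 (L := L) [] [] [] (un k1) (GI.codeE (redE n k1 E)).reverse [] []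
    (un (n + 1 + E.length * (k1 + 1))) [] (by rw [List.length_reverse]; exact h2)
  rw [List.reverse_reverse, List.append_nil] at g13
  have g14 := push8 (L := L) [] [] [] (un k1) [] [] []
    (un (n + 1 + E.length * (k1 + 1))) (GI.codeE (redE n k1 E)) false
  have g15 := copy78 (L := L) [] [] [] (un k1) [] [] (un (n + 1 + E.length * (k1 + 1)))
    (false :: GI.codeE (redE n k1 E)) (by simpa using h1)
  have g := g1.seq (g2.seq (g3.seq (g4.seq (g5.seq (g6.seq (g7.seq (g8.seq (g9.seq (g10.seq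
    (g11.seq (g12.seq (g13.seq (g14.seq g15)))))))))))))
  have e0 : initSt 0 (un n ++ false :: rest) = S9 (un n ++ false :: rest) [] [] [] [] [] [] [] [] :=
    S9.init _
  rw [e0]
  refine ⟨g.1, ?_⟩
  have := congrFun g.2 8
  exact this

/-! ### lengths -/

theorem ce_len (x y : ℕ) : (ce x y).length = x + y + 3 := by
  simp [ce]; omega

theorem codeE_len {B : ℕ} : ∀ {E : List (ℕ × ℕ)}, (∀ e ∈ E, e.1 ≤ B ∧ e.2 ≤ B) →
    (GI.codeE E).length ≤ E.length * (2 * B + 3)
  | [], _ => by simp [codeE_nil]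
  | e :: E, h => by
    have h1 := codeE_len (B := B) (E := E) fun e' h' => h e' (List.mem_cons_of_mem _ h')
    have h2 := h e List.mem_cons_self
    rw [codeE_cons, List.length_append, ce_len, List.length_cons, add_mul, one_mul]
    omega

theorem len_codeE : ∀ E : List (ℕ × ℕ), E.length ≤ (GI.codeE E).length
  | [] => by simp
  | e :: E => by
    have := len_codeE E
    rw [codeE_cons, List.length_append, List.length_cons, ce_len]
    omega

theorem mem_codeE : ∀ {E : List (ℕ × ℕ)} {e : ℕ × ℕ}, e ∈ E →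
    e.1 + 1 ≤ (GI.codeE E).length ∧ e.2 + 1 ≤ (GI.codeE E).length
  | e' :: E, e, h => by
    rw [codeE_cons, List.length_append, ce_len]
    rcases List.mem_cons.1 h with rfl | h
    · omega
    · have := mem_codeE h
      omega

theorem outs_length (k1 : ℕ) : ∀ (E : List (ℕ × ℕ)) (c : ℕ),
    (outs k1 c E).length = E.length * (k1 + 2)
  | [], c => by simp [outs]
  | e :: E, c => by
    rw [outs, List.length_append, outs_length k1 E]
    simp only [edgeOut, List.length_cons, List.length_append, List.length_map, List.length_range,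
      List.length_nil]
    ring

theorem redE_length (n k1 : ℕ) (E : List (ℕ × ℕ)) :
    (redE n k1 E).length = n + E.length * (k1 + 2) := by
  rw [redE, List.length_append, List.length_map, List.length_range, outs_length]

end TM

open TM in
theorem TM_main : StTM := by
  intro f hf
  obtain ⟨c, T, pbT, moT, okc, -, spc⟩ := Cmd.exists_poly ((Polynomial.X + 2) ^ 8)
    (n := 1) (d := 3) (t1 := 2) (t2 := 5) (t3 := 8) (by norm_num) (by norm_num) (by norm_num)
    (by norm_num) (by norm_num) (by norm_num) (by norm_num) (by norm_num) (by norm_num)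
    (by norm_num)
  refine polyTime_of_prog _ _ _ (main c) (main_ok okc) 8
    (fun N => T N + (((N + 2) ^ 9) * (2 * (N + 2) ^ 9 + 3) + (N + 2) ^ 9)) ?_ fun H => ?_
  · refine pbT.add ?_
    have hB : PB fun N => (N + 2) ^ 9 := (PB.id.add (PB.const 2)).pow 9
    exact (hB.mul (((PB.const 2).mul hB).add (PB.const 3))).add hB
  · have hcode : H.code = un H.n ++ false :: GI.codeE H.E := rfl
    have hcode2 : (f H).code = un (H.n + 1 + H.E.length * (K1 H.n + 1)) ++
        false :: GI.codeE (redE H.n (K1 H.n) H.E) := by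
      have : (f H).code = un (f H).n ++ false :: GI.codeE (f H).E := rfl
      rw [this, (hf H).1, (hf H).2]
    rw [hcode, hcode2]
    set N := (un H.n ++ false :: GI.codeE H.E).length with hN
    have hN2 : N = H.n + 1 + (GI.codeE H.E).length := by
      rw [hN]
      simp only [List.length_append, List.length_replicate, List.length_cons]
      omega
    have hEl := len_codeE H.E
    have hK : K1 H.n + 1 = (H.n + 2) ^ 8 := by
      unfold K1
      exact Nat.sub_add_cancel (Nat.one_le_pow _ _ (by omega))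
    have hK2 : (H.n + 2) ^ 8 ≤ (N + 2) ^ 8 := Nat.pow_le_pow_left (by omega) 8
    set B := (N + 2) ^ 9 with hB
    have hB2 : B = (N + 2) * (N + 2) ^ 8 := by rw [hB]; ring
    have hP : 1 ≤ (N + 2) ^ 8 := Nat.one_le_pow _ _ (by omega)
    have hn' : H.n + 1 + H.E.length * (K1 H.n + 1) ≤ B := by
      rw [hK]
      have h1 : H.E.length * (H.n + 2) ^ 8 ≤ (GI.codeE H.E).length * (N + 2) ^ 8 :=
        Nat.mul_le_mul hEl hK2
      have h2 : H.n + 1 ≤ (H.n + 1) * (N + 2) ^ 8 := Nat.le_mul_of_pos_right _ hP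
      have h3 : (H.n + 1) * (N + 2) ^ 8 + (GI.codeE H.E).length * (N + 2) ^ 8 =
          N * (N + 2) ^ 8 := by
        rw [← add_mul, ← hN2]
      have h4 : N * (N + 2) ^ 8 ≤ (N + 2) * (N + 2) ^ 8 := Nat.mul_le_mul_right _ (by omega)
      omega
    have hlen : (redE H.n (K1 H.n) H.E).length ≤ B := by
      rw [redE_length]
      have h0 : K1 H.n + 2 = (H.n + 2) ^ 8 + 1 := by omega
      rw [h0]
      have h1 : H.E.length * ((H.n + 2) ^ 8 + 1) ≤ (GI.codeE H.E).length * ((N + 2) ^ 8 + 1) :=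
        Nat.mul_le_mul hEl (by omega)
      have h2 : H.n ≤ H.n * (N + 2) ^ 8 := Nat.le_mul_of_pos_right _ hP
      have h3 : (GI.codeE H.E).length * ((N + 2) ^ 8 + 1) =
        (GI.codeE H.E).length * (N + 2) ^ 8 + (GI.codeE H.E).length := by ring
      have h4 : (GI.codeE H.E).length ≤ 2 * (N + 2) ^ 8 := by
        have h5 : N + 2 ≤ (N + 2) ^ 8 := Nat.le_self_pow (by norm_num) _
        omega
      have h6 : H.n * (N + 2) ^ 8 + (GI.codeE H.E).length * (N + 2) ^ 8 + 2 * (N + 2) ^ 8 ≤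
          (N + 2) * (N + 2) ^ 8 := by
        rw [← add_mul, ← add_mul]
        exact Nat.mul_le_mul_right _ (by omega)
      omega
    have hcl : (GI.codeE (redE H.n (K1 H.n) H.E)).length ≤ B * (2 * B + 3) := by
      have h1 : ∀ e ∈ redE H.n (K1 H.n) H.E, e.1 ≤ B ∧ e.2 ≤ B := by
        intro e he
        rw [← (hf H).2] at he
        have := (f H).lt e he
        rw [(hf H).1] at this
        omega
      exact (codeE_len h1).trans (Nat.mul_le_mul_right _ hlen)
    have hNB : N ≤ B := by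
      rw [hB]
      exact (by omega : N ≤ N + 2).trans (Nat.le_self_pow (by norm_num) _)
    refine main_run (N := N) ?_ (by omega) (by omega) ?_ (by omega) (by omega)
    · intro s s2 s5 s8 hs
      obtain ⟨e1, e2⟩ := spc s s2 s5 s8
      refine ⟨?_, e2.mono ((moT hs).trans (by omega))⟩
      rw [e1]
      congr 3
      simp
    · intro e he
      have := mem_codeE he
      omega

end Pool.Agent.Helper79.OC
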