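import Pool.Agent.Helper79.OC.St

/-!
# MP_8ec342_lc, module TwoP: embeddings with two pages in terms of `NC`
-/

set_option autoImplicit false

namespace Pool.Agent.Helper79.OC

open Classical in
/-- rank of the position -/
noncomputable def TwoP_rank {n : ℕ} (pos : Fin n → ℝ) (v : Fin n) : ℕ :=
  (Finset.univ.filter (fun w => pos w < pos v)).card

theorem TwoP_rank_lt {n : ℕ} (pos : Fin n → ℝ) (u v : Fin n) :
    TwoP_rank pos u < TwoP_rank pos v ↔ pos u < pos v := by
  classical
  have key : ∀ u v : Fin n, pos u < pos v → TwoP_rank pos u < TwoP_rank pos v := by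
    intro u v h
    unfold TwoP_rank
    refine Finset.card_lt_card ?_
    rw [Finset.ssubset_iff_of_subset]
    · refine ⟨u, ?_, ?_⟩
      · simpa using h
      · simp
    · intro w hw
      simp only [Finset.mem_filter, Finset.mem_univ, true_and] at hw ⊢
      exact hw.trans h
  have key2 : ∀ u v : Fin n, pos u ≤ pos v → TwoP_rank pos u ≤ TwoP_rank pos v := by
    intro u v h
    unfold TwoP_rank
    refine Finset.card_le_card ?_
    intro w hw
    simp only [Finset.mem_filter, Finset.mem_univ, true_and] at hw ⊢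
    exact hw.trans_le h
  constructor
  · intro h
    by_contra hc
    exact absurd (key2 v u (not_lt.1 hc)) (not_le.2 h)
  · exact key u v

theorem TwoP_main : StTwoP := by
  classical
  intro n m a b hab hsim
  have hadj : ∀ u v : Fin n, (HG n m a b).Adj u v →
      ∃ e, (u = a e ∧ v = b e) ∨ (u = b e ∧ v = a e) := by
    intro u v h
    rw [HG, SimpleGraph.fromRel_adj] at h
    rcases h.2 with ⟨e, h1, h2⟩ | ⟨e, h1, h2⟩
    · exact ⟨e, Or.inl ⟨h1.symm, h2.symm⟩⟩
    · exact ⟨e, Or.inr ⟨h2.symm, h1.symm⟩⟩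
  have hadj' : ∀ (u v : Fin n) (e : Fin m), (u = a e ∧ v = b e) ∨ (u = b e ∧ v = a e) →
      (HG n m a b).Adj u v := by
    intro u v e h
    rw [HG, SimpleGraph.fromRel_adj]
    rcases h with ⟨rfl, rfl⟩ | ⟨rfl, rfl⟩
    · exact ⟨hab e, Or.inl ⟨e, rfl, rfl⟩⟩
    · exact ⟨(hab e).symm, Or.inr ⟨e, rfl, rfl⟩⟩
  have hs : ∀ (u v : Fin n) (e : Fin m), (u = a e ∧ v = b e) ∨ (u = b e ∧ v = a e) →
      s(u, v) = s(a e, b e) := by
    intro u v e h
    rcases h with ⟨rfl, rfl⟩ | ⟨rfl, rfl⟩
    · rfl
    · exact Sym2.eq_swap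
  constructor
  · rintro ⟨pos, page, hinj, hp⟩
    refine ⟨fun v => (pos v : ℝ), fun e => page s(a e, b e), ?_, ?_⟩
    · intro u v h
      exact hinj (Nat.cast_injective (R := ℝ) h)
    · intro e f hef u v w z huv hwz h1 h2 h3
      refine hp u v w z (hadj' u v e huv) (hadj' w z f hwz) (Nat.cast_lt (α := ℝ).1 h1)
        (Nat.cast_lt (α := ℝ).1 h2) (Nat.cast_lt (α := ℝ).1 h3) ?_
      rw [hs u v e huv, hs w z f hwz]
      exact hef
  · rintro ⟨pos, page, hinj, hnc⟩
    set page' : Sym2 (Fin n) → Bool := fun s =>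
      if h : ∃ e, s(a e, b e) = s then page h.choose else true with hpage
    have hpe : ∀ e, page' s(a e, b e) = page e := by
      intro e
      have hex : ∃ e', s(a e', b e') = s(a e, b e) := ⟨e, rfl⟩
      have : page' s(a e, b e) = page hex.choose := by
        simp only [hpage]
        exact dif_pos hex
      rw [this]
      have hch := hex.choose_spec
      by_contra hne
      have hne' : hex.choose ≠ e := fun h => hne (by rw [h])
      rw [Sym2.eq_iff] at hch
      rcases hch with hch | hch
      · exact (hsim _ _ hne').1 hch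
      · exact (hsim _ _ hne').2 hch
    refine ⟨TwoP_rank pos, page', ?_, ?_⟩
    · intro u v h
      by_contra hne
      rcases lt_trichotomy (pos u) (pos v) with h1 | h1 | h1
      · exact absurd ((TwoP_rank_lt pos u v).2 h1) (by omega)
      · exact hne (hinj h1)
      · exact absurd ((TwoP_rank_lt pos v u).2 h1) (by omega)
    · intro u v w z huv hwz h1 h2 h3 hpp
      obtain ⟨e, he⟩ := hadj u v huv
      obtain ⟨f, hf⟩ := hadj w z hwz
      rw [TwoP_rank_lt] at h1 h2 h3
      rw [hs u v e he, hs w z f hf, hpe, hpe] at hpp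
      exact hnc e f hpp u v w z he hf h1 h2 h3

end Pool.Agent.Helper79.OC
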