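import Pool.Agent.Helper79.OC.St

/-!
# MP_8ec342_lc, module Val: the list of edges of the reduction is valid
-/

set_option autoImplicit false

namespace Pool.Agent.Helper79.OC

theorem Val_edge_mem (n k1 cur : ℕ) (e : ℕ × ℕ) (he : e.1 < e.2 ∧ e.2 < n) (hc : n + 1 ≤ cur)
    (x : ℕ × ℕ) (hx : x ∈ edgeOut k1 cur e) :
    1 ≤ x.1 ∧ x.1 < x.2 ∧ cur ≤ x.2 ∧ x.2 ≤ cur + k1 := by
  unfold edgeOut at hx
  rw [List.mem_cons, List.mem_append, List.mem_map, List.mem_singleton] at hx
  rcases hx with rfl | ⟨t, ht, rfl⟩ | rfl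
  · refine ⟨?_, ?_, ?_, ?_⟩ <;> simp <;> omega
  · rw [List.mem_range] at ht
    refine ⟨?_, ?_, ?_, ?_⟩ <;> simp <;> omega
  · refine ⟨?_, ?_, ?_, ?_⟩ <;> simp <;> omega

theorem Val_edge_nodup (n k1 cur : ℕ) (e : ℕ × ℕ) (he : e.1 < e.2 ∧ e.2 < n)
    (hc : n + 1 ≤ cur) : (edgeOut k1 cur e).Nodup := by
  unfold edgeOut
  rw [List.nodup_cons]
  constructor
  · intro h
    rw [List.mem_append, List.mem_map, List.mem_singleton] at h
    rcases h with ⟨t, ht, h⟩ | h
    · have := congrArg Prod.snd h
      simp only at this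
      omega
    · have := congrArg Prod.fst h
      simp only at this
      omega
  · rw [List.nodup_append]
    refine ⟨?_, List.nodup_singleton _, ?_⟩
    · refine List.Nodup.map ?_ List.nodup_range
      intro s t h
      have := congrArg Prod.fst h
      simp only at this
      omega
    · intro x hx y hy hxy
      rw [List.mem_map] at hx
      obtain ⟨t, ht, rfl⟩ := hx
      rw [List.mem_range] at ht
      rw [List.mem_singleton] at hy
      subst hy
      have h1 := congrArg Prod.fst hxy
      have h2 := congrArg Prod.snd hxy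
      simp only at h1 h2
      omega

theorem Val_outs_mem (n k1 : ℕ) (E : List (ℕ × ℕ)) : ∀ (cur : ℕ),
    (∀ e ∈ E, e.1 < e.2 ∧ e.2 < n) → n + 1 ≤ cur → ∀ x ∈ outs k1 cur E,
      1 ≤ x.1 ∧ x.1 < x.2 ∧ cur ≤ x.2 ∧ x.2 < cur + E.length * (k1 + 1) := by
  induction E with
  | nil =>
    intro cur _ _ x hx
    simp [outs] at hx
  | cons e l ih =>
    intro cur hE hc x hx
    unfold outs at hx
    rw [List.mem_append] at hx
    have hlen : (e :: l).length * (k1 + 1) = l.length * (k1 + 1) + (k1 + 1) := by
      rw [List.length_cons, Nat.succ_mul]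
    rcases hx with hx | hx
    · have := Val_edge_mem n k1 cur e (hE e (List.mem_cons_self ..)) hc x hx
      refine ⟨this.1, this.2.1, this.2.2.1, ?_⟩
      rw [hlen]
      have := this.2.2.2
      omega
    · have := ih (cur + k1 + 1) (fun f hf => hE f (List.mem_cons_of_mem _ hf)) (by omega) x hx
      refine ⟨this.1, this.2.1, by omega, ?_⟩
      rw [hlen]
      have := this.2.2.2
      omega

theorem Val_outs_nodup (n k1 : ℕ) (E : List (ℕ × ℕ)) : ∀ (cur : ℕ),
    (∀ e ∈ E, e.1 < e.2 ∧ e.2 < n) → n + 1 ≤ cur → (outs k1 cur E).Nodup := by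
  induction E with
  | nil =>
    intro cur _ _
    simp [outs]
  | cons e l ih =>
    intro cur hE hc
    unfold outs
    rw [List.nodup_append]
    refine ⟨Val_edge_nodup n k1 cur e (hE e (List.mem_cons_self ..)) hc,
      ih (cur + k1 + 1) (fun f hf => hE f (List.mem_cons_of_mem _ hf)) (by omega), ?_⟩
    intro x hx y hy hxy
    have h1 := Val_edge_mem n k1 cur e (hE e (List.mem_cons_self ..)) hc x hx
    have h2 := Val_outs_mem n k1 l (cur + k1 + 1) (fun f hf => hE f (List.mem_cons_of_mem _ hf))
      (by omega) y hy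
    rw [hxy] at h1
    omega

theorem Val_main : StVal := by
  intro n k1 E hE _
  have hm : ∀ x ∈ redE n k1 E, x ∈ (List.range n).map (fun v => ((0, v + 1) : ℕ × ℕ)) ∨
      x ∈ outs k1 (n + 1) E := by
    intro x hx
    unfold redE at hx
    exact List.mem_append.1 hx
  constructor
  · intro x hx
    rcases hm x hx with h | h
    · rw [List.mem_map] at h
      obtain ⟨v, hv, rfl⟩ := h
      rw [List.mem_range] at hv
      refine ⟨by simp, ?_⟩
      simp only
      omega
    · have := Val_outs_mem n k1 E (n + 1) hE le_rfl x h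
      exact ⟨this.2.1, this.2.2.2⟩
  · unfold redE
    rw [List.nodup_append]
    refine ⟨?_, Val_outs_nodup n k1 E (n + 1) hE le_rfl, ?_⟩
    · refine List.Nodup.map ?_ List.nodup_range
      intro s t h
      have := congrArg Prod.snd h
      simp only at this
      omega
    · intro x hx y hy hxy
      rw [List.mem_map] at hx
      obtain ⟨v, hv, rfl⟩ := hx
      have := Val_outs_mem n k1 E (n + 1) hE le_rfl y hy
      rw [← hxy] at this
      simp at this

end Pool.Agent.Helper79.OC
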