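import Pool.Agent.Helper79.OC.St

/-!
# MP_8ec342_lc: module Yes
-/

set_option autoImplicit false

namespace Pool.Agent.Helper79.OC

/-- ranks -/
theorem Yes_rank {n : ℕ} (pos : Fin n → ℝ) (hpos : Function.Injective pos) :
    ∃ p : Fin n → ℕ, (∀ v, p v < n) ∧ Function.Injective p ∧ ∀ u v, p u < p v ↔ pos u < pos v := by
  classical
  have h1 : ∀ u v, pos u < pos v →
      (Finset.univ.filter (fun w => pos w < pos u)).card <
        (Finset.univ.filter (fun w => pos w < pos v)).card := by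
    intro u v huv
    refine Finset.card_lt_card (Finset.ssubset_iff_of_subset ?_ |>.2 ⟨u, ?_, ?_⟩)
    · intro w hw
      simp only [Finset.mem_filter, Finset.mem_univ, true_and] at hw ⊢
      exact hw.trans huv
    · simpa using huv
    · simp
  have h2 : ∀ u v, (Finset.univ.filter (fun w => pos w < pos u)).card <
        (Finset.univ.filter (fun w => pos w < pos v)).card ↔ pos u < pos v := by
    intro u v
    refine ⟨fun h => ?_, h1 u v⟩
    by_contra hcon
    rcases lt_or_eq_of_le (not_lt.1 hcon) with h3 | h3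
    · exact absurd (h1 v u h3) (by omega)
    · rw [h3] at h
      exact lt_irrefl _ h
  refine ⟨fun v => (Finset.univ.filter (fun w => pos w < pos v)).card, fun v => ?_, ?_, h2⟩
  · have : (Finset.univ.filter (fun w => pos w < pos v)).card < (Finset.univ : Finset (Fin n)).card :=
      Finset.card_lt_card (Finset.filter_ssubset.2 ⟨v, Finset.mem_univ v, lt_irrefl _⟩)
    simpa using this
  · intro u v huv
    by_contra hne
    have h3 : pos u ≠ pos v := fun h => hne (hpos h)
    have huv' : (Finset.univ.filter (fun w => pos w < pos u)).card =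
        (Finset.univ.filter (fun w => pos w < pos v)).card := huv
    rcases lt_or_gt_of_ne h3 with h4 | h4
    · exact absurd (h1 u v h4) (by omega)
    · exact absurd (h1 v u h4) (by omega)

/-- inversion in the unit circle -/
theorem Yes_inv (x y r x' y' r' : ℝ) (h : x ^ 2 + y ^ 2 - r ^ 2 ≠ 0)
    (h' : x' ^ 2 + y' ^ 2 - r' ^ 2 ≠ 0) :
    (r / (x ^ 2 + y ^ 2 - r ^ 2)) ^ 2 + (r' / (x' ^ 2 + y' ^ 2 - r' ^ 2)) ^ 2 -
      ((x / (x ^ 2 + y ^ 2 - r ^ 2) - x' / (x' ^ 2 + y' ^ 2 - r' ^ 2)) ^ 2 +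
        (y / (x ^ 2 + y ^ 2 - r ^ 2) - y' / (x' ^ 2 + y' ^ 2 - r' ^ 2)) ^ 2) =
    (r ^ 2 + r' ^ 2 - ((x - x') ^ 2 + (y - y') ^ 2)) /
      ((x ^ 2 + y ^ 2 - r ^ 2) * (x' ^ 2 + y' ^ 2 - r' ^ 2)) := by
  field_simp
  ring

/-- two circles given by centre and radius: orthogonal / disjoint -/
def YesQ (x y r x' y' r' : ℝ) : ℝ := r ^ 2 + r' ^ 2 - ((x - x') ^ 2 + (y - y') ^ 2)

theorem Yes_symm (x y r x' y' r' : ℝ) : YesQ x y r x' y' r' = YesQ x' y' r' x y r := by
  unfold YesQ; ring

theorem Yes_both {x y r x' y' r' κ κ' : ℝ} (hκ : κ = x ^ 2 + y ^ 2 - r ^ 2)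
    (hκ' : κ' = x' ^ 2 + y' ^ 2 - r' ^ 2) (h : 0 < κ) (h' : 0 < κ') :
    YesQ (x / κ) (y / κ) (r / κ) (x' / κ') (y' / κ') (r' / κ') =
      YesQ x y r x' y' r' / (κ * κ') := by
  subst hκ hκ'
  exact Yes_inv x y r x' y' r' h.ne' h'.ne'

theorem Yes_both_abs {x y r x' y' r' κ κ' : ℝ} (hκ : κ = x ^ 2 + y ^ 2 - r ^ 2)
    (hκ' : κ' = x' ^ 2 + y' ^ 2 - r' ^ 2) (h : 0 < κ) (h' : 0 < κ')
    (hq : 2 * r * r' < |YesQ x y r x' y' r'|) :
    2 * (r / κ) * (r' / κ') < |YesQ (x / κ) (y / κ) (r / κ) (x' / κ') (y' / κ') (r' / κ')| := by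
  rw [Yes_both hκ hκ' h h', abs_div, abs_of_pos (mul_pos h h'), lt_div_iff₀ (mul_pos h h')]
  have e : 2 * (r / κ) * (r' / κ') * (κ * κ') = 2 * r * r' := by
    field_simp
  rw [e]
  exact hq

/-- far apart circles -/
theorem Yes_far {x y r x' y' r' : ℝ} (h : (r + r') ^ 2 < (x - x') ^ 2 + (y - y') ^ 2) :
    2 * r * r' < |YesQ x y r x' y' r'| := by
  refine lt_of_lt_of_le ?_ (neg_le_abs _)
  unfold YesQ
  nlinarith [h]

/-- one of two circles inverted -/
theorem Yes_one {x y r x' y' r' κ' : ℝ} (hκ' : κ' = x' ^ 2 + y' ^ 2 - r' ^ 2) (h' : 0 < κ')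
    (hr : 0 < r) (hr' : 0 < r') (h1 : x ^ 2 + y ^ 2 < (1 - r) ^ 2) (h2 : r < 1)
    (h3 : r ^ 2 < x ^ 2 + y ^ 2) (h1' : x' ^ 2 + y' ^ 2 < (1 - r') ^ 2) (h2' : r' < 1)
    (h3' : r' ^ 2 < x' ^ 2 + y' ^ 2) :
    2 * r * (r' / κ') < |YesQ x y r (x' / κ') (y' / κ') (r' / κ')| := by
  have e : YesQ x y r (x' / κ') (y' / κ') (r' / κ') =
      -(((x ^ 2 + y ^ 2 - r ^ 2) * κ' + 1 - 2 * (x * x' + y * y')) / κ') := by
    unfold YesQ
    have e1 : (x' / κ') ^ 2 + (y' / κ') ^ 2 - (r' / κ') ^ 2 = 1 / κ' := by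
      rw [div_pow, div_pow, div_pow, ← add_div, ← sub_div, ← hκ']
      field_simp
    have e2 : r ^ 2 + (r' / κ') ^ 2 - ((x - x' / κ') ^ 2 + (y - y' / κ') ^ 2) =
        r ^ 2 - (x ^ 2 + y ^ 2) + 2 * (x * x' + y * y') / κ' -
          ((x' / κ') ^ 2 + (y' / κ') ^ 2 - (r' / κ') ^ 2) := by
      ring
    rw [e2, e1]
    field_simp
    ring
  have hs := Real.sqrt_nonneg (x ^ 2 + y ^ 2)
  have hs' := Real.sqrt_nonneg (x' ^ 2 + y' ^ 2)
  have hss := Real.sq_sqrt (by positivity : 0 ≤ x ^ 2 + y ^ 2)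
  have hss' := Real.sq_sqrt (by positivity : 0 ≤ x' ^ 2 + y' ^ 2)
  have hcs : x * x' + y * y' ≤ Real.sqrt (x ^ 2 + y ^ 2) * Real.sqrt (x' ^ 2 + y' ^ 2) := by
    rw [← Real.sqrt_mul (by positivity)]
    refine Real.le_sqrt_of_sq_le ?_
    nlinarith [sq_nonneg (x * y' - y * x')]
  set z := Real.sqrt (x ^ 2 + y ^ 2) with hz
  set z' := Real.sqrt (x' ^ 2 + y' ^ 2) with hz'
  have hP : z + r < 1 := by
    have : z < 1 - r := by
      refine lt_of_pow_lt_pow_left₀ 2 (by linarith) ?_
      rw [hss]; exact h1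
    linarith
  have hp : 0 < z - r := by
    have : r < z := by
      refine lt_of_pow_lt_pow_left₀ 2 hs ?_
      rw [hss]; exact h3
    linarith
  have hQ : z' + r' < 1 := by
    have : z' < 1 - r' := by
      refine lt_of_pow_lt_pow_left₀ 2 (by linarith) ?_
      rw [hss']; exact h1'
    linarith
  have hq : 0 < z' - r' := by
    have : r' < z' := by
      refine lt_of_pow_lt_pow_left₀ 2 hs' ?_
      rw [hss']; exact h3'
    linarith
  have hkey : 2 * r * r' < (x ^ 2 + y ^ 2 - r ^ 2) * κ' + 1 - 2 * (x * x' + y * y') := by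
    have e3 : (x ^ 2 + y ^ 2 - r ^ 2) * κ' = ((z + r) * (z - r)) * ((z' + r') * (z' - r')) := by
      rw [hκ', ← hss, ← hss']; ring
    rw [e3]
    have h4 : 0 < 1 - (z + r) * (z' + r') := by nlinarith
    have h5 : 0 < 1 - (z - r) * (z' - r') := by nlinarith
    nlinarith [mul_pos h4 h5]
  rw [e, abs_neg, abs_of_pos (div_pos (lt_trans (by positivity) hkey) h'), lt_div_iff₀ h']
  have e4 : 2 * r * (r' / κ') * κ' = 2 * r * r' := by field_simp
  rw [e4]
  exact hkey

/-- the circle `p` -/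
theorem Yes_p {x y r κ : ℝ} (hκ : κ = x ^ 2 + y ^ 2 - r ^ 2) (h : 0 < κ) (hr : 0 < r)
    (h1 : x ^ 2 + y ^ 2 < (1 - r) ^ 2) (h2 : r < 1) :
    2 * 1 * r < |YesQ 0 0 1 x y r| ∧
      2 * 1 * (r / κ) < |YesQ 0 0 1 (x / κ) (y / κ) (r / κ)| := by
  constructor
  · refine lt_of_lt_of_le ?_ (le_abs_self _)
    unfold YesQ
    nlinarith
  · have e : YesQ 0 0 1 (x / κ) (y / κ) (r / κ) = -((1 - κ) / κ) := by
      unfold YesQ
      have e1 : (x / κ) ^ 2 + (y / κ) ^ 2 - (r / κ) ^ 2 = 1 / κ := by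
        rw [div_pow, div_pow, div_pow, ← add_div, ← sub_div, ← hκ]
        field_simp
      have e2 : (1 : ℝ) ^ 2 + (r / κ) ^ 2 - ((0 - x / κ) ^ 2 + (0 - y / κ) ^ 2) =
          1 - ((x / κ) ^ 2 + (y / κ) ^ 2 - (r / κ) ^ 2) := by ring
      rw [e2, e1]
      field_simp
      ring
    have h3 : 2 * r < 1 - κ := by rw [hκ]; nlinarith
    rw [e, abs_neg, abs_of_pos (div_pos (by linarith) h), lt_div_iff₀ h]
    have e4 : 2 * 1 * (r / κ) * κ = 2 * r := by field_simp
    rw [e4]
    exact h3

theorem Yes_main (h1 : StPath) (h2 : StAlg) : StYes := by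
  intro n m k a b pos page hk hab hdist hpos hNC
  rw [h2]
  rcases Nat.eq_zero_or_pos n with hn | hn
  · subst hn
    refine ⟨fun _ => 0, fun _ => 0, fun _ => 1, fun _ => one_pos, fun u v huv => ?_⟩
    exfalso
    cases u with
    | p =>
      cases v with
      | p => exact huv rfl
      | s w => exact w.elim0
      | c e i => exact (a e).elim0
    | s w => exact w.elim0
    | c e i => exact (a e).elim0
  obtain ⟨rk, hrk1, hrk2, hrk3⟩ := Yes_rank pos hpos
  obtain ⟨X, Y, ε, U, V, R, hI, hX⟩ := h1 n m k a b rk hn hk hab hrk1 hrk2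
  have hε := hI.eps
  have hR := hI.R0
  have hκ : ∀ e i, 0 < U e i ^ 2 + V e i ^ 2 - R e ^ 2 := fun e i => by
    have := (hI.ins e i).2.2; linarith
  -- distances of circles of different paths on the same page
  have hcc : ∀ e f, e ≠ f → page e = page f → ∀ i j, 2 * R e * R f <
      |YesQ (U e i) (V e i) (R e) (U f j) (V f j) (R f)| := by
    intro e f hef hp i j
    refine Yes_far (hX e f (hdist e f hef).1 (hdist e f hef).2 ?_ i j)
    intro u v w z huv hwz
    simp only [hrk3]
    exact ⟨fun h => hNC e f hp u v w z huv hwz h.1 h.2.1 h.2.2,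
      fun h => hNC f e hp.symm w z u v hwz huv h.1 h.2.1 h.2.2⟩
  -- same path
  have hsame : ∀ e i j, i ≠ j → ¬ (i.1 + 1 = j.1 ∨ j.1 + 1 = i.1) → 2 * R e * R e <
      |YesQ (U e i) (V e i) (R e) (U e j) (V e j) (R e)| := by
    intro e i j hij hnadj
    have hne : i.1 ≠ j.1 := fun h => hij (Fin.ext h)
    rcases Nat.lt_or_gt_of_ne hne with h | h
    · refine Yes_far ?_
      have := hI.far e i j (by omega)
      nlinarith [this]
    · rw [Yes_symm]
      refine Yes_far ?_
      have := hI.far e j i (by omega)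
      nlinarith [this]
  have hadjc : ∀ e (i j : Fin k), (i.1 + 1 = j.1 ∨ j.1 + 1 = i.1) →
      YesQ (U e i) (V e i) (R e) (U e j) (V e j) (R e) = 0 := by
    intro e i j h
    rcases h with h | h
    · have := hI.cons e i j h
      unfold YesQ; linarith
    · have := hI.cons e j i h
      rw [Yes_symm]
      unfold YesQ; linarith
  have hsadj : ∀ v e (i : Fin k), ((v = a e ∧ i.1 = 0) ∨ (v = b e ∧ i.1 + 1 = k)) →
      YesQ (X v) (Y v) ε (U e i) (V e i) (R e) = 0 := by
    intro v e i h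
    rcases h with ⟨rfl, h⟩ | ⟨rfl, h⟩
    · have := hI.fst e i h
      unfold YesQ; linarith
    · have := hI.lst e i h
      unfold YesQ; linarith
  have hsn : ∀ v e (i : Fin k), ¬ ((v = a e ∧ i.1 = 0) ∨ (v = b e ∧ i.1 + 1 = k)) →
      2 * ε * R e < |YesQ (X v) (Y v) ε (U e i) (V e i) (R e)| := by
    intro v e i h
    push Not at h
    exact Yes_far (hI.sc v e i (fun h' => h.1 h'.1 h'.2) (fun h' => h.2 h'.1 h'.2))
  have hsκ : ∀ v, (1 : ℝ) = X v ^ 2 + Y v ^ 2 - ε ^ 2 := fun v => by
    have := hI.unit v; linarith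
  let xx : Vx n m k → ℝ := fun w => match w with
    | .p => 0
    | .s v => X v
    | .c e i => if page e = true then U e i else U e i / (U e i ^ 2 + V e i ^ 2 - R e ^ 2)
  let yy : Vx n m k → ℝ := fun w => match w with
    | .p => 0
    | .s v => Y v
    | .c e i => if page e = true then V e i else V e i / (U e i ^ 2 + V e i ^ 2 - R e ^ 2)
  let rr : Vx n m k → ℝ := fun w => match w with
    | .p => 1
    | .s _ => ε
    | .c e i => if page e = true then R e else R e / (U e i ^ 2 + V e i ^ 2 - R e ^ 2)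
  have hrr : ∀ v, 0 < rr v := by
    intro v
    cases v with
    | p => exact one_pos
    | s w => exact hε
    | c e i =>
      show 0 < if page e = true then R e else R e / (U e i ^ 2 + V e i ^ 2 - R e ^ 2)
      split_ifs
      · exact hR e
      · exact div_pos (hR e) (hκ e i)
  -- the statement for a pair
  have hmain : ∀ u v : Vx n m k, u ≠ v →
      ((RG n m k a b).Adj u v → YesQ (xx u) (yy u) (rr u) (xx v) (yy v) (rr v) = 0) ∧
      (¬ (RG n m k a b).Adj u v →
        2 * rr u * rr v < |YesQ (xx u) (yy u) (rr u) (xx v) (yy v) (rr v)|) := by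
    -- the symmetric statement
    have hsymm : ∀ u v : Vx n m k,
        (((RG n m k a b).Adj u v → YesQ (xx u) (yy u) (rr u) (xx v) (yy v) (rr v) = 0) ∧
        (¬ (RG n m k a b).Adj u v →
          2 * rr u * rr v < |YesQ (xx u) (yy u) (rr u) (xx v) (yy v) (rr v)|)) →
        (((RG n m k a b).Adj v u → YesQ (xx v) (yy v) (rr v) (xx u) (yy u) (rr u) = 0) ∧
        (¬ (RG n m k a b).Adj v u →
          2 * rr v * rr u < |YesQ (xx v) (yy v) (rr v) (xx u) (yy u) (rr u)|)) := by
      rintro u v ⟨g1, g2⟩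
      refine ⟨fun h => ?_, fun h => ?_⟩
      · rw [Yes_symm]; exact g1 h.symm
      · rw [Yes_symm]
        have := g2 (fun h' => h h'.symm)
        linarith
    have hps : ∀ v : Fin n,
        (((RG n m k a b).Adj .p (.s v) →
          YesQ (xx .p) (yy .p) (rr .p) (xx (.s v)) (yy (.s v)) (rr (.s v)) = 0) ∧
        (¬ (RG n m k a b).Adj .p (.s v) → 2 * rr .p * rr (.s v) <
          |YesQ (xx .p) (yy .p) (rr .p) (xx (.s v)) (yy (.s v)) (rr (.s v))|)) := by
      intro v
      refine ⟨fun _ => ?_, fun h => absurd (show (RG n m k a b).Adj .p (.s v) from trivial) h⟩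
      show YesQ 0 0 1 (X v) (Y v) ε = 0
      have := hI.unit v
      unfold YesQ
      linarith
    have hpc : ∀ e (i : Fin k),
        (((RG n m k a b).Adj .p (.c e i) →
          YesQ (xx .p) (yy .p) (rr .p) (xx (.c e i)) (yy (.c e i)) (rr (.c e i)) = 0) ∧
        (¬ (RG n m k a b).Adj .p (.c e i) → 2 * rr .p * rr (.c e i) <
          |YesQ (xx .p) (yy .p) (rr .p) (xx (.c e i)) (yy (.c e i)) (rr (.c e i))|)) := by
      intro e i
      refine ⟨fun h => False.elim h, fun _ => ?_⟩
      have h3 := Yes_p rfl (hκ e i) (hR e) (hI.ins e i).1 (hI.ins e i).2.1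
      by_cases hp : page e = true
      · simp only [xx, yy, rr, if_pos hp]
        exact h3.1
      · simp only [xx, yy, rr, if_neg hp]
        exact h3.2
    have hss : ∀ v w : Fin n, v ≠ w →
        (((RG n m k a b).Adj (.s v) (.s w) →
          YesQ (xx (.s v)) (yy (.s v)) (rr (.s v)) (xx (.s w)) (yy (.s w)) (rr (.s w)) = 0) ∧
        (¬ (RG n m k a b).Adj (.s v) (.s w) → 2 * rr (.s v) * rr (.s w) <
          |YesQ (xx (.s v)) (yy (.s v)) (rr (.s v)) (xx (.s w)) (yy (.s w)) (rr (.s w))|)) := by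
      intro v w hvw
      refine ⟨fun h => False.elim h, fun _ => ?_⟩
      show 2 * ε * ε < |YesQ (X v) (Y v) ε (X w) (Y w) ε|
      refine Yes_far ?_
      have := hI.ss v w hvw
      nlinarith [this]
    have hsc : ∀ v e (i : Fin k),
        (((RG n m k a b).Adj (.s v) (.c e i) →
          YesQ (xx (.s v)) (yy (.s v)) (rr (.s v)) (xx (.c e i)) (yy (.c e i)) (rr (.c e i)) = 0) ∧
        (¬ (RG n m k a b).Adj (.s v) (.c e i) → 2 * rr (.s v) * rr (.c e i) <
          |YesQ (xx (.s v)) (yy (.s v)) (rr (.s v)) (xx (.c e i)) (yy (.c e i))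
            (rr (.c e i))|)) := by
      intro v e i
      by_cases hp : page e = true
      · simp only [xx, yy, rr, if_pos hp]
        exact ⟨fun h => hsadj v e i h, fun h => hsn v e i h⟩
      · simp only [xx, yy, rr, if_neg hp]
        constructor
        · intro h
          have h4 := Yes_both (hsκ v) (rfl : U e i ^ 2 + V e i ^ 2 - R e ^ 2 = _) one_pos (hκ e i)
          rw [div_one, div_one, div_one] at h4
          rw [h4, hsadj v e i h, zero_div]
        · intro h
          have h4 := Yes_both_abs (hsκ v) (rfl : U e i ^ 2 + V e i ^ 2 - R e ^ 2 = _) one_pos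
            (hκ e i) (hsn v e i h)
          rwa [div_one, div_one, div_one] at h4
    have hcc' : ∀ e f (i j : Fin k), (Vx.c e i : Vx n m k) ≠ .c f j →
        (((RG n m k a b).Adj (.c e i) (.c f j) →
          YesQ (xx (.c e i)) (yy (.c e i)) (rr (.c e i)) (xx (.c f j)) (yy (.c f j))
            (rr (.c f j)) = 0) ∧
        (¬ (RG n m k a b).Adj (.c e i) (.c f j) → 2 * rr (.c e i) * rr (.c f j) <
          |YesQ (xx (.c e i)) (yy (.c e i)) (rr (.c e i)) (xx (.c f j)) (yy (.c f j))
            (rr (.c f j))|)) := by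
      intro e f i j hne
      -- the statement without inversion if the pages are equal
      have hbase : page e = page f →
          ((RG n m k a b).Adj (.c e i) (.c f j) →
            YesQ (U e i) (V e i) (R e) (U f j) (V f j) (R f) = 0) ∧
          (¬ (RG n m k a b).Adj (.c e i) (.c f j) → 2 * R e * R f <
            |YesQ (U e i) (V e i) (R e) (U f j) (V f j) (R f)|) := by
        intro hp
        by_cases hef : e = f
        · subst hef
          refine ⟨fun h => hadjc e i j h.2, fun h => hsame e i j (fun h' => hne (by rw [h']))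
            (fun h' => h ⟨rfl, h'⟩)⟩
        · exact ⟨fun h => absurd h.1 hef, fun _ => hcc e f hef hp i j⟩
      by_cases hp : page e = true
      · by_cases hq : page f = true
        · simp only [xx, yy, rr, if_pos hp, if_pos hq]
          exact hbase (hp.trans hq.symm)
        · have hef : e ≠ f := by rintro rfl; exact hq hp
          simp only [xx, yy, rr, if_pos hp, if_neg hq]
          refine ⟨fun h => absurd h.1 hef, fun _ => ?_⟩
          exact Yes_one rfl (hκ f j) (hR e) (hR f) (hI.ins e i).1 (hI.ins e i).2.1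
            (hI.ins e i).2.2 (hI.ins f j).1 (hI.ins f j).2.1 (hI.ins f j).2.2
      · by_cases hq : page f = true
        · have hef : e ≠ f := by rintro rfl; exact hp hq
          simp only [xx, yy, rr, if_neg hp, if_pos hq]
          refine ⟨fun h => absurd h.1 hef, fun _ => ?_⟩
          rw [Yes_symm]
          have h4 := Yes_one (x := U f j) (y := V f j) rfl (hκ e i) (hR f) (hR e) (hI.ins f j).1
            (hI.ins f j).2.1 (hI.ins f j).2.2 (hI.ins e i).1 (hI.ins e i).2.1 (hI.ins e i).2.2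
          refine lt_of_eq_of_lt ?_ h4
          ring
        · have hpq : page e = page f := by
            rw [Bool.not_eq_true] at hp hq
            rw [hp, hq]
          simp only [xx, yy, rr, if_neg hp, if_neg hq]
          refine ⟨fun h => ?_, fun h => ?_⟩
          · rw [Yes_both rfl rfl (hκ e i) (hκ f j), (hbase hpq).1 h, zero_div]
          · exact Yes_both_abs rfl rfl (hκ e i) (hκ f j) ((hbase hpq).2 h)
    intro u v huv
    cases u with
    | p =>
      cases v with
      | p => exact absurd rfl huv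
      | s w => exact hps w
      | c e i => exact hpc e i
    | s w =>
      cases v with
      | p => exact hsymm _ _ (hps w)
      | s w' => exact hss w w' (fun h => huv (by rw [h]))
      | c e i => exact hsc w e i
    | c e i =>
      cases v with
      | p => exact hsymm _ _ (hpc e i)
      | s w => exact hsymm _ _ (hsc w e i)
      | c f j => exact hcc' e f i j huv
  refine ⟨xx, yy, rr, hrr, fun u v huv => ⟨fun h => ?_, fun h => (hmain u v huv).2 h⟩⟩
  have := (hmain u v huv).1 h
  unfold YesQ at this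
  linarith

end Pool.Agent.Helper79.OC
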